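import Pool.Agent.H82.LL.Defs

/-!
# Module Amp: the damped amplitudes `Bm X c G = c exp(-X G)`

`ampE`: `1 + X ≤ (1 + 4w/c₀) exp(c₀X/(4w))` (`e^y ≥ 1 + y`), 4th power: `(1+X)^4 ≤ (1+4w/c₀)^4 exp(c₀X/w)`, `exp(-(X g)) ≤ exp(-c₀X/w)`, `1 + 4w/c₀ ≤ (1+4/c₀) w`.
`amp_le`: `Wp (q+4) v (1+nsq v)^4 = Wp q v`.
`amp_c2`: with `E = exp(-X G)`: `pd i (c E) = (pd i c - X c pd i G) E`, `pd i pd j (c E) = (∂_ij c - X(∂_i c ∂_j G + ∂_j c ∂_i G) - X c ∂_ij G + X² c ∂_i G ∂_j G) E`; everything `≤ M (1+K)² · 5 (1+X)² (1+nsq v)² E Wp (q+6) v`, and `(1+X)² E ≤ (1+4/c₀)^4 (1+nsq v)^4 ((1+X)²)⁻¹` (`ampE`);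
`Wp (q+6) v (1+nsq v)^6 = Wp q v`. `kB = 5 (1+|K|)² (1+4/c₀)^4`.
`amp_nice`: `ContDiff ℝ 2` clear. RD: `‖fderiv g v‖ ≤ Σ_i |pd i g v|` and `‖fderiv (fderiv g) v‖ ≤ Σ_ij |pd i (pd j g) v|` (linear maps on `Vec d` with the sup norm; `w = Σ w_i e_i`), so RD of `pd i c`, `pd i (pd j c)` (`≤` norms of `fderiv`) times polynomial growth (`|∂G|, |∂²G| ≤ K (1+nsq v)`,
`0 ≤ E ≤ 1`).
-/

set_option autoImplicit false

open MeasureTheory Set Filter Topology Pool.Agent.H25.Kin Pool.Agent.H48.PR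
open Pool.Agent.H48.PL
open Pool.Agent.H15.AV (ab)
open Pool.Agent.H82.HF (GG Bq CG)

namespace Pool.Agent.H82.LL

variable {d : ℕ}

private lemma Amp_fd {g : Vec d → ℝ} (h : ContDiff ℝ 2 g) : Differentiable ℝ (fderiv ℝ g) :=
  (h.fderiv_right (m := 1) (by norm_num)).differentiable (by norm_num)

private lemma Amp_pdhas {g : Vec d → ℝ} (h : ContDiff ℝ 2 g) (j : Fin d) (v : Vec d) :
    HasFDerivAt (pd j g) ((ContinuousLinearMap.apply ℝ ℝ (Pi.single j 1 : Vec d)).comp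
      (fderiv ℝ (fderiv ℝ g) v)) v :=
  (ContinuousLinearMap.apply ℝ ℝ (Pi.single j 1 : Vec d)).hasFDerivAt.comp v
    (Amp_fd h v).hasFDerivAt

private lemma Amp_pddiff {g : Vec d → ℝ} (h : ContDiff ℝ 2 g) (j : Fin d) :
    Differentiable ℝ (pd j g) := fun v => (Amp_pdhas h j v).differentiableAt

private lemma Amp_pdpd {g : Vec d → ℝ} (h : ContDiff ℝ 2 g) (i j : Fin d) (v : Vec d) :
    pd i (pd j g) v = fderiv ℝ (fderiv ℝ g) v (Pi.single i 1) (Pi.single j 1) := by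
  unfold pd
  have := (Amp_pdhas h j v).fderiv
  unfold pd at this
  rw [this]
  rfl

private lemma Amp_op {E : Type*} [NormedAddCommGroup E] [NormedSpace ℝ E] (L : Vec d →L[ℝ] E) :
    ‖L‖ ≤ ∑ i, ‖L (Pi.single i 1)‖ := by
  refine ContinuousLinearMap.opNorm_le_bound _ (Finset.sum_nonneg fun i _ => norm_nonneg _)
    fun w => ?_
  have e : L w = ∑ i, w i • L (Pi.single i 1) := by
    conv_lhs => rw [pi_eq_sum_univ' w, map_sum]
    refine Finset.sum_congr rfl fun i _ => ?_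
    rw [← map_smul]
  rw [e, Finset.sum_mul]
  refine (norm_sum_le _ _).trans (Finset.sum_le_sum fun i _ => ?_)
  rw [norm_smul, mul_comm]
  exact mul_le_mul_of_nonneg_left (norm_le_pi_norm w i) (norm_nonneg _)

private lemma Amp_fderiv_le (g : Vec d → ℝ) (v : Vec d) : ‖fderiv ℝ g v‖ ≤ ∑ i, |pd i g v| := by
  refine (Amp_op (fderiv ℝ g v)).trans (le_of_eq ?_)
  refine Finset.sum_congr rfl fun i _ => ?_
  rw [Real.norm_eq_abs]
  rfl

private lemma Amp_fderiv2_le {g : Vec d → ℝ} (h : ContDiff ℝ 2 g) (v : Vec d) :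
    ‖fderiv ℝ (fderiv ℝ g) v‖ ≤ ∑ i, ∑ j, |pd i (pd j g) v| := by
  refine (Amp_op (fderiv ℝ (fderiv ℝ g) v)).trans (Finset.sum_le_sum fun i _ => ?_)
  refine (Amp_op _).trans (le_of_eq ?_)
  refine Finset.sum_congr rfl fun j _ => ?_
  rw [Real.norm_eq_abs, Amp_pdpd h]

private lemma Amp_has {c G : Vec d → ℝ} (X : ℝ) (hc : Differentiable ℝ c) (hG : Differentiable ℝ G)
    (v : Vec d) : HasFDerivAt (Bm X c G) (c v • (Real.exp (-(X * G v)) • (-(X • fderiv ℝ G v))) +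
      Real.exp (-(X * G v)) • fderiv ℝ c v) v := by
  have h1 : HasFDerivAt (fun v => -(X * G v)) (-(X • fderiv ℝ G v)) v :=
    ((hG v).hasFDerivAt.const_mul X).neg
  exact (hc v).hasFDerivAt.mul h1.exp

private lemma Amp_pdB {c G : Vec d → ℝ} (X : ℝ) (hc : Differentiable ℝ c) (hG : Differentiable ℝ G)
    (i : Fin d) (v : Vec d) :
    pd i (Bm X c G) v = Bm X (fun v => pd i c v - X * (c v * pd i G v)) G v := by
  have h := (Amp_has X hc hG v).fderiv
  unfold pd Bm at *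
  rw [h]
  simp only [add_apply, smul_apply, neg_apply, smul_eq_mul]
  ring

private lemma Amp_pdmul {f g : Vec d → ℝ} (hf : Differentiable ℝ f) (hg : Differentiable ℝ g)
    (i : Fin d) (v : Vec d) : pd i (fun v => f v * g v) v = pd i f v * g v + f v * pd i g v := by
  unfold pd
  have := ((hf v).hasFDerivAt.mul (hg v).hasFDerivAt).fderiv
  change fderiv ℝ (fun v => f v * g v) v = _ at this
  rw [this]
  simp only [add_apply, smul_apply, smul_eq_mul]
  ring

private lemma Amp_pdB2 {c G : Vec d → ℝ} (X : ℝ) (hc : ContDiff ℝ 2 c) (hG : ContDiff ℝ 2 G)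
    (i j : Fin d) (v : Vec d) :
    pd i (pd j (Bm X c G)) v = (pd i (pd j c) v - X * (pd i c v * pd j G v + c v * pd i (pd j G) v) -
      X * ((pd j c v - X * (c v * pd j G v)) * pd i G v)) * Real.exp (-(X * G v)) := by
  have dc : Differentiable ℝ c := hc.differentiable (by norm_num)
  have dG : Differentiable ℝ G := hG.differentiable (by norm_num)
  have e : pd j (Bm X c G) = Bm X (fun v => pd j c v - X * (c v * pd j G v)) G :=
    funext fun v => Amp_pdB X dc dG j v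
  have d1 : Differentiable ℝ fun v => c v * pd j G v := dc.mul (Amp_pddiff hG j)
  have d2 : Differentiable ℝ fun v => pd j c v - X * (c v * pd j G v) :=
    (Amp_pddiff hc j).sub (d1.const_mul X)
  rw [e, Amp_pdB X d2 dG]
  have e2 : pd i (fun v => pd j c v - X * (c v * pd j G v)) v =
      pd i (pd j c) v - X * (pd i c v * pd j G v + c v * pd i (pd j G) v) := by
    rw [← Amp_pdmul dc (Amp_pddiff hG j)]
    have h1 := ((Amp_pddiff hc j v).hasFDerivAt.sub ((d1 v).hasFDerivAt.const_mul X)).fderiv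
    change fderiv ℝ (fun v => pd j c v - X * (c v * pd j G v)) v = _ at h1
    change fderiv ℝ (fun v => pd j c v - X * (c v * pd j G v)) v (Pi.single i 1) = _
    rw [h1]
    simp only [sub_apply, smul_apply, smul_eq_mul]
    rfl
  unfold Bm
  simp only [e2]

private lemma Amp_smooth {c G : Vec d → ℝ} (X : ℝ) (hc : ContDiff ℝ 2 c) (hG : ContDiff ℝ 2 G) :
    ContDiff ℝ 2 (Bm X c G) := hc.mul ((contDiff_const.mul hG).neg.exp)

private lemma Amp_Wp (q m : ℕ) (v : Vec d) : Wp (q + m) v * (1 + nsq v) ^ m = Wp q v := by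
  have h1 := Wp_mul (q + m) v
  have h2 := Wp_mul q v
  have hp : (0 : ℝ) < 1 + nsq v := by linarith [sq_nonneg' v]
  have hq : (1 + nsq v) ^ q ≠ 0 := (pow_pos hp q).ne'
  have h3 : Wp (q + m) v * (1 + nsq v) ^ m * (1 + nsq v) ^ q = Wp q v * (1 + nsq v) ^ q := by
    calc Wp (q + m) v * (1 + nsq v) ^ m * (1 + nsq v) ^ q
        = Wp (q + m) v * (1 + nsq v) ^ (q + m) := by rw [pow_add]; ring
      _ = Wp q v * (1 + nsq v) ^ q := by rw [h1, h2]
  exact mul_right_cancel₀ hq h3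

theorem ampE {c₀ X g w : ℝ} (hc : 0 < c₀) (hX : 0 ≤ X) (hw : 1 ≤ w) (hg : c₀ * w⁻¹ ≤ g) :
    Real.exp (-(X * g)) * (1 + X) ^ 4 ≤ (1 + 4 / c₀) ^ 4 * w ^ 4 := by
  have hw0 : 0 < w := by linarith
  set y : ℝ := c₀ * X / (4 * w) with hy
  have hy0 : 0 ≤ y := by positivity
  have h1 : 1 + X ≤ (1 + 4 / c₀) * w * Real.exp y := by
    have h2 : 1 + y ≤ Real.exp y := by linarith [Real.add_one_le_exp y]
    have h3 : X = 4 * w / c₀ * y := by
      rw [hy]
      field_simp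
    have h4 : 1 + X ≤ (1 + 4 / c₀) * w * (1 + y) := by
      have e : (1 + 4 / c₀) * w * (1 + y) = w + w * y + 4 / c₀ * w + 4 * w / c₀ * y := by ring
      rw [e, ← h3]
      have : 0 ≤ 4 / c₀ * w := by positivity
      have : 0 ≤ w * y := by positivity
      linarith
    exact h4.trans (mul_le_mul_of_nonneg_left h2 (by positivity))
  have h2 : Real.exp (-(X * g)) ≤ Real.exp (-(4 * y)) := by
    refine Real.exp_le_exp.2 (neg_le_neg ?_)
    have e : 4 * y = X * (c₀ * w⁻¹) := by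
      rw [hy]
      field_simp
    rw [e]
    exact mul_le_mul_of_nonneg_left hg hX
  calc Real.exp (-(X * g)) * (1 + X) ^ 4
      ≤ Real.exp (-(4 * y)) * ((1 + 4 / c₀) * w * Real.exp y) ^ 4 :=
        mul_le_mul h2 (pow_le_pow_left₀ (by linarith) h1 4) (by positivity) (Real.exp_pos _).le
    _ = (1 + 4 / c₀) ^ 4 * w ^ 4 * (Real.exp (-(4 * y)) * Real.exp y ^ 4) := by ring
    _ = (1 + 4 / c₀) ^ 4 * w ^ 4 := by
        rw [← Real.exp_nat_mul, ← Real.exp_add]
        have : -(4 * y) + ((4 : ℕ) : ℝ) * y = 0 := by push_cast; ring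
        rw [this, Real.exp_zero, mul_one]

theorem amp_le {c₀ X a : ℝ} (hc : 0 < c₀) (hX : 0 ≤ X) {q : ℕ} {c G : Vec d → ℝ}
    (h : ∀ v, |c v| ≤ a * Wp (q + 4) v) (hG : ∀ v, c₀ * (1 + nsq v)⁻¹ ≤ G v) (v : Vec d) :
    |Bm X c G v| ≤ a * (1 + 4 / c₀) ^ 4 * ((1 + X) ^ 4)⁻¹ * Wp q v := by
  have hp : (1 : ℝ) ≤ 1 + nsq v := by linarith [sq_nonneg' v]
  have h1 := ampE hc hX hp (hG v)
  have hX4 : (0 : ℝ) < (1 + X) ^ 4 := by positivity
  have h2 : Real.exp (-(X * G v)) ≤ (1 + 4 / c₀) ^ 4 * (1 + nsq v) ^ 4 * ((1 + X) ^ 4)⁻¹ := by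
    rw [← div_eq_mul_inv, le_div_iff₀ hX4]
    exact h1
  unfold Bm
  rw [abs_mul, abs_of_pos (Real.exp_pos _)]
  calc |c v| * Real.exp (-(X * G v))
      ≤ (a * Wp (q + 4) v) * ((1 + 4 / c₀) ^ 4 * (1 + nsq v) ^ 4 * ((1 + X) ^ 4)⁻¹) :=
        mul_le_mul (h v) h2 (Real.exp_pos _).le ((abs_nonneg _).trans (h v))
    _ = a * (1 + 4 / c₀) ^ 4 * ((1 + X) ^ 4)⁻¹ * (Wp (q + 4) v * (1 + nsq v) ^ 4) := by ring
    _ = _ := by rw [Amp_Wp]

theorem amp_c2 {c₀ : ℝ} (hc : 0 < c₀) (K : ℝ) : ∃ kB : ℝ, 0 ≤ kB ∧ ∀ (q : ℕ) (M X : ℝ)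
    (c G : Vec d → ℝ), 0 ≤ X → C2B (Wp (q + 6)) M c → C2B w1 K G →
      (∀ v, c₀ * (1 + nsq v)⁻¹ ≤ G v) → C2B (Wp q) (kB * M * ((1 + X) ^ 2)⁻¹) (Bm X c G) := by
  refine ⟨5 * (1 + |K|) ^ 2 * (1 + 4 / c₀) ^ 4, by positivity, ?_⟩
  intro q M X c G hX hcB hGB hG0
  have hK := hGB.nn
  have hM := hcB.nn
  have hX1 : (0 : ℝ) < (1 + X) ^ 2 := by positivity
  have dc : Differentiable ℝ c := hcB.sm.differentiable (by norm_num)
  have dG : Differentiable ℝ G := hGB.sm.differentiable (by norm_num)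
  rw [abs_of_nonneg hK]
  -- the key estimate
  have key : ∀ (v : Vec d) (z : ℝ), |z| ≤ M * Wp (q + 6) v *
      (5 * ((1 + X) ^ 2 * ((1 + K) ^ 2 * (1 + nsq v) ^ 2))) →
      |z * Real.exp (-(X * G v))| ≤
        5 * (1 + K) ^ 2 * (1 + 4 / c₀) ^ 4 * M * ((1 + X) ^ 2)⁻¹ * Wp q v := by
    intro v z hz
    have hp : (1 : ℝ) ≤ 1 + nsq v := by linarith [sq_nonneg' v]
    have h1 := ampE hc hX hp (hG0 v)
    have h2 : Real.exp (-(X * G v)) * (1 + X) ^ 2 ≤
        (1 + 4 / c₀) ^ 4 * (1 + nsq v) ^ 4 * ((1 + X) ^ 2)⁻¹ := by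
      rw [← div_eq_mul_inv, le_div_iff₀ hX1]
      calc Real.exp (-(X * G v)) * (1 + X) ^ 2 * (1 + X) ^ 2
          = Real.exp (-(X * G v)) * (1 + X) ^ 4 := by ring
        _ ≤ _ := h1
    have hW := (Wp_pos (q + 6) v).le
    rw [abs_mul, abs_of_pos (Real.exp_pos _)]
    calc |z| * Real.exp (-(X * G v))
        ≤ M * Wp (q + 6) v * (5 * ((1 + X) ^ 2 * ((1 + K) ^ 2 * (1 + nsq v) ^ 2))) *
            Real.exp (-(X * G v)) := mul_le_mul_of_nonneg_right hz (Real.exp_pos _).le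
      _ = M * Wp (q + 6) v * 5 * (1 + K) ^ 2 * (1 + nsq v) ^ 2 *
            (Real.exp (-(X * G v)) * (1 + X) ^ 2) := by ring
      _ ≤ M * Wp (q + 6) v * 5 * (1 + K) ^ 2 * (1 + nsq v) ^ 2 *
            ((1 + 4 / c₀) ^ 4 * (1 + nsq v) ^ 4 * ((1 + X) ^ 2)⁻¹) :=
          mul_le_mul_of_nonneg_left h2 (by positivity)
      _ = 5 * (1 + K) ^ 2 * (1 + 4 / c₀) ^ 4 * M * ((1 + X) ^ 2)⁻¹ *
            (Wp (q + 6) v * (1 + nsq v) ^ 6) := by ring
      _ = _ := by rw [Amp_Wp]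
  -- elementary facts
  have one_le : ∀ v : Vec d, (1 : ℝ) ≤ (1 + X) ^ 2 * ((1 + K) ^ 2 * (1 + nsq v) ^ 2) := by
    intro v
    have hn := sq_nonneg' v
    have a1 : (1 : ℝ) ≤ (1 + X) ^ 2 := one_le_pow₀ (by linarith)
    have a2 : (1 : ℝ) ≤ (1 + K) ^ 2 := one_le_pow₀ (by linarith)
    have a3 : (1 : ℝ) ≤ (1 + nsq v) ^ 2 := one_le_pow₀ (by linarith)
    exact one_le_mul_of_one_le_of_one_le a1 (one_le_mul_of_one_le_of_one_le a2 a3)
  have x_le : ∀ v : Vec d, X * (K * (1 + nsq v)) ≤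
      (1 + X) ^ 2 * ((1 + K) ^ 2 * (1 + nsq v) ^ 2) := by
    intro v
    have hn := sq_nonneg' v
    have a1 : X ≤ (1 + X) ^ 2 := by nlinarith
    have a2 : K ≤ (1 + K) ^ 2 := by nlinarith
    have a3 : 1 + nsq v ≤ (1 + nsq v) ^ 2 := by nlinarith
    exact mul_le_mul a1 (mul_le_mul a2 a3 (by positivity) (by positivity)) (by positivity)
      (by positivity)
  have xx_le : ∀ v : Vec d, X * (K * (1 + nsq v)) * (X * (K * (1 + nsq v))) ≤
      (1 + X) ^ 2 * ((1 + K) ^ 2 * (1 + nsq v) ^ 2) := by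
    intro v
    have hn := sq_nonneg' v
    have a1 : X ^ 2 ≤ (1 + X) ^ 2 := by nlinarith
    have a2 : K ^ 2 ≤ (1 + K) ^ 2 := by nlinarith
    have e : X * (K * (1 + nsq v)) * (X * (K * (1 + nsq v))) =
        X ^ 2 * (K ^ 2 * (1 + nsq v) ^ 2) := by ring
    rw [e]
    exact mul_le_mul a1 (mul_le_mul_of_nonneg_right a2 (by positivity)) (by positivity)
      (by positivity)
  refine ⟨by positivity, Amp_smooth X hcB.sm hGB.sm, fun v => ?_, fun i v => ?_, fun i j v => ?_⟩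
  · refine key v (c v) ((hcB.le v).trans ?_)
    have hW := (Wp_pos (q + 6) v).le
    have h1 := one_le v
    have h2 : M * Wp (q + 6) v * 1 ≤ M * Wp (q + 6) v *
        (5 * ((1 + X) ^ 2 * ((1 + K) ^ 2 * (1 + nsq v) ^ 2))) :=
      mul_le_mul_of_nonneg_left (by linarith) (by positivity)
    linarith
  · rw [Amp_pdB X dc dG]
    refine key v _ ?_
    have hW := (Wp_pos (q + 6) v).le
    have b0 := hcB.le v
    have b1 := hcB.d1 i v
    have g1 : |pd i G v| ≤ K * (1 + nsq v) := hGB.d1 i v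
    have h1 := one_le v
    have h2 := x_le v
    have hP : 0 ≤ M * Wp (q + 6) v := by positivity
    have t1 : |X * (c v * pd i G v)| ≤ M * Wp (q + 6) v * (X * (K * (1 + nsq v))) := by
      rw [abs_mul, abs_mul, abs_of_nonneg hX]
      calc X * (|c v| * |pd i G v|) ≤ X * (M * Wp (q + 6) v * (K * (1 + nsq v))) :=
            mul_le_mul_of_nonneg_left (mul_le_mul b0 g1 (abs_nonneg _) hP) hX
        _ = _ := by ring
    have t2 : |pd i c v - X * (c v * pd i G v)| ≤ |pd i c v| + |X * (c v * pd i G v)| :=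
      abs_sub _ _
    have t3 : M * Wp (q + 6) v * (1 + X * (K * (1 + nsq v))) ≤ M * Wp (q + 6) v *
        (5 * ((1 + X) ^ 2 * ((1 + K) ^ 2 * (1 + nsq v) ^ 2))) :=
      mul_le_mul_of_nonneg_left (by linarith) hP
    linarith
  · rw [Amp_pdB2 X hcB.sm hGB.sm]
    refine key v _ ?_
    have hn := sq_nonneg' v
    have hW := (Wp_pos (q + 6) v).le
    have b0 := hcB.le v
    have bi := hcB.d1 i v
    have bj := hcB.d1 j v
    have bij := hcB.d2 i j v
    have gi : |pd i G v| ≤ K * (1 + nsq v) := hGB.d1 i v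
    have gj : |pd j G v| ≤ K * (1 + nsq v) := hGB.d1 j v
    have gij : |pd i (pd j G) v| ≤ K * (1 + nsq v) := hGB.d2 i j v
    have h1 := one_le v
    have h2 := x_le v
    have h3 := xx_le v
    have hP : 0 ≤ M * Wp (q + 6) v := by positivity
    have hKw : 0 ≤ K * (1 + nsq v) := by positivity
    have t1 : |X * (pd i c v * pd j G v + c v * pd i (pd j G) v)| ≤
        M * Wp (q + 6) v * (2 * (X * (K * (1 + nsq v)))) := by
      rw [abs_mul, abs_of_nonneg hX]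
      have u1 : |pd i c v * pd j G v| ≤ M * Wp (q + 6) v * (K * (1 + nsq v)) := by
        rw [abs_mul]
        exact mul_le_mul bi gj (abs_nonneg _) hP
      have u2 : |c v * pd i (pd j G) v| ≤ M * Wp (q + 6) v * (K * (1 + nsq v)) := by
        rw [abs_mul]
        exact mul_le_mul b0 gij (abs_nonneg _) hP
      have u3 := abs_add_le (pd i c v * pd j G v) (c v * pd i (pd j G) v)
      calc X * |pd i c v * pd j G v + c v * pd i (pd j G) v|
          ≤ X * (2 * (M * Wp (q + 6) v * (K * (1 + nsq v)))) :=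
            mul_le_mul_of_nonneg_left (by linarith) hX
        _ = _ := by ring
    have t2 : |X * ((pd j c v - X * (c v * pd j G v)) * pd i G v)| ≤ M * Wp (q + 6) v *
        (X * (K * (1 + nsq v)) + X * (K * (1 + nsq v)) * (X * (K * (1 + nsq v)))) := by
      rw [abs_mul, abs_mul, abs_of_nonneg hX]
      have u1 : |X * (c v * pd j G v)| ≤ M * Wp (q + 6) v * (X * (K * (1 + nsq v))) := by
        rw [abs_mul, abs_mul, abs_of_nonneg hX]
        calc X * (|c v| * |pd j G v|) ≤ X * (M * Wp (q + 6) v * (K * (1 + nsq v))) :=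
              mul_le_mul_of_nonneg_left (mul_le_mul b0 gj (abs_nonneg _) hP) hX
          _ = _ := by ring
      have u2 : |pd j c v - X * (c v * pd j G v)| ≤
          M * Wp (q + 6) v * (1 + X * (K * (1 + nsq v))) := by
        have := abs_sub (pd j c v) (X * (c v * pd j G v))
        linarith
      calc X * (|pd j c v - X * (c v * pd j G v)| * |pd i G v|)
          ≤ X * (M * Wp (q + 6) v * (1 + X * (K * (1 + nsq v))) * (K * (1 + nsq v))) :=
            mul_le_mul_of_nonneg_left (mul_le_mul u2 gi (abs_nonneg _) (by positivity)) hX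
        _ = _ := by ring
    have t3 := abs_sub (pd i (pd j c) v - X * (pd i c v * pd j G v + c v * pd i (pd j G) v))
      (X * ((pd j c v - X * (c v * pd j G v)) * pd i G v))
    have t4 := abs_sub (pd i (pd j c) v) (X * (pd i c v * pd j G v + c v * pd i (pd j G) v))
    have t5 : M * Wp (q + 6) v * (1 + 2 * (X * (K * (1 + nsq v))) + (X * (K * (1 + nsq v)) +
        X * (K * (1 + nsq v)) * (X * (K * (1 + nsq v))))) ≤ M * Wp (q + 6) v *
        (5 * ((1 + X) ^ 2 * ((1 + K) ^ 2 * (1 + nsq v) ^ 2))) :=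
      mul_le_mul_of_nonneg_left (by linarith) hP
    linarith

theorem amp_nice {K X : ℝ} (hX : 0 ≤ X) {c G : Vec d → ℝ} (hc : Nice c) (hG : C2B w1 K G)
    (hG0 : ∀ v, 0 ≤ G v) : Nice (Bm X c G) := by
  have dc : Differentiable ℝ c := hc.diff
  have dG : Differentiable ℝ G := hG.sm.differentiable (by norm_num)
  have hw : PG (w1 : Vec d → ℝ) := (PG.const (1 : ℝ)).add PG.nsq
  have hPG : ∀ {h : Vec d → ℝ}, (∀ v, |h v| ≤ K * w1 v) → PG h := by
    intro h hh
    obtain ⟨N, C, hC0, hC⟩ := hw.pos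
    refine ⟨N, K * C, fun v => ?_⟩
    rw [Real.norm_eq_abs]
    have h1 := hC v
    have h2 : w1 v ≤ C * (1 + ‖v‖) ^ N := (le_abs_self _).trans h1
    calc |h v| ≤ K * w1 v := hh v
      _ ≤ K * (C * (1 + ‖v‖) ^ N) := mul_le_mul_of_nonneg_left h2 hG.nn
      _ = K * C * (1 + ‖v‖) ^ N := by ring
  have hE : ∀ v, Real.exp (-(X * G v)) ≤ 1 := fun v =>
    Real.exp_le_one_iff.2 (neg_nonpos.2 (mul_nonneg hX (hG0 v)))
  have hB : ∀ {h : Vec d → ℝ}, RD h → RD fun v => h v * Real.exp (-(X * G v)) := by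
    intro h hh
    refine hh.mono 1 fun v => ?_
    rw [norm_mul, Real.norm_of_nonneg (Real.exp_pos _).le, one_mul]
    exact mul_le_of_le_one_right (norm_nonneg _) (hE v)
  have habs : ∀ {h : Vec d → ℝ}, RD h → RD fun v => |h v| := by
    intro h hh
    refine hh.mono 1 fun v => ?_
    rw [one_mul, Real.norm_eq_abs, abs_abs, Real.norm_eq_abs]
  have hX' : ∀ {h : Vec d → ℝ}, RD h → RD fun v => X * h v := by
    intro h hh
    refine hh.mono |X| fun v => ?_
    rw [norm_mul, Real.norm_eq_abs]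
  have r1 : ∀ i, RD fun v => pd i c v - X * (c v * pd i G v) := fun i =>
    (hc.pd_RD i).sub (hX' (hc.rd.mul_PG (hPG (hG.d1 i))))
  have r2 : ∀ i j, RD fun v => pd i (pd j c) v :=
    fun i j => (hc.pd_rd1 j).mono 1 fun v => by rw [one_mul]; exact pd_le i _ v
  refine ⟨Amp_smooth X hc.smooth hG.sm, hB hc.rd, ?_, ?_⟩
  · have h1 : ∀ i, RD fun v => |pd i (Bm X c G) v| := fun i => by
      have e : pd i (Bm X c G) = fun v => (pd i c v - X * (c v * pd i G v)) *
        Real.exp (-(X * G v)) := funext fun v => Amp_pdB X dc dG i v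
      rw [e]
      exact habs (hB (r1 i))
    refine (RD.sum Finset.univ fun i _ => h1 i).mono 1 fun v => ?_
    rw [one_mul, Real.norm_of_nonneg (Finset.sum_nonneg fun i _ => abs_nonneg _)]
    exact Amp_fderiv_le _ v
  · have h1 : ∀ i j, RD fun v => |pd i (pd j (Bm X c G)) v| := fun i j => by
      have e : pd i (pd j (Bm X c G)) = fun v => (pd i (pd j c) v -
        X * (pd i c v * pd j G v + c v * pd i (pd j G) v) -
        X * ((pd j c v - X * (c v * pd j G v)) * pd i G v)) * Real.exp (-(X * G v)) :=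
        funext fun v => Amp_pdB2 X hc.smooth hG.sm i j v
      rw [e]
      refine habs (hB ?_)
      have s1 : RD fun v => pd i c v * pd j G v + c v * pd i (pd j G) v :=
        ((hc.pd_RD i).mul_PG (hPG (hG.d1 j))).add (hc.rd.mul_PG (hPG (hG.d2 i j)))
      have s2 : RD fun v => (pd j c v - X * (c v * pd j G v)) * pd i G v :=
        (r1 j).mul_PG (hPG (hG.d1 i))
      exact ((r2 i j).sub (hX' s1)).sub (hX' s2)
    refine (RD.sum Finset.univ fun i _ => RD.sum Finset.univ fun j _ => h1 i j).mono 1 fun v => ?_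
    rw [one_mul, Real.norm_of_nonneg (Finset.sum_nonneg fun i _ =>
      Finset.sum_nonneg fun j _ => abs_nonneg _)]
    exact Amp_fderiv2_le (Amp_smooth X hc.smooth hG.sm) v

end Pool.Agent.H82.LL
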