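import Pool.Agent.H82.LL.CubN
import Pool.Agent.H85.HW.ClsX

/-!
# Module ClsL: two scale Schwartz functions are limits of admissible families `FamS` with uniformly bounded norms

Copy of `clsX` (H85/HW/ClsX.lean) with `s = 1` (`len (k j) ^ (2 * 1)` is `len (k j) ^ 2`: `Real.rpow_two` after `norm_num`/`mul_one`), `FamY 1 (2d+22) M` replaced by `FamS (d+20)`: the coefficients `fun x v => aC (h x) k v`, `fun x v => bC (h x) k v` are of the class `NS` by `cub_ns` (`u = cos (2π k·y)`, `sin`; `aC (h x) k v` is by definition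
`∫ y in Icc 0 1, h x y v * cos (2π dot (kv k) y)`), and `Wp (2d+22) ≤ Wp (d+20)`. `avX_ns`: `avX h x v = avT (h x) v = ∫ y in Icc 0 1, h x y v`, `cub_ns` with `u = 1`.
-/

set_option autoImplicit false

open MeasureTheory Set Filter Topology Pool.Agent.H25.Kin Pool.Agent.H48.PR
open Pool.Agent.H48.PL
open Pool.Agent.H15.AV (ab)
open Pool.Agent.H82.HF (SchT GG Bq CG avT aC bC kv)
open Pool.Agent.H85.HW (Sch2 avX)

namespace Pool.Agent.H82.LL

variable {d : ℕ}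

private lemma ClsL_dot0 (x : Vec d) : dot (kv (0 : Fin d → ℤ)) x = 0 := by
  unfold dot kv
  simp

private lemma ClsL_av (h : Vec d → Vec d → ℝ) : aC h 0 = avT h := by
  funext v
  unfold aC avT
  simp only [ClsL_dot0, mul_zero, Real.cos_zero, mul_one]

private lemma ClsL_Wp (q : ℕ) (v : Vec d) :
    ((1 + ‖v‖) ^ (2 * q))⁻¹ ≤ ((d : ℝ) + 1) ^ q * Wp q v := by
  unfold Wp
  have h1 := one_add_sq_le v
  have h2 : (0 : ℝ) < 1 + nsq v := by
    have : 0 ≤ nsq v := by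
      unfold nsq
      positivity
    linarith
  rw [← div_eq_mul_inv, le_div_iff₀ (pow_pos h2 q), inv_mul_le_iff₀ (by positivity)]
  calc (1 + nsq v) ^ q ≤ (((d : ℝ) + 1) * (1 + ‖v‖) ^ 2) ^ q := pow_le_pow_left₀ h2.le h1 q
    _ = (1 + ‖v‖) ^ (2 * q) * ((d : ℝ) + 1) ^ q := by
      rw [mul_pow, ← pow_mul, mul_comm]

private lemma ClsL_len (z : Vec d) :
    1 + len z ^ 2 ≤ 2 * ((d : ℝ) + 1) * (1 + ‖z‖) ^ 2 := by
  have h0 : 0 ≤ nsq z := by
    unfold nsq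
    positivity
  have hl2 : len z ^ 2 = nsq z := Real.sq_sqrt h0
  have h2 := one_add_sq_le z
  nlinarith

private lemma ClsL_om {h : Vec d → Vec d → Vec d → ℝ} (hh : Sch2 h) :
    ∃ (ω g : (Fin d → ℤ) → ℝ), Summable g ∧ (∀ k, 0 ≤ ω k) ∧ (∀ k, ω k ≤ g k) ∧
      (∀ k, ω k * len (kv k) ^ 2 ≤ g k) ∧
      ∀ x k v, |aC (h x) k v| + |bC (h x) k v| ≤ ω k * Wp (2 * d + 22) v := by
  obtain ⟨C0, hC0, h0⟩ := Pool.Agent.H85.HW.fouF_dec (Pool.Agent.H85.HW.s2_sch hh) 0 (2 * (2 * d + 22))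
  obtain ⟨C1, hC1, h1⟩ := Pool.Agent.H85.HW.fouF_dec (Pool.Agent.H85.HW.s2_sch hh) (2 * d + 6) (2 * (2 * d + 22))
  set C : ℝ := ((d : ℝ) + 1) ^ (2 * d + 22) * (2 ^ (2 * d + 6 - 1) * (C0 + C1)) with hC
  have hCn : 0 ≤ C := by positivity
  have hω0 : ∀ k : Fin d → ℤ, 0 ≤ C * ((1 + ‖kv k‖) ^ (2 * d + 6))⁻¹ := fun k => by positivity
  have hω1 : ∀ k : Fin d → ℤ, C * ((1 + ‖kv k‖) ^ (2 * d + 6))⁻¹ * (1 + len (kv k) ^ 2) ≤
      2 * ((d : ℝ) + 1) * C * ((1 + ‖kv k‖) ^ (2 * d + 4))⁻¹ := by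
    intro k
    have h2 := ClsL_len (kv k)
    have h3 : (0 : ℝ) < 1 + ‖kv k‖ := by positivity
    calc C * ((1 + ‖kv k‖) ^ (2 * d + 6))⁻¹ * (1 + len (kv k) ^ 2)
        ≤ C * ((1 + ‖kv k‖) ^ (2 * d + 6))⁻¹ * (2 * ((d : ℝ) + 1) * (1 + ‖kv k‖) ^ 2) :=
          mul_le_mul_of_nonneg_left h2 (hω0 k)
      _ = 2 * ((d : ℝ) + 1) * C * ((1 + ‖kv k‖) ^ (2 * d + 4))⁻¹ := by
          rw [show 2 * d + 6 = (2 * d + 4) + 2 by ring, pow_add]
          field_simp
  have hln : ∀ k : Fin d → ℤ, 0 ≤ len (kv k) ^ 2 := fun k => sq_nonneg _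
  refine ⟨fun k => C * ((1 + ‖kv k‖) ^ (2 * d + 6))⁻¹,
    fun k => 2 * ((d : ℝ) + 1) * C * ((1 + ‖kv k‖) ^ (2 * d + 4))⁻¹,
    (Pool.Agent.H82.HF.sum_kv d).mul_left _, hω0, fun k => ?_, fun k => ?_, fun x k v => ?_⟩
  · refine le_trans ?_ (hω1 k)
    exact le_mul_of_one_le_right (hω0 k) (by have := hln k; linarith)
  · refine le_trans ?_ (hω1 k)
    exact mul_le_mul_of_nonneg_left (by have := hln k; linarith) (hω0 k)
  · have h2 := h0 x k v
    have h3 := h1 x k v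
    rw [pow_zero, one_mul] at h2
    set Q : ℝ := (1 + ‖v‖) ^ (2 * (2 * d + 22)) with hQ
    have hQ0 : 0 < Q := by positivity
    set E : ℝ := |aC (h x) k v| + |bC (h x) k v| with hE
    have hE0 : 0 ≤ E := by positivity
    have h4 : (1 + ‖kv k‖) ^ (2 * d + 6) ≤ 2 ^ (2 * d + 6 - 1) * (1 ^ (2 * d + 6) +
        ‖kv k‖ ^ (2 * d + 6)) := add_pow_le zero_le_one (norm_nonneg _) _
    rw [one_pow] at h4
    have h5 : (1 + ‖kv k‖) ^ (2 * d + 6) * (Q * E) ≤ 2 ^ (2 * d + 6 - 1) * (C0 + C1) := by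
      calc (1 + ‖kv k‖) ^ (2 * d + 6) * (Q * E)
          ≤ 2 ^ (2 * d + 6 - 1) * (1 + ‖kv k‖ ^ (2 * d + 6)) * (Q * E) :=
            mul_le_mul_of_nonneg_right h4 (by positivity)
        _ = 2 ^ (2 * d + 6 - 1) * (Q * E + ‖kv k‖ ^ (2 * d + 6) * (Q * E)) := by ring
        _ ≤ 2 ^ (2 * d + 6 - 1) * (C0 + C1) :=
            mul_le_mul_of_nonneg_left (add_le_add h2 h3) (by positivity)
    have h6 := ClsL_Wp (2 * d + 22) v
    rw [← hQ] at h6
    have h7 : (0 : ℝ) < (1 + ‖kv k‖) ^ (2 * d + 6) := by positivity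
    have h8 : E ≤ 2 ^ (2 * d + 6 - 1) * (C0 + C1) * ((1 + ‖kv k‖) ^ (2 * d + 6))⁻¹ * Q⁻¹ := by
      rw [← div_eq_mul_inv, ← div_eq_mul_inv, le_div_iff₀ hQ0, le_div_iff₀ h7]
      linarith [h5]
    refine h8.trans ?_
    calc 2 ^ (2 * d + 6 - 1) * (C0 + C1) * ((1 + ‖kv k‖) ^ (2 * d + 6))⁻¹ * Q⁻¹
        ≤ 2 ^ (2 * d + 6 - 1) * (C0 + C1) * ((1 + ‖kv k‖) ^ (2 * d + 6))⁻¹ *
          (((d : ℝ) + 1) ^ (2 * d + 22) * Wp (2 * d + 22) v) :=
          mul_le_mul_of_nonneg_left h6 (by positivity)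
      _ = C * ((1 + ‖kv k‖) ^ (2 * d + 6))⁻¹ * Wp (2 * d + 22) v := by
          rw [hC]
          ring

private lemma ClsL_tail {T g : (Fin d → ℤ) → ℝ} {x S : ℝ} {w : ℝ} (hT : HasSum T x)
    (hg : HasSum g S) (h : ∀ k, |T k| ≤ g k * w) (s : Finset (Fin d → ℤ)) :
    |x - ∑ k ∈ s, T k| ≤ (S - ∑ k ∈ s, g k) * w := by
  classical
  have e : ∀ (f : (Fin d → ℤ) → ℝ) (y : ℝ), HasSum f y →
      HasSum (fun k => f k - if k ∈ s then f k else 0) (y - ∑ k ∈ s, f k) := by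
    intro f y hf
    refine hf.sub ?_
    have h2 : HasSum (fun k => if k ∈ s then f k else 0)
        (∑ k ∈ s, if k ∈ s then f k else 0) := hasSum_sum_of_ne_finset_zero fun k hk => if_neg hk
    rwa [Finset.sum_congr rfl fun k hk => if_pos hk] at h2
  have h1 := e T x hT
  have h2 := (e g S hg).mul_right w
  have h3 := h1.norm_le_of_bounded h2 fun k => by
    by_cases hk : k ∈ s
    · simp [hk]
    · simpa [hk] using h k
  exact h3

private lemma ClsL_WW (v : Vec d) : Wp (2 * d + 22) v ≤ Wp (d + 20) v := by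
  unfold Wp
  have h1 : (1 : ℝ) ≤ 1 + nsq v := by
    have : 0 ≤ nsq v := by
      unfold nsq
      positivity
    linarith
  exact inv_anti₀ (pow_pos (zero_lt_one.trans_le h1) _) (pow_le_pow_right₀ h1 (by omega))

private lemma ClsL_a {h : Vec d → Vec d → Vec d → ℝ} (hh : Sch2 h) (k : Fin d → ℤ) :
    NS (fun x => aC (h x) k) :=
  cub_ns hh (u := fun y => Real.cos (2 * Real.pi * dot (kv k) y))
    (Real.continuous_cos.comp (continuous_const.mul
      (continuous_finsetSum _ fun i _ => continuous_const.mul (continuous_apply i))))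

private lemma ClsL_b {h : Vec d → Vec d → Vec d → ℝ} (hh : Sch2 h) (k : Fin d → ℤ) :
    NS (fun x => bC (h x) k) :=
  cub_ns hh (u := fun y => Real.sin (2 * Real.pi * dot (kv k) y))
    (Real.continuous_sin.comp (continuous_const.mul
      (continuous_finsetSum _ fun i _ => continuous_const.mul (continuous_apply i))))

theorem avX_ns {h : Vec d → Vec d → Vec d → ℝ} (hh : Sch2 h) : NS (avX h) := by
  have h1 := cub_ns hh (u := fun _ => (1 : ℝ)) continuous_const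
  have e : avX h = fun x v => ∫ y in Icc (0 : Vec d) 1, h x y v * 1 := by
    funext x v
    simp only [mul_one]
    rfl
  rw [e]
  exact h1

theorem clsL (hd : 1 ≤ d) {h : Vec d → Vec d → Vec d → ℝ} (hh : Sch2 h) :
    ∃ A : ℝ, 0 ≤ A ∧ ∀ ι : ℝ, 0 < ι → ∃ (n : ℕ) (a : Fin n → ℝ)
      (cc : Fin n → Vec d → Vec d → ℝ) (k : Fin n → Vec d) (φ : Fin n → ℝ),
      FamS (d + 20) a cc k ∧ ∑ j, a j ≤ A ∧ ∑ j, a j * len (k j) ^ 2 ≤ A ∧
      ∀ x y v, |h x y v - (avX h x v +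
        ∑ j, cc j x v * Real.cos (2 * Real.pi * dot (k j) y + φ j))| ≤ ι * Wp (d + 10) v := by
  classical
  obtain ⟨ω, g, hg, hω0, hω1, hω2, hω3⟩ := ClsL_om hh
  obtain ⟨S, hS⟩ := hg
  have hg0 : ∀ k, 0 ≤ g k := fun k => (hω0 k).trans (hω1 k)
  have hSs : ∀ t : Finset (Fin d → ℤ), ∑ k ∈ t, g k ≤ S := fun t =>
    sum_le_hasSum t (fun k _ => hg0 k) hS
  have hS0 : 0 ≤ S := by simpa using hSs ∅
  refine ⟨2 * S, by positivity, fun ι hι => ?_⟩
  obtain ⟨s₀, hs₀⟩ : ∃ s₀ : Finset (Fin d → ℤ), S - ι < ∑ k ∈ s₀, g k := by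
    have h1 : Tendsto (fun t : Finset (Fin d → ℤ) => ∑ k ∈ t, g k) atTop (𝓝 S) := hS
    exact (h1.eventually (lt_mem_nhds (by linarith : S - ι < S))).exists
  set s₂ : Finset (Fin d → ℤ) := insert 0 s₀ with hs₂
  set s₁ : Finset (Fin d → ℤ) := s₂.erase 0 with hs₁
  have h02 : (0 : Fin d → ℤ) ∈ s₂ := Finset.mem_insert_self _ _
  have hbig : S - ι < ∑ k ∈ s₂, g k :=
    hs₀.trans_le (Finset.sum_le_sum_of_subset_of_nonneg (Finset.subset_insert _ _)
      fun k _ _ => hg0 k)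
  have hsum2 : ∀ f : (Fin d → ℤ) → ℝ, ∑ p : ↥s₁ × Bool, f p.1 = 2 * ∑ k ∈ s₁, f k := by
    intro f
    rw [Fintype.sum_prod_type]
    simp only [Fintype.sum_bool]
    rw [← Finset.sum_coe_sort s₁ f, Finset.mul_sum]
    exact Finset.sum_congr rfl fun i _ => by ring
  obtain ⟨n, ⟨e⟩⟩ : ∃ n, Nonempty ((↥s₁ × Bool) ≃ Fin n) := ⟨_, ⟨Fintype.equivFin _⟩⟩
  refine ⟨n, fun j => ω (e.symm j).1,
    fun j x => if (e.symm j).2 then aC (h x) (e.symm j).1 else bC (h x) (e.symm j).1,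
    fun j => kv ((e.symm j).1 : Fin d → ℤ), fun j => if (e.symm j).2 then 0 else -(Real.pi / 2),
    ⟨fun j => ?_, fun j x v => ?_, fun j i => ⟨_, rfl⟩, fun j => ?_⟩, ?_, ?_, fun x y v => ?_⟩
  · by_cases hj : (e.symm j).2 = true
    · simp only [hj, if_true]
      exact ClsL_a hh _
    · simp only [hj]
      exact ClsL_b hh _
  · refine le_trans ?_ ((hω3 x _ v).trans (mul_le_mul_of_nonneg_left (ClsL_WW v) (hω0 _)))
    split_ifs
    · exact le_add_of_nonneg_right (abs_nonneg _)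
    · exact le_add_of_nonneg_left (abs_nonneg _)
  · intro h1
    have h2 : ((e.symm j).1 : Fin d → ℤ) ≠ 0 := Finset.ne_of_mem_erase (e.symm j).1.2
    refine h2 (funext fun i => ?_)
    have h3 := congrFun h1 i
    simp only [kv, Pi.zero_apply, Int.cast_eq_zero] at h3
    exact h3
  · rw [Equiv.sum_comp e.symm (fun p : ↥s₁ × Bool => ω p.1), hsum2 ω]
    have h1 : ∑ k ∈ s₁, ω k ≤ S := (Finset.sum_le_sum fun k _ => hω1 k).trans (hSs s₁)
    linarith
  · rw [Equiv.sum_comp e.symm (fun p : ↥s₁ × Bool => ω p.1 * len (kv (p.1 : Fin d → ℤ)) ^ 2),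
      hsum2 fun k => ω k * len (kv k) ^ 2]
    have h1 : ∑ k ∈ s₁, ω k * len (kv k) ^ 2 ≤ S :=
      (Finset.sum_le_sum fun k _ => hω2 k).trans (hSs s₁)
    linarith
  · have hW : 0 < Wp (2 * d + 22) v := Wp_pos _ v
    have hW2 : Wp (2 * d + 22) v ≤ Wp (d + 10) v := by
      unfold Wp
      have h1 : (1 : ℝ) ≤ 1 + nsq v := by
        have : 0 ≤ nsq v := by
          unfold nsq
          positivity
        linarith
      exact inv_anti₀ (pow_pos (zero_lt_one.trans_le h1) _) (pow_le_pow_right₀ h1 (by omega))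
    have hF : ∑ j : Fin n, (if (e.symm j).2 then aC (h x) (e.symm j).1 else bC (h x) (e.symm j).1) v *
        Real.cos (2 * Real.pi * dot (kv ((e.symm j).1 : Fin d → ℤ)) y +
          if (e.symm j).2 then 0 else -(Real.pi / 2)) =
        ∑ k ∈ s₁, (aC (h x) k v * Real.cos (2 * Real.pi * dot (kv k) y) +
          bC (h x) k v * Real.sin (2 * Real.pi * dot (kv k) y)) := by
      rw [Equiv.sum_comp e.symm (fun p : ↥s₁ × Bool =>
        (if p.2 then aC (h x) p.1 else bC (h x) p.1) v *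
        Real.cos (2 * Real.pi * dot (kv (p.1 : Fin d → ℤ)) y +
          if p.2 then 0 else -(Real.pi / 2))), Fintype.sum_prod_type]
      simp only [Fintype.sum_bool]
      rw [← Finset.sum_coe_sort s₁]
      refine Finset.sum_congr rfl fun k _ => ?_
      simp only [if_true, add_zero, Bool.false_eq_true, if_false]
      rw [← sub_eq_add_neg, Real.cos_sub_pi_div_two]
    have hT := Pool.Agent.H82.HF.fou_sum ((Pool.Agent.H85.HW.s2_sch hh).sch x) y v
    have h3 := ClsL_tail (w := Wp (2 * d + 22) v) hT hS (fun k => by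
      have h4 := hω3 x k v
      have h5 : ω k * Wp (2 * d + 22) v ≤ g k * Wp (2 * d + 22) v :=
        mul_le_mul_of_nonneg_right (hω1 k) hW.le
      have h6 : |aC (h x) k v * Real.cos (2 * Real.pi * dot (kv k) y) +
          bC (h x) k v * Real.sin (2 * Real.pi * dot (kv k) y)| ≤ |aC (h x) k v| + |bC (h x) k v| := by
        refine (abs_add_le _ _).trans (add_le_add ?_ ?_)
        · rw [abs_mul]
          exact mul_le_of_le_one_right (abs_nonneg _) (Real.abs_cos_le_one _)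
        · rw [abs_mul]
          exact mul_le_of_le_one_right (abs_nonneg _) (Real.abs_sin_le_one _)
      exact h6.trans (h4.trans h5)) s₂
    dsimp only
    rw [hF]
    have h4 : avX h x v + ∑ k ∈ s₁, (aC (h x) k v * Real.cos (2 * Real.pi * dot (kv k) y) +
          bC (h x) k v * Real.sin (2 * Real.pi * dot (kv k) y)) =
        ∑ k ∈ s₂, (aC (h x) k v * Real.cos (2 * Real.pi * dot (kv k) y) +
          bC (h x) k v * Real.sin (2 * Real.pi * dot (kv k) y)) := by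
      rw [← Finset.add_sum_erase s₂ _ h02, ← hs₁, ClsL_av, ClsL_dot0, avX]
      simp only [mul_zero, Real.cos_zero, Real.sin_zero, mul_one, add_zero]
    rw [h4]
    refine h3.trans ?_
    calc (S - ∑ k ∈ s₂, g k) * Wp (2 * d + 22) v ≤ ι * Wp (2 * d + 22) v :=
          mul_le_mul_of_nonneg_right (by linarith) hW.le
      _ ≤ ι * Wp (d + 10) v := mul_le_mul_of_nonneg_left hW2 hι.le

end Pool.Agent.H82.LL
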