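import Pool.Agent.H82.LL.QGc

/-!
# Module ContL: continuity, period, initial value and characteristic derivative of `fw`

As H82/HW/ContW.lean. `fw_cont`: `uc F`, `uc (cc j)` continuous (`NS.np.sm`), `uc (qG γ F (k j))` continuous (`qG_c2`), composed with `(t,x,v) ↦ (σ•x - (σt)•v, v)`; `exp`, `cos`, `dot` continuous (`cw_dot`, `cw_dot_smul` in ContW: private, copy).
`fw_per` (`N`, `σ` natural numbers): the slow variable changes by `σ e_i`, `F`, `cc j` periodic (`NS.per`, `σ` times: `per_nat` in H82/HF/Scl.lean), `qG γ F k` is periodic because `F (y + e_i) = F y`; the phase changes by `2π N (k j) i`, an integer times `2π`.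
`fw_zero`: `t = 0`: `Bm 0 c G = c`, `(2π·0)•k = 0`. `fw_char`: along `(t₀+τ, x₀+τv₀, v₀)`: `σ•(x₀+τv₀) - (σ(t₀+τ))•v₀ = σ•x₀ - (σt₀)•v₀` and `2π k·(N(x₀+τv₀)) - 2πN(t₀+τ) k·v₀` are constant; only `exp(-(κ/N (N(t₀+τ))³) G)` depends on `τ`, derivative
`-(κ/N) 3 N (N t₀)² G exp(..) = -κ 3 (N t₀)² G exp(..)`.
-/

set_option autoImplicit false

open MeasureTheory Set Filter Topology Pool.Agent.H25.Kin Pool.Agent.H48.PR
open Pool.Agent.H48.PL
open Pool.Agent.H15.AV (ab)
open Pool.Agent.H82.HF (GG Bq CG)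

namespace Pool.Agent.H82.LL

variable {d : ℕ} {γ : ℝ}

private lemma contL_dot (k : Vec d) : Continuous fun x : Vec d => dot k x := by
  unfold dot
  fun_prop

private lemma contL_dot_smul (r : ℝ) (k v : Vec d) : dot (r • k) v = r * dot k v := by
  unfold dot
  rw [Finset.mul_sum]
  refine Finset.sum_congr rfl fun i _ => ?_
  simp only [Pi.smul_apply, smul_eq_mul]
  ring

private lemma contL_dot_add (k x y : Vec d) : dot k (x + y) = dot k x + dot k y := by
  unfold dot
  rw [← Finset.sum_add_distrib]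
  refine Finset.sum_congr rfl fun i _ => ?_
  simp only [Pi.add_apply]
  ring

private lemma contL_dot_smul' (r : ℝ) (k v : Vec d) : dot k (r • v) = r * dot k v := by
  unfold dot
  rw [Finset.mul_sum]
  refine Finset.sum_congr rfl fun i _ => ?_
  simp only [Pi.smul_apply, smul_eq_mul]
  ring

private lemma contL_dot_single (k : Vec d) (i : Fin d) : dot k (Pi.single i 1) = k i := by
  unfold dot
  rw [Finset.sum_eq_single i]
  · simp
  · intro j _ hj
    rw [Pi.single_eq_of_ne hj]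
    simp
  · intro h
    exact absurd (Finset.mem_univ i) h

private lemma contL_per_nat {F : Vec d → Vec d → ℝ} {i : Fin d}
    (h : ∀ x, F (x + Pi.single i 1) = F x) (m : ℕ) (x : Vec d) :
    F (x + (m : ℝ) • (Pi.single i (1 : ℝ) : Vec d)) = F x := by
  induction m with
  | zero => simp
  | succ m ih =>
    have e : x + ((m + 1 : ℕ) : ℝ) • (Pi.single i (1 : ℝ) : Vec d) =
        (x + (m : ℝ) • (Pi.single i (1 : ℝ) : Vec d)) + Pi.single i 1 := by
      push_cast
      rw [add_smul, one_smul, add_assoc]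
    rw [e, h, ih]

/-- the explicit form -/
private lemma contL_eq (κ N σ : ℝ) {n : ℕ} (F : Vec d → Vec d → ℝ) (cc : Fin n → Vec d → Vec d → ℝ)
    (k : Fin n → Vec d) (φ : Fin n → ℝ) (t : ℝ) (x v : Vec d) : fw γ κ N σ F cc k φ t x v =
      F (σ • x - (σ * t) • v) v + ∑ j, cc j (σ • x - (σ * t) • v) v *
        Real.exp (-(κ / N * (N * t) ^ 3 * qG γ F (k j) (σ • x - (σ * t) • v) v)) *
        Real.cos (2 * Real.pi * dot (k j) (N • x) + φ j - dot ((2 * Real.pi * (N * t)) • k j) v) :=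
  rfl

theorem fw_cont (h1 : -2 < γ) (h2 : γ ≤ 0) (κ N σ : ℝ) {F : Vec d → Vec d → ℝ} (hF : NS F)
    {q n : ℕ} {a : Fin n → ℝ} {cc : Fin n → Vec d → Vec d → ℝ} {k : Fin n → Vec d}
    (hc : FamS q a cc k) (φ : Fin n → ℝ) :
    Continuous fun p : ℝ × Vec d × Vec d => fw γ κ N σ F cc k φ p.1 p.2.1 p.2.2 := by
  have hft : Continuous fun p : ℝ × Vec d × Vec d =>
      ((σ • p.2.1 - (σ * p.1) • p.2.2, p.2.2) : Vec d × Vec d) := by
    fun_prop
  have cF : Continuous (uc F) := hF.np.sm.continuous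
  have cC : ∀ j, Continuous (uc (cc j)) := fun j => (hc.hc j).np.sm.continuous
  have cG : ∀ j, Continuous (uc (qG γ F (k j))) := fun j => by
    obtain ⟨K, hK⟩ := qG_c2 h1 h2 hF (k j)
    exact hK.sm.continuous
  simp only [contL_eq]
  refine Continuous.add (cF.comp hft) ?_
  refine continuous_finsetSum _ fun j _ => ?_
  refine Continuous.mul (Continuous.mul ((cC j).comp hft) ?_) ?_
  · refine Real.continuous_exp.comp (Continuous.neg ?_)
    refine Continuous.mul ?_ ((cG j).comp hft)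
    fun_prop
  · refine Real.continuous_cos.comp (Continuous.sub ?_ ?_)
    · exact ((continuous_const.mul ((contL_dot (k j)).comp (by fun_prop))).add
        continuous_const)
    · simp only [contL_dot_smul]
      exact (continuous_const.mul (continuous_const.mul continuous_fst)).mul
        ((contL_dot (k j)).comp continuous_snd.snd)

theorem fw_per (κ : ℝ) (N σ : ℕ) {F : Vec d → Vec d → ℝ} (hF : NS F)
    {q n : ℕ} {a : Fin n → ℝ} {cc : Fin n → Vec d → Vec d → ℝ} {k : Fin n → Vec d}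
    (hc : FamS q a cc k) (φ : Fin n → ℝ) (t : ℝ) (x v : Vec d) (i : Fin d) :
    fw γ κ N σ F cc k φ t (x + Pi.single i 1) v = fw γ κ N σ F cc k φ t x v := by
  have hfoot : (σ : ℝ) • (x + Pi.single i 1) - ((σ : ℝ) * t) • v =
      ((σ : ℝ) • x - ((σ : ℝ) * t) • v) + (σ : ℝ) • (Pi.single i (1 : ℝ) : Vec d) := by
    rw [smul_add]
    abel
  have pF : ∀ y, F (y + Pi.single i 1) = F y := fun y => funext fun w => hF.per y w i
  have e1 : ∀ y, F (y + (σ : ℝ) • (Pi.single i (1 : ℝ) : Vec d)) = F y :=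
    contL_per_nat pF σ
  have e2 : ∀ j y, cc j (y + (σ : ℝ) • (Pi.single i (1 : ℝ) : Vec d)) = cc j y := fun j =>
    contL_per_nat (fun y => funext fun w => (hc.hc j).per y w i) σ
  have e3 : ∀ j y, qG γ F (k j) (y + (σ : ℝ) • (Pi.single i (1 : ℝ) : Vec d)) = qG γ F (k j) y :=
    fun j => contL_per_nat (fun y => by
      funext w
      unfold qG
      rw [pF y]) σ
  simp only [contL_eq]
  rw [hfoot, e1]
  congr 1
  refine Finset.sum_congr rfl fun j _ => ?_
  rw [e2 j, e3 j]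
  obtain ⟨z, hz⟩ := hc.hk j i
  have e : 2 * Real.pi * dot (k j) ((N : ℝ) • (x + Pi.single i 1)) + φ j -
      dot ((2 * Real.pi * ((N : ℝ) * t)) • k j) v =
      (2 * Real.pi * dot (k j) ((N : ℝ) • x) + φ j - dot ((2 * Real.pi * ((N : ℝ) * t)) • k j) v) +
        ((N * z : ℤ) : ℝ) * (2 * Real.pi) := by
    rw [smul_add, contL_dot_add, contL_dot_smul' _ _ (Pi.single i 1), contL_dot_single, hz]
    push_cast
    ring
  rw [e, Real.cos_add_int_mul_two_pi]

theorem fw_zero (κ N σ : ℝ) {n : ℕ} (F : Vec d → Vec d → ℝ) (cc : Fin n → Vec d → Vec d → ℝ)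
    (k : Fin n → Vec d) (φ : Fin n → ℝ) (x v : Vec d) : fw γ κ N σ F cc k φ 0 x v =
      F (σ • x) v + ∑ j, cc j (σ • x) v * Real.cos (2 * Real.pi * dot (k j) (N • x) + φ j) := by
  have h0 : dot (0 : Vec d) v = 0 := by
    unfold dot
    simp
  simp only [contL_eq, mul_zero, zero_smul, sub_zero]
  congr 1
  refine Finset.sum_congr rfl fun j _ => ?_
  rw [h0]
  norm_num

theorem fw_char (κ : ℝ) {N : ℝ} (hN : 0 < N) (σ : ℝ) {n : ℕ} (F : Vec d → Vec d → ℝ)
    (cc : Fin n → Vec d → Vec d → ℝ) (k : Fin n → Vec d) (φ : Fin n → ℝ) (t₀ : ℝ)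
    (x₀ v₀ : Vec d) :
    HasDerivAt (fun τ : ℝ => fw γ κ N σ F cc k φ (t₀ + τ) (x₀ + τ • v₀) v₀)
      (-(κ * dmp (κ / N) (N * t₀) k (fun j => sl (σ * t₀) (σ • x₀) (cc j))
        (fun j => sl (σ * t₀) (σ • x₀) (qG γ F (k j)))
        (fun j => 2 * Real.pi * dot (k j) (N • x₀) + φ j) v₀)) 0 := by
  set y : Vec d := σ • x₀ - (σ * t₀) • v₀ with hy
  have hN0 : N ≠ 0 := hN.ne'
  have e1 : (fun τ : ℝ => fw γ κ N σ F cc k φ (t₀ + τ) (x₀ + τ • v₀) v₀) =
      fun τ : ℝ => F y v₀ + ∑ j, cc j y v₀ *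
        Real.exp (-(κ / N * (N * (t₀ + τ)) ^ 3 * qG γ F (k j) y v₀)) *
        Real.cos (2 * Real.pi * dot (k j) (N • x₀) + φ j - dot ((2 * Real.pi * (N * t₀)) • k j) v₀) := by
    funext τ
    have hf : σ • (x₀ + τ • v₀) - (σ * (t₀ + τ)) • v₀ = y := by
      rw [hy, mul_add, add_smul, smul_add, smul_smul]
      abel
    rw [contL_eq, hf]
    congr 1
    refine Finset.sum_congr rfl fun j _ => ?_
    congr 2
    simp only [smul_add, contL_dot_add, contL_dot_smul, contL_dot_smul']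
    ring
  rw [e1]
  have hp : HasDerivAt (fun τ : ℝ => (N * (t₀ + τ)) ^ 3) (3 * (N * t₀) ^ 2 * N) 0 := by
    have h := (((hasDerivAt_id (0 : ℝ)).const_add t₀).const_mul N).pow 3
    refine h.congr_deriv ?_
    simp
  have hj : ∀ j, HasDerivAt (fun τ : ℝ => cc j y v₀ *
      Real.exp (-(κ / N * (N * (t₀ + τ)) ^ 3 * qG γ F (k j) y v₀)) *
      Real.cos (2 * Real.pi * dot (k j) (N • x₀) + φ j - dot ((2 * Real.pi * (N * t₀)) • k j) v₀))
      (-(κ * (3 * (N * t₀) ^ 2 * qG γ F (k j) y v₀ * (cc j y v₀ *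
        Real.exp (-(κ / N * (N * t₀) ^ 3 * qG γ F (k j) y v₀)) * Real.cos (2 * Real.pi * dot (k j) (N • x₀) +
          φ j - dot ((2 * Real.pi * (N * t₀)) • k j) v₀))))) 0 := fun j => by
    have h := (((((hp.const_mul (κ / N)).mul_const (qG γ F (k j) y v₀)).neg).exp).const_mul
      (cc j y v₀)).mul_const (Real.cos (2 * Real.pi * dot (k j) (N • x₀) +
          φ j - dot ((2 * Real.pi * (N * t₀)) • k j) v₀))
    refine h.congr_deriv ?_
    simp only [add_zero, Pi.neg_apply]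
    have e : κ / N * (3 * (N * t₀) ^ 2 * N) = κ * (3 * (N * t₀) ^ 2) := by
      field_simp
    rw [e]
    ring
  have hs := (HasDerivAt.fun_sum (u := Finset.univ) fun j _ => hj j).const_add (F y v₀)
  refine hs.congr_deriv ?_
  rw [Finset.sum_neg_distrib, ← Finset.mul_sum]
  rfl

end Pool.Agent.H82.LL
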