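import Pool.Agent.H82.LL.Defs

/-!
# Module Cov: convolution in the second variable

`cov k h (y,v) = ∫ k(z) h(y, v - z) dz`. Copy of H25/Kin/Conv.lean (`Kern.le`, `Kern.aesm`, `Kern.integrable`, `Kern.conv_hasFDerivAt`) with `h (v - z)` replaced by `h (p.1, p.2 - z)`, `‖v‖` by `‖p.2‖` (`‖(p - q).2‖ ≤ ‖p - q‖`); the derivative of
`p ↦ h (p.1, p.2 - z) = h (p - (0,z))` is `fderiv ℝ h (p.1, p.2 - z)`. `cov_cont`: dominated convergence (`continuous_of_dominated` locally / `continuousAt_of_dominated` with the same bound `A D (2+‖p₀.2‖)^(d+3) wt d z` on the unit ball).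
`cov_bd`: `|k z| ≤ A (1+‖z‖)² ≤ 2 A (1+nsq z)`, `1 + nsq z ≤ 2 (1+nsq v)(1+nsq (v-z))` (`one_add_sq_sub_le` with `z = v - (v-z)`), `∫ (1+nsq u) Wp q u du ≤ ∫ Wp (d+1) < ∞` (`q ≥ d + 2`); `K = 4 A ∫ ..`.
`cov_c2`: `cov_fd` for `h` and for `fderiv ℝ h`: `fderiv (cov k h) = cov k (fderiv h)`, `fderiv (fderiv (cov k h)) = cov k (fderiv (fderiv h))`; `ContDiff ℝ 2`: `contDiff_succ_iff_fderiv` twice (or `contDiff_two_iff`-like), continuity by `cov_cont`; the bounds by `cov_bd` with `q = d + 2`,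
`‖h p‖ ≤ M Wp (d+2) p.2` from `RDP` with `N = 2(d+2)` (`1 + nsq v ≤ (d+1)(1+‖v‖)²`, see `FouD_le` in H82/HF/FouD.lean).
-/

set_option autoImplicit false

open MeasureTheory Set Filter Topology Pool.Agent.H25.Kin Pool.Agent.H48.PR
open Pool.Agent.H48.PL
open Pool.Agent.H15.AV (ab)
open Pool.Agent.H82.HF (GG Bq CG)

namespace Pool.Agent.H82.LL

variable {d : ℕ} {E : Type*} [NormedAddCommGroup E] [NormedSpace ℝ E]

private lemma cov_rdb {F : Type*} [NormedAddCommGroup F] {h : Vec d × Vec d → F} (hr : RDP h)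
    (N : ℕ) : ∃ D : ℝ, 0 ≤ D ∧ ∀ p, ‖h p‖ ≤ D * ((1 + ‖p.2‖) ^ N)⁻¹ := by
  obtain ⟨C, hC⟩ := hr N
  refine ⟨|C|, abs_nonneg _, fun p => ?_⟩
  have hp : 0 < (1 + ‖p.2‖) ^ N := pow_pos (w_pos p.2) _
  rw [← div_eq_mul_inv, le_div_iff₀ hp, mul_comm]
  exact (hC p).trans (le_abs_self C)

private lemma cov_le {F : Type*} [NormedAddCommGroup F] [NormedSpace ℝ F] {k : Vec d → ℝ} {A : ℝ}
    (hk : Kern k A) {h : Vec d × Vec d → F} {D : ℝ} (hD : 0 ≤ D)
    (hb : ∀ p, ‖h p‖ ≤ D * ((1 + ‖p.2‖) ^ (d + 3))⁻¹) (p : Vec d × Vec d) (z : Vec d) :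
    ‖k z • h (p.1, p.2 - z)‖ ≤ A * D * (1 + ‖p.2‖) ^ (d + 3) * wt d z := by
  rw [norm_smul, Real.norm_eq_abs]
  refine le_trans ?_ (key_bound hk.nonneg hD p.2 z)
  exact mul_le_mul (hk.bound z) (hb _) (norm_nonneg _)
    (mul_nonneg hk.nonneg (pow_nonneg (w_pos z).le _))

private lemma cov_aesm {F : Type*} [NormedAddCommGroup F] [NormedSpace ℝ F] {k : Vec d → ℝ}
    {A : ℝ} (hk : Kern k A) {h : Vec d × Vec d → F} (hc : Continuous h) (p : Vec d × Vec d) :
    AEStronglyMeasurable (fun z => k z • h (p.1, p.2 - z)) volume :=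
  hk.meas.aestronglyMeasurable.smul
    (hc.comp (continuous_const.prodMk (continuous_const.sub continuous_id))).aestronglyMeasurable

private lemma cov_ball {k : Vec d → ℝ} {A : ℝ} (hk : Kern k A) {D : ℝ} (hD : 0 ≤ D)
    {p w : Vec d × Vec d} (hw : w ∈ Metric.ball p 1) (z : Vec d) :
    A * D * (1 + ‖w.2‖) ^ (d + 3) * wt d z ≤ A * D * (2 + ‖p.2‖) ^ (d + 3) * wt d z := by
  have h1 : 1 + ‖w.2‖ ≤ 2 + ‖p.2‖ := by
    have h2 : ‖w.2‖ ≤ ‖w.2 - p.2‖ + ‖p.2‖ := by simpa using norm_add_le (w.2 - p.2) p.2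
    have h3 : ‖w - p‖ < 1 := by simpa [dist_eq_norm] using hw
    have h4 : ‖w.2 - p.2‖ ≤ ‖w - p‖ := norm_snd_le (w - p)
    linarith
  have h4 := pow_le_pow_left₀ (w_pos w.2).le h1 (d + 3)
  have h5 := wt_nonneg z
  have h6 := mul_nonneg hk.nonneg hD
  gcongr

theorem cov_fd {k : Vec d → ℝ} {A : ℝ} (hk : Kern k A) {h : Vec d × Vec d → E}
    (hs : ContDiff ℝ 1 h) (hr : RDP h) (hr1 : RDP (fderiv ℝ h)) (p : Vec d × Vec d) :
    HasFDerivAt (cov k h) (cov k (fderiv ℝ h) p) p := by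
  obtain ⟨D, hD0, hD⟩ := cov_rdb hr1 (d + 3)
  obtain ⟨D', hD0', hD'⟩ := cov_rdb hr (d + 3)
  unfold cov
  refine hasFDerivAt_integral_of_dominated_of_fderiv_le
    (F := fun (p : Vec d × Vec d) z => k z • h (p.1, p.2 - z))
    (F' := fun (p : Vec d × Vec d) z => k z • fderiv ℝ h (p.1, p.2 - z))
    (bound := fun z => A * D * (2 + ‖p.2‖) ^ (d + 3) * wt d z)
    (Metric.ball_mem_nhds p one_pos) ?_ ?_ ?_ ?_ ?_ ?_
  · exact Eventually.of_forall fun w => cov_aesm hk hs.continuous w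
  · exact (integrable_wt.const_mul _).mono' (cov_aesm hk hs.continuous p)
      (Eventually.of_forall fun z => cov_le hk hD0' hD' p z)
  · exact cov_aesm hk (hs.continuous_fderiv (by norm_num)) p
  · exact Eventually.of_forall fun z w hw => (cov_le hk hD0 hD w z).trans (cov_ball hk hD0 hw z)
  · exact integrable_wt.const_mul _
  · refine Eventually.of_forall fun z w _ => ?_
    have h1 : HasFDerivAt (fun x : Vec d × Vec d => h (x.1, x.2 - z)) (fderiv ℝ h (w.1, w.2 - z))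
        w := by
      have e : (fun x : Vec d × Vec d => h (x.1, x.2 - z)) =
          fun x : Vec d × Vec d => h (x - (0, z)) := by
        funext x
        congr 1
        exact Prod.ext (by simp) (by simp)
      have e2 : ((w.1, w.2 - z) : Vec d × Vec d) = w - (0, z) := Prod.ext (by simp) (by simp)
      rw [e, e2]
      have h2 := ((hs.differentiable (by norm_num)) (w - (0, z))).hasFDerivAt
      have h3 : HasFDerivAt (fun x : Vec d × Vec d => x - (0, z))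
          (ContinuousLinearMap.id ℝ (Vec d × Vec d)) w := (hasFDerivAt_id w).sub_const (0, z)
      have h4 := h2.comp w h3
      simpa [Function.comp_def] using h4
    exact h1.const_smul (k z)

theorem cov_cont {k : Vec d → ℝ} {A : ℝ} (hk : Kern k A) {h : Vec d × Vec d → E}
    (hs : Continuous h) (hr : RDP h) : Continuous (cov k h) := by
  obtain ⟨D, hD0, hD⟩ := cov_rdb hr (d + 3)
  refine continuous_iff_continuousAt.2 fun p => ?_
  unfold cov
  refine continuousAt_of_dominated (F := fun (p : Vec d × Vec d) z => k z • h (p.1, p.2 - z))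
    (bound := fun z => A * D * (2 + ‖p.2‖) ^ (d + 3) * wt d z) ?_ ?_
    (integrable_wt.const_mul _) ?_
  · exact Eventually.of_forall fun w => cov_aesm hk hs w
  · filter_upwards [Metric.ball_mem_nhds p one_pos] with w hw
    exact Eventually.of_forall fun z => (cov_le hk hD0 hD w z).trans (cov_ball hk hD0 hw z)
  · refine Eventually.of_forall fun z => ?_
    have hc : Continuous fun x : Vec d × Vec d => k z • h (x.1, x.2 - z) :=
      (hs.comp (continuous_fst.prodMk (continuous_snd.sub continuous_const))).const_smul (k z)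
    exact hc.continuousAt

theorem cov_bd {k : Vec d → ℝ} {A : ℝ} (hk : Kern k A) {q : ℕ} (hq : d + 2 ≤ q) :
    ∃ K : ℝ, 0 ≤ K ∧ ∀ (M : ℝ) (h : Vec d × Vec d → E), 0 ≤ M → (∀ p, ‖h p‖ ≤ M * Wp q p.2) →
      ∀ p, ‖cov k h p‖ ≤ K * M * (1 + nsq p.2) := by
  have hA := hk.nonneg
  have hwt : 0 ≤ ∫ z, wt d z := integral_nonneg fun v => wt_nonneg v
  refine ⟨4 * A * 2 ^ (d + 1) * ∫ z, wt d z, by positivity, fun M h hM hb p => ?_⟩
  obtain ⟨y, v⟩ := p
  have hint : Integrable fun z : Vec d =>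
      4 * A * 2 ^ (d + 1) * M * (1 + nsq v) * wt d (v - z) :=
    (integrable_wt.comp_sub_left v).const_mul _
  have hle : ∀ z : Vec d, ‖k z • h (y, v - z)‖ ≤
      4 * A * 2 ^ (d + 1) * M * (1 + nsq v) * wt d (v - z) := by
    intro z
    have hz := sq_nonneg' z
    have hv := sq_nonneg' v
    have hu := sq_nonneg' (v - z)
    have h1 : |k z| ≤ 2 * A * (1 + nsq z) := by
      refine (hk.bound z).trans ?_
      have h2 := norm_sq_le_sq z
      have h3 : (1 + ‖z‖) ^ 2 ≤ 2 * (1 + nsq z) := by nlinarith [sq_nonneg (1 - ‖z‖)]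
      nlinarith
    have h2 : 1 + nsq z ≤ 2 * ((1 + nsq v) * (1 + nsq (v - z))) := by
      have h3 := one_add_sq_sub_le v (v - z)
      rwa [sub_sub_cancel] at h3
    have h4 : (1 + nsq (v - z)) * Wp q (v - z) ≤ 2 ^ (d + 1) * wt d (v - z) := by
      have h5 : (1 + nsq (v - z)) * Wp q (v - z) ≤ Wp (d + 1) (v - z) := by
        unfold Wp
        obtain ⟨r, rfl⟩ : ∃ r, q = (d + 1) + 1 + r := ⟨q - (d + 2), by omega⟩
        have h6 : (0 : ℝ) < 1 + nsq (v - z) := by linarith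
        have h7 : (1 : ℝ) ≤ (1 + nsq (v - z)) ^ r := one_le_pow₀ (by linarith)
        have e : (1 + nsq (v - z)) * ((1 + nsq (v - z)) ^ (d + 1 + 1 + r))⁻¹ =
            ((1 + nsq (v - z)) ^ (d + 1))⁻¹ * ((1 + nsq (v - z)) ^ r)⁻¹ := by
          rw [pow_add, pow_succ (1 + nsq (v - z)) (d + 1)]
          field_simp
        rw [e]
        have h8 : ((1 + nsq (v - z)) ^ r)⁻¹ ≤ 1 := inv_le_one_of_one_le₀ h7
        have h9 : 0 ≤ ((1 + nsq (v - z)) ^ (d + 1))⁻¹ := by positivity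
        nlinarith
      refine h5.trans ?_
      unfold Wp wt
      have h6 := norm_nonneg (v - z)
      have h7 := norm_sq_le_sq (v - z)
      have h8 : 1 + ‖v - z‖ ≤ 2 * (1 + nsq (v - z)) := by nlinarith [sq_nonneg (1 - ‖v - z‖)]
      have h9 : (1 + ‖v - z‖) ^ (d + 1) ≤ 2 ^ (d + 1) * (1 + nsq (v - z)) ^ (d + 1) := by
        rw [← mul_pow]
        exact pow_le_pow_left₀ (by positivity) h8 _
      have h10 : 0 < (1 + ‖v - z‖) ^ (d + 1) := by positivity
      have h11 : 0 < (1 + nsq (v - z)) ^ (d + 1) := pow_pos (by linarith) _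
      rw [← div_eq_mul_inv, le_div_iff₀ h10, inv_mul_le_iff₀ h11, mul_comm _ ((2 : ℝ) ^ (d + 1))]
      exact h9
    have hW := (Wp_pos q (v - z)).le
    rw [norm_smul, Real.norm_eq_abs]
    calc |k z| * ‖h (y, v - z)‖ ≤ (2 * A * (1 + nsq z)) * (M * Wp q (v - z)) :=
          mul_le_mul h1 (hb (y, v - z)) (norm_nonneg _) (by positivity)
      _ ≤ (2 * A * (2 * ((1 + nsq v) * (1 + nsq (v - z))))) * (M * Wp q (v - z)) := by
          refine mul_le_mul_of_nonneg_right ?_ (by positivity)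
          exact mul_le_mul_of_nonneg_left h2 (by positivity)
      _ = 4 * A * M * (1 + nsq v) * ((1 + nsq (v - z)) * Wp q (v - z)) := by ring
      _ ≤ 4 * A * M * (1 + nsq v) * (2 ^ (d + 1) * wt d (v - z)) :=
          mul_le_mul_of_nonneg_left h4 (by positivity)
      _ = _ := by ring
  unfold cov
  refine (norm_integral_le_of_norm_le hint (Eventually.of_forall hle)).trans (le_of_eq ?_)
  rw [integral_const_mul, integral_sub_left_eq_self (fun z => wt d z)]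
  ring

private lemma cov_wp {F : Type*} [NormedAddCommGroup F] {h : Vec d × Vec d → F} (hr : RDP h) :
    ∃ M : ℝ, 0 ≤ M ∧ ∀ p, ‖h p‖ ≤ M * Wp (d + 2) p.2 := by
  obtain ⟨D, hD0, hD⟩ := cov_rdb hr (2 * (d + 2))
  refine ⟨((d : ℝ) + 1) ^ (d + 2) * D, by positivity, fun p => (hD p).trans ?_⟩
  have hn := norm_nonneg p.2
  have h2 : 1 + nsq p.2 ≤ ((d : ℝ) + 1) * (1 + ‖p.2‖) ^ 2 := by
    have h3 := sq_le p.2
    have h4 : (0 : ℝ) ≤ d := Nat.cast_nonneg _
    nlinarith [mul_nonneg h4 hn]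
  have h5 : (1 + nsq p.2) ^ (d + 2) ≤ ((d : ℝ) + 1) ^ (d + 2) * (1 + ‖p.2‖) ^ (2 * (d + 2)) := by
    rw [pow_mul, ← mul_pow]
    exact pow_le_pow_left₀ (by have := sq_nonneg' p.2; linarith) h2 _
  have h6 : 0 < (1 + nsq p.2) ^ (d + 2) := by
    have := sq_nonneg' p.2
    positivity
  have h7 : 0 < (1 + ‖p.2‖) ^ (2 * (d + 2)) := by positivity
  unfold Wp
  rw [← div_eq_mul_inv, ← div_eq_mul_inv, div_le_div_iff₀ h7 h6]
  nlinarith

theorem cov_c2 {k : Vec d → ℝ} {A : ℝ} (hk : Kern k A) {h : Vec d × Vec d → ℝ} (hh : NiceP h) :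
    ∃ K : ℝ, C2P w1 K (cov k h) := by
  have hs1 : ContDiff ℝ 1 h := hh.sm.of_le (by norm_num)
  have hs2 : ContDiff ℝ 1 (fderiv ℝ h) := hh.sm.fderiv_right (m := 1) (by norm_num)
  have hc2 : Continuous (fderiv ℝ (fderiv ℝ h)) := hs2.continuous_fderiv (by norm_num)
  have e1 : fderiv ℝ (cov k h) = cov k (fderiv ℝ h) :=
    funext fun p => (cov_fd hk hs1 hh.rd hh.rd1 p).fderiv
  have e2 : fderiv ℝ (cov k (fderiv ℝ h)) = cov k (fderiv ℝ (fderiv ℝ h)) :=
    funext fun p => (cov_fd hk hs2 hh.rd1 hh.rd2 p).fderiv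
  obtain ⟨K, hK, hbd⟩ := cov_bd (E := ℝ) hk (q := d + 2) le_rfl
  obtain ⟨K1, hK1, hbd1⟩ := cov_bd (E := (Vec d × Vec d) →L[ℝ] ℝ) hk (q := d + 2) le_rfl
  obtain ⟨K2, hK2, hbd2⟩ :=
    cov_bd (E := (Vec d × Vec d) →L[ℝ] (Vec d × Vec d) →L[ℝ] ℝ) hk (q := d + 2) le_rfl
  obtain ⟨M, hM, hm⟩ := cov_wp hh.rd
  obtain ⟨M1, hM1, hm1⟩ := cov_wp hh.rd1
  obtain ⟨M2, hM2, hm2⟩ := cov_wp hh.rd2
  refine ⟨K * M + K1 * M1 + K2 * M2, ⟨by positivity, ?_, fun p => ?_, fun p => ?_, fun p => ?_⟩⟩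
  · have h1 : ContDiff ℝ 1 (fderiv ℝ (cov k h)) := by
      rw [e1, contDiff_one_iff_fderiv, e2]
      exact ⟨fun p => (cov_fd hk hs2 hh.rd1 hh.rd2 p).differentiableAt,
        cov_cont hk hc2 hh.rd2⟩
    have h2 : ContDiff ℝ (1 + 1) (cov k h) := by
      rw [contDiff_succ_iff_fderiv]
      exact ⟨fun p => (cov_fd hk hs1 hh.rd hh.rd1 p).differentiableAt, by simp, h1⟩
    have e : (1 : WithTop ℕ∞) + 1 = 2 := by norm_num
    rwa [e] at h2
  · have h1 := hbd M h hM hm p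
    have h2 := sq_nonneg' p.2
    rw [Real.norm_eq_abs] at h1
    unfold w1
    have h3 : 0 ≤ (K1 * M1 + K2 * M2) * (1 + nsq p.2) := by positivity
    nlinarith
  · have h1 := hbd1 M1 _ hM1 hm1 p
    have h2 := sq_nonneg' p.2
    rw [e1]
    unfold w1
    have h3 : 0 ≤ (K * M + K2 * M2) * (1 + nsq p.2) := by positivity
    nlinarith
  · have h1 := hbd2 M2 _ hM2 hm2 p
    have h2 := sq_nonneg' p.2
    rw [e1, e2]
    unfold w1
    have h3 : 0 ≤ (K * M + K1 * M1) * (1 + nsq p.2) := by positivity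
    nlinarith

end Pool.Agent.H82.LL
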