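import Pool.Agent.H82.LL.Defs
import Pool.Agent.H85.HW.AvX

/-!
# Module CubN: averages over the fast variable are of the class `NS`

`h` is of the class `Sch2` (smooth, periodic in `x`, `y`, all derivatives decay rapidly in `v`), `u` continuous, `G (x,v) = ∫_{y ∈ [0,1]^d} h x y v u y dy`. With `H (x,y,v) = h x y v` and `J_y (x,v) = (x,y,v)` (affine, linear part `L (a,b) = (a,0,b)`, `‖L‖ ≤ 1`):
`HasFDerivAt G (∫_y u y • (fderiv H (J_y p)).comp L dy) p`: `hasFDerivAt_integral_of_dominated_of_fderiv_le` with the constant bound `C sup|u|` (`dec` with `N = 0`, `m = 1`; the cube has measure 1, `u` is bounded on it), measurability by continuity (`ContinuousOn.aestronglyMeasurable` on the compact cube).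
The same for the second derivative: state the differentiation lemma for `E`-valued `C¹` maps `Φ : Vec d × Vec d × Vec d → E` with bounded `Φ`, `fderiv Φ`, and apply it to `H` and to `z ↦ (fderiv H z).comp L`. Continuity of the second derivative: `continuous_parametric_integral_of_continuous` (compact cube). `ContDiff ℝ 2` by `contDiff_succ_iff_fderiv`
twice. Decay (`RDP`): `dec` with `m = 0, 1, 2` (`norm_iteratedFDeriv_zero`, `norm_iteratedFDeriv_one`, `norm_iteratedFDeriv_fderiv`) and `|∫_y ..| ≤ sup`. Period: `perx`.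
`cub_one`: the case `h x y v = g y v`: `Sch2` from `SchT` (composition with the projection `(x,y,v) ↦ (y,v)`, `ContinuousLinearMap.norm_iteratedFDeriv_comp_right`-type bound with `‖snd‖ ≤ 1`, see `S2F_gen`/`S2F_norm` in H85/HW/S2F.lean).
-/

set_option autoImplicit false

open MeasureTheory Set Filter Topology Pool.Agent.H25.Kin Pool.Agent.H48.PR
open Pool.Agent.H48.PL
open Pool.Agent.H15.AV (ab)
open Pool.Agent.H82.HF (SchT GG Bq CG avT aC bC kv)
open Pool.Agent.H85.HW (Sch2 avX)

namespace Pool.Agent.H82.LL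

variable {d : ℕ}

/-- the linear part of `(a,b) ↦ (a,y,b)` -/
private noncomputable def CubN_L (d : ℕ) : Vec d × Vec d →L[ℝ] Vec d × Vec d × Vec d :=
  (ContinuousLinearMap.fst ℝ (Vec d) (Vec d)).prod
    ((0 : Vec d × Vec d →L[ℝ] Vec d).prod (ContinuousLinearMap.snd ℝ (Vec d) (Vec d)))

private lemma CubN_L_apply (p : Vec d × Vec d) : CubN_L d p = (p.1, 0, p.2) := rfl

private lemma CubN_L_norm : ‖CubN_L d‖ ≤ 1 := by
  refine ContinuousLinearMap.opNorm_le_bound _ zero_le_one fun p => ?_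
  rw [one_mul, CubN_L_apply, Prod.norm_def, Prod.norm_def, norm_zero]
  exact max_le (norm_fst_le p) (max_le (norm_nonneg p) (norm_snd_le p))

section gen

variable {E : Type} [NormedAddCommGroup E] [NormedSpace ℝ E]

/-- composition with `CubN_L` -/
private noncomputable def CubN_K (d : ℕ) (E : Type) [NormedAddCommGroup E] [NormedSpace ℝ E] :
    (Vec d × Vec d × Vec d →L[ℝ] E) →L[ℝ] (Vec d × Vec d →L[ℝ] E) :=
  (ContinuousLinearMap.compL ℝ (Vec d × Vec d) (Vec d × Vec d × Vec d) E).flip (CubN_L d)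

private lemma CubN_K_apply (A : Vec d × Vec d × Vec d →L[ℝ] E) :
    CubN_K d E A = A.comp (CubN_L d) := rfl

private lemma CubN_K_norm : ‖CubN_K d E‖ ≤ 1 := by
  refine ContinuousLinearMap.opNorm_le_bound _ zero_le_one fun A => ?_
  rw [one_mul, CubN_K_apply]
  exact (ContinuousLinearMap.opNorm_comp_le _ _).trans
    (mul_le_of_le_one_right (norm_nonneg _) CubN_L_norm)

/-- the partial derivative in `(x,v)` -/
private noncomputable def CubN_D (Φ : Vec d × Vec d × Vec d → E) :
    Vec d × Vec d × Vec d → (Vec d × Vec d →L[ℝ] E) := fun z => CubN_K d E (fderiv ℝ Φ z)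

/-- `C^n` and all derivatives of order `≤ n` decay rapidly -/
private def CubN_G (n : ℕ) (Φ : Vec d × Vec d × Vec d → E) : Prop :=
  ContDiff ℝ n Φ ∧ ∀ N m : ℕ, m ≤ n → ∃ C : ℝ, ∀ x y v : Vec d,
    (1 + ‖v‖) ^ N * ‖iteratedFDeriv ℝ m Φ (x, y, v)‖ ≤ C

private lemma CubN_G_D {n : ℕ} {Φ : Vec d × Vec d × Vec d → E} (h : CubN_G (n + 1) Φ) :
    CubN_G n (CubN_D Φ) := by
  have hs : ContDiff ℝ ((n : ℕ∞) + 1 : ℕ∞) Φ := by
    have := h.1
    exact_mod_cast this
  have h1 : ContDiff ℝ n (fderiv ℝ Φ) := by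
    refine (h.1).fderiv_right ?_
    push_cast
    exact le_rfl
  refine ⟨(CubN_K d E).contDiff.comp h1, fun N m hm => ?_⟩
  obtain ⟨C, hC⟩ := h.2 N (m + 1) (by omega)
  refine ⟨C, fun x y v => le_trans ?_ (hC x y v)⟩
  have hv : 0 ≤ (1 + ‖v‖) ^ N := by positivity
  refine mul_le_mul_of_nonneg_left ?_ hv
  have h2 : ‖iteratedFDeriv ℝ m (CubN_K d E ∘ fderiv ℝ Φ) (x, y, v)‖ ≤
      ‖CubN_K d E‖ * ‖iteratedFDeriv ℝ m (fderiv ℝ Φ) (x, y, v)‖ :=
    (CubN_K d E).norm_iteratedFDeriv_comp_left h1.contDiffAt (by exact_mod_cast hm)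
  refine h2.trans ?_
  rw [norm_iteratedFDeriv_fderiv]
  exact mul_le_of_le_one_left (norm_nonneg _) CubN_K_norm

private lemma CubN_G_mono {n n' : ℕ} (hn : n' ≤ n) {Φ : Vec d × Vec d × Vec d → E}
    (h : CubN_G n Φ) : CubN_G n' Φ :=
  ⟨h.1.of_le (by exact_mod_cast hn), fun N m hm => h.2 N m (hm.trans hn)⟩

/-- the average over the cube -/
private noncomputable def CubN_I (u : Vec d → ℝ) (Φ : Vec d × Vec d × Vec d → E)
    (p : Vec d × Vec d) : E := ∫ y in Icc (0 : Vec d) 1, u y • Φ (p.1, y, p.2)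

private lemma CubN_rd {u : Vec d → ℝ} (hu : Continuous u) {Φ : Vec d × Vec d × Vec d → E}
    (h : CubN_G 0 Φ) : RDP (CubN_I u Φ) := by
  intro N
  obtain ⟨C, hC⟩ := h.2 N 0 le_rfl
  obtain ⟨U, hU⟩ := (isCompact_Icc : IsCompact (Icc (0 : Vec d) 1)).exists_bound_of_continuousOn
    hu.continuousOn
  refine ⟨|U| * |C| * volume.real (Icc (0 : Vec d) 1), fun p => ?_⟩
  have hv : 0 < (1 + ‖p.2‖) ^ N := by positivity
  have h1 : ∀ y ∈ Icc (0 : Vec d) 1, ‖u y • Φ (p.1, y, p.2)‖ ≤
      |U| * |C| / (1 + ‖p.2‖) ^ N := by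
    intro y hy
    have h2 := hC p.1 y p.2
    rw [norm_iteratedFDeriv_zero] at h2
    rw [norm_smul, mul_div_assoc]
    refine mul_le_mul ((hU y hy).trans (le_abs_self U)) ?_ (norm_nonneg _) (abs_nonneg _)
    rw [le_div_iff₀ hv, mul_comm]
    exact h2.trans (le_abs_self C)
  have h3 := norm_setIntegral_le_of_norm_le_const (μ := volume)
    (isCompact_Icc : IsCompact (Icc (0 : Vec d) 1)).measure_lt_top h1
  calc (1 + ‖p.2‖) ^ N * ‖CubN_I u Φ p‖
      ≤ (1 + ‖p.2‖) ^ N * (|U| * |C| / (1 + ‖p.2‖) ^ N * volume.real (Icc (0 : Vec d) 1)) :=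
        mul_le_mul_of_nonneg_left h3 hv.le
    _ = |U| * |C| * volume.real (Icc (0 : Vec d) 1) := by
        field_simp

private lemma CubN_cont {u : Vec d → ℝ} (hu : Continuous u) {Φ : Vec d × Vec d × Vec d → E}
    (h : Continuous Φ) : Continuous (CubN_I u Φ) := by
  have h1 : Continuous (Function.uncurry fun (p : Vec d × Vec d) (y : Vec d) =>
      u y • Φ (p.1, y, p.2)) :=
    (hu.comp continuous_snd).smul (h.comp ((continuous_fst.comp continuous_fst).prodMk
      (continuous_snd.prodMk (continuous_snd.comp continuous_fst))))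
  exact continuous_parametric_integral_of_continuous h1 isCompact_Icc

private lemma CubN_hd {u : Vec d → ℝ} (hu : Continuous u) {Φ : Vec d × Vec d × Vec d → E}
    (h : CubN_G 1 Φ) (p : Vec d × Vec d) :
    HasFDerivAt (CubN_I u Φ) (CubN_I u (CubN_D Φ) p) p := by
  have hc : Continuous Φ := h.1.continuous
  have hd := CubN_G_D (n := 0) h
  have hcd : Continuous (CubN_D Φ) := hd.1.continuous
  obtain ⟨C, hC⟩ := hd.2 0 0 le_rfl
  obtain ⟨U, hU⟩ := (isCompact_Icc : IsCompact (Icc (0 : Vec d) 1)).exists_bound_of_continuousOn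
    hu.continuousOn
  have c1 : ∀ q : Vec d × Vec d, Continuous fun y : Vec d => u y • Φ (q.1, y, q.2) := fun q =>
    hu.smul (hc.comp (continuous_const.prodMk (continuous_id.prodMk continuous_const)))
  have c2 : ∀ q : Vec d × Vec d, Continuous fun y : Vec d => u y • CubN_D Φ (q.1, y, q.2) :=
    fun q => hu.smul (hcd.comp (continuous_const.prodMk (continuous_id.prodMk continuous_const)))
  refine hasFDerivAt_integral_of_dominated_of_fderiv_le (𝕜 := ℝ)
    (μ := volume.restrict (Icc (0 : Vec d) 1)) (s := univ) (bound := fun _ => |U| * |C|)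
    (F := fun (q : Vec d × Vec d) (y : Vec d) => u y • Φ (q.1, y, q.2))
    (F' := fun (q : Vec d × Vec d) (y : Vec d) => u y • CubN_D Φ (q.1, y, q.2))
    univ_mem (Eventually.of_forall fun q => (c1 q).aestronglyMeasurable)
    ((c1 p).continuousOn.integrableOn_compact isCompact_Icc) (c2 p).aestronglyMeasurable
    ?_ ?_ ?_
  · refine ae_restrict_of_forall_mem measurableSet_Icc fun y hy q _ => ?_
    have h2 := hC q.1 y q.2
    rw [norm_iteratedFDeriv_zero, pow_zero, one_mul] at h2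
    rw [norm_smul]
    exact mul_le_mul ((hU y hy).trans (le_abs_self U)) (h2.trans (le_abs_self C))
      (norm_nonneg _) (abs_nonneg _)
  · exact integrableOn_const (isCompact_Icc : IsCompact (Icc (0 : Vec d) 1)).measure_lt_top.ne
  · refine Eventually.of_forall fun y q _ => ?_
    have h3 : HasFDerivAt Φ (fderiv ℝ Φ (q.1, y, q.2)) (q.1, y, q.2) :=
      ((h.1.differentiable (by norm_num)) (q.1, y, q.2)).hasFDerivAt
    have h4 : HasFDerivAt (fun q : Vec d × Vec d => (q.1, y, q.2)) (CubN_L d) q := by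
      have h5 : (fun q : Vec d × Vec d => (q.1, y, q.2)) =
          fun q => CubN_L d q + ((0 : Vec d), y, (0 : Vec d)) := by
        funext q
        simp [CubN_L_apply]
      rw [h5]
      exact (CubN_L d).hasFDerivAt.add_const _
    exact (h3.comp q h4).const_smul (u y)

end gen

theorem cub_ns {h : Vec d → Vec d → Vec d → ℝ} (hh : Sch2 h) {u : Vec d → ℝ}
    (hu : Continuous u) : NS (fun x v => ∫ y in Icc (0 : Vec d) 1, h x y v * u y) := by
  have hG : CubN_G 2 (fun p : Vec d × Vec d × Vec d => h p.1 p.2.1 p.2.2) :=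
    ⟨hh.smooth 2, fun N m _ => hh.dec N m⟩
  have e0 : uc (fun x v => ∫ y in Icc (0 : Vec d) 1, h x y v * u y) =
      CubN_I u (fun p : Vec d × Vec d × Vec d => h p.1 p.2.1 p.2.2) := by
    funext p
    unfold uc CubN_I
    refine integral_congr_ae (Eventually.of_forall fun y => ?_)
    simp only [smul_eq_mul]
    ring
  have hG1 := CubN_G_D (n := 1) hG
  have hG0 := CubN_G_D (n := 0) hG1
  have f1 : ∀ p, HasFDerivAt (CubN_I u fun p : Vec d × Vec d × Vec d => h p.1 p.2.1 p.2.2)
      (CubN_I u (CubN_D fun p : Vec d × Vec d × Vec d => h p.1 p.2.1 p.2.2) p) p :=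
    fun p => CubN_hd hu (CubN_G_mono (by norm_num) hG) p
  have f2 := fun p => CubN_hd hu hG1 p
  have e1 : fderiv ℝ (CubN_I u fun p : Vec d × Vec d × Vec d => h p.1 p.2.1 p.2.2) =
      CubN_I u (CubN_D fun p : Vec d × Vec d × Vec d => h p.1 p.2.1 p.2.2) :=
    funext fun p => (f1 p).fderiv
  have e2 : fderiv ℝ (CubN_I u (CubN_D fun p : Vec d × Vec d × Vec d => h p.1 p.2.1 p.2.2)) =
      CubN_I u (CubN_D (CubN_D fun p : Vec d × Vec d × Vec d => h p.1 p.2.1 p.2.2)) :=
    funext fun p => (f2 p).fderiv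
  refine ⟨⟨?_, ?_, ?_, ?_⟩, fun y v i => ?_⟩
  · rw [e0, show (2 : WithTop ℕ∞) = 1 + 1 by norm_num, contDiff_succ_iff_fderiv]
    refine ⟨fun p => (f1 p).differentiableAt, fun h => by simp at h, ?_⟩
    rw [e1, contDiff_one_iff_fderiv]
    refine ⟨fun p => (f2 p).differentiableAt, ?_⟩
    rw [e2]
    exact CubN_cont hu hG0.1.continuous
  · rw [e0]
    exact CubN_rd hu (CubN_G_mono (by norm_num) hG)
  · rw [e0, e1]
    exact CubN_rd hu (CubN_G_mono (by norm_num) hG1)
  · rw [e0, e1, e2]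
    exact CubN_rd hu hG0
  · refine integral_congr_ae (Eventually.of_forall fun z => ?_)
    simp only [hh.perx]

theorem cub_one {g : Vec d → Vec d → ℝ} (hg : SchT g) : Sch2 (fun _ y v => g y v) := by
  refine ⟨fun n => ?_, fun x y v i => rfl, fun x y v i => hg.per y v i, fun N m => ?_⟩
  · exact (hg.smooth n).comp contDiff_snd
  · obtain ⟨C, hC⟩ := hg.dec N m
    refine ⟨C, fun x y v => le_trans ?_ (hC y v)⟩
    have hv : 0 ≤ (1 + ‖v‖) ^ N := by positivity
    refine mul_le_mul_of_nonneg_left ?_ hv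
    have h1 : (fun p : Vec d × Vec d × Vec d => g p.2.1 p.2.2) =
        (fun p : Vec d × Vec d => g p.1 p.2) ∘
          (ContinuousLinearMap.snd ℝ (Vec d) (Vec d × Vec d)) := rfl
    rw [h1, ContinuousLinearMap.iteratedFDeriv_comp_right _ (hg.smooth m) (x, y, v) le_rfl]
    refine (ContinuousMultilinearMap.norm_compContinuousLinearMap_le _ _).trans ?_
    refine mul_le_of_le_one_right (norm_nonneg _) ?_
    exact Finset.prod_le_one (fun _ _ => norm_nonneg _)
      (fun _ _ => ContinuousLinearMap.norm_snd_le ℝ (Vec d) (Vec d × Vec d))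

end Pool.Agent.H82.LL
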