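import Pool.Agent.H82.LL.Slc

/-!
# Module QGl: lower bound of the damping rate, uniform in the slow variable

`coercA` (H48/LN/CoA) for `g = F y`: `c (1+nsq v)^(γ/2) nsq k ≤ Σ_ij ab γ (F y) i j v k_i k_j`, `(1+nsq v)^(γ/2) ≥ (1+nsq v)^(-1)` (`γ/2 ≥ -1`, base `≥ 1`), `nsq k = (len k)² ≥ 1`. Uniform `Good m N (F y)`: `|F y v| ≤ M Wp (d+3) v` (`np_c2`) gives `∫ F y ≤ N`, `∫ F y nsq ≤ N`,
`∫ F y log (F y) ≤ N` (`x log x ≤ x²` for `x ≥ 0`: `Real.log_le_sub_one_of_pos`, and `≥` side for integrability is not needed if the integral is `0` when not integrable: choose `N ≥ 0`); mass from below: `y ↦ ∫ F y v dv` is continuous (dominated, `NS.np.sm`), positive, periodic in `y`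
(`NS.per`), so it is bounded below by its minimum `m > 0` on `Icc 0 1` (reduction to the cube: `FootS_per` in H82/HW/FootS.lean, copy).
-/

set_option autoImplicit false

open MeasureTheory Set Filter Topology Pool.Agent.H25.Kin Pool.Agent.H48.PR
open Pool.Agent.H48.PL
open Pool.Agent.H15.AV (ab)
open Pool.Agent.H82.HF (GG Bq CG)

namespace Pool.Agent.H82.LL

variable {d : ℕ} {γ : ℝ}

private lemma qgl_per {F : Vec d → Vec d → ℝ} (hF : ∀ y v i, F (y + Pi.single i 1) v = F y v)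
    (x : Vec d) : ∃ y ∈ Icc (0 : Vec d) 1, F y = F x := by
  refine ⟨fun i => Int.fract (x i), ⟨fun i => Int.fract_nonneg _, fun i =>
    (Int.fract_lt_one _).le⟩, ?_⟩
  have hl : (fun i => (-(⌊x i⌋ : ℤ) : ℝ)) ∈
      Submodule.span ℤ (Set.range (Pi.basisFun ℝ (Fin d))) := by
    have e : (fun i => (-(⌊x i⌋ : ℤ) : ℝ)) = ∑ i, (-⌊x i⌋ : ℤ) • (Pi.basisFun ℝ (Fin d) i) := by
      funext j
      rw [Finset.sum_apply]
      simp only [Pi.basisFun_apply, Pi.smul_apply, Pi.single_apply]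
      rw [Finset.sum_eq_single j]
      · simp
      · intro b _ hb
        simp [Ne.symm hb]
      · intro h
        exact absurd (Finset.mem_univ _) h
    rw [e]
    exact Submodule.sum_mem _ fun i _ => Submodule.smul_mem _ _
      (Submodule.subset_span (Set.mem_range_self i))
  funext v
  have hP : Per fun y => F y v := fun y i => hF y v i
  have h := hP.span hl x
  have e2 : (fun i => (-(⌊x i⌋ : ℤ) : ℝ)) + x = fun i => Int.fract (x i) := by
    funext i
    simp only [Pi.add_apply, Int.fract]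
    ring
  rw [← e2]
  exact h

private lemma qgl_Wint {q : ℕ} (hq : d + 1 ≤ 2 * q) : Integrable (Wp q : Vec d → ℝ) := by
  refine Integrable.mono' ((integrable_wt (d := d)).const_mul ((2 : ℝ) ^ q))
    (Wp_cont q).aestronglyMeasurable (Eventually.of_forall fun v => ?_)
  have hn := norm_nonneg v
  have h1 : (1 + ‖v‖) ^ 2 ≤ 2 * (1 + nsq v) := by
    have := norm_sq_le_sq v
    nlinarith [sq_nonneg (1 - ‖v‖)]
  have h2 : (1 + ‖v‖) ^ (d + 1) ≤ 2 ^ q * (1 + nsq v) ^ q := by
    calc (1 + ‖v‖) ^ (d + 1) ≤ (1 + ‖v‖) ^ (2 * q) := pow_le_pow_right₀ (by linarith) hq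
      _ = ((1 + ‖v‖) ^ 2) ^ q := pow_mul _ _ _
      _ ≤ (2 * (1 + nsq v)) ^ q := pow_le_pow_left₀ (by positivity) h1 q
      _ = 2 ^ q * (1 + nsq v) ^ q := mul_pow _ _ _
  have h3 : 0 < (1 + nsq v) ^ q := by
    have := sq_nonneg' v
    positivity
  rw [Real.norm_of_nonneg (Wp_pos q v).le, Wp, wt, ← div_eq_mul_inv, ← one_div,
    div_le_div_iff₀ h3 (by positivity), one_mul]
  exact h2

private lemma qgl_W (q : ℕ) (v : Vec d) : Wp (q + 1) v * (1 + nsq v) = Wp q v := by
  have h := sq_nonneg' v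
  have h1 : (1 + nsq v) ≠ 0 := by positivity
  unfold Wp
  rw [pow_succ, mul_inv, mul_assoc, inv_mul_cancel₀ h1, mul_one]

/-- uniform upper hydrodynamic bounds -/
private lemma qgl_up (d : ℕ) {M : ℝ} (hM : 0 ≤ M) : ∃ N : ℝ, ∀ g : Vec d → ℝ, Continuous g →
    (∀ v, 0 ≤ g v) → (∀ v, g v ≤ M * Wp (d + 3) v) →
    ∫ v, g v ≤ N ∧ ∫ v, g v * nsq v ≤ N ∧ ∫ v, g v * Real.log (g v) ≤ N := by
  have iW : Integrable (Wp (d + 2) : Vec d → ℝ) := qgl_Wint (by omega)
  set A : ℝ := ∫ v : Vec d, Wp (d + 2) v with hA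
  have hA0 : 0 ≤ A := integral_nonneg fun v => (Wp_pos _ v).le
  have hle : ∀ v : Vec d, Wp (d + 3) v ≤ Wp (d + 2) v := fun v => by
    have h := sq_nonneg' v
    rw [← qgl_W (d + 2) v]
    have := Wp_pos (d + 2 + 1) v
    nlinarith
  have hle2 : ∀ v : Vec d, Wp (d + 3) v * nsq v ≤ Wp (d + 2) v := fun v => by
    rw [← qgl_W (d + 2) v]
    have := Wp_pos (d + 2 + 1) v
    have e : Wp (d + 3) v = Wp (d + 2 + 1) v := rfl
    rw [e]
    nlinarith
  refine ⟨(M + M ^ 2) * A, fun g hc h0 hb => ?_⟩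
  have hMA : 0 ≤ M * A := by positivity
  have hMA2 : 0 ≤ M ^ 2 * A := by positivity
  have i1 : Integrable fun v : Vec d => M * Wp (d + 2) v := iW.const_mul M
  have i2 : Integrable fun v : Vec d => M ^ 2 * Wp (d + 2) v := iW.const_mul _
  refine ⟨?_, ?_, ?_⟩
  · have hi : Integrable g := by
      refine i1.mono' hc.aestronglyMeasurable (Eventually.of_forall fun v => ?_)
      rw [Real.norm_of_nonneg (h0 v)]
      exact (hb v).trans (mul_le_mul_of_nonneg_left (hle v) hM)
    calc ∫ v, g v ≤ ∫ v : Vec d, M * Wp (d + 2) v :=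
          integral_mono hi i1 fun v => (hb v).trans (mul_le_mul_of_nonneg_left (hle v) hM)
      _ = M * A := integral_const_mul _ _
      _ ≤ (M + M ^ 2) * A := by linarith
  · have hp : ∀ v, g v * nsq v ≤ M * Wp (d + 2) v := fun v => by
      have h := sq_nonneg' v
      calc g v * nsq v ≤ M * Wp (d + 3) v * nsq v := mul_le_mul_of_nonneg_right (hb v) h
        _ = M * (Wp (d + 3) v * nsq v) := by ring
        _ ≤ M * Wp (d + 2) v := mul_le_mul_of_nonneg_left (hle2 v) hM
    have hi : Integrable fun v => g v * nsq v := by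
      refine i1.mono' (hc.mul continuous_sq).aestronglyMeasurable (Eventually.of_forall fun v => ?_)
      rw [Real.norm_of_nonneg (mul_nonneg (h0 v) (sq_nonneg' v))]
      exact hp v
    calc ∫ v, g v * nsq v ≤ ∫ v : Vec d, M * Wp (d + 2) v := integral_mono hi i1 hp
      _ = M * A := integral_const_mul _ _
      _ ≤ (M + M ^ 2) * A := by linarith
  · by_cases hi : Integrable fun v => g v * Real.log (g v)
    · have hp : ∀ v, g v * Real.log (g v) ≤ M ^ 2 * Wp (d + 2) v := fun v => by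
        have hW := Wp_pos (d + 3) v
        have hW1 := Wp_le_one (d + 3) v
        have hsq : g v * Real.log (g v) ≤ g v ^ 2 := by
          rcases (h0 v).eq_or_lt with h | h
          · rw [← h]
            simp
          · have := Real.log_le_sub_one_of_pos h
            nlinarith
        calc g v * Real.log (g v) ≤ g v ^ 2 := hsq
          _ ≤ (M * Wp (d + 3) v) ^ 2 := pow_le_pow_left₀ (h0 v) (hb v) 2
          _ = M ^ 2 * (Wp (d + 3) v * Wp (d + 3) v) := by ring
          _ ≤ M ^ 2 * (Wp (d + 2) v * 1) := by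
              have h9 := hle v
              have h10 := (Wp_pos (d + 2) v).le
              gcongr
          _ = M ^ 2 * Wp (d + 2) v := by ring
      calc ∫ v, g v * Real.log (g v) ≤ ∫ v : Vec d, M ^ 2 * Wp (d + 2) v := integral_mono hi i2 hp
        _ = M ^ 2 * A := integral_const_mul _ _
        _ ≤ (M + M ^ 2) * A := by linarith
    · rw [integral_undef hi]
      linarith

theorem qG_low (hd : 2 ≤ d) (h1 : -2 < γ) (h2 : γ ≤ 0) {F : Vec d → Vec d → ℝ} (hF : NS F)
    (hF0 : ∀ y v, 0 ≤ F y v) (hFm : ∀ y, 0 < ∫ v, F y v) :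
    ∃ c₀ : ℝ, 0 < c₀ ∧ ∀ k : Vec d, 1 ≤ len k → ∀ y v : Vec d,
      c₀ * (1 + nsq v)⁻¹ ≤ qG γ F k y v := by
  obtain ⟨M, hM⟩ := np_c2 hF.np (d + 3)
  have hb : ∀ y v, F y v ≤ M * Wp (d + 3) v := fun y v =>
    (le_abs_self _).trans (hM.le (y, v))
  have hcu : Continuous (uc F) := hM.sm.continuous
  have hcv : ∀ y, Continuous (F y) := fun y =>
    hcu.comp (by fun_prop : Continuous fun v : Vec d => (y, v))
  have hcy : ∀ v, Continuous fun y => F y v := fun v =>
    hcu.comp (by fun_prop : Continuous fun y : Vec d => (y, v))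
  have hcI : Continuous fun y => ∫ v, F y v := by
    refine continuous_of_dominated (bound := fun v => M * Wp (d + 3) v)
      (fun y => (hcv y).aestronglyMeasurable) (fun y => Eventually.of_forall fun v => ?_)
      ((qgl_Wint (by omega)).const_mul M) (Eventually.of_forall fun v => hcy v)
    rw [Real.norm_of_nonneg (hF0 y v)]
    exact hb y v
  obtain ⟨y₀, -, hy₀⟩ := isCompact_Icc.exists_isMinOn
    (s := Icc (0 : Vec d) 1) ⟨0, by simp⟩ hcI.continuousOn
  obtain ⟨N, hN⟩ := qgl_up d hM.nn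
  obtain ⟨c, hc, hco⟩ := Pool.Agent.H48.LN.coercA hd h1 h2 (hFm y₀) N
  refine ⟨(2 * Real.pi) ^ 2 / 3 * c, by positivity, fun k hk y v => ?_⟩
  have hgood : Pool.Agent.H15.AV.Good (∫ v, F y₀ v) N (F y) := by
    obtain ⟨g1, g2, g3⟩ := hN (F y) (hcv y) (hF0 y) (hb y)
    refine ⟨?_, g1, g2, g3⟩
    obtain ⟨y', hy', he⟩ := qgl_per hF.per y
    rw [← he]
    exact hy₀ hy'
  have h3 := hco (F y) (ns_sl hF y) (hF0 y) hgood v k
  have hv := sq_nonneg' v
  have h4 : (1 + nsq v)⁻¹ ≤ (1 + nsq v) ^ (γ / 2) := by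
    rw [← Real.rpow_neg_one]
    exact Real.rpow_le_rpow_of_exponent_le (by linarith) (by linarith)
  have h5 : 1 ≤ nsq k := by
    rw [← len_sq]
    nlinarith
  have h6 : 0 ≤ (1 + nsq v)⁻¹ := by positivity
  have h7 : c * (1 + nsq v)⁻¹ ≤ ∑ i, ∑ j, ab γ (F y) i j v * (k i * k j) := by
    refine le_trans ?_ h3
    calc c * (1 + nsq v)⁻¹ = c * (1 + nsq v)⁻¹ * 1 := by ring
      _ ≤ c * (1 + nsq v) ^ (γ / 2) * nsq k := by gcongr
  have e : ∑ i, ∑ j, k i * k j * ab γ (F y) i j v = ∑ i, ∑ j, ab γ (F y) i j v * (k i * k j) :=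
    Finset.sum_congr rfl fun i _ => Finset.sum_congr rfl fun j _ => by ring
  unfold qG
  rw [e, mul_assoc]
  exact mul_le_mul_of_nonneg_left h7 (by positivity)

end Pool.Agent.H82.LL
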