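import Pool.Agent.H82.LL.QGc
import Pool.Agent.H82.LL.QGl

/-!
# Module DatL: the slices of data of the class `NS` satisfy `Dat`, uniformly

`c₀` from `qG_low`, `MF` from `np_c2` for `F` (both depend on `F` only). `M`: `np_c2` with `q = d + 20` for `F` and all `cc j` (maximum of finitely many constants; `C2P` is monotone in `M`), `sl_c2`, `sl_nice`, `NS.np` with `r = σt ∈ [0,1]`. `K`: `qG_c2`, `sl_c2`. `g0`: `qG_low` with `len (k l) ≥ 1` (integer vector `≠ 0`, `len_int` in H82/HF/Amp.lean).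
`c3`: `FamS.ha`. `rt`: `rate_dif` with `r = σt`: `≤ L r (1+nsq v)²`, `r = 0` or (`σ = 1`, `κ = 1`) `r = t = (κ/N)(N t) = δτ`.
-/

set_option autoImplicit false

open MeasureTheory Set Filter Topology Pool.Agent.H25.Kin Pool.Agent.H48.PR
open Pool.Agent.H48.PL
open Pool.Agent.H15.AV (ab)
open Pool.Agent.H82.HF (GG Bq CG)

namespace Pool.Agent.H82.LL

variable {d : ℕ} {γ : ℝ}

private theorem DatL_c2b {w : Vec d → ℝ} (hw : ∀ v, 0 ≤ w v) {M M' : ℝ} (hM : M ≤ M')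
    {g : Vec d → ℝ} (h : C2B w M g) : C2B w M' g where
  nn := h.nn.trans hM
  sm := h.sm
  le := fun v => (h.le v).trans (mul_le_mul_of_nonneg_right hM (hw v))
  d1 := fun i v => (h.d1 i v).trans (mul_le_mul_of_nonneg_right hM (hw v))
  d2 := fun i j v => (h.d2 i j v).trans (mul_le_mul_of_nonneg_right hM (hw v))

private theorem DatL_len {k : Vec d} (hk : ∀ i, ∃ z : ℤ, k i = z) (hk0 : k ≠ 0) : 1 ≤ len k := by
  obtain ⟨i, hi⟩ : ∃ i, k i ≠ 0 := by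
    by_contra hcon
    push Not at hcon
    exact hk0 (funext hcon)
  obtain ⟨z, hz⟩ := hk i
  have hz0 : z ≠ 0 := by
    intro h0
    apply hi
    rw [hz, h0, Int.cast_zero]
  have h1 : (1 : ℝ) ≤ |k i| := by
    rw [hz, ← Int.cast_abs]
    exact_mod_cast Int.one_le_abs hz0
  exact h1.trans (abs_coord_le k i)

theorem dat (hd : 2 ≤ d) (h1 : -2 < γ) (h2 : γ ≤ 0) {F : Vec d → Vec d → ℝ} (hF : NS F)
    (hF0 : ∀ y v, 0 ≤ F y v) (hFm : ∀ y, 0 < ∫ v, F y v) : ∃ c₀ MF : ℝ, 0 < c₀ ∧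
    0 ≤ MF ∧ ∀ (n : ℕ) (a : Fin n → ℝ) (cc : Fin n → Vec d → Vec d → ℝ) (k : Fin n → Vec d),
      FamS (d + 20) a cc k → ∃ M K L : ℝ, ∀ (κ : ℝ) (N σ : ℕ), 0 < κ → κ ≤ 1 → 1 ≤ N →
        (σ = 0 ∨ (σ = 1 ∧ κ = 1)) → ∀ t : ℝ, 0 < t → κ * t ≤ 1 → ∀ x : Vec d,
          Dat γ c₀ MF M K L a k (κ / N) (N * t) (sl (σ * t) ((σ : ℝ) • x) F)
            (fun j => sl (σ * t) ((σ : ℝ) • x) (cc j))
            (fun j => sl (σ * t) ((σ : ℝ) • x) (qG γ F (k j))) := by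
  obtain ⟨c₀, hc₀, hlow⟩ := qG_low hd h1 h2 hF hF0 hFm
  obtain ⟨MF, hMF⟩ := np_c2 hF.np (d + 20)
  refine ⟨c₀, MF, hc₀, hMF.nn, fun n a cc k hfam => ?_⟩
  choose Mc hMc using fun j => np_c2 (hfam.hc j).np (d + 20)
  choose Kc hKc using fun j => qG_c2 h1 h2 hF (k j)
  choose Lc hLc0 hLc using fun j => rate_dif h1 h2 hF (k j)
  have hMs : ∀ j, Mc j ≤ ∑ j, Mc j := fun j =>
    Finset.single_le_sum (fun i _ => (hMc i).nn) (Finset.mem_univ j)
  have hKs : ∀ j, Kc j ≤ ∑ j, Kc j := fun j =>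
    Finset.single_le_sum (fun i _ => (hKc i).nn) (Finset.mem_univ j)
  have hLs : ∀ j, Lc j ≤ ∑ j, Lc j := fun j =>
    Finset.single_le_sum (fun i _ => hLc0 i) (Finset.mem_univ j)
  have hMs0 : 0 ≤ ∑ j, Mc j := Finset.sum_nonneg fun i _ => (hMc i).nn
  have hw : ∀ v : Vec d, 0 ≤ Wp (d + 20) v := fun v => (Wp_pos _ v).le
  have hw1 : ∀ v : Vec d, 0 ≤ w1 v := fun v => by
    unfold w1
    have := sq_nonneg' v
    linarith
  refine ⟨MF + ∑ j, Mc j, ∑ j, Kc j, ∑ j, Lc j, fun κ N σ hκ hκ1 hN hσ t ht hκt x => ?_⟩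
  have hN' : (1 : ℝ) ≤ N := by exact_mod_cast hN
  have hN0 : (0 : ℝ) < N := by linarith
  have hr0 : 0 ≤ (σ : ℝ) * t := by positivity
  have hr1 : (σ : ℝ) * t ≤ 1 := by
    rcases hσ with h | ⟨h, hk⟩
    · rw [h]; simp
    · rw [h, Nat.cast_one, one_mul]
      rw [hk, one_mul] at hκt
      exact hκt
  have hrk : (σ : ℝ) * t ≤ κ / N * (N * t) := by
    have e : κ / N * (N * t) = κ * t := by field_simp
    rw [e]
    rcases hσ with h | ⟨h, hk⟩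
    · rw [h, Nat.cast_zero, zero_mul]; positivity
    · rw [h, hk, Nat.cast_one]
  refine ⟨by positivity, ?_, by positivity, sl_nice hF.np _ _, ?_, ?_, fun l => sl_nice (hfam.hc l).np _ _,
    fun l => ?_, fun l v => hfam.ha l _ v, fun l => ?_, fun l v => ?_, fun l v => ?_⟩
  · rw [div_le_one hN0]
    linarith
  · exact DatL_c2b hw (by linarith) (sl_c2 hMF hr0 hr1 _)
  · intro v
    exact (sl_c2 hMF hr0 hr1 _).le v
  · exact DatL_c2b hw (by linarith [hMs l, hMF.nn]) (sl_c2 (hMc l) hr0 hr1 _)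
  · exact DatL_c2b hw1 (hKs l) (sl_c2 (hKc l) hr0 hr1 _)
  · exact hlow (k l) (DatL_len (hfam.hk l) (hfam.hk0 l)) _ v
  · have h3 := hLc l (σ * t) hr0 hr1 ((σ : ℝ) • x) v
    refine h3.trans ?_
    have h4 : 0 ≤ (1 + nsq v) ^ 2 := sq_nonneg _
    refine mul_le_mul_of_nonneg_right ?_ h4
    exact mul_le_mul (hLs l) hrk hr0 ((hLc0 l).trans (hLs l))

end Pool.Agent.H82.LL
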