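import Pool.Agent.H48.LN.Dif
import Pool.Agent.H48.LN.HsW
import Pool.Agent.H48.LN.CoA
import Pool.Agent.H48.LN.AbH
import Pool.Agent.H82.HF.FouD
import Pool.Agent.H82.HF.Tch3
import Pool.Agent.H82.HF.Bar

/-!
# The layer lemma for the Landau equation, `-2 < γ ≤ 0` (MP_c15324_an): definitions

`f` solves `∂_t f + v·∇_x f = κ Q(f,f)`, `Q(g,g) = A[g]:D²g + c[g] g` (`landau_nd`), on the unit torus, `f(0,x,v)` is close to
`F(σx,v) + Σ_j c_j(σx,v) cos(2π k_j·(N x) + φ_j)`, `F`, `c_j` of the class `NS` (`C²`, rapid decay) in (slow variable, velocity). Two cases: `σ = 0`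
(no slow variable, dilute gas) and `σ = 1`, `κ = 1` (homogenisation). `δ = κ/N`, fast time `τ = N t`, `X = δ τ³`.

APPROXIMATE SOLUTION (`fw`): `F(σ(x-tv),v) + Σ_j B_j cos(θ_j - κ_j·v)`, `κ_j = 2πτ k_j`, `B_j = c_j(σ(x-tv),v) exp(-X G_j)`,
`G_j = qG F k_j (σ(x-tv),v) = (2π)²/3 Σ_ab k_a k_b A[F(y,·)]_ab(v)` at `y = σ(x-tv)`. The foot `x - tv` is constant along the characteristics, so
`(∂_τ + ..) fw = -δ Σ_j 3τ² G_j B_j cos`.

SLICE ESTIMATES (fixed `t`, `x`, `0 ≤ σt ≤ 1`), `W = Wp (d+10)`, `Y = (1+X)^(-2)`: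
* `G ≥ c₀ (1+|v|²)^(-1)` (coercivity), so `exp(-XG) (1+X)^4 ≤ (1+4/c₀)^4 (1+|v|²)^4`; `B_j`, `∂B_j`, `∂²B_j` are `O(Y)` with weights (`amp_c2`).
* residual: `|Q(fw) + Σ_j 3τ² G_j B_j cos| ≤ (K₁ + η τ² Y) W` for every `η > 0` (`res`): cross terms `O(τ Y)`, `A[fw - F]:D²fw = O((1+τ)^(-θ) τ² Y)`,
  `θ = min 1 (γ+2)` (half period shift, `osc_ab`), slow variable `O(σt τ² Y)`, `κ σt τ² Y ≤ δτ·τ²·Y ≤ 1`.
* touching point `e(f - fw) = Λ W`: `e(Q(f) - Q(fw)) ≤ Λ (K₁ W + K_u (1+|v|²) Σ_ij |∂_i∂_j fw|)` (`tch`), no localisation of `v` is needed because `γ ≤ 0`.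
* barrier `Bq` of H82/HF with `s = 1`.
-/

set_option autoImplicit false

open MeasureTheory Set Filter Topology Pool.Agent.H25.Kin Pool.Agent.H48.PR
open Pool.Agent.H48.PL
open Pool.Agent.H15.AV (ab)
open Pool.Agent.H82.HF (GG Bq CG)

namespace Pool.Agent.H82.LL

variable {d : ℕ}

/-- `C²` functions of the velocity, bounded by `M w` together with their partial derivatives of order `≤ 2` -/
structure C2B (w : Vec d → ℝ) (M : ℝ) (g : Vec d → ℝ) : Prop where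
  nn : 0 ≤ M
  sm : ContDiff ℝ 2 g
  le : ∀ v, |g v| ≤ M * w v
  d1 : ∀ i v, |pd i g v| ≤ M * w v
  d2 : ∀ i j v, |pd i (pd j g) v| ≤ M * w v

/-- the growing weight -/
noncomputable def w1 (v : Vec d) : ℝ := 1 + nsq v

/-- `C²` functions of (slow variable, velocity), bounded by `M w(v)` together with their derivatives of order `≤ 2` -/
structure C2P (w : Vec d → ℝ) (M : ℝ) (h : Vec d × Vec d → ℝ) : Prop where
  nn : 0 ≤ M
  sm : ContDiff ℝ 2 h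
  le : ∀ p, |h p| ≤ M * w p.2
  d1 : ∀ p, ‖fderiv ℝ h p‖ ≤ M * w p.2
  d2 : ∀ p, ‖fderiv ℝ (fderiv ℝ h) p‖ ≤ M * w p.2

/-- rapid decay in the second variable -/
def RDP {E : Type*} [NormedAddCommGroup E] (h : Vec d × Vec d → E) : Prop :=
  ∀ N : ℕ, ∃ C : ℝ, ∀ p, (1 + ‖p.2‖) ^ N * ‖h p‖ ≤ C

/-- `C²` functions of (slow variable, velocity), rapidly decaying with their derivatives of order `≤ 2` -/
structure NiceP (h : Vec d × Vec d → ℝ) : Prop where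
  sm : ContDiff ℝ 2 h
  rd : RDP h
  rd1 : RDP (fderiv ℝ h)
  rd2 : RDP (fderiv ℝ (fderiv ℝ h))

/-- the uncurried function -/
def uc (F : Vec d → Vec d → ℝ) (p : Vec d × Vec d) : ℝ := F p.1 p.2

/-- the class of the coefficients: `C²` and rapidly decaying, periodic in the slow variable -/
structure NS (F : Vec d → Vec d → ℝ) : Prop where
  np : NiceP (uc F)
  per : ∀ y v i, F (y + Pi.single i 1) v = F y v

/-- the slice through `a` with the slow speed `r` -/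
def sl (r : ℝ) (a : Vec d) (F : Vec d → Vec d → ℝ) (v : Vec d) : ℝ := F (a - r • v) v

/-- convolution in the second variable -/
noncomputable def cov {E : Type*} [NormedAddCommGroup E] [NormedSpace ℝ E] (k : Vec d → ℝ)
    (h : Vec d × Vec d → E) (p : Vec d × Vec d) : E := ∫ z, k z • h (p.1, p.2 - z)

/-- the damping rate: `D = X qG`, `3 qG k = (2π)² A[F(y,·)](v) k·k` -/
noncomputable def qG (γ : ℝ) (F : Vec d → Vec d → ℝ) (k : Vec d) (y v : Vec d) : ℝ :=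
  (2 * Real.pi) ^ 2 / 3 * ∑ i, ∑ j, k i * k j * ab γ (F y) i j v

/-- the damped amplitude `c(v) exp(-X G(v))` -/
noncomputable def Bm (X : ℝ) (c G : Vec d → ℝ) (v : Vec d) : ℝ := c v * Real.exp (-(X * G v))

/-- admissible families of modes -/
structure FamS (q : ℕ) {n : ℕ} (a : Fin n → ℝ) (c : Fin n → Vec d → Vec d → ℝ)
    (k : Fin n → Vec d) : Prop where
  hc : ∀ j, NS (c j)
  ha : ∀ j y v, |c j y v| ≤ a j * Wp q v
  hk : ∀ j i, ∃ z : ℤ, k j i = z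
  hk0 : ∀ j, k j ≠ 0

/-- the data of a slice: `F`, `c_l`, the rates `G_l`, at the fast time `τ` with `δ = κ/N` -/
structure Dat (γ c₀ MF M K L : ℝ) {n : ℕ} (a : Fin n → ℝ) (k : Fin n → Vec d) (δ τ : ℝ)
    (F : Vec d → ℝ) (cs Gs : Fin n → Vec d → ℝ) : Prop where
  d0 : 0 < δ
  d1 : δ ≤ 1
  t0 : 0 < τ
  F1 : Nice F
  F2 : C2B (Wp (d + 20)) M F
  F3 : ∀ v, |F v| ≤ MF * Wp (d + 20) v
  c1 : ∀ l, Nice (cs l)
  c2 : ∀ l, C2B (Wp (d + 20)) M (cs l)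
  c3 : ∀ l v, |cs l v| ≤ a l * Wp (d + 20) v
  g2 : ∀ l, C2B w1 K (Gs l)
  g0 : ∀ l v, c₀ * (1 + nsq v)⁻¹ ≤ Gs l v
  rt : ∀ l v, |(2 * Real.pi) ^ 2 * (∑ i, ∑ j, k l i * k l j * ab γ F i j v) - 3 * Gs l v| ≤
    L * (δ * τ) * (1 + nsq v) ^ 2

/-- the approximate solution in a slice, `th` = phases -/
noncomputable def gs (δ τ : ℝ) {n : ℕ} (k : Fin n → Vec d) (F : Vec d → ℝ)
    (cs Gs : Fin n → Vec d → ℝ) (th : Fin n → ℝ) (v : Vec d) : ℝ :=
  GG F (fun j => Bm (δ * τ ^ 3) (cs j) (Gs j)) (fun j => (2 * Real.pi * τ) • k j) th v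

/-- the damping terms in a slice: `Σ_l 3τ² G_l B_l cos` -/
noncomputable def dmp (δ τ : ℝ) {n : ℕ} (k : Fin n → Vec d) (cs Gs : Fin n → Vec d → ℝ)
    (th : Fin n → ℝ) (v : Vec d) : ℝ :=
  ∑ l, 3 * τ ^ 2 * Gs l v * (Bm (δ * τ ^ 3) (cs l) (Gs l) v *
    Real.cos (th l - dot ((2 * Real.pi * τ) • k l) v))

/-- `Y = (1+X)^(-2)`, `X = δ τ³` -/
noncomputable def Yf (δ τ : ℝ) : ℝ := ((1 + δ * τ ^ 3) ^ 2)⁻¹

/-- the approximate solution, `κ` the kernel factor, `N` the frequency, `σ` the slow scale -/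
noncomputable def fw (γ κ N σ : ℝ) {n : ℕ} (F : Vec d → Vec d → ℝ)
    (cc : Fin n → Vec d → Vec d → ℝ) (k : Fin n → Vec d) (φ : Fin n → ℝ) (t : ℝ) (x v : Vec d) :
    ℝ :=
  gs (κ / N) (N * t) k (sl (σ * t) (σ • x) F) (fun j => sl (σ * t) (σ • x) (cc j))
    (fun j => sl (σ * t) (σ • x) (qG γ F (k j))) (fun j => 2 * Real.pi * dot (k j) (N • x) + φ j) v

/-- solutions of the Landau equation with the kernel factor `κ` -/
def IsLSol (γ κ T : ℝ) (f : ℝ → Vec d → Vec d → ℝ) : Prop :=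
  IsClassicalSol T (fun t x v => κ * landauQ γ (f t x) v) f

end Pool.Agent.H82.LL
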