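import Pool.Agent.H82.LL.Defs

/-!
# Module Elt: elementary inequalities in time

`Yf δ τ = ((1+δτ³)²)⁻¹ ∈ (0,1]`. `osc_eta`: if `(1+τ)^(-θ) ≤ η` the left side is `≤ η τ²`, otherwise `1+τ ≤ η^(-1/θ) =: T` and it is `≤ τ² ≤ T²`. `xy_le`: `δτ³ (1+δτ³)^(-2) ≤ 1`.
-/

set_option autoImplicit false

open MeasureTheory Set Filter Topology Pool.Agent.H25.Kin Pool.Agent.H48.PR
open Pool.Agent.H48.PL
open Pool.Agent.H15.AV (ab)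
open Pool.Agent.H82.HF (GG Bq CG)

namespace Pool.Agent.H82.LL

theorem yf_pos {δ τ : ℝ} (hδ : 0 < δ) (hτ : 0 ≤ τ) : 0 < Yf δ τ ∧ Yf δ τ ≤ 1 := by
  unfold Yf
  have h3 : 0 ≤ δ * τ ^ 3 := by positivity
  refine ⟨by positivity, ?_⟩
  apply inv_le_one_of_one_le₀
  nlinarith [sq_nonneg (δ * τ ^ 3)]

theorem xy_le {δ τ : ℝ} (hδ : 0 < δ) (hτ : 0 ≤ τ) : δ * τ * (τ ^ 2 * Yf δ τ) ≤ 1 := by
  unfold Yf
  have h3 : 0 ≤ δ * τ ^ 3 := by positivity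
  have h4 : 0 < (1 + δ * τ ^ 3) ^ 2 := by positivity
  have e : δ * τ * (τ ^ 2 * ((1 + δ * τ ^ 3) ^ 2)⁻¹) = (δ * τ ^ 3) / (1 + δ * τ ^ 3) ^ 2 := by
    rw [div_eq_mul_inv]; ring
  rw [e, div_le_one h4]
  nlinarith [sq_nonneg (δ * τ ^ 3)]

theorem osc_eta {θ η : ℝ} (hθ : 0 < θ) (hη : 0 < η) : ∃ T : ℝ, 0 ≤ T ∧ ∀ τ : ℝ, 0 ≤ τ →
    (1 + τ) ^ (-θ) * τ ^ 2 ≤ η * τ ^ 2 + T := by
  refine ⟨(η ^ (-(1 / θ))) ^ 2, by positivity, ?_⟩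
  intro τ hτ
  have hp : 0 < (1 + τ) := by linarith
  rcases le_or_gt ((1 + τ) ^ (-θ)) η with h | h
  · have h1 : (1 + τ) ^ (-θ) * τ ^ 2 ≤ η * τ ^ 2 := mul_le_mul_of_nonneg_right h (sq_nonneg _)
    have h2 : 0 ≤ (η ^ (-(1 / θ))) ^ 2 := sq_nonneg _
    linarith
  · have h1 : (1 + τ) ^ (-θ) ≤ 1 :=
      Real.rpow_le_one_of_one_le_of_nonpos (by linarith) (by linarith)
    have h2 : 1 + τ ≤ η ^ (-(1 / θ)) := by
      have h3 : ((1 + τ) ^ (-θ)) ^ (-(1 / θ)) ≤ η ^ (-(1 / θ)) := by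
        apply Real.rpow_le_rpow_of_nonpos hη h.le
        have : 0 < 1 / θ := by positivity
        linarith
      rw [← Real.rpow_mul hp.le] at h3
      have e : -θ * (-(1 / θ)) = 1 := by
        field_simp
      rw [e, Real.rpow_one] at h3
      exact h3
    have h3 : τ ^ 2 ≤ (η ^ (-(1 / θ))) ^ 2 := by
      apply pow_le_pow_left₀ hτ
      linarith
    have h4 : (1 + τ) ^ (-θ) * τ ^ 2 ≤ 1 * τ ^ 2 := mul_le_mul_of_nonneg_right h1 (sq_nonneg _)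
    have h5 : 0 ≤ η * τ ^ 2 := by positivity
    linarith

theorem tau_eta {η τ : ℝ} (hη : 0 < η) : τ ≤ η * τ ^ 2 + (4 * η)⁻¹ := by
  have h : 0 ≤ (2 * η * τ - 1) ^ 2 := sq_nonneg _
  have h4 : 0 < 4 * η := by positivity
  rw [← sub_nonneg]
  have e : η * τ ^ 2 + (4 * η)⁻¹ - τ = (2 * η * τ - 1) ^ 2 / (4 * η) := by
    field_simp
    ring
  rw [e]
  positivity

end Pool.Agent.H82.LL
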