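import Pool.Agent.H82.LL.Defs

/-!
# Module GGd: derivatives of trigonometric families

`GG F B κ θ v = F v + Σ_l B_l v cos(θ_l - κ_l·v)` (H82/HF/Defs). `∂_j cos(θ - κ·v) = κ_j sin(θ - κ·v)`, `∂_i sin(θ - κ·v) = -κ_i cos(θ - κ·v)` (`dot κ` is linear: `dot κ v = Σ κ_i v_i`, `pd i (dot κ) = κ_i`), product rule twice.
`gg_nice`: RD of the product of a `Nice` function with `cos(θ - κ·v)`, whose derivatives are bounded: `‖fderiv (B cos)‖ ≤ ‖fderiv B‖ + C |B|` etc. (`C = ‖κ‖`-norm of the linear form), second derivative similarly (`‖fderiv(fderiv(B cos))‖ ≤ ‖B''‖ + 2C‖B'‖ + C²|B|`); sums of `Nice` functions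
(`cs_nice_add` in H48/PS/CutS.lean; induction over the `Finset`).
-/

set_option autoImplicit false

open MeasureTheory Set Filter Topology Pool.Agent.H25.Kin Pool.Agent.H48.PR
open Pool.Agent.H48.PL
open Pool.Agent.H15.AV (ab)
open Pool.Agent.H82.HF (GG Bq CG)

namespace Pool.Agent.H82.LL

variable {d n : ℕ}

private lemma GGd_fd {g : Vec d → ℝ} (h : ContDiff ℝ 2 g) : Differentiable ℝ (fderiv ℝ g) :=
  (h.fderiv_right (m := 1) (by norm_num)).differentiable (by norm_num)

private lemma GGd_pdhas {g : Vec d → ℝ} (h : ContDiff ℝ 2 g) (j : Fin d) (v : Vec d) :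
    HasFDerivAt (pd j g) ((ContinuousLinearMap.apply ℝ ℝ (Pi.single j 1 : Vec d)).comp
      (fderiv ℝ (fderiv ℝ g) v)) v :=
  (ContinuousLinearMap.apply ℝ ℝ (Pi.single j 1 : Vec d)).hasFDerivAt.comp v
    (GGd_fd h v).hasFDerivAt

private lemma GGd_pddiff {g : Vec d → ℝ} (h : ContDiff ℝ 2 g) (j : Fin d) :
    Differentiable ℝ (pd j g) := fun v => (GGd_pdhas h j v).differentiableAt

private lemma GGd_pdpd {g : Vec d → ℝ} (h : ContDiff ℝ 2 g) (i j : Fin d) (v : Vec d) :
    pd i (pd j g) v = fderiv ℝ (fderiv ℝ g) v (Pi.single i 1) (Pi.single j 1) := by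
  unfold pd
  have := (GGd_pdhas h j v).fderiv
  unfold pd at this
  rw [this]
  rfl

private lemma GGd_op {E : Type*} [NormedAddCommGroup E] [NormedSpace ℝ E] (L : Vec d →L[ℝ] E) :
    ‖L‖ ≤ ∑ i, ‖L (Pi.single i 1)‖ := by
  refine ContinuousLinearMap.opNorm_le_bound _ (Finset.sum_nonneg fun i _ => norm_nonneg _)
    fun w => ?_
  have e : L w = ∑ i, w i • L (Pi.single i 1) := by
    conv_lhs => rw [pi_eq_sum_univ' w, map_sum]
    refine Finset.sum_congr rfl fun i _ => ?_
    rw [← map_smul]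
  rw [e, Finset.sum_mul]
  refine (norm_sum_le _ _).trans (Finset.sum_le_sum fun i _ => ?_)
  rw [norm_smul, mul_comm]
  exact mul_le_mul_of_nonneg_left (norm_le_pi_norm w i) (norm_nonneg _)

private lemma GGd_fderiv_le (g : Vec d → ℝ) (v : Vec d) : ‖fderiv ℝ g v‖ ≤ ∑ i, |pd i g v| := by
  refine (GGd_op (fderiv ℝ g v)).trans (le_of_eq ?_)
  refine Finset.sum_congr rfl fun i _ => ?_
  rw [Real.norm_eq_abs]
  rfl

private lemma GGd_fderiv2_le {g : Vec d → ℝ} (h : ContDiff ℝ 2 g) (v : Vec d) :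
    ‖fderiv ℝ (fderiv ℝ g) v‖ ≤ ∑ i, ∑ j, |pd i (pd j g) v| := by
  refine (GGd_op (fderiv ℝ (fderiv ℝ g) v)).trans (Finset.sum_le_sum fun i _ => ?_)
  refine (GGd_op _).trans (le_of_eq ?_)
  refine Finset.sum_congr rfl fun j _ => ?_
  rw [Real.norm_eq_abs, GGd_pdpd h]

private lemma GGd_pdmul {f g : Vec d → ℝ} (hf : Differentiable ℝ f) (hg : Differentiable ℝ g)
    (i : Fin d) (v : Vec d) : pd i (fun v => f v * g v) v = pd i f v * g v + f v * pd i g v := by
  unfold pd
  have := ((hf v).hasFDerivAt.mul (hg v).hasFDerivAt).fderiv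
  change fderiv ℝ (fun v => f v * g v) v = _ at this
  rw [this]
  simp only [add_apply, smul_apply, smul_eq_mul]
  ring

private lemma GGd_pdadd {f g : Vec d → ℝ} (hf : Differentiable ℝ f) (hg : Differentiable ℝ g)
    (i : Fin d) (v : Vec d) : pd i (fun v => f v + g v) v = pd i f v + pd i g v := by
  unfold pd
  have := ((hf v).hasFDerivAt.add (hg v).hasFDerivAt).fderiv
  change fderiv ℝ (fun v => f v + g v) v = _ at this
  rw [this]
  simp only [add_apply]

private lemma GGd_pdsum {ι : Type*} (s : Finset ι) {f : ι → Vec d → ℝ}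
    (hf : ∀ l ∈ s, Differentiable ℝ (f l)) (i : Fin d) (v : Vec d) :
    pd i (fun v => ∑ l ∈ s, f l v) v = ∑ l ∈ s, pd i (f l) v := by
  unfold pd
  have := (HasFDerivAt.fun_sum (u := s) (A := fun l v => f l v)
    (fun l hl => ((hf l hl) v).hasFDerivAt)).fderiv
  rw [this]
  simp

private lemma GGd_lin (κ : Vec d) (θ : ℝ) (v : Vec d) :
    HasFDerivAt (fun v : Vec d => θ - dot κ v)
      (-(∑ i, κ i • ContinuousLinearMap.proj (R := ℝ) (φ := fun _ : Fin d => ℝ) i)) v := by
  have h1 : HasFDerivAt (fun v : Vec d => dot κ v)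
      (∑ i, κ i • ContinuousLinearMap.proj (R := ℝ) (φ := fun _ : Fin d => ℝ) i) v := by
    unfold dot
    refine HasFDerivAt.fun_sum fun i _ => ?_
    exact ((ContinuousLinearMap.proj (R := ℝ) (φ := fun _ : Fin d => ℝ) i).hasFDerivAt).const_mul
      (κ i)
  have h2 := h1.const_sub θ
  exact h2

private lemma GGd_val (κ : Vec d) (i : Fin d) :
    (∑ j, κ j • ContinuousLinearMap.proj (R := ℝ) (φ := fun _ : Fin d => ℝ) j)
      (Pi.single i 1 : Vec d) = κ i := by
  rw [sum_apply]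
  simp only [smul_apply, ContinuousLinearMap.proj_apply, smul_eq_mul]
  rw [Finset.sum_eq_single i]
  · simp
  · intro j _ hj
    simp [Pi.single_eq_of_ne hj]
  · intro h
    exact absurd (Finset.mem_univ i) h

private lemma GGd_pdcos (κ : Vec d) (θ : ℝ) (i : Fin d) (v : Vec d) :
    pd i (fun v : Vec d => Real.cos (θ - dot κ v)) v = κ i * Real.sin (θ - dot κ v) := by
  unfold pd
  have h := (GGd_lin κ θ v).cos.fderiv
  rw [h]
  simp only [smul_apply, neg_apply, smul_eq_mul, GGd_val]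
  ring

private lemma GGd_pdsin (κ : Vec d) (θ : ℝ) (i : Fin d) (v : Vec d) :
    pd i (fun v : Vec d => Real.sin (θ - dot κ v)) v = -(κ i * Real.cos (θ - dot κ v)) := by
  unfold pd
  have h := (GGd_lin κ θ v).sin.fderiv
  rw [h]
  simp only [smul_apply, neg_apply, smul_eq_mul, GGd_val]
  ring

private lemma GGd_cdcos (κ : Vec d) (θ : ℝ) :
    ContDiff ℝ 2 fun v : Vec d => Real.cos (θ - dot κ v) := by
  have h : ContDiff ℝ 2 fun v : Vec d => θ - dot κ v := by
    unfold dot
    fun_prop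
  exact h.cos

private lemma GGd_cdsin (κ : Vec d) (θ : ℝ) :
    ContDiff ℝ 2 fun v : Vec d => Real.sin (θ - dot κ v) := by
  have h : ContDiff ℝ 2 fun v : Vec d => θ - dot κ v := by
    unfold dot
    fun_prop
  exact h.sin

private lemma GGd_one {B : Vec d → ℝ} (hB : Differentiable ℝ B) (κ : Vec d) (θ : ℝ) (j : Fin d)
    (v : Vec d) : pd j (fun v => B v * Real.cos (θ - dot κ v)) v =
      pd j B v * Real.cos (θ - dot κ v) + κ j * (B v * Real.sin (θ - dot κ v)) := by
  rw [GGd_pdmul hB ((GGd_cdcos κ θ).differentiable (by norm_num)), GGd_pdcos]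
  ring

private lemma GGd_ones {B : Vec d → ℝ} (hB : Differentiable ℝ B) (κ : Vec d) (θ : ℝ) (j : Fin d)
    (v : Vec d) : pd j (fun v => B v * Real.sin (θ - dot κ v)) v =
      pd j B v * Real.sin (θ - dot κ v) - κ j * (B v * Real.cos (θ - dot κ v)) := by
  rw [GGd_pdmul hB ((GGd_cdsin κ θ).differentiable (by norm_num)), GGd_pdsin]
  ring

private lemma GGd_two {B : Vec d → ℝ} (hB : ContDiff ℝ 2 B) (κ : Vec d) (θ : ℝ) (i j : Fin d)
    (v : Vec d) : pd i (pd j (fun v => B v * Real.cos (θ - dot κ v))) v =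
      pd i (pd j B) v * Real.cos (θ - dot κ v) +
        (κ j * pd i B v + κ i * pd j B v) * Real.sin (θ - dot κ v) -
        κ i * κ j * (B v * Real.cos (θ - dot κ v)) := by
  have dB : Differentiable ℝ B := hB.differentiable (by norm_num)
  have dc : Differentiable ℝ fun v : Vec d => Real.cos (θ - dot κ v) :=
    (GGd_cdcos κ θ).differentiable (by norm_num)
  have ds : Differentiable ℝ fun v : Vec d => Real.sin (θ - dot κ v) :=
    (GGd_cdsin κ θ).differentiable (by norm_num)
  have e : pd j (fun v => B v * Real.cos (θ - dot κ v)) = fun v =>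
      pd j B v * Real.cos (θ - dot κ v) + κ j * (B v * Real.sin (θ - dot κ v)) :=
    funext fun v => GGd_one dB κ θ j v
  have d1 : Differentiable ℝ fun v => pd j B v * Real.cos (θ - dot κ v) :=
    (GGd_pddiff hB j).mul dc
  have d2 : Differentiable ℝ fun v => B v * Real.sin (θ - dot κ v) := dB.mul ds
  have hc : pd i (fun v => κ j * (B v * Real.sin (θ - dot κ v))) v =
      κ j * pd i (fun v => B v * Real.sin (θ - dot κ v)) v := by
    unfold pd
    have h1 := ((d2 v).hasFDerivAt.const_mul (κ j)).fderiv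
    rw [h1]
    simp only [smul_apply, smul_eq_mul]
  rw [e, GGd_pdadd d1 (d2.const_mul (κ j)), GGd_one (GGd_pddiff hB j), hc, GGd_ones dB]
  ring

private lemma GGd_sm {B : Vec d → ℝ} (hB : ContDiff ℝ 2 B) (κ : Vec d) (θ : ℝ) :
    ContDiff ℝ 2 fun v => B v * Real.cos (θ - dot κ v) := hB.mul (GGd_cdcos κ θ)

theorem gg_pd {F : Vec d → ℝ} {B : Fin n → Vec d → ℝ} (hF : ContDiff ℝ 2 F)
    (hB : ∀ l, ContDiff ℝ 2 (B l)) (κ : Fin n → Vec d) (θ : Fin n → ℝ) (i j : Fin d) (v : Vec d) :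
    pd i (pd j (GG F B κ θ)) v = pd i (pd j F) v +
      ∑ l, (pd i (pd j (B l)) v * Real.cos (θ l - dot (κ l) v) +
        (κ l j * pd i (B l) v + κ l i * pd j (B l) v) * Real.sin (θ l - dot (κ l) v)) -
      ∑ l, κ l i * κ l j * (B l v * Real.cos (θ l - dot (κ l) v)) := by
  have dF : Differentiable ℝ F := hF.differentiable (by norm_num)
  have dl : ∀ l, Differentiable ℝ fun v => B l v * Real.cos (θ l - dot (κ l) v) := fun l =>
    (GGd_sm (hB l) (κ l) (θ l)).differentiable (by norm_num)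
  have ds : Differentiable ℝ fun v => ∑ l, B l v * Real.cos (θ l - dot (κ l) v) := by
    have : ContDiff ℝ 2 fun v => ∑ l, B l v * Real.cos (θ l - dot (κ l) v) :=
      ContDiff.sum fun l _ => GGd_sm (hB l) (κ l) (θ l)
    exact this.differentiable (by norm_num)
  have e : pd j (GG F B κ θ) = fun v => pd j F v +
      ∑ l, pd j (fun v => B l v * Real.cos (θ l - dot (κ l) v)) v := by
    funext u
    change pd j (fun v => F v + ∑ l, B l v * Real.cos (θ l - dot (κ l) v)) u = _
    rw [GGd_pdadd dF ds, GGd_pdsum _ fun l _ => dl l]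
  have d2 : ∀ l, Differentiable ℝ (pd j fun v => B l v * Real.cos (θ l - dot (κ l) v)) :=
    fun l => GGd_pddiff (GGd_sm (hB l) (κ l) (θ l)) j
  have d3 : Differentiable ℝ fun v =>
      ∑ l, pd j (fun v => B l v * Real.cos (θ l - dot (κ l) v)) v :=
    Differentiable.fun_sum fun l _ => d2 l
  rw [e, GGd_pdadd (GGd_pddiff hF j) d3, GGd_pdsum _ fun l _ => d2 l]
  simp only [GGd_two (hB _)]
  rw [Finset.sum_sub_distrib]
  ring

private lemma GGd_add {f g : Vec d → ℝ} (hf : Nice f) (hg : Nice g) :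
    Nice fun v => f v + g v := by
  have e1 : fderiv ℝ (fun v => f v + g v) = fun v => fderiv ℝ f v + fderiv ℝ g v := by
    funext v
    exact ((hf.diff v).hasFDerivAt.add (hg.diff v).hasFDerivAt).fderiv
  have e2 : fderiv ℝ (fderiv ℝ (fun v => f v + g v)) =
      fun v => fderiv ℝ (fderiv ℝ f) v + fderiv ℝ (fderiv ℝ g) v := by
    rw [e1]
    funext v
    exact ((hf.diff1 v).hasFDerivAt.add (hg.diff1 v).hasFDerivAt).fderiv
  refine ⟨hf.smooth.add hg.smooth, hf.rd.add hg.rd, ?_, ?_⟩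
  · rw [e1]; exact hf.rd1.add hg.rd1
  · rw [e2]; exact hf.rd2.add hg.rd2

private lemma GGd_nice1 {B : Vec d → ℝ} (hB : Nice B) (κ : Vec d) (θ : ℝ) :
    Nice fun v => B v * Real.cos (θ - dot κ v) := by
  have hc : ∀ {h : Vec d → ℝ}, RD h → RD fun v => h v * Real.cos (θ - dot κ v) := by
    intro h hh
    refine hh.mono 1 fun v => ?_
    rw [norm_mul, one_mul]
    exact mul_le_of_le_one_right (norm_nonneg _) (Real.abs_cos_le_one _)
  have hs : ∀ {h : Vec d → ℝ}, RD h → RD fun v => h v * Real.sin (θ - dot κ v) := by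
    intro h hh
    refine hh.mono 1 fun v => ?_
    rw [norm_mul, one_mul]
    exact mul_le_of_le_one_right (norm_nonneg _) (Real.abs_sin_le_one _)
  have habs : ∀ {h : Vec d → ℝ}, RD h → RD fun v => |h v| := by
    intro h hh
    refine hh.mono 1 fun v => ?_
    rw [one_mul, Real.norm_eq_abs, abs_abs, Real.norm_eq_abs]
  have hX : ∀ (X : ℝ) {h : Vec d → ℝ}, RD h → RD fun v => X * h v := by
    intro X h hh
    refine hh.mono |X| fun v => ?_
    rw [norm_mul, Real.norm_eq_abs]
  have sm := GGd_sm hB.smooth κ θ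
  have r2 : ∀ i j, RD fun v => pd i (pd j B) v :=
    fun i j => (hB.pd_rd1 j).mono 1 fun v => by rw [one_mul]; exact pd_le i _ v
  refine ⟨sm, hc hB.rd, ?_, ?_⟩
  · have h1 : ∀ i, RD fun v => |pd i (fun v => B v * Real.cos (θ - dot κ v)) v| := fun i => by
      simp only [GGd_one hB.diff]
      exact habs ((hc (hB.pd_RD i)).add (hX _ (hs hB.rd)))
    refine (RD.sum Finset.univ fun i _ => h1 i).mono 1 fun v => ?_
    rw [one_mul, Real.norm_of_nonneg (Finset.sum_nonneg fun i _ => abs_nonneg _)]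
    exact GGd_fderiv_le _ v
  · have h1 : ∀ i j, RD fun v => |pd i (pd j (fun v => B v * Real.cos (θ - dot κ v))) v| :=
      fun i j => by
      simp only [GGd_two hB.smooth]
      refine habs (((hc (r2 i j)).add (hs ?_)).sub (hX _ (hc hB.rd)))
      exact (hX _ (hB.pd_RD i)).add (hX _ (hB.pd_RD j))
    refine (RD.sum Finset.univ fun i _ => RD.sum Finset.univ fun j _ => h1 i j).mono 1 fun v => ?_
    rw [one_mul, Real.norm_of_nonneg (Finset.sum_nonneg fun i _ =>
      Finset.sum_nonneg fun j _ => abs_nonneg _)]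
    exact GGd_fderiv2_le sm v

private lemma GGd_sum (s : Finset (Fin n)) {F : Vec d → ℝ} {f : Fin n → Vec d → ℝ} (hF : Nice F)
    (hf : ∀ l, Nice (f l)) : Nice fun v => F v + ∑ l ∈ s, f l v := by
  classical
  induction s using Finset.induction_on with
  | empty => simpa using hF
  | insert a s ha ih =>
    have h := GGd_add ih (hf a)
    have e : (fun v => F v + ∑ l ∈ insert a s, f l v) = fun v => F v + ∑ l ∈ s, f l v + f a v := by
      funext v
      rw [Finset.sum_insert ha]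
      ring
    rw [e]
    exact h

theorem gg_nice {F : Vec d → ℝ} {B : Fin n → Vec d → ℝ} (hF : Nice F) (hB : ∀ l, Nice (B l))
    (κ : Fin n → Vec d) (θ : Fin n → ℝ) : Nice (GG F B κ θ) := by
  have h := GGd_sum Finset.univ hF fun l => GGd_nice1 (hB l) (κ l) (θ l)
  exact h

end Pool.Agent.H82.LL
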