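import Pool.Agent.H82.LL.Amp
import Pool.Agent.H82.LL.GGd
import Pool.Agent.H82.LL.Elt

/-!
# Module HesB: size and second derivatives of the approximate solution in a slice

Notation: `X = δτ³`, `Y = Yf δ τ = ((1+X)²)⁻¹`, `κ_l = (2πτ)•k_l`, `B_l = Bm X (cs l) (Gs l)`. `amp_c2` with `q = d + 14`: `C2B (Wp (d+14)) (kB M Y) (B_l)`; `amp_le` with `q = d + 16`: `|B_l v| ≤ a_l (1+4/c₀)^4 ((1+X)^4)⁻¹ Wp (d+16) v`, `((1+X)^4)⁻¹ ≤ Y ≤ (1+X)⁻¹`.
`gs_pd`: `gg_pd`. `gs_rem`: `E_ij = pd i (pd j gs) + Σ_l κ_l i κ_l j B_l cos` is `pd i (pd j F) + Σ_l [..]`: `|E_ij| ≤ M Wp (d+20) + Σ_l kB M Y (1 + 4πτ len (k_l)) Wp (d+14)` and `τ Y ≤ η' τ² Y + (4η')⁻¹` (`tau_eta`, `yf_pos`) with `η' = η/(1 + kB M 4π Σ_l len (k_l))`.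
`gs_hes`: sum over `i, j`; `Σ_ij |κ_l i κ_l j| = (Σ_i |κ_l i|)² ≤ d nsq κ_l = d (2π)² τ² (len k_l)²`. `gs_sub`: `|gs - F| ≤ Σ |B_l|`, `|F| ≤ MF Wp (d+20)`, `a l ≥ 0` by `Dat.c3`.
-/

set_option autoImplicit false

open MeasureTheory Set Filter Topology Pool.Agent.H25.Kin Pool.Agent.H48.PR
open Pool.Agent.H48.PL
open Pool.Agent.H15.AV (ab)
open Pool.Agent.H82.HF (GG Bq CG)

namespace Pool.Agent.H82.LL

variable {d : ℕ} {γ : ℝ}

private lemma HesB_wp {p q : ℕ} (h : p ≤ q) (v : Vec d) : Wp q v ≤ Wp p v := by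
  have hn := sq_nonneg' v
  unfold Wp
  gcongr
  linarith

private lemma HesB_X {δ τ : ℝ} (hδ : 0 < δ) (hτ : 0 < τ) : 0 ≤ δ * τ ^ 3 := by positivity

/-- `C²` bound of the amplitudes -/
private lemma HesB_amp {c₀ : ℝ} (hc₀ : 0 < c₀) (K : ℝ) : ∃ kB : ℝ, 0 ≤ kB ∧
    ∀ (MF M L : ℝ) (n : ℕ) (a : Fin n → ℝ) (k : Fin n → Vec d) (δ τ : ℝ) (F : Vec d → ℝ)
      (cs Gs : Fin n → Vec d → ℝ), Dat γ c₀ MF M K L a k δ τ F cs Gs → ∀ l,
      C2B (Wp (d + 14)) (kB * M * Yf δ τ) (Bm (δ * τ ^ 3) (cs l) (Gs l)) := by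
  obtain ⟨kB, hkB, h⟩ := amp_c2 (d := d) hc₀ K
  exact ⟨kB, hkB, fun MF M L n a k δ τ F cs Gs hD l =>
    h (d + 14) M _ _ _ (HesB_X hD.d0 hD.t0) (hD.c2 l) (hD.g2 l) (hD.g0 l)⟩

private lemma HesB_a {c₀ MF M K L : ℝ} {n : ℕ} {a : Fin n → ℝ} {k : Fin n → Vec d}
    {δ τ : ℝ} {F : Vec d → ℝ} {cs Gs : Fin n → Vec d → ℝ}
    (hD : Dat γ c₀ MF M K L a k δ τ F cs Gs) (l : Fin n) : 0 ≤ a l := by
  have h := (abs_nonneg _).trans (hD.c3 l 0)
  exact nonneg_of_mul_nonneg_left h (Wp_pos _ _)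

private lemma HesB_MF {c₀ MF M K L : ℝ} {n : ℕ} {a : Fin n → ℝ} {k : Fin n → Vec d}
    {δ τ : ℝ} {F : Vec d → ℝ} {cs Gs : Fin n → Vec d → ℝ}
    (hD : Dat γ c₀ MF M K L a k δ τ F cs Gs) : 0 ≤ MF := by
  have h := (abs_nonneg _).trans (hD.F3 0)
  exact nonneg_of_mul_nonneg_left h (Wp_pos _ _)

/-- the size of the amplitudes -/
private lemma HesB_B {c₀ MF M K L : ℝ} (hc₀ : 0 < c₀) {n : ℕ} {a : Fin n → ℝ} {k : Fin n → Vec d}
    {δ τ : ℝ} {F : Vec d → ℝ} {cs Gs : Fin n → Vec d → ℝ}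
    (hD : Dat γ c₀ MF M K L a k δ τ F cs Gs) (l : Fin n) (v : Vec d) :
    |Bm (δ * τ ^ 3) (cs l) (Gs l) v| ≤ (1 + 4 / c₀) ^ 4 * a l * Yf δ τ * Wp (d + 16) v := by
  have hX := HesB_X hD.d0 hD.t0
  have h := amp_le hc₀ hX (q := d + 16) (hD.c3 l) (hD.g0 l) v
  refine h.trans ?_
  have h1 : ((1 + δ * τ ^ 3) ^ 4)⁻¹ ≤ Yf δ τ := by
    unfold Yf
    refine inv_anti₀ (by positivity) ?_
    exact pow_le_pow_right₀ (by linarith) (by norm_num)
  have ha := HesB_a hD l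
  have hW := Wp_pos (d + 16) v
  calc a l * (1 + 4 / c₀) ^ 4 * ((1 + δ * τ ^ 3) ^ 4)⁻¹ * Wp (d + 16) v
      ≤ a l * (1 + 4 / c₀) ^ 4 * Yf δ τ * Wp (d + 16) v := by gcongr
    _ = _ := by ring

private lemma HesB_gs {δ τ : ℝ} {n : ℕ} (k : Fin n → Vec d) (F : Vec d → ℝ)
    (cs Gs : Fin n → Vec d → ℝ) (th : Fin n → ℝ) (v : Vec d) :
    gs δ τ k F cs Gs th v - F v = ∑ l, Bm (δ * τ ^ 3) (cs l) (Gs l) v *
      Real.cos (th l - dot ((2 * Real.pi * τ) • k l) v) := by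
  unfold gs GG
  ring

private lemma HesB_coord (z : Vec d) (i : Fin d) : |z i| ≤ len z := by
  have h : z i ^ 2 ≤ len z ^ 2 := by
    rw [len_sq]
    unfold nsq
    exact Finset.single_le_sum (f := fun i => z i ^ 2) (fun i _ => sq_nonneg _) (Finset.mem_univ i)
  exact abs_le_of_sq_le_sq h (len_nonneg z)

/-- the part of the second derivatives without the factor `τ²` -/
noncomputable def Er (δ τ : ℝ) {n : ℕ} (k : Fin n → Vec d) (F : Vec d → ℝ)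
    (cs Gs : Fin n → Vec d → ℝ) (th : Fin n → ℝ) (i j : Fin d) (v : Vec d) : ℝ :=
  pd i (pd j (gs δ τ k F cs Gs th)) v + ∑ l, ((2 * Real.pi * τ) • k l) i *
    ((2 * Real.pi * τ) • k l) j * (Bm (δ * τ ^ 3) (cs l) (Gs l) v *
      Real.cos (th l - dot ((2 * Real.pi * τ) • k l) v))

theorem gs_rem {c₀ : ℝ} (hc₀ : 0 < c₀) (MF M K L : ℝ) {n : ℕ} (a : Fin n → ℝ) (k : Fin n → Vec d)
    {η : ℝ} (hη : 0 < η) : ∃ K₁ : ℝ, 0 ≤ K₁ ∧ ∀ (δ τ : ℝ) (F : Vec d → ℝ)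
      (cs Gs : Fin n → Vec d → ℝ), Dat γ c₀ MF M K L a k δ τ F cs Gs → ∀ (th : Fin n → ℝ)
      (i j : Fin d) (v : Vec d), |Er δ τ k F cs Gs th i j v| ≤
        (K₁ + η * (τ ^ 2 * Yf δ τ)) * Wp (d + 14) v := by
  obtain ⟨kB, hkB, hamp⟩ := HesB_amp (d := d) (γ := γ) hc₀ K
  set A : ℝ := 4 * Real.pi * ∑ l, len (k l) with hA
  have hA0 : 0 ≤ A := by
    have : 0 ≤ ∑ l, len (k l) := Finset.sum_nonneg fun l _ => len_nonneg _
    positivity
  set P : ℝ := kB * |M| * A with hP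
  have hP0 : 0 ≤ P := by positivity
  set η' : ℝ := η / (1 + P) with hη'
  have hη0 : 0 < η' := by positivity
  have hPη : P * η' ≤ η := by
    rw [hη', mul_div_assoc', div_le_iff₀ (by positivity)]
    nlinarith
  refine ⟨|M| + kB * |M| * n + P * (4 * η')⁻¹, by positivity, ?_⟩
  intro δ τ F cs Gs hD th i j v
  have hM0 : 0 ≤ M := hD.F2.nn
  have hMa : |M| = M := abs_of_nonneg hM0
  have hX := HesB_X hD.d0 hD.t0
  obtain ⟨hY0, hY1⟩ := yf_pos hD.d0 hD.t0.le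
  have hW := Wp_pos (d + 14) v
  have hB := hamp MF M L n a k δ τ F cs Gs hD
  have hτ := hD.t0
  have hEr : Er δ τ k F cs Gs th i j v = pd i (pd j F) v +
      ∑ l, (pd i (pd j (Bm (δ * τ ^ 3) (cs l) (Gs l))) v *
        Real.cos (th l - dot ((2 * Real.pi * τ) • k l) v) +
        (((2 * Real.pi * τ) • k l) j * pd i (Bm (δ * τ ^ 3) (cs l) (Gs l)) v +
          ((2 * Real.pi * τ) • k l) i * pd j (Bm (δ * τ ^ 3) (cs l) (Gs l)) v) *
          Real.sin (th l - dot ((2 * Real.pi * τ) • k l) v)) := by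
    unfold Er
    have h := gg_pd (F := F) (B := fun j => Bm (δ * τ ^ 3) (cs j) (Gs j)) hD.F2.sm
      (fun l => (hB l).sm) (fun j => (2 * Real.pi * τ) • k j) th i j v
    have h' : gs δ τ k F cs Gs th = GG F (fun j => Bm (δ * τ ^ 3) (cs j) (Gs j))
      (fun j => (2 * Real.pi * τ) • k j) th := rfl
    rw [h', h]
    ring
  have hpi := Real.pi_pos
  have hterm : ∀ l ∈ (Finset.univ : Finset (Fin n)),
      |pd i (pd j (Bm (δ * τ ^ 3) (cs l) (Gs l))) v *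
        Real.cos (th l - dot ((2 * Real.pi * τ) • k l) v) +
        (((2 * Real.pi * τ) • k l) j * pd i (Bm (δ * τ ^ 3) (cs l) (Gs l)) v +
          ((2 * Real.pi * τ) • k l) i * pd j (Bm (δ * τ ^ 3) (cs l) (Gs l)) v) *
          Real.sin (th l - dot ((2 * Real.pi * τ) • k l) v)| ≤
      (1 + 4 * Real.pi * len (k l) * τ) * (kB * M * Yf δ τ * Wp (d + 14) v) := by
    intro l _
    set U : ℝ := kB * M * Yf δ τ * Wp (d + 14) v with hU
    have hU0 : 0 ≤ U := by positivity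
    have h1 : |pd i (pd j (Bm (δ * τ ^ 3) (cs l) (Gs l))) v| ≤ U := (hB l).d2 i j v
    have h2 : |pd i (Bm (δ * τ ^ 3) (cs l) (Gs l)) v| ≤ U := (hB l).d1 i v
    have h3 : |pd j (Bm (δ * τ ^ 3) (cs l) (Gs l)) v| ≤ U := (hB l).d1 j v
    have h4 : ∀ m : Fin d, |((2 * Real.pi * τ) • k l) m| ≤ 2 * Real.pi * τ * len (k l) := by
      intro m
      rw [Pi.smul_apply, smul_eq_mul, abs_mul, abs_of_nonneg (by positivity)]
      exact mul_le_mul_of_nonneg_left (HesB_coord _ _) (by positivity)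
    have hl0 := len_nonneg (k l)
    refine (abs_add_le _ _).trans ?_
    rw [abs_mul, abs_mul]
    have h5 : |((2 * Real.pi * τ) • k l) j * pd i (Bm (δ * τ ^ 3) (cs l) (Gs l)) v +
          ((2 * Real.pi * τ) • k l) i * pd j (Bm (δ * τ ^ 3) (cs l) (Gs l)) v| ≤
        2 * Real.pi * τ * len (k l) * U + 2 * Real.pi * τ * len (k l) * U := by
      refine (abs_add_le _ _).trans ?_
      rw [abs_mul, abs_mul]
      exact add_le_add (mul_le_mul (h4 j) h2 (abs_nonneg _) (by positivity))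
        (mul_le_mul (h4 i) h3 (abs_nonneg _) (by positivity))
    calc |pd i (pd j (Bm (δ * τ ^ 3) (cs l) (Gs l))) v| *
          |Real.cos (th l - dot ((2 * Real.pi * τ) • k l) v)| +
          |((2 * Real.pi * τ) • k l) j * pd i (Bm (δ * τ ^ 3) (cs l) (Gs l)) v +
          ((2 * Real.pi * τ) • k l) i * pd j (Bm (δ * τ ^ 3) (cs l) (Gs l)) v| *
          |Real.sin (th l - dot ((2 * Real.pi * τ) • k l) v)|
        ≤ U * 1 + (2 * Real.pi * τ * len (k l) * U + 2 * Real.pi * τ * len (k l) * U) * 1 := by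
          refine add_le_add (mul_le_mul h1 (Real.abs_cos_le_one _) (abs_nonneg _) hU0)
            (mul_le_mul h5 (Real.abs_sin_le_one _) (abs_nonneg _) (by positivity))
      _ = (1 + 4 * Real.pi * len (k l) * τ) * U := by ring
  have hF : |pd i (pd j F) v| ≤ M * Wp (d + 14) v :=
    (hD.F2.d2 i j v).trans (mul_le_mul_of_nonneg_left (HesB_wp (by omega) v) hM0)
  have hsum : ∑ l, (1 + 4 * Real.pi * len (k l) * τ) * (kB * M * Yf δ τ * Wp (d + 14) v) =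
      (n + A * τ) * (kB * M * Yf δ τ * Wp (d + 14) v) := by
    rw [← Finset.sum_mul, Finset.sum_add_distrib]
    congr 2
    · simp
    · rw [hA, Finset.mul_sum, Finset.sum_mul]
  have htau := tau_eta (η := η') (τ := τ) hη0
  rw [hEr, hMa]
  refine (abs_add_le _ _).trans ?_
  have h6 := (Finset.abs_sum_le_sum_abs (fun l => pd i (pd j (Bm (δ * τ ^ 3) (cs l) (Gs l))) v *
        Real.cos (th l - dot ((2 * Real.pi * τ) • k l) v) +
        (((2 * Real.pi * τ) • k l) j * pd i (Bm (δ * τ ^ 3) (cs l) (Gs l)) v +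
          ((2 * Real.pi * τ) • k l) i * pd j (Bm (δ * τ ^ 3) (cs l) (Gs l)) v) *
          Real.sin (th l - dot ((2 * Real.pi * τ) • k l) v)) Finset.univ).trans
    (Finset.sum_le_sum hterm)
  rw [hsum] at h6
  refine (add_le_add hF h6).trans ?_
  have hPM : P = kB * M * A := by rw [hP, hMa]
  have h7 : (n + A * τ) * (kB * M * Yf δ τ) ≤
      kB * M * n + P * (4 * η')⁻¹ + η * (τ ^ 2 * Yf δ τ) := by
    calc (n + A * τ) * (kB * M * Yf δ τ)
        = kB * M * n * Yf δ τ + P * (τ * Yf δ τ) := by rw [hPM]; ring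
      _ ≤ kB * M * n * 1 + P * ((η' * τ ^ 2 + (4 * η')⁻¹) * Yf δ τ) := by gcongr
      _ = kB * M * n + (P * η') * (τ ^ 2 * Yf δ τ) + P * (4 * η')⁻¹ * Yf δ τ := by ring
      _ ≤ kB * M * n + η * (τ ^ 2 * Yf δ τ) + P * (4 * η')⁻¹ * 1 := by gcongr
      _ = _ := by ring
  calc M * Wp (d + 14) v + (n + A * τ) * (kB * M * Yf δ τ * Wp (d + 14) v)
      = (M + (n + A * τ) * (kB * M * Yf δ τ)) * Wp (d + 14) v := by ring
    _ ≤ (M + kB * M * n + P * (4 * η')⁻¹ + η * (τ ^ 2 * Yf δ τ)) * Wp (d + 14) v := by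
        refine mul_le_mul_of_nonneg_right ?_ hW.le
        linarith

theorem gs_hes {c₀ : ℝ} (hc₀ : 0 < c₀) (MF M K L : ℝ) {n : ℕ} (a : Fin n → ℝ) (k : Fin n → Vec d)
    {η : ℝ} (hη : 0 < η) : ∃ K₁ : ℝ, 0 ≤ K₁ ∧ ∀ (δ τ : ℝ) (F : Vec d → ℝ)
      (cs Gs : Fin n → Vec d → ℝ), Dat γ c₀ MF M K L a k δ τ F cs Gs → ∀ (th : Fin n → ℝ)
      (v : Vec d), ∑ i, ∑ j, |pd i (pd j (gs δ τ k F cs Gs th)) v| ≤
        (K₁ + η * (τ ^ 2 * Yf δ τ)) * Wp (d + 14) v +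
        d * (2 * Real.pi) ^ 2 * (1 + 4 / c₀) ^ 4 * (∑ l, a l * len (k l) ^ 2) *
          (τ ^ 2 * Yf δ τ) * Wp (d + 14) v := by
  have hη1 : 0 < η / ((d : ℝ) * d + 1) := by positivity
  obtain ⟨K₁, hK₁, h⟩ := gs_rem (γ := γ) hc₀ MF M K L a k hη1
  refine ⟨(d : ℝ) * d * K₁, by positivity, ?_⟩
  intro δ τ F cs Gs hD th v
  obtain ⟨hY0, hY1⟩ := yf_pos hD.d0 hD.t0.le
  have hτ := hD.t0
  have hW := Wp_pos (d + 14) v
  have hpi := Real.pi_pos
  have h1 : ∀ i j : Fin d, |pd i (pd j (gs δ τ k F cs Gs th)) v| ≤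
      (K₁ + η / ((d : ℝ) * d + 1) * (τ ^ 2 * Yf δ τ)) * Wp (d + 14) v +
        ∑ l, (|((2 * Real.pi * τ) • k l) i| * |((2 * Real.pi * τ) • k l) j|) *
          |Bm (δ * τ ^ 3) (cs l) (Gs l) v| := by
    intro i j
    have h2 := h δ τ F cs Gs hD th i j v
    have h3 : pd i (pd j (gs δ τ k F cs Gs th)) v = Er δ τ k F cs Gs th i j v -
        ∑ l, ((2 * Real.pi * τ) • k l) i * ((2 * Real.pi * τ) • k l) j *
          (Bm (δ * τ ^ 3) (cs l) (Gs l) v *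
          Real.cos (th l - dot ((2 * Real.pi * τ) • k l) v)) := by
      unfold Er
      ring
    rw [h3]
    refine (abs_sub _ _).trans (add_le_add h2 ?_)
    refine (Finset.abs_sum_le_sum_abs _ _).trans (Finset.sum_le_sum fun l _ => ?_)
    rw [abs_mul, abs_mul, abs_mul]
    refine mul_le_mul_of_nonneg_left ?_ (by positivity)
    exact mul_le_of_le_one_right (abs_nonneg _) (Real.abs_cos_le_one _)
  refine (Finset.sum_le_sum fun i _ => Finset.sum_le_sum fun j _ => h1 i j).trans ?_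
  simp only [Finset.sum_add_distrib]
  have h4 : ∑ _i : Fin d, ∑ _j : Fin d,
      (K₁ + η / ((d : ℝ) * d + 1) * (τ ^ 2 * Yf δ τ)) * Wp (d + 14) v ≤
      ((d : ℝ) * d * K₁ + η * (τ ^ 2 * Yf δ τ)) * Wp (d + 14) v := by
    rw [Finset.sum_const, Finset.sum_const, Finset.card_univ, Fintype.card_fin, nsmul_eq_mul,
      nsmul_eq_mul]
    have h5 : (d : ℝ) * d * (η / ((d : ℝ) * d + 1)) ≤ η := by
      rw [mul_div_assoc', div_le_iff₀ (by positivity)]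
      nlinarith
    calc (d : ℝ) * (d * ((K₁ + η / ((d : ℝ) * d + 1) * (τ ^ 2 * Yf δ τ)) * Wp (d + 14) v))
        = ((d : ℝ) * d * K₁ + (d : ℝ) * d * (η / ((d : ℝ) * d + 1)) * (τ ^ 2 * Yf δ τ)) *
            Wp (d + 14) v := by ring
      _ ≤ _ := by gcongr
  have h6 : ∑ i : Fin d, ∑ j : Fin d, ∑ l, (|((2 * Real.pi * τ) • k l) i| *
      |((2 * Real.pi * τ) • k l) j|) * |Bm (δ * τ ^ 3) (cs l) (Gs l) v| ≤
      d * (2 * Real.pi) ^ 2 * (1 + 4 / c₀) ^ 4 * (∑ l, a l * len (k l) ^ 2) *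
          (τ ^ 2 * Yf δ τ) * Wp (d + 14) v := by
    have h7 : ∑ i : Fin d, ∑ j : Fin d, ∑ l, (|((2 * Real.pi * τ) • k l) i| *
        |((2 * Real.pi * τ) • k l) j|) * |Bm (δ * τ ^ 3) (cs l) (Gs l) v| =
        ∑ l, (∑ i, |((2 * Real.pi * τ) • k l) i|) ^ 2 * |Bm (δ * τ ^ 3) (cs l) (Gs l) v| := by
      calc _ = ∑ i : Fin d, ∑ l, ∑ j : Fin d, (|((2 * Real.pi * τ) • k l) i| *
            |((2 * Real.pi * τ) • k l) j|) * |Bm (δ * τ ^ 3) (cs l) (Gs l) v| :=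
            Finset.sum_congr rfl fun i _ => Finset.sum_comm
        _ = ∑ l, ∑ i : Fin d, ∑ j : Fin d, (|((2 * Real.pi * τ) • k l) i| *
            |((2 * Real.pi * τ) • k l) j|) * |Bm (δ * τ ^ 3) (cs l) (Gs l) v| := Finset.sum_comm
        _ = _ := Finset.sum_congr rfl fun l _ => by
            rw [pow_two, Finset.sum_mul_sum, Finset.sum_mul]
            exact Finset.sum_congr rfl fun i _ => by rw [Finset.sum_mul]
    rw [h7]
    have h8 : ∀ l ∈ (Finset.univ : Finset (Fin n)),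
        (∑ i, |((2 * Real.pi * τ) • k l) i|) ^ 2 * |Bm (δ * τ ^ 3) (cs l) (Gs l) v| ≤
        (a l * len (k l) ^ 2) * (d * (2 * Real.pi) ^ 2 * (1 + 4 / c₀) ^ 4 *
          (τ ^ 2 * Yf δ τ) * Wp (d + 14) v) := by
      intro l _
      have h9 : (∑ i, |((2 * Real.pi * τ) • k l) i|) ^ 2 ≤
          d * ((2 * Real.pi * τ) ^ 2 * len (k l) ^ 2) := by
        have h10 := sq_sum_le_card_mul_sum_sq (s := (Finset.univ : Finset (Fin d)))
          (f := fun i => |((2 * Real.pi * τ) • k l) i|)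
        rw [Finset.card_univ, Fintype.card_fin] at h10
        refine h10.trans (le_of_eq ?_)
        congr 1
        rw [len_sq, ← nsq_smul]
        unfold nsq
        exact Finset.sum_congr rfl fun i _ => by rw [sq_abs]
      have ha := HesB_a hD l
      have h11 := HesB_B hc₀ hD l v
      have h12 : Wp (d + 16) v ≤ Wp (d + 14) v := HesB_wp (by omega) v
      calc (∑ i, |((2 * Real.pi * τ) • k l) i|) ^ 2 * |Bm (δ * τ ^ 3) (cs l) (Gs l) v|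
          ≤ (d * ((2 * Real.pi * τ) ^ 2 * len (k l) ^ 2)) *
              ((1 + 4 / c₀) ^ 4 * a l * Yf δ τ * Wp (d + 14) v) := by
            refine mul_le_mul h9 (h11.trans ?_) (abs_nonneg _) (by positivity)
            gcongr
        _ = _ := by ring
    refine (Finset.sum_le_sum h8).trans (le_of_eq ?_)
    rw [← Finset.sum_mul]
    ring
  exact add_le_add h4 h6

theorem gs_nice {c₀ MF M K L : ℝ} (hc₀ : 0 < c₀) {n : ℕ} {a : Fin n → ℝ} {k : Fin n → Vec d}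
    {δ τ : ℝ} {F : Vec d → ℝ} {cs Gs : Fin n → Vec d → ℝ}
    (hD : Dat γ c₀ MF M K L a k δ τ F cs Gs) (th : Fin n → ℝ) : Nice (gs δ τ k F cs Gs th) := by
  have hX := HesB_X hD.d0 hD.t0
  refine gg_nice hD.F1 (fun l => amp_nice hX (hD.c1 l) (hD.g2 l) fun v => ?_) _ th
  have h := hD.g0 l v
  have hn := sq_nonneg' v
  have h2 : 0 ≤ c₀ * (1 + nsq v)⁻¹ := by positivity
  exact h2.trans h

theorem gs_sub {c₀ MF M K L : ℝ} (hc₀ : 0 < c₀) {n : ℕ} {a : Fin n → ℝ} {k : Fin n → Vec d}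
    {δ τ : ℝ} {F : Vec d → ℝ} {cs Gs : Fin n → Vec d → ℝ}
    (hD : Dat γ c₀ MF M K L a k δ τ F cs Gs) (th : Fin n → ℝ) (v : Vec d) :
    |gs δ τ k F cs Gs th v - F v| ≤
        (1 + 4 / c₀) ^ 4 * (∑ l, a l) * ((1 + δ * τ ^ 3) ^ 2)⁻¹ * Wp (d + 16) v ∧
      |gs δ τ k F cs Gs th v| ≤ (MF + (1 + 4 / c₀) ^ 4 * (∑ l, a l)) * Wp (d + 16) v := by
  obtain ⟨hY0, hY1⟩ := yf_pos hD.d0 hD.t0.le
  have hW := Wp_pos (d + 16) v
  have hs0 : 0 ≤ ∑ l, a l := Finset.sum_nonneg fun l _ => HesB_a hD l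
  have h1 : |gs δ τ k F cs Gs th v - F v| ≤
      (1 + 4 / c₀) ^ 4 * (∑ l, a l) * Yf δ τ * Wp (d + 16) v := by
    rw [HesB_gs]
    refine (Finset.abs_sum_le_sum_abs _ _).trans ?_
    have h2 : ∀ l ∈ (Finset.univ : Finset (Fin n)), |Bm (δ * τ ^ 3) (cs l) (Gs l) v *
        Real.cos (th l - dot ((2 * Real.pi * τ) • k l) v)| ≤
        a l * ((1 + 4 / c₀) ^ 4 * Yf δ τ * Wp (d + 16) v) := by
      intro l _
      rw [abs_mul]
      refine (mul_le_of_le_one_right (abs_nonneg _) (Real.abs_cos_le_one _)).trans ?_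
      refine (HesB_B hc₀ hD l v).trans (le_of_eq ?_)
      ring
    refine (Finset.sum_le_sum h2).trans (le_of_eq ?_)
    rw [← Finset.sum_mul]
    ring
  refine ⟨h1, ?_⟩
  have hMF := HesB_MF hD
  have h3 : |F v| ≤ MF * Wp (d + 16) v :=
    (hD.F3 v).trans (mul_le_mul_of_nonneg_left (HesB_wp (by omega) v) hMF)
  have h4 : |gs δ τ k F cs Gs th v| ≤ |F v| + |gs δ τ k F cs Gs th v - F v| := by
    have h5 := abs_add_le (F v) (gs δ τ k F cs Gs th v - F v)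
    rwa [add_sub_cancel] at h5
  have h6 : (1 + 4 / c₀) ^ 4 * (∑ l, a l) * Yf δ τ * Wp (d + 16) v ≤
      (1 + 4 / c₀) ^ 4 * (∑ l, a l) * 1 * Wp (d + 16) v := by gcongr
  linarith

end Pool.Agent.H82.LL
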