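import Pool.Agent.H82.LL.LayL
import Pool.Agent.H82.LL.ClsL
import Pool.Agent.H85.LN.Prp
import Pool.Agent.H48.LV.Defs

/-!
# Module HitD (Landau, dilute gas): the solution is close to the average after the layer

`layL0` with `κ = δ`, `N = 1`, `σ = 0` for `F = avX h'`, `h' x y v = h y v` (constant in the slow variable, `cub_one`, `avX_ns`), the family of `clsL`.
`X = δ (θ/(2δ))³ → ∞` as `δ → 0`.
-/

set_option autoImplicit false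

open MeasureTheory Set Filter Topology Pool.Agent.H25.Kin Pool.Agent.H48.PR
open Pool.Agent.H48.PL Pool.Agent.H37.LN
open Pool.Agent.H82.HF (SchT avT avT_nn avT_pos)
open Pool.Agent.H85.HW (Sch2 avX avX_nn schF_bd s2_sch)
open Pool.Agent.H85.LN (lsol_restrict)
open Pool.Agent.H48.LV (LSol)

namespace Pool.Agent.H82.LL

variable {d : ℕ} {γ : ℝ}

/-- pointwise decay from a weighted bound -/
private lemma HitD_le {q : ℕ} {v : Vec d} {a c : ℝ} (ha : 0 ≤ a)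
    (h : (1 + ‖v‖) ^ (2 * q) * a ≤ c) : a ≤ ((d : ℝ) + 1) ^ q * c * Wp q v := by
  have hn := norm_nonneg v
  have h2 : 1 + nsq v ≤ ((d : ℝ) + 1) * (1 + ‖v‖) ^ 2 := by
    have h3 := sq_le v
    have h4 : (0 : ℝ) ≤ d := Nat.cast_nonneg _
    nlinarith [mul_nonneg h4 hn]
  have h5 : (1 + nsq v) ^ q ≤ ((d : ℝ) + 1) ^ q * (1 + ‖v‖) ^ (2 * q) := by
    rw [pow_mul, ← mul_pow]
    exact pow_le_pow_left₀ (by have := sq_nonneg' v; linarith) h2 q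
  have h6 : 0 < (1 + nsq v) ^ q := by
    have := sq_nonneg' v
    positivity
  rw [Wp, ← div_eq_mul_inv, le_div_iff₀ h6]
  calc a * (1 + nsq v) ^ q ≤ a * (((d : ℝ) + 1) ^ q * (1 + ‖v‖) ^ (2 * q)) :=
        mul_le_mul_of_nonneg_left h5 ha
    _ = ((d : ℝ) + 1) ^ q * ((1 + ‖v‖) ^ (2 * q) * a) := by ring
    _ ≤ ((d : ℝ) + 1) ^ q * c := mul_le_mul_of_nonneg_left h (by positivity)

/-- weighted smallness by interpolation -/
private lemma HitD_near (p : ℕ) (B H : ℕ → ℝ) {ι : ℝ} (hι : 0 < ι) : ∃ ε > 0,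
    ∀ (v : Vec d) (a b : ℝ), 0 ≤ a → 0 ≤ b → (∀ N : ℕ, (1 + ‖v‖) ^ N * a ≤ B N) →
    (∀ N : ℕ, (1 + ‖v‖) ^ N * b ≤ H N) → |a - b| ≤ ε → |a - b| ≤ ι * Wp p v := by
  obtain ⟨C, hC⟩ : ∃ C : ℝ, C = |B (2 * (2 * p))| + |H (2 * (2 * p))| + 1 := ⟨_, rfl⟩
  have hC0 : 0 < C := by
    rw [hC]
    positivity
  obtain ⟨D, hD⟩ : ∃ D : ℝ, D = ((d : ℝ) + 1) ^ p := ⟨_, rfl⟩
  have hD0 : 0 < D := by
    rw [hD]
    positivity
  refine ⟨(ι / D) ^ 2 / C, by positivity, fun v a b ha hb hA hB hab => ?_⟩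
  have hn := norm_nonneg v
  have hw : 0 < (1 + ‖v‖) ^ (2 * p) := by positivity
  have h1 : (1 + ‖v‖) ^ (2 * (2 * p)) * |a - b| ≤ C := by
    have h2 : |a - b| ≤ a + b := by
      rw [abs_le]
      constructor <;> linarith
    have h3 : 0 < (1 + ‖v‖) ^ (2 * (2 * p)) := by positivity
    calc (1 + ‖v‖) ^ (2 * (2 * p)) * |a - b| ≤ (1 + ‖v‖) ^ (2 * (2 * p)) * (a + b) :=
          mul_le_mul_of_nonneg_left h2 h3.le
      _ = (1 + ‖v‖) ^ (2 * (2 * p)) * a + (1 + ‖v‖) ^ (2 * (2 * p)) * b := by ring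
      _ ≤ B (2 * (2 * p)) + H (2 * (2 * p)) := add_le_add (hA _) (hB _)
      _ ≤ C := by
          rw [hC]
          linarith [le_abs_self (B (2 * (2 * p))), le_abs_self (H (2 * (2 * p)))]
  have h4 : ((1 + ‖v‖) ^ (2 * p) * |a - b|) ^ 2 ≤ (ι / D) ^ 2 := by
    have h5 : ((1 + ‖v‖) ^ (2 * p) * |a - b|) ^ 2 =
        ((1 + ‖v‖) ^ (2 * (2 * p)) * |a - b|) * |a - b| := by
      rw [mul_pow, ← pow_mul]
      ring_nf
    rw [h5]
    calc ((1 + ‖v‖) ^ (2 * (2 * p)) * |a - b|) * |a - b| ≤ C * ((ι / D) ^ 2 / C) :=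
          mul_le_mul h1 hab (abs_nonneg _) hC0.le
      _ = (ι / D) ^ 2 := by field_simp
  have h6 : (1 + ‖v‖) ^ (2 * p) * |a - b| ≤ ι / D :=
    le_of_pow_le_pow_left₀ two_ne_zero (by positivity) h4
  have h7 := HitD_le (abs_nonneg (a - b)) h6
  rw [← hD, mul_div_cancel₀ _ hD0.ne'] at h7
  exact h7

/-- `δ (θ/(2δ))³` is large for small `δ` -/
private lemma HitD_N {θ : ℝ} (hθ : 0 < θ) (Y : ℝ) :
    ∃ δ₀ : ℝ, 0 < δ₀ ∧ δ₀ ≤ 1 ∧ ∀ δ ∈ Ioc (0 : ℝ) δ₀, Y ≤ δ * (θ / (2 * δ)) ^ 3 := by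
  refine ⟨min 1 (θ ^ 3 / (8 * (|Y| + 1))), lt_min one_pos (by positivity), min_le_left _ _,
    fun δ hδ => ?_⟩
  have h0 : 0 < δ := hδ.1
  have h1 : δ ≤ 1 := hδ.2.trans (min_le_left _ _)
  have h2 : δ ≤ θ ^ 3 / (8 * (|Y| + 1)) := hδ.2.trans (min_le_right _ _)
  have h3 : δ * (θ / (2 * δ)) ^ 3 = θ ^ 3 / (8 * δ ^ 2) := by
    field_simp
    ring
  rw [h3, le_div_iff₀ (by positivity)]
  rw [le_div_iff₀ (by positivity)] at h2
  have h4 : δ ^ 2 ≤ δ := by nlinarith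
  have h5 := le_abs_self Y
  have h6 := abs_nonneg Y
  calc Y * (8 * δ ^ 2) ≤ (|Y| + 1) * (8 * δ ^ 2) :=
        mul_le_mul_of_nonneg_right (by linarith) (by positivity)
    _ ≤ (|Y| + 1) * (8 * δ) := mul_le_mul_of_nonneg_left (by linarith) (by positivity)
    _ ≤ θ ^ 3 := by linarith

theorem hitD (hd : 2 ≤ d) (h1 : -2 < γ) (h2 : γ ≤ 0) {h : Vec d → Vec d → ℝ}
    (hh : SchT h) (hn : ∀ x v, 0 ≤ h x v) (hv : ∃ x v, 0 < h x v) (B : ℕ → ℝ) :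
    ∃ U₁ : ℕ → ℝ, ∀ ε > 0, ∃ θ > 0, ∃ ε' > 0, ∃ δ₀ : ℝ, 0 < δ₀ ∧ δ₀ ≤ 1 ∧
      ∀ δ ∈ Ioc (0 : ℝ) δ₀, ∀ (T : ℝ) (r : ℝ → Vec d → Vec d → ℝ), LSol γ δ T r → DC B (r 0) →
      (∀ x v, |r 0 x v - h x v| ≤ ε') →
      (∀ t ∈ Ico 0 T, t < θ / δ → DC U₁ (r t)) ∧
      (θ / (2 * δ) < T → ∀ x v, |r (θ / (2 * δ)) x v - avT h v| ≤ ε) := by
  have hd1 : 1 ≤ d := by omega
  obtain ⟨x₀, v₀, hxv⟩ := hv
  obtain ⟨h', hh'⟩ : ∃ h' : Vec d → Vec d → Vec d → ℝ, h' = fun _ y v => h y v := ⟨_, rfl⟩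
  have hS : Sch2 h' := by
    rw [hh']
    exact cub_one hh
  have hn' : ∀ x y v, 0 ≤ h' x y v := fun x y v => by
    rw [hh']
    exact hn y v
  have hFn := avX_nn hn'
  have hFe : ∀ x v, avX h' x v = avT h v := fun x v => by
    rw [hh']
    rfl
  have hFm : ∀ x, 0 < ∫ v, avX h' x v := fun x => by
    simp only [hFe]
    exact avT_pos hh hn hxv
  have hNS := avX_ns hS
  obtain ⟨F, hF⟩ : ∃ F, F = avX h' := ⟨_, rfl⟩
  rw [← hF] at hFn hFm hNS hFe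
  obtain ⟨Kst, hKst, hlay⟩ := layL0 hd h1 h2 hNS hFn hFm
  obtain ⟨A, hA0, hcls⟩ := clsL hd1 hS
  rw [← hF] at hcls
  obtain ⟨U₁, hU₁⟩ := hlay A B
  refine ⟨U₁, fun ε hε => ?_⟩
  -- the truncation error
  obtain ⟨ι₀, hι₀⟩ : ∃ ι₀ : ℝ, ι₀ = min 1 (ε / 4) / (2 * Real.exp (Kst * A)) := ⟨_, rfl⟩
  have hex := Real.exp_pos (Kst * A)
  have hι₀p : 0 < ι₀ := by
    rw [hι₀]
    exact div_pos (lt_min one_pos (by positivity)) (by positivity)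
  have hι₀e : 2 * Real.exp (Kst * A) * ι₀ = min 1 (ε / 4) := by
    rw [hι₀]
    field_simp
  obtain ⟨n, a, cc, k, φ, hFam, hsa, hsl, hap⟩ := hcls (ι₀ / 2) (by positivity)
  have hexp : 2 * Real.exp (Kst * ∑ j, a j * len (k j) ^ 2) * ι₀ ≤ min 1 (ε / 4) := by
    rw [← hι₀e]
    refine mul_le_mul_of_nonneg_right (mul_le_mul_of_nonneg_left ?_ two_pos.le) hι₀p.le
    exact Real.exp_le_exp.2 (mul_le_mul_of_nonneg_left hsl hKst)
  obtain ⟨θ, hθ, hlay'⟩ := hU₁ n a cc k φ hFam hsa ι₀ hι₀p (hexp.trans (min_le_left _ _))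
  obtain ⟨H, hH⟩ : ∃ H : ℕ → ℝ, ∀ (N : ℕ) (x v : Vec d), (1 + ‖v‖) ^ N * h x v ≤ H N := by
    choose H hH0 hH using fun N : ℕ => schF_bd (s2_sch hS) N
    refine ⟨H, fun N x v => ?_⟩
    have h1 := hH N 0 x v
    rw [abs_of_nonneg (hn' 0 x v)] at h1
    rwa [hh'] at h1
  obtain ⟨ε₁, hε₁, hwp⟩ := HitD_near (d := d) (d + 10) B H (half_pos hι₀p)
  obtain ⟨δ₀, hδ₀, hδ₁, hdel⟩ := HitD_N hθ (4 * (Kst * A) / ε)
  refine ⟨θ, hθ, ε₁, hε₁, δ₀, hδ₀, hδ₁, fun δ hδ T r hr hr0 hrh => ?_⟩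
  have hδ0 : 0 < δ := hδ.1
  have hδ1 : δ ≤ 1 := hδ.2.trans hδ₁
  have hτp : 0 < θ / (2 * δ) := by positivity
  rcases le_or_gt T 0 with hT0 | hT0
  · refine ⟨fun t ht => ?_, fun hT => ?_⟩
    · exact absurd (ht.1.trans_lt ht.2) (not_lt.2 hT0)
    · exact absurd (hτp.trans hT) (not_lt.2 hT0)
  obtain ⟨T', hT'⟩ : ∃ T' : ℝ, T' = min T (θ / δ) := ⟨_, rfl⟩
  have hT'T : T' ≤ T := by
    rw [hT']
    exact min_le_left _ _
  have hT'θ : δ * T' ≤ θ := by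
    have h3 : T' ≤ θ / δ := by
      rw [hT']
      exact min_le_right _ _
    rw [le_div_iff₀ hδ0] at h3
    linarith
  have hr' : IsLSol γ δ T' r := lsol_restrict hr hT'T
  have hinit : ∀ x v, |r 0 x v - (F (((0 : ℕ) : ℝ) • x) v + ∑ j, cc j (((0 : ℕ) : ℝ) • x) v *
      Real.cos (2 * Real.pi * dot (k j) (((1 : ℕ) : ℝ) • x) + φ j))| ≤ ι₀ * Wp (d + 10) v := by
    intro x v
    rw [Nat.cast_zero, zero_smul, Nat.cast_one, one_smul]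
    have h1 := hwp v (r 0 x v) (h x v) (hr.nonneg 0 ⟨le_rfl, hT0⟩ x v) (hn _ _)
      (fun M => hr0 M x v) (fun M => hH M x v) (hrh x v)
    have h3 := abs_sub_le (r 0 x v) (h x v) (F 0 v + ∑ j, cc j 0 v *
      Real.cos (2 * Real.pi * dot (k j) x + φ j))
    have h4 := hap 0 x v
    have h5 : h' 0 x v = h x v := by rw [hh']
    rw [h5] at h4
    linarith
  have hL := hlay' δ 1 0 hδ0 hδ1 le_rfl (Or.inl rfl) T' hT'θ r hr' hr0 hinit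
  have hKa : Kst * ∑ j, a j ≤ Kst * A := mul_le_mul_of_nonneg_left hsa hKst
  have hhalf : θ / (2 * δ) < θ / δ := by
    refine div_lt_div_of_pos_left hθ hδ0 ?_
    linarith
  constructor
  · intro t ht htτ M x v
    have ht' : t ∈ Ico 0 T' := ⟨ht.1, by rw [hT']; exact lt_min ht.2 htτ⟩
    exact (hL t ht' x v).2 M
  · intro hτT x v
    obtain ⟨τ', hτ'⟩ : ∃ τ' : ℝ, τ' = θ / (2 * δ) := ⟨_, rfl⟩
    rw [← hτ'] at hτT hτp hhalf ⊢
    have ht' : τ' ∈ Ico 0 T' := ⟨hτp.le, by rw [hT']; exact lt_min hτT hhalf⟩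
    have h1 := (hL τ' ht' x v).1
    rw [Nat.cast_zero, zero_smul, zero_mul, zero_smul, sub_zero, Nat.cast_one, div_one, one_mul,
      hFe] at h1
    have h3 := hdel δ hδ
    rw [← hτ'] at h3
    have h4 : Kst * (∑ j, a j) / (1 + δ * τ' ^ 3) ≤ ε / 4 := by
      have h5 : 0 ≤ δ * τ' ^ 3 := by positivity
      rw [div_le_iff₀ (by linarith)]
      have h6 : ε / 4 * (4 * (Kst * A) / ε) = Kst * A := by
        field_simp
      have h7 : ε / 4 * (4 * (Kst * A) / ε) ≤ ε / 4 * (δ * τ' ^ 3) :=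
        mul_le_mul_of_nonneg_left h3 (by positivity)
      have e2 : ε / 4 * (1 + δ * τ' ^ 3) = ε / 4 + ε / 4 * (δ * τ' ^ 3) := by ring
      rw [e2]
      linarith
    have h8 : 2 * Real.exp (Kst * ∑ j, a j * len (k j) ^ 2) * ι₀ ≤ ε / 4 :=
      hexp.trans (min_le_right _ _)
    have h9 := (Wp_pos (d + 10) v).le
    have h10 := Wp_le_one (d + 10) v
    calc |r τ' x v - avT h v| ≤ (2 * Real.exp (Kst * ∑ j, a j * len (k j) ^ 2) * ι₀ +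
          Kst * (∑ j, a j) / (1 + δ * τ' ^ 3)) * Wp (d + 10) v := h1
      _ ≤ ε / 2 * Wp (d + 10) v := mul_le_mul_of_nonneg_right (by linarith) h9
      _ ≤ ε / 2 * 1 := mul_le_mul_of_nonneg_left h10 (by positivity)
      _ ≤ ε := by linarith

end Pool.Agent.H82.LL
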