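import Pool.Agent.H82.LL.LayL
import Pool.Agent.H82.LL.ClsL
import Pool.Agent.H85.LN.Prp
import Pool.Agent.H48.LV.Defs

/-!
# Module HitW (Landau): after a short time the solution is close to the average of its initial value

The analogue of `two_scale` (H85/HW/TwoS) for the Landau equation: `layL0` with `κ = 1`, `σ = 1` for the family of `clsL`, the average is `C²`, Lipschitz in the slow variable (`avX_hx`).
`N⁻¹ (N τ')³ = N² τ'³ → ∞`.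
-/

set_option autoImplicit false

open MeasureTheory Set Filter Topology Pool.Agent.H25.Kin Pool.Agent.H48.PR
open Pool.Agent.H48.PL Pool.Agent.H37.LN
open Pool.Agent.H82.HF (SchT avT)
open Pool.Agent.H85.HW (Sch2 avX avX_hx avX_nn avX_pos schF_bd s2_sch)
open Pool.Agent.H85.LN (lsol_one lsol_restrict)
open Pool.Agent.H48.LV (LSol)

namespace Pool.Agent.H82.LL

variable {d : ℕ} {γ : ℝ}

/-- pointwise decay from a weighted bound -/
private lemma HitW_le {q : ℕ} {v : Vec d} {a c : ℝ} (ha : 0 ≤ a)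
    (h : (1 + ‖v‖) ^ (2 * q) * a ≤ c) : a ≤ ((d : ℝ) + 1) ^ q * c * Wp q v := by
  have hn := norm_nonneg v
  have h2 : 1 + nsq v ≤ ((d : ℝ) + 1) * (1 + ‖v‖) ^ 2 := by
    have h3 := sq_le v
    have h4 : (0 : ℝ) ≤ d := Nat.cast_nonneg _
    nlinarith [mul_nonneg h4 hn]
  have h5 : (1 + nsq v) ^ q ≤ ((d : ℝ) + 1) ^ q * (1 + ‖v‖) ^ (2 * q) := by
    rw [pow_mul, ← mul_pow]
    exact pow_le_pow_left₀ (by have := sq_nonneg' v; linarith) h2 q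
  have h6 : 0 < (1 + nsq v) ^ q := by
    have := sq_nonneg' v
    positivity
  rw [Wp, ← div_eq_mul_inv, le_div_iff₀ h6]
  calc a * (1 + nsq v) ^ q ≤ a * (((d : ℝ) + 1) ^ q * (1 + ‖v‖) ^ (2 * q)) :=
        mul_le_mul_of_nonneg_left h5 ha
    _ = ((d : ℝ) + 1) ^ q * ((1 + ‖v‖) ^ (2 * q) * a) := by ring
    _ ≤ ((d : ℝ) + 1) ^ q * c := mul_le_mul_of_nonneg_left h (by positivity)

/-- weighted smallness by interpolation -/
private lemma HitW_near (p : ℕ) (B H : ℕ → ℝ) {ι : ℝ} (hι : 0 < ι) : ∃ ε > 0,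
    ∀ (v : Vec d) (a b : ℝ), 0 ≤ a → 0 ≤ b → (∀ N : ℕ, (1 + ‖v‖) ^ N * a ≤ B N) →
    (∀ N : ℕ, (1 + ‖v‖) ^ N * b ≤ H N) → |a - b| ≤ ε → |a - b| ≤ ι * Wp p v := by
  obtain ⟨C, hC⟩ : ∃ C : ℝ, C = |B (2 * (2 * p))| + |H (2 * (2 * p))| + 1 := ⟨_, rfl⟩
  have hC0 : 0 < C := by
    rw [hC]
    positivity
  obtain ⟨D, hD⟩ : ∃ D : ℝ, D = ((d : ℝ) + 1) ^ p := ⟨_, rfl⟩
  have hD0 : 0 < D := by
    rw [hD]
    positivity
  refine ⟨(ι / D) ^ 2 / C, by positivity, fun v a b ha hb hA hB hab => ?_⟩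
  have hn := norm_nonneg v
  have hw : 0 < (1 + ‖v‖) ^ (2 * p) := by positivity
  have h1 : (1 + ‖v‖) ^ (2 * (2 * p)) * |a - b| ≤ C := by
    have h2 : |a - b| ≤ a + b := by
      rw [abs_le]
      constructor <;> linarith
    have h3 : 0 < (1 + ‖v‖) ^ (2 * (2 * p)) := by positivity
    calc (1 + ‖v‖) ^ (2 * (2 * p)) * |a - b| ≤ (1 + ‖v‖) ^ (2 * (2 * p)) * (a + b) :=
          mul_le_mul_of_nonneg_left h2 h3.le
      _ = (1 + ‖v‖) ^ (2 * (2 * p)) * a + (1 + ‖v‖) ^ (2 * (2 * p)) * b := by ring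
      _ ≤ B (2 * (2 * p)) + H (2 * (2 * p)) := add_le_add (hA _) (hB _)
      _ ≤ C := by
          rw [hC]
          linarith [le_abs_self (B (2 * (2 * p))), le_abs_self (H (2 * (2 * p)))]
  have h4 : ((1 + ‖v‖) ^ (2 * p) * |a - b|) ^ 2 ≤ (ι / D) ^ 2 := by
    have h5 : ((1 + ‖v‖) ^ (2 * p) * |a - b|) ^ 2 =
        ((1 + ‖v‖) ^ (2 * (2 * p)) * |a - b|) * |a - b| := by
      rw [mul_pow, ← pow_mul]
      ring_nf
    rw [h5]
    calc ((1 + ‖v‖) ^ (2 * (2 * p)) * |a - b|) * |a - b| ≤ C * ((ι / D) ^ 2 / C) :=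
          mul_le_mul h1 hab (abs_nonneg _) hC0.le
      _ = (ι / D) ^ 2 := by field_simp
  have h6 : (1 + ‖v‖) ^ (2 * p) * |a - b| ≤ ι / D :=
    le_of_pow_le_pow_left₀ two_ne_zero (by positivity) h4
  have h7 := HitW_le (abs_nonneg (a - b)) h6
  rw [← hD, mul_div_cancel₀ _ hD0.ne'] at h7
  exact h7

private lemma HitW_mono {p q : ℕ} (h : p ≤ q) (v : Vec d) : Wp q v ≤ Wp p v := by
  unfold Wp
  have h1 : 1 ≤ 1 + nsq v := by
    have : 0 ≤ nsq v := sq_nonneg' v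
    linarith
  exact inv_anti₀ (pow_pos (by linarith) _) (pow_le_pow_right₀ h1 h)

/-- `len v Wp v ≤ 1` -/
private lemma HitW_lw {q : ℕ} (hq : 1 ≤ q) (v : Vec d) : len v * Wp q v ≤ 1 := by
  have h1 := HitW_mono hq v
  have h2 := sq_nonneg' v
  have h3 : len v ≤ 1 + nsq v := by
    have h4 := len_sq v
    have h5 := len_nonneg v
    nlinarith [sq_nonneg (len v - 1)]
  have h6 := Wp_mul 1 v
  rw [pow_one] at h6
  calc len v * Wp q v ≤ (1 + nsq v) * Wp 1 v := mul_le_mul h3 h1 (Wp_pos q v).le (by linarith)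
    _ = 1 := by rw [mul_comm, h6]

private lemma HitW_len {t : ℝ} (ht : 0 ≤ t) (x v : Vec d) : len ((x - t • v) - x) = t * len v := by
  have h1 : (x - t • v) - x = -(t • v) := by abel
  have h2 : nsq (t • v) = t ^ 2 * nsq v := by
    unfold nsq
    rw [Finset.mul_sum]
    refine Finset.sum_congr rfl fun i _ => ?_
    rw [Pi.smul_apply, smul_eq_mul, mul_pow]
  rw [h1, len_neg]
  unfold len
  rw [h2, Real.sqrt_mul (sq_nonneg t), Real.sqrt_sq ht]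

/-- `N⁻¹ (N τ)³` is large for large `N` -/
private lemma HitW_N {τ : ℝ} (hτ : 0 < τ) (Y : ℝ) :
    ∃ n₀ : ℕ, 1 ≤ n₀ ∧ ∀ N : ℕ, n₀ ≤ N → Y ≤ 1 / (N : ℝ) * ((N : ℝ) * τ) ^ 3 := by
  have h1 : Tendsto (fun N : ℕ => ((N : ℝ) ^ 2) * τ ^ 3) atTop atTop :=
    ((tendsto_pow_atTop two_ne_zero).comp tendsto_natCast_atTop_atTop).atTop_mul_const
      (pow_pos hτ _)
  obtain ⟨n₁, hn₁⟩ := eventually_atTop.1 (h1.eventually_ge_atTop Y)
  refine ⟨max 1 n₁, le_max_left _ _, fun N hN => ?_⟩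
  have hN1 : 1 ≤ N := (le_max_left _ _).trans hN
  have hN0 : (0 : ℝ) < N := by exact_mod_cast hN1
  have h2 := hn₁ N ((le_max_right _ _).trans hN)
  refine h2.trans (le_of_eq ?_)
  field_simp

theorem hitW (hd : 2 ≤ d) (h1 : -2 < γ) (h2 : γ ≤ 0) {h : Vec d → Vec d → Vec d → ℝ}
    (hh : Sch2 h) (hn : ∀ x y v, 0 ≤ h x y v) (hv : ∀ x y, 0 < ∫ v, h x y v) (B : ℕ → ℝ) :
    ∃ U₁ : ℕ → ℝ, ∀ ε > 0, ∀ τ > 0, ∃ τ' ∈ Ioc (0 : ℝ) τ, ∃ ε' > 0, ∃ n₀ : ℕ, ∀ N ≥ n₀,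
      ∀ (T : ℝ) (f : ℝ → Vec d → Vec d → ℝ), IsLandauSol γ T f → DC B (f 0) →
      (∀ x v, |f 0 x v - h x ((N : ℝ) • x) v| ≤ ε') →
      (∀ t ∈ Ico 0 T, t < 2 * τ' → DC U₁ (f t)) ∧
      (τ' < T → ∀ x v, |f τ' x v - avX h x v| ≤ ε) := by
  have hd1 : 1 ≤ d := by omega
  obtain ⟨MF, hMF0, hMF⟩ := avX_hx hh (2 * d + 22)
  have hFn := avX_nn hn
  have hFm := avX_pos hh hn hv
  have hNS := avX_ns hh
  obtain ⟨F, hF⟩ : ∃ F, F = avX h := ⟨_, rfl⟩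
  rw [← hF] at hMF hFn hFm hNS ⊢
  obtain ⟨Kst, hKst, hlay⟩ := layL0 hd h1 h2 hNS hFn hFm
  obtain ⟨A, hA0, hcls⟩ := clsL hd1 hh
  rw [← hF] at hcls
  obtain ⟨U₁, hU₁⟩ := hlay A B
  refine ⟨U₁, fun ε hε τ hτ => ?_⟩
  -- the truncation error
  obtain ⟨ι₀, hι₀⟩ : ∃ ι₀ : ℝ, ι₀ = min 1 (ε / 4) / (2 * Real.exp (Kst * A)) := ⟨_, rfl⟩
  have hex := Real.exp_pos (Kst * A)
  have hι₀p : 0 < ι₀ := by
    rw [hι₀]
    exact div_pos (lt_min one_pos (by positivity)) (by positivity)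
  have hι₀e : 2 * Real.exp (Kst * A) * ι₀ = min 1 (ε / 4) := by
    rw [hι₀]
    field_simp
  obtain ⟨n, a, cc, k, φ, hFam, hsa, hsl, hap⟩ := hcls (ι₀ / 2) (by positivity)
  have hexp : 2 * Real.exp (Kst * ∑ j, a j * len (k j) ^ 2) * ι₀ ≤ min 1 (ε / 4) := by
    rw [← hι₀e]
    refine mul_le_mul_of_nonneg_right (mul_le_mul_of_nonneg_left ?_ two_pos.le) hι₀p.le
    exact Real.exp_le_exp.2 (mul_le_mul_of_nonneg_left hsl hKst)
  obtain ⟨θ, hθ, hlay'⟩ := hU₁ n a cc k φ hFam hsa ι₀ hι₀p (hexp.trans (min_le_left _ _))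
  obtain ⟨H, hH⟩ : ∃ H : ℕ → ℝ, ∀ (N : ℕ) (x y v : Vec d), (1 + ‖v‖) ^ N * h x y v ≤ H N := by
    choose H hH0 hH using fun N : ℕ => schF_bd (s2_sch hh) N
    refine ⟨H, fun N x y v => ?_⟩
    have h1 := hH N x y v
    rwa [abs_of_nonneg (hn x y v)] at h1
  obtain ⟨ε₁, hε₁, hwp⟩ := HitW_near (d := d) (d + 10) B H (half_pos hι₀p)
  obtain ⟨τ', hτ'⟩ : ∃ τ' : ℝ, τ' = min τ (min (θ / 2) (ε / (4 * (MF + 1)))) := ⟨_, rfl⟩
  have hτ'0 : 0 < τ' := by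
    rw [hτ']
    exact lt_min hτ (lt_min (by positivity) (by positivity))
  have hτ'1 : τ' ≤ τ := by
    rw [hτ']
    exact min_le_left _ _
  have hτ'2 : τ' ≤ θ / 2 := by
    rw [hτ']
    exact (min_le_right _ _).trans (min_le_left _ _)
  have hτ'3 : τ' ≤ ε / (4 * (MF + 1)) := by
    rw [hτ']
    exact (min_le_right _ _).trans (min_le_right _ _)
  obtain ⟨n₀, hn₀, hdel⟩ := HitW_N hτ'0 (4 * (Kst * A) / ε)
  refine ⟨τ', ⟨hτ'0, hτ'1⟩, ε₁, hε₁, n₀, fun N hN T f hf hf0 hfh => ?_⟩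
  rcases le_or_gt T 0 with hT0 | hT0
  · refine ⟨fun t ht => ?_, fun hT => ?_⟩
    · exact absurd (ht.1.trans_lt ht.2) (not_lt.2 hT0)
    · exact absurd (hτ'0.trans hT) (not_lt.2 hT0)
  have hN1 : 1 ≤ N := hn₀.trans hN
  have hN0 : (0 : ℝ) < N := by exact_mod_cast hN1
  obtain ⟨T', hT'⟩ : ∃ T' : ℝ, T' = min T θ := ⟨_, rfl⟩
  have hT'T : T' ≤ T := by
    rw [hT']
    exact min_le_left _ _
  have hT'θ : T' ≤ θ := by
    rw [hT']
    exact min_le_right _ _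
  have hf' : IsLSol γ 1 T' f := lsol_restrict (lsol_one hf) hT'T
  have hinit : ∀ x v, |f 0 x v - (F (((1 : ℕ) : ℝ) • x) v + ∑ j, cc j (((1 : ℕ) : ℝ) • x) v *
      Real.cos (2 * Real.pi * dot (k j) ((N : ℝ) • x) + φ j))| ≤ ι₀ * Wp (d + 10) v := by
    intro x v
    rw [Nat.cast_one, one_smul]
    have h1 := hwp v (f 0 x v) (h x ((N : ℝ) • x) v) (hf.nonneg 0 ⟨le_rfl, hT0⟩ x v) (hn _ _ _)
      (fun M => hf0 M x v) (fun M => hH M x _ v) (hfh x v)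
    have h3 := abs_sub_le (f 0 x v) (h x ((N : ℝ) • x) v) (F x v + ∑ j, cc j x v *
      Real.cos (2 * Real.pi * dot (k j) ((N : ℝ) • x) + φ j))
    have h4 := hap x ((N : ℝ) • x) v
    linarith
  have hL := hlay' 1 N 1 one_pos le_rfl hN1 (Or.inr ⟨rfl, rfl⟩) T' (by rw [one_mul]; exact hT'θ)
    f hf' hf0 hinit
  have hKa : Kst * ∑ j, a j ≤ Kst * A := mul_le_mul_of_nonneg_left hsa hKst
  have hτθ : 2 * τ' ≤ θ := by linarith
  constructor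
  · intro t ht htτ M x v
    have ht' : t ∈ Ico 0 T' := ⟨ht.1, by rw [hT']; exact lt_min ht.2 (htτ.trans_le hτθ)⟩
    exact (hL t ht' x v).2 M
  · intro hτT x v
    have ht' : τ' ∈ Ico 0 T' := ⟨hτ'0.le, by rw [hT']; exact lt_min hτT (by linarith)⟩
    have h1 := (hL τ' ht' x v).1
    rw [Nat.cast_one, one_smul, one_mul] at h1
    have h3 := hdel N hN
    have h4 : Kst * (∑ j, a j) / (1 + 1 / (N : ℝ) * ((N : ℝ) * τ') ^ 3) ≤ ε / 4 := by
      have h5 : 0 ≤ 1 / (N : ℝ) * ((N : ℝ) * τ') ^ 3 := by positivity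
      rw [div_le_iff₀ (by linarith)]
      have h6 : ε / 4 * (4 * (Kst * A) / ε) = Kst * A := by
        field_simp
      have h7 : ε / 4 * (4 * (Kst * A) / ε) ≤ ε / 4 * (1 / (N : ℝ) * ((N : ℝ) * τ') ^ 3) :=
        mul_le_mul_of_nonneg_left h3 (by positivity)
      have e2 : ε / 4 * (1 + 1 / (N : ℝ) * ((N : ℝ) * τ') ^ 3) =
          ε / 4 + ε / 4 * (1 / (N : ℝ) * ((N : ℝ) * τ') ^ 3) := by ring
      rw [e2]
      linarith
    have h8 : 2 * Real.exp (Kst * ∑ j, a j * len (k j) ^ 2) * ι₀ ≤ ε / 4 :=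
      hexp.trans (min_le_right _ _)
    have h9 := (Wp_pos (d + 10) v).le
    have h10 := Wp_le_one (d + 10) v
    have h11 : |f τ' x v - F (x - τ' • v) v| ≤ ε / 2 := by
      calc |f τ' x v - F (x - τ' • v) v| ≤ (2 * Real.exp (Kst * ∑ j, a j * len (k j) ^ 2) * ι₀ +
            Kst * (∑ j, a j) / (1 + 1 / (N : ℝ) * ((N : ℝ) * τ') ^ 3)) * Wp (d + 10) v := h1
        _ ≤ ε / 2 * Wp (d + 10) v := mul_le_mul_of_nonneg_right (by linarith) h9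
        _ ≤ ε / 2 * 1 := mul_le_mul_of_nonneg_left h10 (by positivity)
        _ = ε / 2 := mul_one _
    have h12 : |F (x - τ' • v) v - F x v| ≤ ε / 4 := by
      have h13 := hMF.lip (x - τ' • v) x v
      rw [HitW_len hτ'0.le] at h13
      have h14 := HitW_lw (show 1 ≤ 2 * d + 22 by omega) v
      have h15 : MF * τ' ≤ ε / 4 := by
        have h16 : MF * τ' ≤ (MF + 1) * (ε / (4 * (MF + 1))) :=
          mul_le_mul (by linarith) hτ'3 hτ'0.le (by linarith)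
        have h17 : (MF + 1) * (ε / (4 * (MF + 1))) = ε / 4 := by
          have : MF + 1 ≠ 0 := by positivity
          field_simp
        linarith
      calc |F (x - τ' • v) v - F x v| ≤ MF * (τ' * len v) * Wp (2 * d + 22) v := h13
        _ = MF * τ' * (len v * Wp (2 * d + 22) v) := by ring
        _ ≤ MF * τ' * 1 := mul_le_mul_of_nonneg_left h14 (mul_nonneg hMF0 hτ'0.le)
        _ ≤ ε / 4 := by rw [mul_one]; exact h15
    have h18 := abs_sub_le (f τ' x v) (F (x - τ' • v) v) (F x v)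
    linarith

end Pool.Agent.H82.LL
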