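import Pool.Agent.H82.LL.Defs
import Pool.Agent.H48.LN.Bd
import Pool.Agent.H82.BK.MaxPr

/-!
# Module PrpL: propagation of all decay constants, kernel factor `κ ≤ 1`, times `κ T ≤ 1`

As H48/PS/Prp.lean. Given `m`, `q = m + d + 10`. Let `f t x u (1+nsq u)^q ≤ f t x v (1+nsq v)^q` for all `u`: `f t x - Λ Wp q ≤ 0 = ` at `v`, `Λ = f t x v (1+nsq v)^q`. `landau_nd`, `ctr_nonpos`, `ctr_sub`, `ctr_smul`: `ctr f f v ≤ Λ ctr f (Wp q) v ≤ Λ d² K A₁ (1+nsq v) 8 (q+1)² Wp q v/(1+nsq v) = C f v`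
(`ab_bd` with `CW (d+10) |A₁| (f t x)`, `wp_pd_le`), `cb f v f v ≤ K |A₁| f v` (`cb_bd`, `(1+nsq v)^(γ/2) ≤ 1`). So `κ Q(f) v ≤ κ C' f v`. `max_principle` (H82/BK/MaxPr) with `m = 1`, `K = κ C'`: `f (1+nsq v)^q ≤ A₀ exp(κ C' t) ≤ A₀ exp(C')`, `A₀ = (d+1)^q |B (2q)|`;
`(1+‖v‖)^m ≤ 2^m (1+nsq v)^q`. `C' ≥ 0` so the constants depend on `|A₁|` only.
-/

set_option autoImplicit false

open MeasureTheory Set Filter Topology Pool.Agent.H25.Kin Pool.Agent.H48.PR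
open Pool.Agent.H48.PL
open Pool.Agent.H15.AV (ab)
open Pool.Agent.H82.HF (GG Bq CG)

namespace Pool.Agent.H82.LL

variable {d : ℕ} {γ : ℝ}

open Pool.Agent.H48.LN in
private theorem PrpL_op (hd : 2 ≤ d) (h1 : -2 < γ) (h2 : γ ≤ 0) (A : ℝ) (q : ℕ) :
    ∃ C : ℝ, 0 ≤ C ∧ ∀ F : Vec d → ℝ, Nice F → (∀ u, 0 ≤ F u) → (∀ u, F u ≤ A * Wp (d + 10) u) →
      ∀ v, (∀ u, F u * (1 + nsq u) ^ q ≤ F v * (1 + nsq v) ^ q) → landauQ γ F v ≤ C * F v := by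
  obtain ⟨K₁, hK₁, hab⟩ := ab_bd (d := d) h1 h2 (q := d + 10) (by omega)
  obtain ⟨K₂, hK₂, hcb⟩ := cb_bd (d := d) hd h1 h2 (q := d + 10) (by omega)
  refine ⟨(d : ℝ) ^ 2 * (K₁ * |A| * (8 * ((q : ℝ) + 1) ^ 2)) + K₂ * |A|, by positivity, ?_⟩
  intro F hF h0 hA v hmax
  have hCW : CW (d + 10) |A| F := ⟨hF.cont, fun u => by
    rw [abs_of_nonneg (h0 u)]
    exact (hA u).trans (mul_le_mul_of_nonneg_right (le_abs_self A) (Wp_pos _ u).le)⟩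
  have hn := sq_nonneg' v
  have hpos : 0 < 1 + nsq v := by linarith
  have hFv := h0 v
  set Λ : ℝ := F v * (1 + nsq v) ^ q with hΛ
  have hΛ0 : 0 ≤ Λ := mul_nonneg hFv (pow_nonneg hpos.le _)
  have heq : Λ * Wp q v = F v := by
    rw [hΛ]
    unfold Wp
    rw [mul_assoc, mul_inv_cancel₀ (pow_pos hpos q).ne', mul_one]
  have hψ : ContDiff ℝ 2 fun w : Vec d => Λ * Wp q w := contDiff_const.mul (wp_smooth q)
  have a1 : ctr γ F (fun w => F w - Λ * Wp q w) v ≤ 0 := by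
    refine ctr_nonpos h1 h2 hF h0 (hF.smooth.sub hψ) fun w => ?_
    have b1 := hmax w
    have hw : 0 < 1 + nsq w := by linarith [sq_nonneg' w]
    have b2 : F w ≤ Λ * Wp q w := by
      unfold Wp
      rw [← div_eq_mul_inv, le_div_iff₀ (pow_pos hw q)]
      exact b1
    show F w - Λ * Wp q w ≤ F v - Λ * Wp q v
    rw [heq]
    linarith
  rw [ctr_sub F hF.smooth hψ v, ctr_smul F (wp_smooth q) Λ v] at a1
  have a2 : ctr γ F (Wp q) v ≤ (d : ℝ) ^ 2 * (K₁ * |A| * (8 * ((q : ℝ) + 1) ^ 2)) * Wp q v := by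
    have b : ∀ i j, ab γ F i j v * pd i (pd j (Wp q)) v ≤
        (K₁ * |A| * (8 * ((q : ℝ) + 1) ^ 2)) * Wp q v := by
      intro i j
      have c1 := hab |A| F hCW i j v
      have c2 := wp_pd_le q i j v
      calc ab γ F i j v * pd i (pd j (Wp q)) v ≤ |ab γ F i j v * pd i (pd j (Wp q)) v| :=
            le_abs_self _
        _ = |ab γ F i j v| * |pd i (pd j (Wp q)) v| := abs_mul _ _
        _ ≤ (K₁ * |A| * (1 + nsq v)) * (8 * ((q : ℝ) + 1) ^ 2 * (Wp q v / (1 + nsq v))) :=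
            mul_le_mul c1 c2 (abs_nonneg _) (by positivity)
        _ = _ := by field_simp
    unfold ctr
    calc ∑ i, ∑ j, ab γ F i j v * pd i (pd j (Wp q)) v
        ≤ ∑ _i : Fin d, ∑ _j : Fin d, (K₁ * |A| * (8 * ((q : ℝ) + 1) ^ 2)) * Wp q v :=
          Finset.sum_le_sum fun i _ => Finset.sum_le_sum fun j _ => b i j
      _ = _ := by
          simp only [Finset.sum_const, Finset.card_univ, Fintype.card_fin, nsmul_eq_mul]
          ring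
  have a3 : cb γ F v * F v ≤ K₂ * |A| * F v := by
    have c1 := hcb |A| F hCW v
    have c2 : (1 + nsq v) ^ (γ / 2) ≤ 1 := Real.rpow_le_one_of_one_le_of_nonpos (by linarith) (by linarith)
    have c3 : cb γ F v ≤ K₂ * |A| := by
      refine (le_abs_self _).trans (c1.trans ?_)
      have : 0 ≤ K₂ * |A| := by positivity
      nlinarith
    exact mul_le_mul_of_nonneg_right c3 hFv
  have a4 : Λ * ctr γ F (Wp q) v ≤ (d : ℝ) ^ 2 * (K₁ * |A| * (8 * ((q : ℝ) + 1) ^ 2)) * F v := by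
    refine (mul_le_mul_of_nonneg_left a2 hΛ0).trans (le_of_eq ?_)
    rw [← heq]
    ring
  rw [landau_nd hd h1 h2 hF v]
  linarith

private theorem PrpL_norm1 (v : Vec d) : 1 + ‖v‖ ≤ 2 * (1 + nsq v) := by
  have h1 := norm_sq_le_sq v
  have h2 := norm_nonneg v
  nlinarith [sq_nonneg (‖v‖ - 1)]

private theorem PrpL_key (hd : 2 ≤ d) (h1 : -2 < γ) (h2 : γ ≤ 0) (A₁ : ℝ) (B : ℕ → ℝ) (m : ℕ) :
    ∃ U : ℝ, ∀ κ : ℝ, 0 < κ → κ ≤ 1 → ∀ T : ℝ, κ * T ≤ 1 → ∀ f : ℝ → Vec d → Vec d → ℝ,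
      IsLSol γ κ T f → (∀ m x v, (1 + ‖v‖) ^ m * f 0 x v ≤ B m) →
      (∀ t ∈ Ico 0 T, ∀ x v, f t x v ≤ A₁ * Wp (d + 10) v) →
      ∀ t ∈ Ico 0 T, ∀ x v, (1 + ‖v‖) ^ m * f t x v ≤ U := by
  set q : ℕ := m + d + 10 with hq
  obtain ⟨C', hC0, hop⟩ := PrpL_op (d := d) hd h1 h2 A₁ q
  set A₀ : ℝ := ((d : ℝ) + 1) ^ q * |B (2 * q)| with hA₀
  have hA00 : 0 ≤ A₀ := by rw [hA₀]; positivity
  refine ⟨2 ^ m * (A₀ * Real.exp C'), fun κ hκ hκ1 T hT f hf hf0 hfA t ht x v => ?_⟩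
  have hTpos : 0 < T := lt_of_le_of_lt ht.1 ht.2
  have hf' : IsClassicalSol T (fun t x v => κ * landauQ γ (f t x) v) f := hf
  have hmax := Pool.Agent.H82.BK.max_principle hf' q (m := fun _ => (1 : ℝ)) (K := κ * C')
    (mul_nonneg hκ.le hC0)
    (by
      have h1 : IntegrableOn (fun _ : ℝ => (1 : ℝ)) (Ioo 0 T) :=
        integrableOn_const (by rw [Real.volume_Ioo]; exact ENNReal.ofReal_ne_top)
      exact h1) (fun _ _ => zero_le_one)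
    (by
      intro t ht x v hdom
      have hn := IsClassicalSol.nice hf' ht x
      have hfn := fun u => hf'.nonneg t ⟨ht.1.le, ht.2⟩ x u
      have h3 := hop (f t x) hn hfn (fun u => hfA t ⟨ht.1.le, ht.2⟩ x u) v hdom
      have h4 := mul_le_mul_of_nonneg_left h3 hκ.le
      refine h4.trans (le_of_eq ?_)
      ring)
    (A₀ := A₀) (by
      intro x v
      have hn : 0 ≤ f 0 x v := hf'.nonneg 0 ⟨le_rfl, hTpos⟩ x v
      have h1 := one_add_sq_le v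
      have h2' : (1 + nsq v) ^ q ≤ ((d + 1) * (1 + ‖v‖) ^ 2) ^ q :=
        pow_le_pow_left₀ (by linarith [sq_nonneg' v]) h1 q
      rw [mul_pow, ← pow_mul] at h2'
      have h3 := hf0 (2 * q) x v
      calc f 0 x v * (1 + nsq v) ^ q ≤ f 0 x v * ((d + 1) ^ q * (1 + ‖v‖) ^ (2 * q)) :=
            mul_le_mul_of_nonneg_left h2' hn
        _ = (d + 1) ^ q * ((1 + ‖v‖) ^ (2 * q) * f 0 x v) := by ring
        _ ≤ (d + 1) ^ q * |B (2 * q)| :=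
            mul_le_mul_of_nonneg_left (h3.trans (le_abs_self _)) (by positivity)) t ht x v
  have hf1 : 0 ≤ f t x v := hf'.nonneg t ht x v
  have hint : ∫ _ in Ioc 0 t, (1 : ℝ) = t := by
    rw [← intervalIntegral.integral_of_le ht.1]
    simp
  rw [hint] at hmax
  have hκt : κ * t ≤ 1 := (mul_le_mul_of_nonneg_left ht.2.le hκ.le).trans hT
  have hexp : Real.exp (κ * C' * t) ≤ Real.exp C' := by
    refine Real.exp_le_exp.2 ?_
    have : κ * C' * t = C' * (κ * t) := by ring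
    rw [this]
    nlinarith
  have h8 : f t x v * (1 + nsq v) ^ q ≤ A₀ * Real.exp C' :=
    hmax.trans (mul_le_mul_of_nonneg_left hexp hA00)
  have h9 : (1 + ‖v‖) ^ m ≤ 2 ^ m * (1 + nsq v) ^ q := by
    have e1 : (1 + ‖v‖) ^ m ≤ (2 * (1 + nsq v)) ^ m := pow_le_pow_left₀ (w_pos v).le (PrpL_norm1 v) m
    rw [mul_pow] at e1
    have e2 : (1 + nsq v) ^ m ≤ (1 + nsq v) ^ q :=
      pow_le_pow_right₀ (by linarith [sq_nonneg' v]) (by omega)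
    exact e1.trans (mul_le_mul_of_nonneg_left e2 (by positivity))
  calc (1 + ‖v‖) ^ m * f t x v ≤ (2 ^ m * (1 + nsq v) ^ q) * f t x v :=
        mul_le_mul_of_nonneg_right h9 hf1
    _ = 2 ^ m * (f t x v * (1 + nsq v) ^ q) := by ring
    _ ≤ 2 ^ m * (A₀ * Real.exp C') := mul_le_mul_of_nonneg_left h8 (by positivity)

theorem prpL (hd : 2 ≤ d) (h1 : -2 < γ) (h2 : γ ≤ 0) (A₁ : ℝ) (B : ℕ → ℝ) :
    ∃ U : ℕ → ℝ, ∀ κ : ℝ, 0 < κ → κ ≤ 1 → ∀ T : ℝ, κ * T ≤ 1 → ∀ f : ℝ → Vec d → Vec d → ℝ,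
      IsLSol γ κ T f → (∀ m x v, (1 + ‖v‖) ^ m * f 0 x v ≤ B m) →
      (∀ t ∈ Ico 0 T, ∀ x v, f t x v ≤ A₁ * Wp (d + 10) v) →
      ∀ t ∈ Ico 0 T, ∀ m x v, (1 + ‖v‖) ^ m * f t x v ≤ U m := by
  choose U hU using PrpL_key (d := d) hd h1 h2 A₁ B
  exact ⟨U, fun κ hκ hκ1 T hT f hf hf0 hfA t ht m x v => hU m κ hκ hκ1 T hT f hf hf0 hfA t ht x v⟩

end Pool.Agent.H82.LL
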