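import Pool.Agent.H82.LL.OpL
import Pool.Agent.H82.LL.ContL
import Pool.Agent.H82.LL.DatL
import Pool.Agent.H82.LL.PrpL
import Pool.Agent.H82.HF.Amp

/-!
# Module LayL: THE LAYER LEMMA FOR THE LANDAU EQUATION, `-2 < γ ≤ 0`

As H82/HW/LayW.lean with `s = 1` in the barrier `Bq`, `δ = κ/N`, fast time `N t`: barrier `Bq 1 δ ι' Kr Kr KA (N t)`, `ι' = 5ι/6`, `KA = K₅ A/3 + log (6/5)`, `A = Σ_j a_j |k_j|²`. At a touching point (value `Λ ∈ [3ι'/2, 1]`) `opL` with `η = ι' log (6/5)`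
gives a contradiction with the derivative of the barrier.
-/

set_option autoImplicit false

open MeasureTheory Set Filter Topology Pool.Agent.H25.Kin Pool.Agent.H48.PR
open Pool.Agent.H48.PL
open Pool.Agent.H15.AV (ab)
open Pool.Agent.H82.HF (GG Bq CG)

namespace Pool.Agent.H82.LL

variable {d : ℕ} {γ : ℝ}

/-- the derivative at a touching point -/
private lemma LayL_der {g : ℝ → ℝ} {g' : ℝ} (hg : HasDerivAt g g' 0) (h0 : g 0 = 0)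
    (h : ∀ᶠ τ in 𝓝[>] (0 : ℝ), 0 ≤ g (-τ)) : g' ≤ 0 := by
  have h1 : HasDerivAt (fun τ : ℝ => -g (-τ)) g' 0 := by
    have hn : HasDerivAt (fun τ : ℝ => -τ) (-1) 0 := hasDerivAt_neg' (0 : ℝ)
    have hd' : HasDerivAt g g' (-(0 : ℝ)) := by rwa [neg_zero]
    have h3 := (hd'.comp (0 : ℝ) hn).neg
    rw [mul_neg, mul_one, neg_neg] at h3
    exact h3
  have h2 := h1.tendsto_slope_zero_right
  refine le_of_tendsto h2 ?_
  filter_upwards [h, self_mem_nhdsWithin] with τ h3 h4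
  have h4' : 0 < τ := h4
  rw [zero_add, smul_eq_mul, neg_zero, h0, neg_zero, sub_zero]
  exact mul_nonpos_of_nonneg_of_nonpos (inv_nonneg.2 h4'.le) (by linarith)

/-- comparison of derivatives at a touching point -/
private lemma LayL_cmp {φ E : ℝ → ℝ} {φ' E' : ℝ} (hφ : HasDerivAt φ φ' 0) (hE : HasDerivAt E E' 0)
    (h0 : φ 0 = E 0) (h : ∀ᶠ τ in 𝓝[>] (0 : ℝ), φ (-τ) ≤ E (-τ)) : E' ≤ φ' := by
  have h1 : E' - φ' ≤ 0 := by
    refine LayL_der (hE.sub hφ) ?_ ?_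
    · show E 0 - φ 0 = 0
      rw [h0, sub_self]
    · filter_upwards [h] with τ hτ
      show 0 ≤ E (-τ) - φ (-τ)
      linarith
  linarith

private lemma LayL_wp {q q' : ℕ} (h : q' ≤ q) (v : Vec d) : Wp q v ≤ Wp q' v := by
  have h1 : 1 ≤ 1 + nsq v := by
    have := sq_nonneg' v
    linarith
  unfold Wp
  exact inv_anti₀ (pow_pos (by linarith) _) (pow_le_pow_right₀ h1 h)

/-- the choice of `θ` -/
private lemma LayL_th {ι Kr : ℝ} (hι : 0 < ι) (hKr : 0 < Kr) :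
    ∃ θ : ℝ, 0 < θ ∧ θ ≤ 1 ∧ θ * Kr ≤ ι / 4 ∧ Real.exp (θ * Kr) ≤ 8 / 7 := by
  have hlog : 0 < Real.log (8 / 7) := Real.log_pos (by norm_num)
  refine ⟨min 1 (min (ι / 4 / Kr) (Real.log (8 / 7) / Kr)), by positivity, min_le_left _ _, ?_, ?_⟩
  · calc min 1 (min (ι / 4 / Kr) (Real.log (8 / 7) / Kr)) * Kr ≤ ι / 4 / Kr * Kr :=
          mul_le_mul_of_nonneg_right ((min_le_right _ _).trans (min_le_left _ _)) hKr.le
      _ = ι / 4 := div_mul_cancel₀ _ hKr.ne'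
  · have h1 : min 1 (min (ι / 4 / Kr) (Real.log (8 / 7) / Kr)) * Kr ≤ Real.log (8 / 7) := by
      calc min 1 (min (ι / 4 / Kr) (Real.log (8 / 7) / Kr)) * Kr ≤ Real.log (8 / 7) / Kr * Kr :=
            mul_le_mul_of_nonneg_right ((min_le_right _ _).trans (min_le_right _ _)) hKr.le
        _ = Real.log (8 / 7) := div_mul_cancel₀ _ hKr.ne'
    calc Real.exp (min 1 (min (ι / 4 / Kr) (Real.log (8 / 7) / Kr)) * Kr)
        ≤ Real.exp (Real.log (8 / 7)) := Real.exp_le_exp.2 h1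
      _ = 8 / 7 := Real.exp_log (by norm_num)

private lemma LayL_sign (x : ℝ) : ∃ e : ℝ, |e| = 1 ∧ e * x = |x| := by
  rcases le_total 0 x with h | h
  · exact ⟨1, abs_one, by rw [one_mul, abs_of_nonneg h]⟩
  · exact ⟨-1, by rw [abs_neg, abs_one], by rw [neg_one_mul, abs_of_nonpos h]⟩

/-- the final contradiction -/
private lemma LayL_con {δ L Kr K₁ KA K₅ A Z B' W E ε η ι : ℝ} (hδ : 0 < δ) (hW : 0 < W)
    (hL1 : L ≤ 1) (hι : 0 < ι) (hLι : 3 / 2 * ι ≤ L) (hK₁ : 0 ≤ K₁) (hKr : Kr = 2 * K₁ + 1)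
    (hε : 0 < ε) (hη : η = ε * ι) (hKA : KA * 3 = K₅ * A + 3 * ε) (hZ : 0 ≤ Z)
    (h1 : B' * W ≤ δ * E)
    (h2 : E ≤ L * (K₅ * A * Z * W) + (1 + L) * (K₁ + η * Z) * W)
    (h3 : δ * Kr + L * (δ * Kr + KA * (3 * δ * Z)) ≤ B') : False := by
  have hL0 : 0 ≤ L := by linarith
  have hη0 : 0 ≤ η := by rw [hη]; positivity
  have a1 : (1 + L) * (K₁ + η * Z) ≤ 2 * K₁ + 2 * η * Z := by
    have : (1 + L) * (K₁ + η * Z) ≤ 2 * (K₁ + η * Z) :=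
      mul_le_mul_of_nonneg_right (by linarith) (by positivity)
    linarith
  have a2 : 2 * η * Z ≤ L * (3 * ε) * Z := by
    refine mul_le_mul_of_nonneg_right ?_ hZ
    rw [hη]
    nlinarith
  have a3 : E ≤ (L * (K₅ * A * Z) + 2 * K₁ + L * (3 * ε) * Z) * W := by
    have b1 := mul_le_mul_of_nonneg_right (a1.trans (add_le_add_right a2 (2 * K₁))) hW.le
    have b2 : L * (K₅ * A * Z * W) = (L * (K₅ * A * Z)) * W := by ring
    rw [b2] at h2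
    have b3 : (L * (K₅ * A * Z) + 2 * K₁ + L * (3 * ε) * Z) * W =
        L * (K₅ * A * Z) * W + (2 * K₁ + L * (3 * ε) * Z) * W := by ring
    rw [b3]
    linarith
  have a4 := mul_le_mul_of_nonneg_left a3 hδ.le
  have a5 := mul_le_mul_of_nonneg_right h3 hW.le
  have a6 : L * (KA * (3 * δ * Z)) = L * δ * Z * (K₅ * A + 3 * ε) := by
    rw [← hKA]
    ring
  have a7 : (δ * Kr + L * (δ * Kr + KA * (3 * δ * Z))) * W =
      δ * Kr * W + L * (δ * Kr) * W + L * (KA * (3 * δ * Z)) * W := by ring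
  rw [a7, a6] at a5
  have a8 : 0 ≤ L * (δ * Kr) * W := by
    have : 0 ≤ Kr := by rw [hKr]; positivity
    positivity
  have a9 : 0 < δ * W := mul_pos hδ hW
  have a10 : δ * Kr * W = δ * (2 * K₁) * W + δ * W := by
    rw [hKr]
    ring
  have a11 : δ * ((L * (K₅ * A * Z) + 2 * K₁ + L * (3 * ε) * Z) * W) =
      δ * (2 * K₁) * W + L * δ * Z * (K₅ * A + 3 * ε) * W := by ring
  rw [a10] at a5
  rw [a11] at a4
  linarith

private lemma LayL_cos (x : ℝ) {a b : ℝ} (h : |a| ≤ b) : |a * Real.cos x| ≤ b := by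
  rw [abs_mul]
  exact (mul_le_of_le_one_right (abs_nonneg _) (Real.abs_cos_le_one _)).trans h

theorem layL0 (hd : 2 ≤ d) (h1 : -2 < γ) (h2 : γ ≤ 0) {F : Vec d → Vec d → ℝ} (hF : NS F)
    (hF0 : ∀ y v, 0 ≤ F y v) (hFm : ∀ y, 0 < ∫ v, F y v) :
    ∃ Kst : ℝ, 0 ≤ Kst ∧ ∀ (A : ℝ) (B : ℕ → ℝ), ∃ U : ℕ → ℝ,
    ∀ (n : ℕ) (a : Fin n → ℝ) (cc : Fin n → Vec d → Vec d → ℝ) (k : Fin n → Vec d)
      (φ : Fin n → ℝ), FamS (d + 20) a cc k → ∑ j, a j ≤ A → ∀ ι : ℝ, 0 < ι →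
      2 * Real.exp (Kst * ∑ j, a j * len (k j) ^ 2) * ι ≤ 1 →
    ∃ θ : ℝ, 0 < θ ∧ ∀ (κ : ℝ) (N σ : ℕ), 0 < κ → κ ≤ 1 → 1 ≤ N →
      (σ = 0 ∨ (σ = 1 ∧ κ = 1)) → ∀ T : ℝ, κ * T ≤ θ →
    ∀ f : ℝ → Vec d → Vec d → ℝ, IsLSol γ κ T f →
      (∀ m x v, (1 + ‖v‖) ^ m * f 0 x v ≤ B m) →
      (∀ x v, |f 0 x v - (F ((σ : ℝ) • x) v + ∑ j, cc j ((σ : ℝ) • x) v *
        Real.cos (2 * Real.pi * dot (k j) ((N : ℝ) • x) + φ j))| ≤ ι * Wp (d + 10) v) →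
    ∀ t ∈ Ico 0 T, ∀ x v,
      |f t x v - F ((σ : ℝ) • x - (σ * t) • v) v| ≤
        (2 * Real.exp (Kst * ∑ j, a j * len (k j) ^ 2) * ι +
        Kst * (∑ j, a j) / (1 + κ / N * (N * t) ^ 3)) * Wp (d + 10) v ∧
      ∀ m, (1 + ‖v‖) ^ m * f t x v ≤ U m := by
  obtain ⟨c₀, MF, hc₀, hMF, hdat⟩ := dat (γ := γ) hd h1 h2 hF hF0 hFm
  obtain ⟨K₅, hK₅, hOp⟩ := opL (γ := γ) hd h1 h2 hc₀
  obtain ⟨E0, hE0d⟩ : ∃ E0 : ℝ, E0 = (1 + 4 / c₀) ^ 4 := ⟨_, rfl⟩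
  have hE0 : 1 ≤ E0 := by
    rw [hE0d]
    refine one_le_pow₀ ?_
    have : 0 < 4 / c₀ := by positivity
    linarith
  refine ⟨K₅ + E0, by linarith, ?_⟩
  intro A B
  obtain ⟨A₁, hA₁⟩ : ∃ A₁ : ℝ, A₁ = MF + E0 * |A| + 1 := ⟨_, rfl⟩
  obtain ⟨U, hU⟩ := prpL (γ := γ) hd h1 h2 A₁ B
  refine ⟨U, ?_⟩
  intro n a cc k φ hFam hSA ι hι hsmall
  obtain ⟨M, K, L₀, hD⟩ := hdat n a cc k hFam
  obtain ⟨p, hp⟩ : ∃ p, p = d + 10 := ⟨_, rfl⟩
  have ha0 : ∀ j, 0 ≤ a j := fun j => by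
    have e1 := (abs_nonneg _).trans (hFam.ha j 0 0)
    exact nonneg_of_mul_nonneg_left e1 (Wp_pos _ _)
  have hk1 : ∀ j, 1 ≤ len (k j) := fun j => Pool.Agent.H82.HF.len_int (hFam.hk j) (hFam.hk0 j)
  obtain ⟨AA, hAA⟩ : ∃ AA : ℝ, AA = ∑ j, a j * len (k j) ^ 2 := ⟨_, rfl⟩
  have hAA0 : 0 ≤ AA := by
    rw [hAA]
    exact Finset.sum_nonneg fun j _ => mul_nonneg (ha0 j) (sq_nonneg _)
  have hSa0 : 0 ≤ ∑ j, a j := Finset.sum_nonneg fun j _ => ha0 j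
  have hSaA : ∑ j, a j ≤ |A| := hSA.trans (le_abs_self A)
  rw [← hAA] at hsmall
  rw [← hAA]
  obtain ⟨ι', hι'd⟩ : ∃ ι' : ℝ, ι' = 5 / 6 * ι := ⟨_, rfl⟩
  have hι' : 0 < ι' := by rw [hι'd]; positivity
  obtain ⟨ε, hεd⟩ : ∃ ε : ℝ, ε = Real.log (6 / 5) := ⟨_, rfl⟩
  have hε : 0 < ε := by rw [hεd]; exact Real.log_pos (by norm_num)
  obtain ⟨KA, hKA⟩ : ∃ KA : ℝ, KA = K₅ * AA / 3 + ε := ⟨_, rfl⟩
  have hKA0 : 0 ≤ KA := by rw [hKA]; positivity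
  have hKAm : KA * 3 = K₅ * AA + 3 * ε := by rw [hKA]; ring
  have hexpι : 2 * Real.exp KA * ι' ≤ 2 * Real.exp ((K₅ + E0) * AA) * ι := by
    have e1 : Real.exp KA = Real.exp (K₅ * AA / 3) * (6 / 5) := by
      rw [hKA, Real.exp_add, hεd, Real.exp_log (by norm_num)]
    have e2 : K₅ * AA / 3 ≤ (K₅ + E0) * AA := by
      have e3 : 0 ≤ K₅ * AA := mul_nonneg hK₅ hAA0
      have e4 : 0 ≤ E0 * AA := mul_nonneg (by linarith) hAA0
      linarith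
    have e5 : Real.exp (K₅ * AA / 3) ≤ Real.exp ((K₅ + E0) * AA) := Real.exp_le_exp.2 e2
    calc 2 * Real.exp KA * ι' = 2 * Real.exp (K₅ * AA / 3) * ι := by rw [e1, hι'd]; ring
      _ ≤ _ := mul_le_mul_of_nonneg_right (mul_le_mul_of_nonneg_left e5 (by norm_num)) hι.le
  have hexp1 : 2 * Real.exp KA * ι' ≤ 1 := hexpι.trans hsmall
  obtain ⟨η, hηd⟩ : ∃ η : ℝ, η = ε * ι' := ⟨_, rfl⟩
  have hη : 0 < η := by rw [hηd]; positivity
  obtain ⟨K₁, hK₁, hOp1⟩ := hOp n MF M K L₀ A₁ η a k hk1 ha0 hη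
  obtain ⟨Kr, hKr⟩ : ∃ Kr : ℝ, Kr = 2 * K₁ + 1 := ⟨_, rfl⟩
  have hKr0 : 0 < Kr := by rw [hKr]; positivity
  obtain ⟨θ, hθ0, hθ1, hθr, hθe⟩ := LayL_th hι' hKr0
  refine ⟨θ, hθ0, ?_⟩
  intro κ N₀ σ₀ hκ hκ1 hN₀ hσ T hT f hf hf0 hdf
  obtain ⟨N, hN⟩ : ∃ N : ℝ, N = N₀ := ⟨_, rfl⟩
  have hN1 : 1 ≤ N := by
    rw [hN]
    exact_mod_cast hN₀
  have hNp : 0 < N := by linarith
  obtain ⟨σ, hσd⟩ : ∃ σ : ℝ, σ = σ₀ := ⟨_, rfl⟩
  obtain ⟨δ, hδd⟩ : ∃ δ : ℝ, δ = κ / N := ⟨_, rfl⟩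
  have hδ : 0 < δ := by rw [hδd]; positivity
  have hδN : ∀ t : ℝ, δ * (N * t) = κ * t := fun t => by
    rw [hδd]
    field_simp
  have hr2 : ∀ t : ℝ, t ^ (2 * (1 : ℝ)) = t ^ 2 := fun t => by
    rw [show 2 * (1 : ℝ) = ((2 : ℕ) : ℝ) by norm_num, Real.rpow_natCast]
  have hr3 : ∀ t : ℝ, t ^ (1 + 2 * (1 : ℝ)) = t ^ 3 := fun t => by
    rw [show 1 + 2 * (1 : ℝ) = ((3 : ℕ) : ℝ) by norm_num, Real.rpow_natCast]
  have hf' : IsClassicalSol T (fun t x v => κ * landauQ γ (f t x) v) f := hf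
  have hDt : ∀ t, 0 < t → κ * t ≤ 1 → ∀ x : Vec d,
      Dat γ c₀ MF M K L₀ a k δ (N * t) (sl (σ * t) (σ • x) F)
        (fun j => sl (σ * t) (σ • x) (cc j)) (fun j => sl (σ * t) (σ • x) (qG γ F (k j))) := by
    intro t ht ht1 x
    rw [hδd, hN, hσd]
    exact hD κ N₀ σ₀ hκ hκ1 hN₀ hσ t ht ht1 x
  rw [← hp, ← hN, ← hσd] at hdf
  rw [← hp, ← hN, ← hσd, ← hδd]
  -- bounds of `F` and of the approximate solution
  have hF3 : ∀ (t : ℝ) (x v : Vec d), |F (σ • x - (σ * t) • v) v| ≤ MF * Wp (d + 20) v := by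
    intro t x v
    have e1 := (hDt 1 one_pos (by linarith) (x - t • v + v)).F3 v
    have e2 : σ • (x - t • v + v) - (σ * 1) • v = σ • x - (σ * t) • v := by
      rw [smul_add, smul_sub, smul_smul, mul_one]
      abel
    unfold sl at e1
    rwa [e2] at e1
  have hfs : ∀ t, 0 ≤ t → κ * t ≤ 1 → ∀ x v, |fw γ κ N σ F cc k φ t x v -
      F (σ • x - (σ * t) • v) v| ≤
        E0 * (∑ j, a j) / (1 + δ * (N * t) ^ 3) * Wp (d + 16) v := by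
    intro t ht ht1 x v
    have hX : 0 ≤ δ * (N * t) ^ 3 := by positivity
    have hWv := (Wp_pos (d + 16) v).le
    rcases ht.eq_or_lt with h0 | h0
    · rw [← h0, fw_zero, mul_zero, zero_smul, sub_zero, mul_zero, add_sub_cancel_left]
      have e1 : |∑ j, cc j (σ • x) v * Real.cos (2 * Real.pi * dot (k j) (N • x) + φ j)| ≤
          ∑ j, a j * Wp (d + 20) v :=
        (Finset.abs_sum_le_sum_abs _ _).trans (Finset.sum_le_sum fun j _ =>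
          LayL_cos _ (hFam.ha j (σ • x) v))
      rw [← Finset.sum_mul] at e1
      refine e1.trans ?_
      have e2 : (1 : ℝ) + δ * 0 ^ 3 = 1 := by norm_num
      rw [e2, div_one]
      exact mul_le_mul (le_mul_of_one_le_left hSa0 hE0) (LayL_wp (by omega) v)
        (Wp_pos _ v).le (by positivity)
    · have e1 := (gs_sub hc₀ (hDt t h0 ht1 x)
        (fun j => 2 * Real.pi * dot (k j) (N • x) + φ j) v).1
      rw [← hE0d] at e1
      have e2 : ((1 + δ * (N * t) ^ 3) ^ 2)⁻¹ ≤ (1 + δ * (N * t) ^ 3)⁻¹ :=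
        inv_anti₀ (by linarith) (le_self_pow₀ (by linarith) (by norm_num))
      have e3 : fw γ κ N σ F cc k φ t x v = gs δ (N * t) k (sl (σ * t) (σ • x) F)
          (fun j => sl (σ * t) (σ • x) (cc j)) (fun j => sl (σ * t) (σ • x) (qG γ F (k j)))
          (fun j => 2 * Real.pi * dot (k j) (N • x) + φ j) v := by
        rw [hδd]
        rfl
      rw [e3]
      refine e1.trans ?_
      rw [div_eq_mul_inv]
      refine mul_le_mul_of_nonneg_right ?_ hWv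
      exact mul_le_mul_of_nonneg_left e2 (by positivity)
  obtain ⟨M', hM'⟩ : ∃ M' : ℝ, M' = MF + E0 * ∑ j, a j := ⟨_, rfl⟩
  have hM'0 : 0 ≤ M' := by rw [hM']; positivity
  have hM'A : M' + 1 ≤ A₁ := by
    rw [hM', hA₁]
    have := mul_le_mul_of_nonneg_left hSaA (show 0 ≤ E0 by linarith)
    linarith
  have hfaw : ∀ t, 0 ≤ t → κ * t ≤ 1 → ∀ q, q ≤ d + 16 → ∀ x v,
      |fw γ κ N σ F cc k φ t x v| ≤ M' * Wp q v := by
    intro t ht ht1 q hq x v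
    have hX : 0 ≤ δ * (N * t) ^ 3 := by positivity
    have e1 := hfs t ht ht1 x v
    have e2 := hF3 t x v
    have e3 : E0 * (∑ j, a j) / (1 + δ * (N * t) ^ 3) ≤ E0 * ∑ j, a j :=
      div_le_self (by positivity) (by linarith)
    have hWq := Wp_pos q v
    have e4 : |fw γ κ N σ F cc k φ t x v| ≤ |fw γ κ N σ F cc k φ t x v -
        F (σ • x - (σ * t) • v) v| + |F (σ • x - (σ * t) • v) v| := by
      have := abs_add_le (fw γ κ N σ F cc k φ t x v - F (σ • x - (σ * t) • v) v)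
        (F (σ • x - (σ * t) • v) v)
      rwa [sub_add_cancel] at this
    have e5 : E0 * (∑ j, a j) / (1 + δ * (N * t) ^ 3) * Wp (d + 16) v ≤
        (E0 * ∑ j, a j) * Wp q v :=
      mul_le_mul e3 (LayL_wp hq v) (Wp_pos _ v).le (by positivity)
    have e6 : MF * Wp (d + 20) v ≤ MF * Wp q v :=
      mul_le_mul_of_nonneg_left (LayL_wp (by omega) v) hMF
    rw [hM', add_mul]
    linarith
  have hBle : ∀ t, 0 ≤ t → κ * t ≤ θ → 3 / 2 * ι' ≤ Bq 1 δ ι' Kr Kr KA (N * t) ∧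
      Bq 1 δ ι' Kr Kr KA (N * t) ≤ 2 * Real.exp KA * ι' := fun t ht h =>
    Pool.Agent.H82.HF.bar_le hδ hι' hKr0.le hKr0.le hKA0 hθr hθe (by positivity)
      (by rw [hδN]; exact h)
  have hδt : ∀ t ∈ Ico 0 T, κ * t ≤ θ := fun t ht =>
    (mul_le_mul_of_nonneg_left ht.2.le hκ.le).trans hT
  have hfA : ∀ τ, 0 ≤ τ → κ * τ ≤ θ → ∀ y w,
      |f τ y w - fw γ κ N σ F cc k φ τ y w| ≤ Bq 1 δ ι' Kr Kr KA (N * τ) * Wp p w →
      f τ y w ≤ A₁ * Wp p w := by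
    intro τ hτ hτθ y w h3
    have h4 := (abs_le.1 h3).2
    have h5 := (abs_le.1 (hfaw τ hτ (hτθ.trans hθ1) p (by omega) y w)).2
    have h6 := Wp_pos p w
    have h7 : Bq 1 δ ι' Kr Kr KA (N * τ) * Wp p w ≤ 1 * Wp p w :=
      mul_le_mul_of_nonneg_right ((hBle τ hτ hτθ).2.trans hexp1) h6.le
    have h8 : (M' + 1) * Wp p w ≤ A₁ * Wp p w := mul_le_mul_of_nonneg_right hM'A h6.le
    linarith
  have key : ∀ t ∈ Ico 0 T, ∀ x v,
      |f t x v - fw γ κ N σ F cc k φ t x v| < Bq 1 δ ι' Kr Kr KA (N * t) * Wp p v := by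
    intro t ht x v
    by_contra hcon
    push Not at hcon
    have htθ := hδt t ht
    have hτθ : ∀ τ ∈ Icc 0 t, κ * τ ≤ θ := fun τ hτ =>
      (mul_le_mul_of_nonneg_left hτ.2 hκ.le).trans htθ
    have hcgt : CG t (p + 1) M' (fw γ κ N σ F cc k φ) := by
      refine ⟨(fw_cont h1 h2 κ N σ hF hFam φ).continuousOn, fun τ _ y w i => ?_,
        fun τ hτ y w => hfaw τ hτ.1 ((hτθ τ hτ).trans hθ1) (p + 1) (by omega) y w⟩
      rw [hN, hσd]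
      exact fw_per κ N₀ σ₀ hF hFam φ τ y w i
    have hB0 : ∀ τ ∈ Icc 0 t, 0 < Bq 1 δ ι' Kr Kr KA (N * τ) := fun τ hτ =>
      lt_of_lt_of_le (by positivity) (hBle τ hτ.1 (hτθ τ hτ)).1
    obtain ⟨t₀, ht₀, x₀, v₀, heq, hlt, hle⟩ := Pool.Agent.H82.HF.tch3 hf' p hcgt ht.1 ht.2
      (B := fun τ => Bq 1 δ ι' Kr Kr KA (N * τ))
      ((Pool.Agent.H82.HF.bar_cont one_pos hδ).comp (by fun_prop) fun τ h => by
        show 0 ≤ N * τ
        exact mul_nonneg hNp.le h.1) hB0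
      (fun y w => by
        show |f 0 y w - fw γ κ N σ F cc k φ 0 y w| < Bq 1 δ ι' Kr Kr KA (N * 0) * Wp p w
        rw [fw_zero]
        refine (hdf y w).trans_lt ?_
        have e1 := (hBle 0 le_rfl (by rw [mul_zero]; exact hθ0.le)).1
        exact mul_lt_mul_of_pos_right (by rw [hι'd] at e1 ⊢; linarith) (Wp_pos p w))
      ⟨t, ⟨ht.1, le_rfl⟩, x, v, hcon⟩
    have ht₀T : t₀ ∈ Ioo 0 T := ⟨ht₀.1, ht₀.2.trans_lt ht.2⟩
    have ht₀C : t₀ ∈ Ico 0 T := ⟨ht₀.1.le, ht₀T.2⟩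
    have ht₀θ : κ * t₀ ≤ θ := hδt t₀ ht₀C
    have ht₀1 : κ * t₀ ≤ 1 := ht₀θ.trans hθ1
    have hNt₀ : 0 < N * t₀ := mul_pos hNp ht₀.1
    obtain ⟨L, hL⟩ : ∃ L : ℝ, L = Bq 1 δ ι' Kr Kr KA (N * t₀) := ⟨_, rfl⟩
    have hLb := hBle t₀ ht₀.1.le ht₀θ
    rw [← hL] at hLb
    have hL0 : 0 ≤ L := by linarith [hLb.1]
    have hL1 : L ≤ 1 := hLb.2.trans hexp1
    have hdif : ∀ u, |f t₀ x₀ u - fw γ κ N σ F cc k φ t₀ x₀ u| ≤ L * Wp p u := fun u => by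
      rw [hL]; exact hle x₀ u
    have heqL : |f t₀ x₀ v₀ - fw γ κ N σ F cc k φ t₀ x₀ v₀| = L * Wp p v₀ := by
      rw [hL]; exact heq
    have hf2 : ∀ w, f t₀ x₀ w ≤ A₁ * Wp p w := fun w =>
      hfA t₀ ht₀.1.le ht₀θ x₀ w (hle x₀ w)
    obtain ⟨e, he, hsg⟩ := LayL_sign (f t₀ x₀ v₀ - fw γ κ N σ F cc k φ t₀ x₀ v₀)
    rw [heqL] at hsg
    have hW := Wp_pos p v₀
    have hdf0 := Pool.Agent.H82.BK.char_deriv hf' ht₀T x₀ v₀
    have hdg0 := fw_char (γ := γ) κ hNp σ F cc k φ t₀ x₀ v₀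
    rw [← hδd] at hdg0
    have hχ := (hdf0.sub hdg0).const_mul e
    obtain ⟨B', hB', hB'le⟩ := Pool.Agent.H82.HF.bar_der one_pos hδ hι' hKr0.le hKr0.le hKA0 hNt₀
    have hE : HasDerivAt (fun τ : ℝ => Bq 1 δ ι' Kr Kr KA (N * (t₀ + τ)) * Wp p v₀)
        (B' * N * Wp p v₀) 0 := by
      have e2 : HasDerivAt (fun τ : ℝ => N * (t₀ + τ)) N 0 := by
        have e21 := ((hasDerivAt_id (0 : ℝ)).const_add t₀).const_mul N
        rwa [mul_one] at e21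
      have e3 : HasDerivAt (fun t => Bq 1 δ ι' Kr Kr KA t) B' (N * (t₀ + 0)) := by
        rw [add_zero]; exact hB'
      have e4 := HasDerivAt.comp (0 : ℝ) e3 e2
      exact e4.mul_const (Wp p v₀)
    have hcmp := LayL_cmp hχ hE (by
      show e * (f (t₀ + 0) (x₀ + (0 : ℝ) • v₀) v₀ -
        fw γ κ N σ F cc k φ (t₀ + 0) (x₀ + (0 : ℝ) • v₀) v₀) =
          Bq 1 δ ι' Kr Kr KA (N * (t₀ + 0)) * Wp p v₀
      rw [add_zero, zero_smul, add_zero, hsg, hL]) (by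
      filter_upwards [Ioo_mem_nhdsGT ht₀.1] with τ hτ
      have e1 := (hlt (t₀ + -τ) ⟨by linarith [hτ.2], by linarith [hτ.1]⟩
        (x₀ + (-τ) • v₀) v₀).le
      refine le_trans ?_ e1
      refine (le_abs_self _).trans ?_
      show |e * (f (t₀ + -τ) (x₀ + (-τ) • v₀) v₀ -
        fw γ κ N σ F cc k φ (t₀ + -τ) (x₀ + (-τ) • v₀) v₀)| ≤ _
      rw [abs_mul, he, one_mul])
    have hnice : Nice (f t₀ x₀) := IsClassicalSol.nice hf' ht₀T x₀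
    have hfwe : ∀ u, fw γ κ N σ F cc k φ t₀ x₀ u = gs δ (N * t₀) k (sl (σ * t₀) (σ • x₀) F)
          (fun j => sl (σ * t₀) (σ • x₀) (cc j)) (fun j => sl (σ * t₀) (σ • x₀) (qG γ F (k j)))
          (fun j => 2 * Real.pi * dot (k j) (N • x₀) + φ j) u := fun u => by
      rw [hδd]
      rfl
    have hopv := hOp1 δ (N * t₀) (sl (σ * t₀) (σ • x₀) F)
      (fun j => sl (σ * t₀) (σ • x₀) (cc j)) (fun j => sl (σ * t₀) (σ • x₀) (qG γ F (k j)))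
      (hDt t₀ ht₀.1 ht₀1 x₀) (fun j => 2 * Real.pi * dot (k j) (N • x₀) + φ j) (f t₀ x₀) hnice
      (fun u => hf'.nonneg t₀ ht₀C x₀ u) (by rw [← hp]; exact hf2) L hL0
      (by
        intro u
        rw [← hfwe u, ← hp]
        exact hdif u) e v₀ he (by rw [← hfwe v₀, ← hp]; exact hsg)
    rw [← hp, ← hAA] at hopv
    have hBfin : B' * Wp p v₀ ≤ δ * (e * (landauQ γ (f t₀ x₀) v₀ +
        dmp δ (N * t₀) k (fun j => sl (σ * t₀) (σ • x₀) (cc j))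
        (fun j => sl (σ * t₀) (σ • x₀) (qG γ F (k j)))
        (fun j => 2 * Real.pi * dot (k j) (N • x₀) + φ j) v₀)) := by
      have e1 := mul_le_mul_of_nonneg_left hcmp (inv_nonneg.2 hNp.le)
      have e2 : N⁻¹ * (B' * N * Wp p v₀) = B' * Wp p v₀ := by
        field_simp
      rw [e2] at e1
      refine e1.trans (le_of_eq ?_)
      rw [sub_neg_eq_add, ← mul_add, hδd]
      ring
    have hZ : 0 ≤ (N * t₀) ^ 2 * Yf δ (N * t₀) :=
      mul_nonneg (sq_nonneg _) (yf_pos hδ hNt₀.le).1.le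
    rw [hr2, hr3] at hB'le
    have hB2 : δ * Kr + L * (δ * Kr + KA * (3 * δ * ((N * t₀) ^ 2 * Yf δ (N * t₀)))) ≤ B' := by
      refine le_trans (le_of_eq ?_) hB'le
      rw [hL]
      unfold Yf
      ring
    refine LayL_con hδ hW hL1 hι' hLb.1 hK₁ hKr hε hηd hKAm hZ hBfin ?_ hB2
    exact hopv
  intro t ht x v
  have hk := key t ht x v
  have hW := Wp_pos p v
  have htθ := hδt t ht
  have ht1 : κ * t ≤ 1 := htθ.trans hθ1
  refine ⟨?_, fun m => hU κ hκ hκ1 T (hT.trans hθ1) f hf hf0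
    (fun τ hτ y w => by
      rw [← hp]
      exact hfA τ hτ.1 (hδt τ hτ) y w (key τ hτ y w).le) t ht m x v⟩
  have e1 := hfs t ht.1 ht1 x v
  have hX : 0 < 1 + δ * (N * t) ^ 3 := by
    have := mul_nonneg hNp.le ht.1
    positivity
  have e2 : E0 * (∑ j, a j) / (1 + δ * (N * t) ^ 3) * Wp (d + 16) v ≤
      (K₅ + E0) * (∑ j, a j) / (1 + δ * (N * t) ^ 3) * Wp p v := by
    have e3 : E0 * (∑ j, a j) ≤ (K₅ + E0) * (∑ j, a j) :=
      mul_le_mul_of_nonneg_right (by linarith) hSa0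
    exact mul_le_mul (div_le_div_of_nonneg_right e3 hX.le) (LayL_wp (by omega) v)
      (Wp_pos _ v).le (by positivity)
  have e4 : Bq 1 δ ι' Kr Kr KA (N * t) * Wp p v ≤
      2 * Real.exp ((K₅ + E0) * AA) * ι * Wp p v :=
    mul_le_mul_of_nonneg_right ((hBle t ht.1 htθ).2.trans hexpι) hW.le
  have e5 : |f t x v - F (σ • x - (σ * t) • v) v| ≤ |f t x v - fw γ κ N σ F cc k φ t x v| +
      |fw γ κ N σ F cc k φ t x v - F (σ • x - (σ * t) • v) v| := abs_sub_le _ _ _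
  rw [add_mul]
  linarith

end Pool.Agent.H82.LL
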