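import Pool.Agent.H82.LL.Defs
import Pool.Agent.H48.LN.Bd

/-!
# Module TchL: the operator at a touching point

`p = d + 10`. `dif_eq` (H48/LN/Dif): `Q(f) - Q(G) = ctr f (f-G) + ctr (f-G) G + cb f (f-G) + cb (f-G) G`. Multiply by `e = ±1` (`|e| = 1`).
(1) `φ = e (f-G) - Λ Wp p` has its maximum `0` at `v`: `ctr_nonpos` (H48/LN/Sec) and `ctr_sub`, `ctr_smul`: `e ctr f (f-G) v ≤ Λ ctr f (Wp p) v ≤ Λ Σ_ij |ab f i j v| |pd i (pd j (Wp p)) v| ≤ Λ d² K A₁ (1+nsq v) 8 (p+1)² Wp p v/(1+nsq v)` (`ab_bd` for `CW p A₁ f`, `wp_pd_le`).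
(2) `f - G` is `CW p Λ`: `|ab (f-G) i j v| ≤ K Λ (1+nsq v)` (`ab_bd`), so the second term is `≤ Λ K (1+nsq v) Σ_ij |pd i (pd j G) v|`; `Ku = K` depends only on `d`, `γ`.
(3) `e cb f (f-G) = cb f v Λ Wp p v ≤ K A₁ (1+nsq v)^(γ/2) Λ Wp p v ≤ K A₁ Λ Wp p v` (`cb_bd`). (4) `|cb (f-G) G| ≤ K Λ (1+nsq v)^(γ/2) A₁ Wp p v`.
-/

set_option autoImplicit false

open MeasureTheory Set Filter Topology Pool.Agent.H25.Kin Pool.Agent.H48.PR
open Pool.Agent.H48.PL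
open Pool.Agent.H15.AV (ab)
open Pool.Agent.H82.HF (GG Bq CG)

namespace Pool.Agent.H82.LL

variable {d : ℕ} {γ : ℝ}

open Pool.Agent.H48.LN

/-- the main part: `|ctr F (Wp p)| + |cb F|` for `F` of class `CW p A` -/
private lemma TchL_wp (hd : 2 ≤ d) (h1 : -2 < γ) (h2 : γ ≤ 0) {p : ℕ} (hp : d + 2 ≤ p) :
    ∃ K : ℝ, 0 ≤ K ∧ ∀ A : ℝ, 0 ≤ A → ∀ F : Vec d → ℝ, CW p A F → ∀ v : Vec d,
      |ctr γ F (Wp p) v| ≤ K * A * Wp p v ∧ |cb γ F v| ≤ K * A := by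
  obtain ⟨Ka, hKa0, hKa⟩ := ab_bd (d := d) (γ := γ) h1 h2 (q := p) hp
  obtain ⟨Kc, hKc0, hKc⟩ := cb_bd (d := d) (γ := γ) hd h1 h2 (q := p) hp
  refine ⟨(d : ℝ) * ((d : ℝ) * (Ka * (8 * ((p : ℝ) + 1) ^ 2))) + Kc, by positivity,
    fun A hA F hF v => ?_⟩
  have hn : 0 ≤ nsq v := sq_nonneg' v
  have hn1 : 0 < 1 + nsq v := by linarith
  have hW1 : 0 < Wp p v := Wp_pos _ _
  constructor
  · have e1 : |ctr γ F (Wp p) v| ≤ (d : ℝ) * ((d : ℝ) * (Ka * (8 * ((p : ℝ) + 1) ^ 2))) * A * Wp p v := by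
      unfold ctr
      refine (Finset.abs_sum_le_sum_abs _ _).trans ?_
      have : ∀ i ∈ (Finset.univ : Finset (Fin d)), |∑ j, ab γ F i j v * pd i (pd j (Wp p)) v| ≤
          (d : ℝ) * (Ka * (8 * ((p : ℝ) + 1) ^ 2) * A * Wp p v) := by
        intro i _
        refine (Finset.abs_sum_le_sum_abs _ _).trans ?_
        have h3 : ∀ j ∈ (Finset.univ : Finset (Fin d)), |ab γ F i j v * pd i (pd j (Wp p)) v| ≤
            Ka * (8 * ((p : ℝ) + 1) ^ 2) * A * Wp p v := by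
          intro j _
          rw [abs_mul]
          calc |ab γ F i j v| * |pd i (pd j (Wp p)) v| ≤
              (Ka * A * (1 + nsq v)) * (8 * ((p : ℝ) + 1) ^ 2 * (Wp p v / (1 + nsq v))) :=
                mul_le_mul (hKa A F hF i j v) (wp_pd_le p i j v) (abs_nonneg _) (by positivity)
            _ = _ := by field_simp
        refine (Finset.sum_le_sum h3).trans (le_of_eq ?_)
        rw [Finset.sum_const, Finset.card_univ, Fintype.card_fin, nsmul_eq_mul]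
      refine (Finset.sum_le_sum this).trans (le_of_eq ?_)
      rw [Finset.sum_const, Finset.card_univ, Fintype.card_fin, nsmul_eq_mul]
      ring
    refine e1.trans ?_
    have : 0 ≤ Kc * A * Wp p v := by positivity
    linarith
  · have h3 : (1 + nsq v) ^ (γ / 2) ≤ 1 :=
      Real.rpow_le_one_of_one_le_of_nonpos (by linarith) (by linarith)
    have h4 : |cb γ F v| ≤ Kc * A := by
      refine (hKc A F hF v).trans ?_
      have : 0 ≤ Kc * A := by positivity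
      nlinarith
    have : 0 ≤ (d : ℝ) * ((d : ℝ) * (Ka * (8 * ((p : ℝ) + 1) ^ 2))) * A := by positivity
    linarith

/-- the contraction of the coefficients of a function of class `CW p Λ` with a Hessian matrix -/
private lemma TchL_ab (h1 : -2 < γ) (h2 : γ ≤ 0) {p : ℕ} (hp : d + 2 ≤ p) :
    ∃ K : ℝ, 0 ≤ K ∧ ∀ Λ : ℝ, 0 ≤ Λ → ∀ g G : Vec d → ℝ, CW p Λ g → ∀ v : Vec d,
      |ctr γ g G v| ≤ Λ * (K * (1 + nsq v) * ∑ i, ∑ j, |pd i (pd j G) v|) := by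
  obtain ⟨Ka, hKa0, hKa⟩ := ab_bd (d := d) (γ := γ) h1 h2 (q := p) hp
  refine ⟨Ka, hKa0, fun Λ _ g G hg v => ?_⟩
  unfold ctr
  refine (Finset.abs_sum_le_sum_abs _ _).trans ?_
  rw [Finset.mul_sum, Finset.mul_sum]
  refine Finset.sum_le_sum fun i _ => ?_
  refine (Finset.abs_sum_le_sum_abs _ _).trans ?_
  rw [Finset.mul_sum, Finset.mul_sum]
  refine Finset.sum_le_sum fun j _ => ?_
  rw [abs_mul]
  calc |ab γ g i j v| * |pd i (pd j G) v| ≤ (Ka * Λ * (1 + nsq v)) * |pd i (pd j G) v| :=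
        mul_le_mul_of_nonneg_right (hKa Λ g hg i j v) (abs_nonneg _)
    _ = _ := by ring

theorem tch (hd : 2 ≤ d) (h1 : -2 < γ) (h2 : γ ≤ 0) : ∃ Ku : ℝ, 0 ≤ Ku ∧ ∀ A₁ : ℝ,
    ∃ K₁ : ℝ, 0 ≤ K₁ ∧ ∀ f G : Vec d → ℝ, Nice f → Nice G → (∀ u, 0 ≤ f u) →
      (∀ u, f u ≤ A₁ * Wp (d + 10) u) → (∀ u, |G u| ≤ A₁ * Wp (d + 10) u) →
    ∀ Λ : ℝ, 0 ≤ Λ → (∀ u, |f u - G u| ≤ Λ * Wp (d + 10) u) → ∀ (e : ℝ) (v : Vec d), |e| = 1 →
      e * (f v - G v) = Λ * Wp (d + 10) v →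
      e * (landauQ γ f v - landauQ γ G v) ≤
        Λ * (K₁ * Wp (d + 10) v + Ku * (1 + nsq v) * ∑ i, ∑ j, |pd i (pd j G) v|) := by
  have hp : d + 2 ≤ d + 10 := by omega
  obtain ⟨K', hK'0, hK'⟩ := TchL_wp (d := d) (γ := γ) hd h1 h2 hp
  obtain ⟨Ku, hKu0, hKu⟩ := TchL_ab (d := d) (γ := γ) h1 h2 hp
  refine ⟨Ku, hKu0, fun A₁ => ⟨3 * (K' * |A₁|), by positivity, ?_⟩⟩
  intro f G hf hG hf0 hfA hGA Λ hΛ hdl e v he htou
  have hA : 0 ≤ |A₁| := abs_nonneg _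
  have hfc : CW (d + 10) |A₁| f := by
    refine ⟨hf.cont, fun w => ?_⟩
    rw [abs_of_nonneg (hf0 w)]
    exact (hfA w).trans (mul_le_mul_of_nonneg_right (le_abs_self _) (Wp_pos _ w).le)
  have hGc : ∀ w, |G w| ≤ |A₁| * Wp (d + 10) w := fun w =>
    (hGA w).trans (mul_le_mul_of_nonneg_right (le_abs_self _) (Wp_pos _ w).le)
  have hr : CW (d + 10) Λ (fun w => f w - G w) := ⟨hf.cont.sub hG.cont, hdl⟩
  have hW : 0 < Wp (d + 10) v := Wp_pos _ v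
  obtain ⟨hA1, hA2⟩ := hK' |A₁| hA f hfc v
  obtain ⟨_, hA3⟩ := hK' Λ hΛ _ hr v
  have hrest := hKu Λ hΛ _ G hr v
  have hdif := dif_eq (γ := γ) hd h1 h2 hf hG v
  have hsm : ContDiff ℝ 2 (fun w => f w - G w) := hf.smooth.sub hG.smooth
  have hWs : ContDiff ℝ 2 (fun w : Vec d => Λ * Wp (d + 10) w) :=
    contDiff_const.mul (wp_smooth _)
  have hφ : ctr γ f (fun w => e * (f w - G w) - Λ * Wp (d + 10) w) v ≤ 0 := by
    refine ctr_nonpos h1 h2 hf hf0 ((contDiff_const.mul hsm).sub hWs) fun w => ?_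
    show e * (f w - G w) - Λ * Wp (d + 10) w ≤ e * (f v - G v) - Λ * Wp (d + 10) v
    rw [htou, sub_self, sub_nonpos]
    calc e * (f w - G w) ≤ |e * (f w - G w)| := le_abs_self _
      _ = |f w - G w| := by rw [abs_mul, he, one_mul]
      _ ≤ _ := hdl w
  rw [ctr_sub f (contDiff_const.mul hsm) hWs v, ctr_smul f hsm e v,
    ctr_smul f (wp_smooth _) Λ v] at hφ
  have hc1 : Λ * ctr γ f (Wp (d + 10)) v ≤ Λ * (K' * |A₁| * Wp (d + 10) v) :=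
    mul_le_mul_of_nonneg_left ((le_abs_self _).trans hA1) hΛ
  have hc2 : cb γ f v * (Λ * Wp (d + 10) v) ≤ K' * |A₁| * (Λ * Wp (d + 10) v) :=
    mul_le_mul_of_nonneg_right ((le_abs_self _).trans hA2) (by positivity)
  have hc3 : e * ctr γ (fun w => f w - G w) G v ≤
      Λ * (Ku * (1 + nsq v) * ∑ i, ∑ j, |pd i (pd j G) v|) := by
    refine (le_abs_self _).trans ?_
    rw [abs_mul, he, one_mul]
    exact hrest
  have hc4 : e * (cb γ (fun w => f w - G w) v * G v) ≤ K' * Λ * (|A₁| * Wp (d + 10) v) := by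
    refine (le_abs_self _).trans ?_
    rw [abs_mul, he, one_mul, abs_mul]
    exact mul_le_mul hA3 (hGc v) (abs_nonneg _) (by positivity)
  rw [hdif]
  have h9 : e * (ctr γ f (fun w => f w - G w) v + ctr γ (fun w => f w - G w) G v +
      cb γ f v * (f v - G v) + cb γ (fun w => f w - G w) v * G v) =
      e * ctr γ f (fun w => f w - G w) v + e * ctr γ (fun w => f w - G w) G v +
        cb γ f v * (e * (f v - G v)) + e * (cb γ (fun w => f w - G w) v * G v) := by ring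
  rw [h9, htou]
  have h10 : Λ * (3 * (K' * |A₁|) * Wp (d + 10) v +
      Ku * (1 + nsq v) * ∑ i, ∑ j, |pd i (pd j G) v|) =
      Λ * (K' * |A₁| * Wp (d + 10) v) + K' * |A₁| * (Λ * Wp (d + 10) v) +
        K' * Λ * (|A₁| * Wp (d + 10) v) +
        Λ * (Ku * (1 + nsq v) * ∑ i, ∑ j, |pd i (pd j G) v|) := by ring
  rw [h10]
  linarith

end Pool.Agent.H82.LL
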