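import Pool.Agent.H82.LL.ResL
import Pool.Agent.H82.LL.TchL

/-!
# Module OpL: the operator inequality of the layer lemma

`G = gs ..`. `e (Q(f) + dmp) = e (Q(f) - Q(G)) + e (Q(G) + dmp)`. First: `tch` with `A₁' = max A₁ (MF + (1+4/c₀)^4 Σ a)` (`gs_sub`, `Wp (d+16) ≤ Wp (d+10)`) and `gs_hes` with `η' = η/(1+Ku)`: `≤ Λ (K₁ W + Ku (1+nsq v) [(K₁'+η' τ²Y) + d (2π)² (1+4/c₀)^4 A τ²Y] Wp (d+14) v)`, `(1+nsq v) Wp (d+14) v ≤ Wp (d+10) v`.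
`K₅ = Ku d (2π)² (1+4/c₀)^4`, `A = Σ_l a_l (len k_l)²`. Second: `res` with `η`. `Λ η τ²Y + η τ²Y = (1+Λ) η τ²Y`.
-/

set_option autoImplicit false

open MeasureTheory Set Filter Topology Pool.Agent.H25.Kin Pool.Agent.H48.PR
open Pool.Agent.H48.PL
open Pool.Agent.H15.AV (ab)
open Pool.Agent.H82.HF (GG Bq CG)

namespace Pool.Agent.H82.LL

variable {d : ℕ} {γ : ℝ}

private lemma OpL_wp {q q' : ℕ} (hq : q ≤ q') (v : Vec d) : Wp q' v ≤ Wp q v := by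
  have h0 : 0 ≤ nsq v := sq_nonneg' v
  unfold Wp
  exact inv_anti₀ (pow_pos (by linarith) q) (pow_le_pow_right₀ (by linarith) hq)

private lemma OpL_wp1 (v : Vec d) : (1 + nsq v) * Wp (d + 14) v ≤ Wp (d + 10) v := by
  have h0 : 0 ≤ nsq v := sq_nonneg' v
  have h1 : (1 + nsq v) ≠ 0 := by linarith
  have e : (1 + nsq v) * Wp (d + 14) v = Wp (d + 13) v := by
    unfold Wp
    rw [show d + 14 = (d + 13) + 1 by rfl, pow_succ]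
    field_simp
  rw [e]
  exact OpL_wp (by omega) v

theorem opL (hd : 2 ≤ d) (h1 : -2 < γ) (h2 : γ ≤ 0) {c₀ : ℝ} (hc₀ : 0 < c₀) :
    ∃ K₅ : ℝ, 0 ≤ K₅ ∧ ∀ (n : ℕ) (MF M K L A₁ η : ℝ) (a : Fin n → ℝ) (k : Fin n → Vec d),
      (∀ l, 1 ≤ len (k l)) → (∀ l, 0 ≤ a l) → 0 < η →
    ∃ K₁ : ℝ, 0 ≤ K₁ ∧ ∀ (δ τ : ℝ) (F : Vec d → ℝ) (cs Gs : Fin n → Vec d → ℝ),
      Dat γ c₀ MF M K L a k δ τ F cs Gs → ∀ (th : Fin n → ℝ) (f : Vec d → ℝ), Nice f →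
      (∀ u, 0 ≤ f u) → (∀ u, f u ≤ A₁ * Wp (d + 10) u) →
    ∀ Λ : ℝ, 0 ≤ Λ → (∀ u, |f u - gs δ τ k F cs Gs th u| ≤ Λ * Wp (d + 10) u) →
    ∀ (e : ℝ) (v : Vec d), |e| = 1 → e * (f v - gs δ τ k F cs Gs th v) = Λ * Wp (d + 10) v →
      e * (landauQ γ f v + dmp δ τ k cs Gs th v) ≤
        Λ * (K₅ * (∑ l, a l * len (k l) ^ 2) * (τ ^ 2 * Yf δ τ) * Wp (d + 10) v) +
          (1 + Λ) * (K₁ + η * (τ ^ 2 * Yf δ τ)) * Wp (d + 10) v := by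
  obtain ⟨Ku, hKu, htch⟩ := tch (γ := γ) hd h1 h2
  have hE0 : 0 ≤ (1 + 4 / c₀) ^ 4 := by positivity
  refine ⟨Ku * (d * (2 * Real.pi) ^ 2 * (1 + 4 / c₀) ^ 4), by positivity, ?_⟩
  intro n MF M K L A₁ η a k hk ha hη
  obtain ⟨E0, hE0d⟩ : ∃ E0 : ℝ, E0 = (1 + 4 / c₀) ^ 4 := ⟨_, rfl⟩
  rw [← hE0d] at hE0
  rw [← hE0d]
  obtain ⟨Kt, hKt, hT⟩ := htch (max A₁ (MF + E0 * ∑ l, a l))
  have hη' : 0 < η / (1 + Ku) := by positivity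
  obtain ⟨Kh, hKh, hH⟩ := gs_hes (γ := γ) hc₀ MF M K L a k hη'
  obtain ⟨Kr, hKr, hR⟩ := res hd h1 h2 hc₀ MF M K L a k hk hη
  refine ⟨Kt + Ku * Kh + Kr, by positivity, ?_⟩
  intro δ τ F cs Gs hD th f hf hf0 hfA Λ hΛ hle e v he htouch
  have hG := gs_nice hc₀ hD th
  have hMF : 0 ≤ MF := nonneg_of_mul_nonneg_left ((abs_nonneg _).trans (hD.F3 0)) (Wp_pos _ _)
  have hSa : 0 ≤ ∑ l, a l := Finset.sum_nonneg fun l _ => ha l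
  have hx : 0 ≤ MF + E0 * ∑ l, a l := by positivity
  have hGb : ∀ u, |gs δ τ k F cs Gs th u| ≤ max A₁ (MF + E0 * ∑ l, a l) * Wp (d + 10) u := by
    intro u
    have h3 := (gs_sub hc₀ hD th u).2
    rw [← hE0d] at h3
    refine h3.trans ?_
    exact mul_le_mul (le_max_right _ _) (OpL_wp (by omega) u) (Wp_pos _ u).le
      (hx.trans (le_max_right _ _))
  have hfb : ∀ u, f u ≤ max A₁ (MF + E0 * ∑ l, a l) * Wp (d + 10) u := fun u =>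
    (hfA u).trans (mul_le_mul_of_nonneg_right (le_max_left _ _) (Wp_pos _ u).le)
  have t1 := hT f (gs δ τ k F cs Gs th) hf hG hf0 hfb hGb Λ hΛ hle e v he htouch
  have t2 := hH δ τ F cs Gs hD th v
  rw [← hE0d] at t2
  have t3 := hR δ τ F cs Gs hD th v
  have hZ : 0 ≤ τ ^ 2 * Yf δ τ := mul_nonneg (sq_nonneg τ) (by unfold Yf; positivity)
  obtain ⟨Z, hZd⟩ : ∃ Z : ℝ, Z = τ ^ 2 * Yf δ τ := ⟨_, rfl⟩
  rw [← hZd] at hZ t2 t3 ⊢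
  obtain ⟨W, hWd⟩ : ∃ W : ℝ, W = Wp (d + 10) v := ⟨_, rfl⟩
  rw [← hWd] at t1 t3 ⊢
  have hW : 0 < W := by rw [hWd]; exact Wp_pos _ v
  obtain ⟨A, hAd⟩ : ∃ A : ℝ, A = ∑ l, a l * len (k l) ^ 2 := ⟨_, rfl⟩
  have hA : 0 ≤ A := by
    rw [hAd]
    exact Finset.sum_nonneg fun l _ => mul_nonneg (ha l) (sq_nonneg _)
  rw [← hAd] at t2 ⊢
  have hw := OpL_wp1 v
  rw [← hWd] at hw
  have hn : 0 ≤ 1 + nsq v := by
    have := sq_nonneg' v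
    linarith
  have t4 : (1 + nsq v) * ∑ i, ∑ j, |pd i (pd j (gs δ τ k F cs Gs th)) v| ≤
      ((Kh + η / (1 + Ku) * Z) + d * (2 * Real.pi) ^ 2 * E0 * A * Z) * W := by
    calc (1 + nsq v) * ∑ i, ∑ j, |pd i (pd j (gs δ τ k F cs Gs th)) v| ≤
        (1 + nsq v) * ((Kh + η / (1 + Ku) * Z) * Wp (d + 14) v +
          d * (2 * Real.pi) ^ 2 * E0 * A * Z * Wp (d + 14) v) := mul_le_mul_of_nonneg_left t2 hn
      _ = ((Kh + η / (1 + Ku) * Z) + d * (2 * Real.pi) ^ 2 * E0 * A * Z) *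
          ((1 + nsq v) * Wp (d + 14) v) := by ring
      _ ≤ _ := mul_le_mul_of_nonneg_left hw (by positivity)
  have t5 : Ku * (η / (1 + Ku)) ≤ η := by
    rw [mul_div_assoc', div_le_iff₀ (by positivity)]
    nlinarith
  have t6 : Ku * (1 + nsq v) * ∑ i, ∑ j, |pd i (pd j (gs δ τ k F cs Gs th)) v| ≤
      (Ku * Kh + η * Z + Ku * (d * (2 * Real.pi) ^ 2 * E0) * A * Z) * W := by
    have e1 := mul_le_mul_of_nonneg_left t4 hKu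
    have e2 : Ku * (((Kh + η / (1 + Ku) * Z) + d * (2 * Real.pi) ^ 2 * E0 * A * Z) * W) =
        (Ku * Kh + Ku * (η / (1 + Ku)) * Z + Ku * (d * (2 * Real.pi) ^ 2 * E0) * A * Z) * W := by
      ring
    rw [e2] at e1
    rw [mul_assoc]
    refine e1.trans ?_
    refine mul_le_mul_of_nonneg_right ?_ hW.le
    have := mul_le_mul_of_nonneg_right t5 hZ
    linarith
  have t7 : e * (landauQ γ (gs δ τ k F cs Gs th) v + dmp δ τ k cs Gs th v) ≤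
      (Kr + η * Z) * W := by
    refine (le_abs_self _).trans ?_
    rw [abs_mul, he, one_mul]
    exact t3
  have t8 : e * (landauQ γ f v + dmp δ τ k cs Gs th v) =
      e * (landauQ γ f v - landauQ γ (gs δ τ k F cs Gs th) v) +
        e * (landauQ γ (gs δ τ k F cs Gs th) v + dmp δ τ k cs Gs th v) := by ring
  rw [t8]
  have t9 := mul_le_mul_of_nonneg_left t6 hΛ
  have t10 : 0 ≤ Λ * Kr * W := by positivity
  have t11 : 0 ≤ (Kt + Ku * Kh) * W := by positivity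
  have e1 : Λ * (Kt * W + Ku * (1 + nsq v) *
      ∑ i, ∑ j, |pd i (pd j (gs δ τ k F cs Gs th)) v|) =
      Λ * Kt * W + Λ * (Ku * (1 + nsq v) *
      ∑ i, ∑ j, |pd i (pd j (gs δ τ k F cs Gs th)) v|) := by ring
  rw [e1] at t1
  have e2 : Λ * ((Ku * Kh + η * Z + Ku * (d * (2 * Real.pi) ^ 2 * E0) * A * Z) * W) =
      Λ * (Ku * Kh) * W + Λ * (η * Z) * W +
        Λ * (Ku * (d * (2 * Real.pi) ^ 2 * E0) * A * Z * W) := by ring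
  rw [e2] at t9
  have e3 : (1 + Λ) * (Kt + Ku * Kh + Kr + η * Z) * W = Λ * Kt * W + Λ * (Ku * Kh) * W +
      Λ * Kr * W + Λ * (η * Z) * W + (Kt + Ku * Kh) * W + (Kr + η * Z) * W := by ring
  rw [e3]
  linarith

end Pool.Agent.H82.LL
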