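import Pool.Agent.H82.LL.Defs
import Pool.Agent.H48.LN.Bd

/-!
# Module OscA: the diffusion matrix of an oscillating function

`I = ab γ (g cos(θ - κ·)) i j v = ∫ a(z) g(v-z) cos(θ - κ·(v-z)) dz`, `θ' = min 1 (γ+2) ∈ (0,1]`, `|a(z)| ≤ 1 + nsq z` (`AbU_pt` in H48/LN/AbU.lean, copy; or `ab_bd`).
* `len κ ≤ π`: `|I| ≤ K M (1+nsq v)` (`ab_bd`, `|g cos| ≤ |g|`) and `(1+len κ)^(-θ') ≥ (1+π)^(-1) ≥ 1/5`.
* `len κ > π`: half period shift `h = (π/nsq κ) κ`, `len h = π/len κ < 1`, `κ·h = π`. Substituting `z → z + h` (`integral_add_right_eq_self`): `I = -∫ a(z+h) g(v-z-h) cos(θ - κ·(v-z)) dz`, so `2I = ∫ [a(z) g(v-z) - a(z+h) g(v-z-h)] cos dz`, and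
  `|a(z) g(v-z) - a(z+h) g(v-z-h)| ≤ |a(z+h) - a(z)| |g(v-z)| + |a(z+h)| |g(v-z) - g(v-z-h)|`. First term: `aH_pt` (H48/LN/AbH): `≤ 96 (len h)^θ' (1+nsq z) M Wp q (v-z)`. Second: `|a(z+h)| ≤ 1 + nsq (z+h) ≤ 4 (1+nsq z)`; with `u = v - z`: `|g(u) - g(u-h)| ≤ d 3^q M len h Wp q u`
  (mean value on the segment: derivative of `τ ↦ g(u-τh)` is `-Σ h_i pd i g`, `Σ|h_i| ≤ d len h`, `1+nsq u ≤ 3 (1+nsq (u-τh))` so `Wp q (u-τh) ≤ 3^q Wp q u`), `len h ≤ (len h)^θ'`.
  `∫ (1+nsq z) Wp q (v-z) dz ≤ K' (1+nsq v)` (`q ≥ d+2`). `(len h)^θ' = (π/len κ)^θ' ≤ (2π)^θ' (1+len κ)^(-θ')` (`1 + len κ ≤ 2 len κ`), `≤ 7 (1+len κ)^(-θ')`.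
-/

set_option autoImplicit false

open MeasureTheory Set Filter Topology Pool.Agent.H25.Kin Pool.Agent.H48.PR
open Pool.Agent.H48.PL
open Pool.Agent.H15.AV (ab)
open Pool.Agent.H82.HF (GG Bq CG)

namespace Pool.Agent.H82.LL

variable {d : ℕ} {γ : ℝ}

private lemma OscA_Wint {q : ℕ} (hq : d + 1 ≤ 2 * q) : Integrable (Wp q : Vec d → ℝ) := by
  refine Integrable.mono' ((integrable_wt (d := d)).const_mul ((2 : ℝ) ^ q))
    (Wp_cont q).aestronglyMeasurable (Eventually.of_forall fun v => ?_)
  have hn := norm_nonneg v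
  have h1 : (1 + ‖v‖) ^ 2 ≤ 2 * (1 + nsq v) := by
    have := norm_sq_le_sq v
    nlinarith [sq_nonneg (1 - ‖v‖)]
  have h2 : (1 + ‖v‖) ^ (d + 1) ≤ 2 ^ q * (1 + nsq v) ^ q := by
    calc (1 + ‖v‖) ^ (d + 1) ≤ (1 + ‖v‖) ^ (2 * q) := pow_le_pow_right₀ (by linarith) hq
      _ = ((1 + ‖v‖) ^ 2) ^ q := pow_mul _ _ _
      _ ≤ (2 * (1 + nsq v)) ^ q := pow_le_pow_left₀ (by positivity) h1 q
      _ = 2 ^ q * (1 + nsq v) ^ q := mul_pow _ _ _
  have h3 : 0 < (1 + nsq v) ^ q := by
    have := sq_nonneg' v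
    positivity
  rw [Real.norm_of_nonneg (Wp_pos q v).le, Wp, wt, ← div_eq_mul_inv, ← one_div,
    div_le_div_iff₀ h3 (by positivity), one_mul]
  exact h2

private lemma OscA_one (q : ℕ) (hq : 1 ≤ q) (v : Vec d) : (1 + nsq v) * Wp q v = Wp (q - 1) v := by
  obtain ⟨k, rfl⟩ : ∃ k, q = k + 1 := ⟨q - 1, by omega⟩
  have h0 := sq_nonneg' v
  have h1 : (1 + nsq v) ≠ 0 := by positivity
  unfold Wp
  rw [Nat.add_sub_cancel, pow_succ, mul_inv]
  field_simp

private lemma OscA_add (u v : Vec d) : nsq (u + v) ≤ 2 * nsq u + 2 * nsq v := by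
  unfold nsq
  rw [Finset.mul_sum, Finset.mul_sum, ← Finset.sum_add_distrib]
  refine Finset.sum_le_sum fun i _ => ?_
  simp only [Pi.add_apply]
  nlinarith [sq_nonneg (u i - v i)]

private lemma OscA_coord (z : Vec d) (i : Fin d) : |z i| ≤ len z := by
  refine abs_le_of_sq_le_sq ?_ (len_nonneg z)
  rw [len_sq]
  exact Finset.single_le_sum (f := fun k => (z k) ^ 2) (fun k _ => sq_nonneg _)
    (Finset.mem_univ i)

private lemma OscA_W (q : ℕ) (u y : Vec d) (h : nsq (u - y) ≤ 1) : Wp q y ≤ 3 ^ q * Wp q u := by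
  have h1 : nsq u ≤ 2 * nsq (u - y) + 2 * nsq y := by
    have := OscA_add (u - y) y
    rwa [sub_add_cancel] at this
  have hy := sq_nonneg' y
  have hu := sq_nonneg' u
  have h2 : 1 + nsq u ≤ 3 * (1 + nsq y) := by linarith
  have h3 : (1 + nsq u) ^ q ≤ 3 ^ q * (1 + nsq y) ^ q := by
    rw [← mul_pow]
    exact pow_le_pow_left₀ (by positivity) h2 q
  unfold Wp
  rw [← div_eq_mul_inv, ← one_div, div_le_div_iff₀ (by positivity) (by positivity), one_mul]
  exact h3

private lemma OscA_dir (g : Vec d → ℝ) (u w : Vec d) :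
    fderiv ℝ g u w = ∑ i, w i * pd i g u := by
  have h : w = ∑ i, w i • (Pi.single i (1 : ℝ) : Vec d) := by
    funext j
    simp [Finset.sum_apply, Pi.single_apply]
  conv_lhs => rw [h]
  rw [map_sum]
  exact Finset.sum_congr rfl fun i _ => by rw [map_smul, smul_eq_mul, pd]

private lemma OscA_nsq_smul (a : ℝ) (z : Vec d) : nsq (a • z) = a ^ 2 * nsq z := nsq_smul a z

private lemma OscA_mv {q : ℕ} {M : ℝ} {g : Vec d → ℝ} (hg : C2B (Wp q) M g) (u h : Vec d)
    (hh : len h ≤ 1) : |g u - g (u - h)| ≤ d * 3 ^ q * M * len h * Wp q u := by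
  have hl := len_nonneg h
  have hM := hg.nn
  have hdiff : Differentiable ℝ g := hg.sm.differentiable (by norm_num)
  have hder : ∀ τ : ℝ, HasDerivAt (fun τ : ℝ => g (u - τ • h)) (-(fderiv ℝ g (u - τ • h) h)) τ := by
    intro τ
    have h1 : HasDerivAt (fun τ : ℝ => u - τ • h) (-h) τ := by
      simpa using ((hasDerivAt_id τ).smul_const h).const_sub u
    have h2 := (hdiff (u - τ • h)).hasFDerivAt.comp_hasDerivAt τ h1
    rw [map_neg] at h2
    exact h2
  have hb : ∀ τ ∈ Set.Ico (0 : ℝ) 1, ‖-(fderiv ℝ g (u - τ • h) h)‖ ≤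
      d * 3 ^ q * M * len h * Wp q u := by
    intro τ hτ
    have hW : Wp q (u - τ • h) ≤ 3 ^ q * Wp q u := by
      apply OscA_W
      rw [sub_sub_cancel, nsq_smul, ← len_sq]
      have a1 : τ ^ 2 ≤ 1 := by nlinarith [hτ.1, hτ.2]
      have a2 : len h ^ 2 ≤ 1 := by nlinarith
      nlinarith [sq_nonneg τ, sq_nonneg (len h)]
    rw [norm_neg, Real.norm_eq_abs, OscA_dir]
    refine (Finset.abs_sum_le_sum_abs _ _).trans ?_
    have hterm : ∀ i ∈ (Finset.univ : Finset (Fin d)), |h i * pd i g (u - τ • h)| ≤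
        len h * (M * (3 ^ q * Wp q u)) := by
      intro i _
      rw [abs_mul]
      refine mul_le_mul (OscA_coord h i) ?_ (abs_nonneg _) hl
      exact (hg.d1 i _).trans (mul_le_mul_of_nonneg_left hW hM)
    refine (Finset.sum_le_sum hterm).trans (le_of_eq ?_)
    rw [Finset.sum_const, Finset.card_univ, Fintype.card_fin, nsmul_eq_mul]
    ring
  have h3 := norm_image_sub_le_of_norm_deriv_le_segment_01' (f := fun τ : ℝ => g (u - τ • h))
    (f' := fun τ : ℝ => -(fderiv ℝ g (u - τ • h) h)) (fun τ _ => (hder τ).hasDerivWithinAt) hb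
  simp only [one_smul, zero_smul, sub_zero, Real.norm_eq_abs] at h3
  rw [abs_sub_comm]
  exact h3

private lemma OscA_pow {x : ℝ} {t : ℝ} (hx : Real.pi < x) (ht0 : 0 < t) (ht1 : t ≤ 1) :
    (Real.pi / x) ^ t ≤ 7 * (1 + x) ^ (-t) := by
  have hpi := Real.pi_gt_three
  have hpi2 := Real.pi_lt_d2
  have hx0 : 0 < x := by linarith
  have h1 : Real.pi / x ≤ 2 * Real.pi / (1 + x) := by
    rw [div_le_div_iff₀ hx0 (by linarith)]
    nlinarith
  have h2 : (Real.pi / x) ^ t ≤ (2 * Real.pi / (1 + x)) ^ t :=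
    Real.rpow_le_rpow (by positivity) h1 ht0.le
  refine h2.trans ?_
  rw [Real.div_rpow (by positivity) (by positivity), Real.rpow_neg (by positivity), ← div_eq_mul_inv]
  apply div_le_div_of_nonneg_right _ (by positivity)
  calc (2 * Real.pi) ^ t ≤ (2 * Real.pi) ^ (1 : ℝ) :=
        Real.rpow_le_rpow_of_exponent_le (by linarith) ht1
    _ = 2 * Real.pi := Real.rpow_one _
    _ ≤ 7 := by linarith

theorem osc_ab (h1 : -2 < γ) (h2 : γ ≤ 0) {q : ℕ} (hq : d + 3 ≤ q) : ∃ K : ℝ, 0 ≤ K ∧
    ∀ (M : ℝ) (g : Vec d → ℝ), C2B (Wp q) M g → ∀ (κ : Vec d) (θ : ℝ) (i j : Fin d) (v : Vec d),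
      |ab γ (fun u => g u * Real.cos (θ - dot κ u)) i j v| ≤
        K * M * (1 + nsq v) * (1 + len κ) ^ (-(min 1 (γ + 2))) := by
  obtain ⟨K₀, hK₀, hK⟩ := Pool.Agent.H48.LN.ab_bd (d := d) h1 h2 (q := q) (by omega)
  have hW0 : 0 ≤ ∫ z : Vec d, Wp (q - 1) z := integral_nonneg fun z => (Wp_pos _ z).le
  set W₀ : ℝ := ∫ z : Vec d, Wp (q - 1) z with hW₀
  have hpi := Real.pi_gt_three
  have hpi2 := Real.pi_lt_d2
  set t : ℝ := min 1 (γ + 2) with ht
  have ht0 : 0 < t := lt_min one_pos (by linarith)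
  have ht1 : t ≤ 1 := min_le_left _ _
  refine ⟨5 * K₀ + 7 * ((96 + 6 * (d * 3 ^ q)) * W₀), by positivity, ?_⟩
  intro M g hg κ θ i j v
  have hM := hg.nn
  have hv := sq_nonneg' v
  have hκ := len_nonneg κ
  have hcw : Pool.Agent.H48.LN.CW q M (fun u => g u * Real.cos (θ - dot κ u)) := by
    refine ⟨hg.sm.continuous.mul (Real.continuous_cos.comp (continuous_const.sub ?_)), fun u => ?_⟩
    · unfold dot
      fun_prop
    · rw [abs_mul]
      calc |g u| * |Real.cos (θ - dot κ u)| ≤ (M * Wp q u) * 1 :=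
            mul_le_mul (hg.le u) (Real.abs_cos_le_one _) (abs_nonneg _)
              (mul_nonneg hM (Wp_pos q u).le)
        _ = M * Wp q u := mul_one _
  rcases le_or_gt (len κ) Real.pi with hcase | hcase
  · have h3 := hK M _ hcw i j v
    have h4 : 1 ≤ 5 * (1 + len κ) ^ (-t) := by
      have h5 : (1 + len κ) ^ (-1 : ℝ) ≤ (1 + len κ) ^ (-t) :=
        Real.rpow_le_rpow_of_exponent_le (by linarith) (by linarith)
      rw [Real.rpow_neg_one] at h5
      have h6 : (1 : ℝ) / 5 ≤ (1 + len κ)⁻¹ := by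
        rw [one_div]
        exact inv_anti₀ (by linarith) (by linarith)
      linarith
    have h7 : 0 ≤ K₀ * M * (1 + nsq v) := by positivity
    have h8 : 0 ≤ 7 * ((96 + 6 * (d * 3 ^ q)) * W₀) * M * (1 + nsq v) * (1 + len κ) ^ (-t) := by
      positivity
    calc |ab γ (fun u => g u * Real.cos (θ - dot κ u)) i j v| ≤ K₀ * M * (1 + nsq v) := h3
      _ = K₀ * M * (1 + nsq v) * 1 := (mul_one _).symm
      _ ≤ K₀ * M * (1 + nsq v) * (5 * (1 + len κ) ^ (-t)) := mul_le_mul_of_nonneg_left h4 h7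
      _ ≤ K₀ * M * (1 + nsq v) * (5 * (1 + len κ) ^ (-t)) +
          7 * ((96 + 6 * (d * 3 ^ q)) * W₀) * M * (1 + nsq v) * (1 + len κ) ^ (-t) := by linarith
      _ = _ := by ring
  · have hκ0 : 0 < len κ := by linarith
    have hn : nsq κ = len κ ^ 2 := (len_sq κ).symm
    have hn0 : nsq κ ≠ 0 := by
      rw [hn]
      positivity
    set h : Vec d := (Real.pi / nsq κ) • κ with hh
    have hdot : dot κ h = Real.pi := by
      have e : dot κ h = Real.pi / nsq κ * nsq κ := by
        rw [hh]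
        unfold dot nsq
        rw [Finset.mul_sum]
        refine Finset.sum_congr rfl fun k _ => ?_
        simp only [Pi.smul_apply, smul_eq_mul]
        ring
      rw [e, div_mul_cancel₀ _ hn0]
    have hlen : len h = Real.pi / len κ := by
      rw [hh, len_smul (div_nonneg (by positivity) (sq_nonneg' κ)), hn]
      field_simp
    have hlen1 : len h ≤ 1 := by
      rw [hlen, div_le_one hκ0]
      exact hcase.le
    have hlen0 : 0 ≤ len h := len_nonneg h
    have hnh : nsq h ≤ 1 := by
      rw [← len_sq]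
      nlinarith
    have hlt : len h ≤ len h ^ t := by
      rcases hlen0.eq_or_lt with h0 | h0
      · rw [← h0, Real.zero_rpow ht0.ne']
      · have := Real.rpow_le_rpow_of_exponent_ge h0 hlen1 ht1
        rwa [Real.rpow_one] at this
    have hint : ∀ w : Vec d, Integrable fun z => landauA γ z i j • (g (w - z) * Real.cos (θ - dot κ (w - z))) := by
      intro w
      refine Integrable.mono' (((OscA_Wint (d := d) (q := q - 1) (by omega)).comp_sub_left w).const_mul
        (4 * M * (1 + nsq w))) ?_ (Eventually.of_forall fun z => ?_)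
      · exact (measurable_landauA γ i j).aestronglyMeasurable.smul
          (hcw.cont.comp (continuous_const.sub continuous_id)).aestronglyMeasurable
      · have a1 := landauA_le' h1 h2 z i j
        have a2 := hcw.le (w - z)
        have a3 := one_add_sq_sub_le w (w - z)
        rw [sub_sub_cancel] at a3
        have a4 := Wp_pos q (w - z)
        have a5 := OscA_one q (by omega) (w - z)
        rw [smul_eq_mul, Real.norm_eq_abs, abs_mul]
        calc |landauA γ z i j| * |g (w - z) * Real.cos (θ - dot κ (w - z))|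
            ≤ (2 * (1 + nsq z)) * (M * Wp q (w - z)) :=
              mul_le_mul a1 a2 (abs_nonneg _) (by have := sq_nonneg' z; positivity)
          _ ≤ (2 * (2 * ((1 + nsq w) * (1 + nsq (w - z))))) * (M * Wp q (w - z)) := by
              gcongr
          _ = 4 * M * (1 + nsq w) * ((1 + nsq (w - z)) * Wp q (w - z)) := by ring
          _ = _ := by rw [a5]
    have hI1 : ab γ (fun u => g u * Real.cos (θ - dot κ u)) i j v =
        ∫ z, landauA γ z i j • (g (v - z) * Real.cos (θ - dot κ (v - z))) := rfl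
    have hI2 : ab γ (fun u => g u * Real.cos (θ - dot κ u)) i j v =
        ∫ z, landauA γ (z + h) i j • (g (v - z - h) * (-Real.cos (θ - dot κ (v - z)))) := by
      rw [hI1, ← integral_add_right_eq_self (μ := volume)
        (fun z => landauA γ z i j • (g (v - z) * Real.cos (θ - dot κ (v - z)))) h]
      refine integral_congr_ae (Eventually.of_forall fun z => ?_)
      dsimp only
      have e1 : v - (z + h) = v - z - h := by
        ext k
        simp only [Pi.sub_apply, Pi.add_apply]
        ring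
      have e2 : θ - dot κ (v - z - h) = θ - dot κ (v - z) + Real.pi := by
        have e3 : dot κ (v - z - h) = dot κ (v - z) - dot κ h := by
          unfold dot
          rw [← Finset.sum_sub_distrib]
          refine Finset.sum_congr rfl fun k _ => ?_
          simp only [Pi.sub_apply]
          ring
        rw [e3, hdot]
        ring
      rw [e1, e2, Real.cos_add_pi]
    have hint2 : Integrable fun z => landauA γ (z + h) i j • (g (v - z - h) * (-Real.cos (θ - dot κ (v - z)))) := by
      have h3 := (hint v).comp_add_right h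
      refine h3.congr (Eventually.of_forall fun z => ?_)
      dsimp only
      have e1 : v - (z + h) = v - z - h := by
        ext k
        simp only [Pi.sub_apply, Pi.add_apply]
        ring
      have e2 : θ - dot κ (v - z - h) = θ - dot κ (v - z) + Real.pi := by
        have e3 : dot κ (v - z - h) = dot κ (v - z) - dot κ h := by
          unfold dot
          rw [← Finset.sum_sub_distrib]
          refine Finset.sum_congr rfl fun k _ => ?_
          simp only [Pi.sub_apply]
          ring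
        rw [e3, hdot]
        ring
      rw [e1, e2, Real.cos_add_pi]
    have hsum : 2 * ab γ (fun u => g u * Real.cos (θ - dot κ u)) i j v =
        ∫ z, (landauA γ z i j * g (v - z) - landauA γ (z + h) i j * g (v - z - h)) *
          Real.cos (θ - dot κ (v - z)) := by
      have e : 2 * ab γ (fun u => g u * Real.cos (θ - dot κ u)) i j v =
          ab γ (fun u => g u * Real.cos (θ - dot κ u)) i j v +
          ab γ (fun u => g u * Real.cos (θ - dot κ u)) i j v := by ring
      rw [e]
      nth_rewrite 1 [hI1]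
      rw [hI2, ← integral_add (hint v) hint2]
      refine integral_congr_ae (Eventually.of_forall fun z => ?_)
      simp only [smul_eq_mul]
      ring
    have hpt : ∀ z : Vec d, ‖(landauA γ z i j * g (v - z) - landauA γ (z + h) i j * g (v - z - h)) *
          Real.cos (θ - dot κ (v - z))‖ ≤
        (2 * (96 + 6 * (d * 3 ^ q)) * M * (1 + nsq v) * len h ^ t) * Wp (q - 1) (v - z) := by
      intro z
      have hz := sq_nonneg' z
      have hWz := Wp_pos q (v - z)
      have b1 : |landauA γ z i j - landauA γ (z + h) i j| ≤ 96 * len h ^ t * (1 + nsq z) := by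
        have b2 := Pool.Agent.H48.LN.aH_pt h1 h2 i j (z + h) z (by rw [add_sub_cancel_left]; exact hlen1)
        rw [add_sub_cancel_left, abs_sub_comm] at b2
        exact b2
      have b3 : |landauA γ (z + h) i j| ≤ 6 * (1 + nsq z) := by
        have b4 := landauA_le' h1 h2 (z + h) i j
        have b5 := OscA_add z h
        linarith
      have b6 := OscA_mv hg (v - z) h hlen1
      have b7 := hg.le (v - z)
      have b8 : |landauA γ z i j * g (v - z) - landauA γ (z + h) i j * g (v - z - h)| ≤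
          (96 + 6 * (d * 3 ^ q)) * M * len h ^ t * ((1 + nsq z) * Wp q (v - z)) := by
        have e : landauA γ z i j * g (v - z) - landauA γ (z + h) i j * g (v - z - h) =
            (landauA γ z i j - landauA γ (z + h) i j) * g (v - z) +
            landauA γ (z + h) i j * (g (v - z) - g (v - z - h)) := by ring
        rw [e]
        refine (abs_add_le _ _).trans ?_
        rw [abs_mul, abs_mul]
        have c1 : |landauA γ z i j - landauA γ (z + h) i j| * |g (v - z)| ≤
            (96 * len h ^ t * (1 + nsq z)) * (M * Wp q (v - z)) :=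
          mul_le_mul b1 b7 (abs_nonneg _) (by positivity)
        have c2 : |landauA γ (z + h) i j| * |g (v - z) - g (v - z - h)| ≤
            (6 * (1 + nsq z)) * (d * 3 ^ q * M * len h ^ t * Wp q (v - z)) := by
          refine mul_le_mul b3 (b6.trans ?_) (abs_nonneg _) (by positivity)
          refine mul_le_mul_of_nonneg_right ?_ hWz.le
          exact mul_le_mul_of_nonneg_left hlt (by positivity)
        calc _ ≤ (96 * len h ^ t * (1 + nsq z)) * (M * Wp q (v - z)) +
              (6 * (1 + nsq z)) * (d * 3 ^ q * M * len h ^ t * Wp q (v - z)) := add_le_add c1 c2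
          _ = _ := by ring
      have b9 : (1 + nsq z) * Wp q (v - z) ≤ 2 * (1 + nsq v) * Wp (q - 1) (v - z) := by
        have a3 := one_add_sq_sub_le v (v - z)
        rw [sub_sub_cancel] at a3
        have a5 := OscA_one q (by omega) (v - z)
        calc (1 + nsq z) * Wp q (v - z) ≤ (2 * ((1 + nsq v) * (1 + nsq (v - z)))) * Wp q (v - z) :=
              mul_le_mul_of_nonneg_right a3 hWz.le
          _ = 2 * (1 + nsq v) * ((1 + nsq (v - z)) * Wp q (v - z)) := by ring
          _ = _ := by rw [a5]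
      rw [Real.norm_eq_abs, abs_mul]
      calc |landauA γ z i j * g (v - z) - landauA γ (z + h) i j * g (v - z - h)| *
            |Real.cos (θ - dot κ (v - z))|
          ≤ |landauA γ z i j * g (v - z) - landauA γ (z + h) i j * g (v - z - h)| * 1 :=
            mul_le_mul_of_nonneg_left (Real.abs_cos_le_one _) (abs_nonneg _)
        _ = |landauA γ z i j * g (v - z) - landauA γ (z + h) i j * g (v - z - h)| := mul_one _
        _ ≤ (96 + 6 * (d * 3 ^ q)) * M * len h ^ t * ((1 + nsq z) * Wp q (v - z)) := b8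
        _ ≤ (96 + 6 * (d * 3 ^ q)) * M * len h ^ t * (2 * (1 + nsq v) * Wp (q - 1) (v - z)) :=
            mul_le_mul_of_nonneg_left b9 (by positivity)
        _ = _ := by ring
    have hfin := norm_integral_le_of_norm_le
      (((OscA_Wint (d := d) (q := q - 1) (by omega)).comp_sub_left v).const_mul
        (2 * (96 + 6 * (d * 3 ^ q)) * M * (1 + nsq v) * len h ^ t))
      (Eventually.of_forall hpt)
    rw [integral_const_mul, integral_sub_left_eq_self (fun z : Vec d => Wp (q - 1) z) volume v,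
      ← hsum, Real.norm_eq_abs, abs_mul, abs_of_pos (by norm_num : (0 : ℝ) < 2), ← hW₀] at hfin
    have hpow : len h ^ t ≤ 7 * (1 + len κ) ^ (-t) := by
      rw [hlen]
      exact OscA_pow hcase ht0 ht1
    have h9 : |ab γ (fun u => g u * Real.cos (θ - dot κ u)) i j v| ≤
        (96 + 6 * (d * 3 ^ q)) * M * (1 + nsq v) * len h ^ t * W₀ := by linarith
    have h10 : 0 ≤ 5 * K₀ * M * (1 + nsq v) * (1 + len κ) ^ (-t) := by positivity
    calc |ab γ (fun u => g u * Real.cos (θ - dot κ u)) i j v|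
        ≤ (96 + 6 * (d * 3 ^ q)) * M * (1 + nsq v) * len h ^ t * W₀ := h9
      _ ≤ (96 + 6 * (d * 3 ^ q)) * M * (1 + nsq v) * (7 * (1 + len κ) ^ (-t)) * W₀ := by
          apply mul_le_mul_of_nonneg_right _ hW0
          exact mul_le_mul_of_nonneg_left hpow (by positivity)
      _ ≤ (96 + 6 * (d * 3 ^ q)) * M * (1 + nsq v) * (7 * (1 + len κ) ^ (-t)) * W₀ +
          5 * K₀ * M * (1 + nsq v) * (1 + len κ) ^ (-t) := by linarith
      _ = _ := by ring

end Pool.Agent.H82.LL
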