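import Pool.Agent.H82.LL.Defs

/-!
# Module Slc: slices

`sl r a h v = h (a - r•v) v = (uc h) (Λ v)`, `Λ v = (a - r•v, v)` affine with linear part `L w = (-r•w, w)`, `‖L w‖ = max (r‖w‖) ‖w‖ ≤ ‖w‖` for `0 ≤ r ≤ 1` (norm of the product = sup), in general `‖L w‖ ≤ (1+|r|) ‖w‖`.
`sl_c2`: `fderiv (sl r a h) v = (fderiv (uc h) (Λ v)).comp L`, `pd i (sl r a h) v = fderiv (uc h) (Λ v) (L e_i)`, and `pd i (pd j (sl r a h)) v = fderiv (fderiv (uc h)) (Λ v) (L e_i) (L e_j)` (derivative of `v ↦ fderiv (uc h) (Λ v) (L e_j)`: chain rule and evaluation, `HasFDerivAt.clm_apply`). `(Λ v).2 = v`.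
`sl_nice`: RD of `g = sl r a h`, of `fderiv ℝ g v = (fderiv (uc h) (Λ v)).comp L`, of `fderiv ℝ (fderiv ℝ g) v`: composition of `fderiv (fderiv (uc h)) (Λ v)` with `L` and with the continuous linear map `A ↦ A.comp L`: norm `≤ (1+|r|)² ‖fderiv (fderiv (uc h)) (Λ v)‖`.
`np_c2`: `RDP` with `N = 2q` for `h`, `fderiv h`, `fderiv (fderiv h)` and `1 + nsq v ≤ (d+1)(1+‖v‖)²` (see `FouD_le`, H82/HF/FouD.lean), maximum of the three constants. `ns_sl`: `sl_nice` with `r = 0`.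
-/

set_option autoImplicit false

open MeasureTheory Set Filter Topology Pool.Agent.H25.Kin Pool.Agent.H48.PR
open Pool.Agent.H48.PL
open Pool.Agent.H15.AV (ab)
open Pool.Agent.H82.HF (GG Bq CG)

namespace Pool.Agent.H82.LL

variable {d : ℕ}

/-- the affine map of a slice -/
private def Slc_A (r : ℝ) (a v : Vec d) : Vec d × Vec d := (a - r • v, v)

/-- its linear part -/
private noncomputable def Slc_L (r : ℝ) : Vec d →L[ℝ] Vec d × Vec d :=
  (-(r • ContinuousLinearMap.id ℝ (Vec d))).prod (ContinuousLinearMap.id ℝ (Vec d))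

private theorem Slc_hA (r : ℝ) (a v : Vec d) :
    HasFDerivAt (Slc_A r a) (Slc_L r : Vec d →L[ℝ] Vec d × Vec d) v := by
  have h1 : HasFDerivAt (fun v : Vec d => a - r • v)
      (-(r • ContinuousLinearMap.id ℝ (Vec d))) v :=
    ((hasFDerivAt_id v).const_smul r).const_sub a
  exact h1.prodMk (hasFDerivAt_id v)

private theorem Slc_smA (r : ℝ) (a : Vec d) : ContDiff ℝ 2 (Slc_A r a) := by
  have h1 : ContDiff ℝ 2 (fun v : Vec d => a - r • v) :=
    contDiff_const.sub (contDiff_id.const_smul r)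
  exact h1.prodMk contDiff_id

private theorem Slc_Lapp (r : ℝ) (w : Vec d) : Slc_L r w = (-(r • w), w) := rfl

private theorem Slc_Lle (r : ℝ) (w : Vec d) : ‖Slc_L r w‖ ≤ (1 + |r|) * ‖w‖ := by
  rw [Slc_Lapp, Prod.norm_mk, norm_neg, norm_smul, Real.norm_eq_abs]
  have h1 := norm_nonneg w
  have h2 := abs_nonneg r
  refine max_le ?_ ?_ <;> nlinarith

private theorem Slc_Ln (r : ℝ) : ‖(Slc_L r : Vec d →L[ℝ] Vec d × Vec d)‖ ≤ 1 + |r| :=
  ContinuousLinearMap.opNorm_le_bound _ (by positivity) (Slc_Lle r)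

private theorem Slc_Le {r : ℝ} (h0 : 0 ≤ r) (h1 : r ≤ 1) (i : Fin d) :
    ‖Slc_L r (Pi.single i (1 : ℝ) : Vec d)‖ ≤ 1 := by
  rw [Slc_Lapp, Prod.norm_mk, norm_neg, norm_smul, Real.norm_eq_abs, abs_of_nonneg h0,
    norm_single_one]
  exact max_le (by linarith) le_rfl

private theorem Slc_eq (r : ℝ) (a : Vec d) (h : Vec d → Vec d → ℝ) :
    sl r a h = uc h ∘ Slc_A r a := rfl

private theorem Slc_sm {h : Vec d → Vec d → ℝ} (hh : ContDiff ℝ 2 (uc h)) (r : ℝ) (a : Vec d) :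
    ContDiff ℝ 2 (sl r a h) := by
  rw [Slc_eq]
  exact hh.comp (Slc_smA r a)

private theorem Slc_d1 {h : Vec d → Vec d → ℝ} (hh : ContDiff ℝ 2 (uc h)) (r : ℝ) (a v : Vec d) :
    fderiv ℝ (sl r a h) v = (fderiv ℝ (uc h) (Slc_A r a v)).comp (Slc_L r) := by
  rw [Slc_eq]
  have h1 : HasFDerivAt (uc h) (fderiv ℝ (uc h) (Slc_A r a v)) (Slc_A r a v) :=
    ((hh.differentiable (by norm_num)) _).hasFDerivAt
  exact (h1.comp v (Slc_hA r a v)).fderiv

private theorem Slc_D {h : Vec d → Vec d → ℝ} (hh : ContDiff ℝ 2 (uc h)) (r : ℝ) (a v : Vec d) :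
    HasFDerivAt (fun v => fderiv ℝ (uc h) (Slc_A r a v))
      ((fderiv ℝ (fderiv ℝ (uc h)) (Slc_A r a v)).comp (Slc_L r)) v := by
  have h1 : ContDiff ℝ 1 (fderiv ℝ (uc h)) := hh.fderiv_right (m := 1) (by norm_num)
  have h2 : HasFDerivAt (fderiv ℝ (uc h)) (fderiv ℝ (fderiv ℝ (uc h)) (Slc_A r a v))
      (Slc_A r a v) := ((h1.differentiable (by norm_num)) _).hasFDerivAt
  exact h2.comp v (Slc_hA r a v)

private theorem Slc_d2 {h : Vec d → Vec d → ℝ} (hh : ContDiff ℝ 2 (uc h)) (r : ℝ) (a v : Vec d) :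
    fderiv ℝ (fderiv ℝ (sl r a h)) v =
      ((ContinuousLinearMap.compL ℝ (Vec d) (Vec d × Vec d) ℝ).flip (Slc_L r)).comp
        ((fderiv ℝ (fderiv ℝ (uc h)) (Slc_A r a v)).comp (Slc_L r)) := by
  have h1 : fderiv ℝ (sl r a h) = fun v =>
      (ContinuousLinearMap.compL ℝ (Vec d) (Vec d × Vec d) ℝ).flip (Slc_L r)
        (fderiv ℝ (uc h) (Slc_A r a v)) := by
    funext v
    rw [Slc_d1 hh]
    rfl
  rw [h1]
  exact (((ContinuousLinearMap.compL ℝ (Vec d) (Vec d × Vec d) ℝ).flip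
    (Slc_L r)).hasFDerivAt.comp v (Slc_D hh r a v)).fderiv

private theorem Slc_p1 {h : Vec d → Vec d → ℝ} (hh : ContDiff ℝ 2 (uc h)) (r : ℝ) (a : Vec d)
    (j : Fin d) (v : Vec d) :
    pd j (sl r a h) v = fderiv ℝ (uc h) (Slc_A r a v) (Slc_L r (Pi.single j 1)) := by
  rw [pd, Slc_d1 hh]
  rfl

private theorem Slc_p2 {h : Vec d → Vec d → ℝ} (hh : ContDiff ℝ 2 (uc h)) (r : ℝ) (a : Vec d)
    (i j : Fin d) (v : Vec d) :
    pd i (pd j (sl r a h)) v = fderiv ℝ (fderiv ℝ (uc h)) (Slc_A r a v)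
      (Slc_L r (Pi.single i 1)) (Slc_L r (Pi.single j 1)) := by
  have h1 : pd j (sl r a h) = fun v =>
      fderiv ℝ (uc h) (Slc_A r a v) (Slc_L r (Pi.single j 1)) := by
    funext v
    exact Slc_p1 hh r a j v
  rw [pd, h1]
  have h2 := (Slc_D hh r a v).clm_apply
    (hasFDerivAt_const (Slc_L r (Pi.single j (1 : ℝ)) : Vec d × Vec d) v)
  rw [h2.fderiv]
  simp

theorem sl_c2 {w : Vec d → ℝ} {M : ℝ} {h : Vec d → Vec d → ℝ} (hh : C2P w M (uc h)) {r : ℝ}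
    (h0 : 0 ≤ r) (h1 : r ≤ 1) (a : Vec d) : C2B w M (sl r a h) := by
  refine ⟨hh.nn, Slc_sm hh.sm r a, fun v => hh.le (Slc_A r a v), fun i v => ?_, fun i j v => ?_⟩
  · rw [Slc_p1 hh.sm, ← Real.norm_eq_abs]
    refine ((fderiv ℝ (uc h) (Slc_A r a v)).le_opNorm _).trans ?_
    refine (mul_le_of_le_one_right (norm_nonneg _) (Slc_Le h0 h1 i)).trans ?_
    exact hh.d1 (Slc_A r a v)
  · rw [Slc_p2 hh.sm, ← Real.norm_eq_abs]
    refine ((fderiv ℝ (fderiv ℝ (uc h)) (Slc_A r a v)).le_opNorm₂ _ _).trans ?_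
    refine (mul_le_of_le_one_right (by positivity) (Slc_Le h0 h1 j)).trans ?_
    refine (mul_le_of_le_one_right (norm_nonneg (fderiv ℝ (fderiv ℝ (uc h)) (Slc_A r a v)))
      (Slc_Le h0 h1 i)).trans ?_
    exact hh.d2 (Slc_A r a v)

private theorem Slc_rd {E : Type*} [NormedAddCommGroup E] {h : Vec d × Vec d → E} (hh : RDP h)
    (r : ℝ) (a : Vec d) : RD (fun v => h (Slc_A r a v)) := by
  intro N
  obtain ⟨C, hC⟩ := hh N
  exact ⟨C, fun v => hC (Slc_A r a v)⟩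

theorem sl_nice {h : Vec d → Vec d → ℝ} (hh : NiceP (uc h)) (r : ℝ) (a : Vec d) :
    Nice (sl r a h) := by
  have hc : ‖(ContinuousLinearMap.compL ℝ (Vec d) (Vec d × Vec d) ℝ).flip (Slc_L r)‖ ≤
      1 + |r| := by
    refine ContinuousLinearMap.opNorm_le_bound _ (by positivity) fun A => ?_
    have h1 : (ContinuousLinearMap.compL ℝ (Vec d) (Vec d × Vec d) ℝ).flip (Slc_L r) A =
      A.comp (Slc_L r) := rfl
    rw [h1]
    refine (ContinuousLinearMap.opNorm_comp_le _ _).trans ?_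
    rw [mul_comm]
    exact mul_le_mul_of_nonneg_right (Slc_Ln r) (norm_nonneg A)
  refine ⟨Slc_sm hh.sm r a, Slc_rd hh.rd r a, ?_, ?_⟩
  · refine (Slc_rd hh.rd1 r a).mono (1 + |r|) fun v => ?_
    rw [Slc_d1 hh.sm]
    refine (ContinuousLinearMap.opNorm_comp_le _ _).trans ?_
    rw [mul_comm]
    exact mul_le_mul_of_nonneg_right (Slc_Ln r) (norm_nonneg _)
  · refine (Slc_rd hh.rd2 r a).mono ((1 + |r|) * (1 + |r|)) fun v => ?_
    rw [Slc_d2 hh.sm]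
    refine (ContinuousLinearMap.opNorm_comp_le _ _).trans ?_
    have h2 : ‖(fderiv ℝ (fderiv ℝ (uc h)) (Slc_A r a v)).comp (Slc_L r)‖ ≤
        (1 + |r|) * ‖fderiv ℝ (fderiv ℝ (uc h)) (Slc_A r a v)‖ := by
      refine (ContinuousLinearMap.opNorm_comp_le _ _).trans ?_
      rw [mul_comm]
      exact mul_le_mul_of_nonneg_right (Slc_Ln r) (norm_nonneg _)
    rw [mul_assoc]
    exact mul_le_mul hc h2 (norm_nonneg _) (by positivity)

private theorem Slc_le {q : ℕ} {v : Vec d} {a c : ℝ} (ha : 0 ≤ a)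
    (h : (1 + ‖v‖) ^ (2 * q) * a ≤ c) : a ≤ ((d : ℝ) + 1) ^ q * c * Wp q v := by
  have hn := norm_nonneg v
  have h2 : 1 + nsq v ≤ ((d : ℝ) + 1) * (1 + ‖v‖) ^ 2 := by
    have h3 := sq_le v
    have h4 : (0 : ℝ) ≤ d := Nat.cast_nonneg _
    nlinarith [mul_nonneg h4 hn]
  have h5 : (1 + nsq v) ^ q ≤ ((d : ℝ) + 1) ^ q * (1 + ‖v‖) ^ (2 * q) := by
    rw [pow_mul, ← mul_pow]
    exact pow_le_pow_left₀ (by have := sq_nonneg' v; linarith) h2 q
  have h6 : 0 < (1 + nsq v) ^ q := by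
    have := sq_nonneg' v
    positivity
  rw [Wp, ← div_eq_mul_inv, le_div_iff₀ h6]
  calc a * (1 + nsq v) ^ q ≤ a * (((d : ℝ) + 1) ^ q * (1 + ‖v‖) ^ (2 * q)) :=
        mul_le_mul_of_nonneg_left h5 ha
    _ = ((d : ℝ) + 1) ^ q * ((1 + ‖v‖) ^ (2 * q) * a) := by ring
    _ ≤ ((d : ℝ) + 1) ^ q * c := mul_le_mul_of_nonneg_left h (by positivity)

theorem np_c2 {h : Vec d × Vec d → ℝ} (hh : NiceP h) (q : ℕ) : ∃ M : ℝ, C2P (Wp q) M h := by
  obtain ⟨C0, h0⟩ := hh.rd (2 * q)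
  obtain ⟨C1, h1⟩ := hh.rd1 (2 * q)
  obtain ⟨C2, h2⟩ := hh.rd2 (2 * q)
  have hD : (0 : ℝ) ≤ ((d : ℝ) + 1) ^ q := by positivity
  have hC0 : 0 ≤ C0 := le_trans (by positivity) (h0 0)
  have hC1 : 0 ≤ C1 := le_trans (by positivity) (h1 0)
  have hC2 : 0 ≤ C2 := le_trans (by positivity) (h2 0)
  have hW : ∀ v : Vec d, 0 ≤ Wp q v := by
    intro v
    have := sq_nonneg' v
    unfold Wp
    positivity
  refine ⟨((d : ℝ) + 1) ^ q * (C0 + C1 + C2), mul_nonneg hD (by linarith), hh.sm,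
    fun p => ?_, fun p => ?_, fun p => ?_⟩
  · refine (Slc_le (abs_nonneg _) (h0 p)).trans (mul_le_mul_of_nonneg_right ?_ (hW _))
    exact mul_le_mul_of_nonneg_left (by linarith) hD
  · refine (Slc_le (norm_nonneg (fderiv ℝ h p)) (h1 p)).trans (mul_le_mul_of_nonneg_right ?_ (hW _))
    exact mul_le_mul_of_nonneg_left (by linarith) hD
  · refine (Slc_le (norm_nonneg (fderiv ℝ (fderiv ℝ h) p)) (h2 p)).trans (mul_le_mul_of_nonneg_right ?_ (hW _))
    exact mul_le_mul_of_nonneg_left (by linarith) hD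

theorem ns_sl {h : Vec d → Vec d → ℝ} (hh : NS h) (y : Vec d) : Nice (h y) := by
  have h1 := sl_nice hh.np 0 y
  have h2 : sl 0 y h = h y := by
    funext v
    simp [sl]
  rwa [h2] at h1

end Pool.Agent.H82.LL
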