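import Pool.Agent.H82.LL.Cov
import Pool.Agent.H82.LL.Slc

/-!
# Module QGc: the damping rate is of class `C²`; the difference with the rate of the slice

`qG_c2`: `ab γ (F y) i j v = cov (fun z => landauA γ z i j) (uc F) (y,v)` (by definition), `cov_c2` with `kern_landauA`, finite sums and constants (`C2P` is stable under sums and multiplication by constants: `fderiv_add`, `fderiv_const_mul` for `C²` functions, or write the sum as one `cov` with the kernel
`z ↦ (2π)²/3 Σ_ij k_i k_j landauA γ z i j`, which is again a `Kern`; the integral of the finite sum: `Kern.integrable`-like bound).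
`foot_dif`: `|F (a - r•u) u - F (a - r•v) u| ≤ M r ‖u - v‖ Wp (d+4) u` (mean value theorem in the slow variable, `‖fderiv (uc F)‖ ≤ M Wp (d+4)`, `np_c2`), `‖u - v‖ ≤ 2 (1+nsq v)(1+nsq u)`, so the difference `g = sl r a F - F (a - r•v)` satisfies `|g u| ≤ 2 M r (1+nsq v) Wp (d+3) u`,
`CW (d+3)`; `ab_sub` and `ab_bd` (H48/LN/Bd): `≤ K 2 M r (1+nsq v)²`.
`rate_dif`: `3 qG k (a - r•v) v = (2π)² Σ_ij k_i k_j ab (F (a - r•v)) i j v`, sum over `i, j` of `foot_dif`: `L = (2π)² Σ_ij |k_i k_j| L₀`.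
-/

set_option autoImplicit false

open MeasureTheory Set Filter Topology Pool.Agent.H25.Kin Pool.Agent.H48.PR
open Pool.Agent.H48.PL
open Pool.Agent.H15.AV (ab)
open Pool.Agent.H82.HF (GG Bq CG)

namespace Pool.Agent.H82.LL

variable {d : ℕ} {γ : ℝ}

private theorem qgc_add {w : Vec d → ℝ} {A B : ℝ} {f g : Vec d × Vec d → ℝ} (hf : C2P w A f)
    (hg : C2P w B g) : C2P w (A + B) (fun p => f p + g p) := by
  have df : Differentiable ℝ f := hf.sm.differentiable (by norm_num)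
  have dg : Differentiable ℝ g := hg.sm.differentiable (by norm_num)
  have sf : ContDiff ℝ 1 (fderiv ℝ f) := hf.sm.fderiv_right (by norm_num)
  have sg : ContDiff ℝ 1 (fderiv ℝ g) := hg.sm.fderiv_right (by norm_num)
  have ddf : Differentiable ℝ (fderiv ℝ f) := sf.differentiable (by norm_num)
  have ddg : Differentiable ℝ (fderiv ℝ g) := sg.differentiable (by norm_num)
  have e1 : fderiv ℝ (fun p => f p + g p) = fun p => fderiv ℝ f p + fderiv ℝ g p := by
    funext p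
    exact fderiv_fun_add (df p) (dg p)
  have e2 : fderiv ℝ (fderiv ℝ (fun p => f p + g p)) =
      fun p => fderiv ℝ (fderiv ℝ f) p + fderiv ℝ (fderiv ℝ g) p := by
    rw [e1]
    funext p
    exact fderiv_fun_add (ddf p) (ddg p)
  refine ⟨add_nonneg hf.nn hg.nn, hf.sm.add hg.sm, fun p => ?_, fun p => ?_, fun p => ?_⟩
  · have h1 := hf.le p
    have h2 := hg.le p
    calc |f p + g p| ≤ |f p| + |g p| := abs_add_le _ _
      _ ≤ (A + B) * w p.2 := by linarith
  · rw [e1]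
    have h1 := hf.d1 p
    have h2 := hg.d1 p
    calc ‖fderiv ℝ f p + fderiv ℝ g p‖ ≤ ‖fderiv ℝ f p‖ + ‖fderiv ℝ g p‖ := norm_add_le _ _
      _ ≤ (A + B) * w p.2 := by linarith
  · rw [e2]
    have h1 := hf.d2 p
    have h2 := hg.d2 p
    calc ‖fderiv ℝ (fderiv ℝ f) p + fderiv ℝ (fderiv ℝ g) p‖
        ≤ ‖fderiv ℝ (fderiv ℝ f) p‖ + ‖fderiv ℝ (fderiv ℝ g) p‖ :=
          ContinuousLinearMap.opNorm_add_le _ _
      _ ≤ (A + B) * w p.2 := by linarith

private theorem qgc_mul {w : Vec d → ℝ} {A : ℝ} {f : Vec d × Vec d → ℝ} (c : ℝ)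
    (hf : C2P w A f) : C2P w (|c| * A) (fun p => c * f p) := by
  have df : Differentiable ℝ f := hf.sm.differentiable (by norm_num)
  have sf : ContDiff ℝ 1 (fderiv ℝ f) := hf.sm.fderiv_right (by norm_num)
  have ddf : Differentiable ℝ (fderiv ℝ f) := sf.differentiable (by norm_num)
  have e1 : fderiv ℝ (fun p => c * f p) = fun p => c • fderiv ℝ f p := by
    funext p
    exact fderiv_const_mul (df p) c
  have e2 : fderiv ℝ (fderiv ℝ (fun p => c * f p)) = fun p => c • fderiv ℝ (fderiv ℝ f) p := by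
    rw [e1]
    funext p
    exact fderiv_fun_const_smul (ddf p) c
  refine ⟨mul_nonneg (abs_nonneg _) hf.nn, contDiff_const.mul hf.sm, fun p => ?_, fun p => ?_,
    fun p => ?_⟩
  · rw [abs_mul, mul_assoc]
    exact mul_le_mul_of_nonneg_left (hf.le p) (abs_nonneg _)
  · rw [e1, mul_assoc]
    show ‖c • fderiv ℝ f p‖ ≤ _
    rw [norm_smul, Real.norm_eq_abs]
    exact mul_le_mul_of_nonneg_left (hf.d1 p) (abs_nonneg _)
  · rw [e2, mul_assoc]
    show ‖c • fderiv ℝ (fderiv ℝ f) p‖ ≤ _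
    refine (ContinuousLinearMap.opNorm_smul_le _ _).trans ?_
    rw [Real.norm_eq_abs]
    exact mul_le_mul_of_nonneg_left (hf.d2 p) (abs_nonneg _)

private theorem qgc_zero {w : Vec d → ℝ} : C2P w 0 (fun _ : Vec d × Vec d => (0 : ℝ)) := by
  have e1 : fderiv ℝ (fun _ : Vec d × Vec d => (0 : ℝ)) = fun _ => 0 := by
    funext p
    exact fderiv_const_apply _
  have e2 : fderiv ℝ (fderiv ℝ (fun _ : Vec d × Vec d => (0 : ℝ))) = fun _ => 0 := by
    rw [e1]
    funext p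
    exact fderiv_const_apply _
  refine ⟨le_refl _, contDiff_const, fun p => ?_, fun p => ?_, fun p => ?_⟩
  · simp
  · rw [e1]; simp
  · rw [e2]
    exact (ContinuousLinearMap.opNorm_zero).le.trans (by simp)

private theorem qgc_sum {ι : Type*} (s : Finset ι) {w : Vec d → ℝ}
    {f : ι → Vec d × Vec d → ℝ} (h : ∀ i, ∃ K : ℝ, C2P w K (f i)) :
    ∃ K : ℝ, C2P w K (fun p => ∑ i ∈ s, f i p) := by
  classical
  induction s using Finset.induction_on with
  | empty => exact ⟨0, by simpa using qgc_zero⟩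
  | insert a s ha ih =>
    obtain ⟨K, hK⟩ := ih
    obtain ⟨A, hA⟩ := h a
    refine ⟨A + K, ?_⟩
    have e : (fun p => ∑ i ∈ insert a s, f i p) = fun p => f a p + ∑ i ∈ s, f i p := by
      funext p
      rw [Finset.sum_insert ha]
    rw [e]
    exact qgc_add hA hK

theorem qG_c2 (h1 : -2 < γ) (h2 : γ ≤ 0) {F : Vec d → Vec d → ℝ} (hF : NS F) (k : Vec d) :
    ∃ K : ℝ, C2P w1 K (uc (qG γ F k)) := by
  have h : ∀ i : Fin d, ∃ K : ℝ, C2P w1 K (fun p => ∑ j : Fin d, k i * k j *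
      cov (fun z => landauA γ z i j) (uc F) p) := by
    intro i
    refine qgc_sum Finset.univ fun j => ?_
    obtain ⟨K, hK⟩ := cov_c2 (kern_landauA (d := d) h1 h2 i j) hF.np
    exact ⟨_, qgc_mul (k i * k j) hK⟩
  obtain ⟨K, hK⟩ := qgc_sum Finset.univ h
  exact ⟨_, qgc_mul ((2 * Real.pi) ^ 2 / 3) hK⟩

private theorem qgc_norm (u : Vec d) : ‖u‖ ≤ 1 + nsq u := by
  have h0 : 0 ≤ nsq u := Finset.sum_nonneg fun i _ => sq_nonneg _
  rw [pi_norm_le_iff_of_nonneg (by linarith)]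
  intro i
  have h1 : u i ^ 2 ≤ nsq u :=
    Finset.single_le_sum (f := fun i => u i ^ 2) (fun j _ => sq_nonneg _) (Finset.mem_univ i)
  rw [Real.norm_eq_abs]
  have h2 : |u i| ^ 2 = u i ^ 2 := sq_abs _
  nlinarith [sq_nonneg (|u i| - 1)]

private theorem qgc_mv {F : Vec d → Vec d → ℝ} {M : ℝ} (hM : C2P (Wp (d + 4)) M (uc F))
    (u x y : Vec d) : |F x u - F y u| ≤ M * Wp (d + 4) u * ‖x - y‖ := by
  have hd : ∀ z : Vec d, HasFDerivAt (fun z => F z u)
      ((fderiv ℝ (uc F) (z, u)).comp (ContinuousLinearMap.inl ℝ (Vec d) (Vec d))) z := by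
    intro z
    have a1 := ((hM.sm.differentiable (by norm_num)) (z, u)).hasFDerivAt
    have a2 : HasFDerivAt (fun z : Vec d => (z, u)) (ContinuousLinearMap.inl ℝ (Vec d) (Vec d)) z :=
      hasFDerivAt_prodMk_left z u
    exact a1.comp z a2
  have hb : ∀ z : Vec d, ‖(fderiv ℝ (uc F) (z, u)).comp
      (ContinuousLinearMap.inl ℝ (Vec d) (Vec d))‖ ≤ M * Wp (d + 4) u := by
    intro z
    refine le_trans (ContinuousLinearMap.opNorm_comp_le _ _) ?_
    have a3 : ‖ContinuousLinearMap.inl ℝ (Vec d) (Vec d)‖ ≤ 1 := ContinuousLinearMap.norm_inl_le_one _ _ _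
    calc ‖fderiv ℝ (uc F) (z, u)‖ * ‖ContinuousLinearMap.inl ℝ (Vec d) (Vec d)‖
        ≤ ‖fderiv ℝ (uc F) (z, u)‖ * 1 := mul_le_mul_of_nonneg_left a3 (norm_nonneg _)
      _ = ‖fderiv ℝ (uc F) (z, u)‖ := mul_one _
      _ ≤ M * Wp (d + 4) u := hM.d1 (z, u)
  have h := Convex.norm_image_sub_le_of_norm_hasFDerivWithin_le (s := univ)
    (fun z _ => (hd z).hasFDerivWithinAt) (fun z _ => hb z) convex_univ (mem_univ y) (mem_univ x)
  rw [Real.norm_eq_abs] at h
  exact h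

theorem foot_dif (h1 : -2 < γ) (h2 : γ ≤ 0) {F : Vec d → Vec d → ℝ} (hF : NS F) :
    ∃ L : ℝ, 0 ≤ L ∧ ∀ r : ℝ, 0 ≤ r → r ≤ 1 → ∀ (a : Vec d) (i j : Fin d) (v : Vec d),
      |ab γ (sl r a F) i j v - ab γ (F (a - r • v)) i j v| ≤ L * r * (1 + nsq v) ^ 2 := by
  obtain ⟨M, hM⟩ := np_c2 hF.np (d + 4)
  obtain ⟨K, hK0, hK⟩ := Pool.Agent.H48.LN.ab_bd (d := d) h1 h2 (q := d + 3) (by omega)
  have hM0 := hM.nn
  refine ⟨2 * K * M, by positivity, ?_⟩
  intro r hr _ a i j v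
  have cu : Continuous (uc F) := hM.sm.continuous
  have c1 : Continuous (sl r a F) := by
    have : Continuous (fun u : Vec d => ((a - r • u, u) : Vec d × Vec d)) := by fun_prop
    exact cu.comp this
  have c2 : Continuous (F (a - r • v)) := by
    have : Continuous (fun u : Vec d => ((a - r • v, u) : Vec d × Vec d)) := by fun_prop
    exact cu.comp this
  have w1' : Pool.Agent.H48.LN.CW (d + 4) M (sl r a F) := ⟨c1, fun u => hM.le (a - r • u, u)⟩
  have w2' : Pool.Agent.H48.LN.CW (d + 4) M (F (a - r • v)) := ⟨c2, fun u => hM.le (a - r • v, u)⟩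
  have hv0 : 0 ≤ nsq v := Finset.sum_nonneg fun i _ => sq_nonneg _
  have w3 : Pool.Agent.H48.LN.CW (d + 3) (2 * M * r * (1 + nsq v))
      (fun u => sl r a F u - F (a - r • v) u) := by
    refine ⟨c1.sub c2, fun u => ?_⟩
    have hu0 : 0 ≤ nsq u := Finset.sum_nonneg fun i _ => sq_nonneg _
    have b1 := qgc_mv hM u (a - r • u) (a - r • v)
    have b2 : ‖(a - r • u) - (a - r • v)‖ ≤ r * (2 * ((1 + nsq u) * (1 + nsq v))) := by
      have e : (a - r • u) - (a - r • v) = r • (v - u) := by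
        rw [smul_sub]; abel
      rw [e, norm_smul, Real.norm_eq_abs, abs_of_nonneg hr]
      refine mul_le_mul_of_nonneg_left ?_ hr
      have b3 := norm_sub_le v u
      have b4 := qgc_norm u
      have b5 := qgc_norm v
      nlinarith [mul_nonneg hu0 hv0]
    have hW := (Wp_pos (d + 4) u).le
    have b6 : |F (a - r • u) u - F (a - r • v) u| ≤
        M * Wp (d + 4) u * (r * (2 * ((1 + nsq u) * (1 + nsq v)))) :=
      b1.trans (mul_le_mul_of_nonneg_left b2 (by positivity))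
    have b7 : (1 + nsq u) * Wp (d + 4) u = Wp (d + 3) u := by
      unfold Wp
      have : (0 : ℝ) < 1 + nsq u := by linarith
      rw [show d + 4 = (d + 3) + 1 by ring, pow_succ (1 + nsq u) (d + 3)]
      field_simp
    calc |sl r a F u - F (a - r • v) u|
        ≤ M * Wp (d + 4) u * (r * (2 * ((1 + nsq u) * (1 + nsq v)))) := b6
      _ = 2 * M * r * (1 + nsq v) * ((1 + nsq u) * Wp (d + 4) u) := by ring
      _ = 2 * M * r * (1 + nsq v) * Wp (d + 3) u := by rw [b7]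
  have e := Pool.Agent.H48.LN.ab_sub (d := d) h1 h2 (q := d + 4) (by omega) w1' w2' i j v
  rw [← e]
  refine (hK _ _ w3 i j v).trans (le_of_eq ?_)
  ring

theorem rate_dif (h1 : -2 < γ) (h2 : γ ≤ 0) {F : Vec d → Vec d → ℝ} (hF : NS F) (k : Vec d) :
    ∃ L : ℝ, 0 ≤ L ∧ ∀ r : ℝ, 0 ≤ r → r ≤ 1 → ∀ a v : Vec d,
      |(2 * Real.pi) ^ 2 * (∑ i, ∑ j, k i * k j * ab γ (sl r a F) i j v) -
        3 * sl r a (qG γ F k) v| ≤ L * r * (1 + nsq v) ^ 2 := by
  obtain ⟨L, hL0, hL⟩ := foot_dif h1 h2 hF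
  have hS : 0 ≤ ∑ i : Fin d, ∑ j : Fin d, |k i * k j| :=
    Finset.sum_nonneg fun i _ => Finset.sum_nonneg fun j _ => abs_nonneg _
  refine ⟨(2 * Real.pi) ^ 2 * (∑ i : Fin d, ∑ j : Fin d, |k i * k j|) * L, by positivity, ?_⟩
  intro r hr hr1 a v
  have e : (2 * Real.pi) ^ 2 * (∑ i, ∑ j, k i * k j * ab γ (sl r a F) i j v) -
      3 * sl r a (qG γ F k) v = (2 * Real.pi) ^ 2 * ∑ i, ∑ j, k i * k j *
        (ab γ (sl r a F) i j v - ab γ (F (a - r • v)) i j v) := by
    unfold sl qG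
    simp only [mul_sub, Finset.sum_sub_distrib]
    ring
  have b : |∑ i, ∑ j, k i * k j *
        (ab γ (sl r a F) i j v - ab γ (F (a - r • v)) i j v)| ≤
      ∑ i : Fin d, ∑ j : Fin d, |k i * k j| * (L * r * (1 + nsq v) ^ 2) := by
    refine (Finset.abs_sum_le_sum_abs _ _).trans (Finset.sum_le_sum fun i _ => ?_)
    refine (Finset.abs_sum_le_sum_abs _ _).trans (Finset.sum_le_sum fun j _ => ?_)
    rw [abs_mul]
    exact mul_le_mul_of_nonneg_left (hL r hr hr1 a i j v) (abs_nonneg _)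
  rw [e, abs_mul, abs_of_nonneg (by positivity : (0 : ℝ) ≤ (2 * Real.pi) ^ 2)]
  refine (mul_le_mul_of_nonneg_left b (by positivity)).trans (le_of_eq ?_)
  simp only [← Finset.sum_mul]
  ring

end Pool.Agent.H82.LL
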