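import Pool.Agent.H82.LL.HesB
import Pool.Agent.H82.LL.OscA

/-!
# Module ResL: the residual of the approximate solution

`G = gs ..` is `Nice` (`gs_nice`), `landau_nd` (H48/LN/Nd): `Q(G) v = Σ_ij ab G i j v ∂_ij G v + cb G v G v`. `ab G = ab F + Σ_l ab (B_l cos_l)` (`ab_sub`/linearity: `ab_subN` in H48/LN/Dif and induction, or the integral of a finite sum; all functions are `CW`). With `E_ij = Er ..`: `∂_ij G = E_ij - Σ_l κ_l i κ_l j B_l cos_l`, so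
`Q(G) + dmp = Σ_ij ab F_ij E_ij - Σ_l [Σ_ij ab F_ij κ_l i κ_l j - 3 τ² G_l] B_l cos_l + Σ_ij Σ_l ab (B_l cos_l)_ij ∂_ij G + cb G G`.
(1) `|ab F_ij| ≤ K_u M (1+nsq v)` (`ab_bd`), `gs_rem` with a small `η`. (2) `Dat.rt` times `τ²` (`κ_l i κ_l j = (2πτ)² k_l i k_l j`): `|[..]| ≤ L (δτ) τ² (1+nsq v)²`, `|B_l| ≤ kB M Y Wp (d+14)` (`amp_c2`), `δτ τ² Y ≤ 1` (`xy_le`).
(3) `osc_ab` with `q = d+14`, `g = B_l`: `|ab (B_l cos_l)_ij| ≤ K kB M (1+nsq v)(1+len κ_l)^(-θ')`, `len κ_l = 2πτ len k_l ≥ τ` (`len k_l ≥ 1`: hypothesis `hk`), `|∂_ij G| ≤ C (1 + τ² Y) Wp (d+14)` (`gs_hes` with `η = 1`), `(1+τ)^(-θ') τ² ≤ η' τ² + T` (`osc_eta`), `Y ≤ 1`.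
(4) `|cb G| ≤ K C (1+nsq v)^(γ/2) ≤ K C` (`cb_bd`), `|G| ≤ C Wp (d+16)` (`gs_sub`). The weights: `(1+nsq v)^2 Wp (d+14) v ≤ Wp (d+10) v`.
-/

set_option autoImplicit false

open MeasureTheory Set Filter Topology Pool.Agent.H25.Kin Pool.Agent.H48.PR
open Pool.Agent.H48.PL
open Pool.Agent.H15.AV (ab)
open Pool.Agent.H82.HF (GG Bq CG)

namespace Pool.Agent.H82.LL

variable {d : ℕ} {γ : ℝ}

private lemma ResL_Wmul (q r : ℕ) (v : Vec d) : (1 + nsq v) ^ r * Wp (q + r) v = Wp q v := by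
  have h0 := sq_nonneg' v
  have h1 : (1 + nsq v) ≠ 0 := by positivity
  unfold Wp
  rw [pow_add, mul_inv]
  field_simp

private lemma ResL_Wle (q r : ℕ) (v : Vec d) : Wp (q + r) v ≤ Wp q v := by
  have h0 := sq_nonneg' v
  have h1 : 1 ≤ (1 + nsq v) ^ r := one_le_pow₀ (by linarith)
  have h2 := Wp_pos (q + r) v
  rw [← ResL_Wmul q r v]
  nlinarith

private lemma ResL_add (h1 : -2 < γ) (h2 : γ ≤ 0) {q : ℕ} (hq : d + 2 ≤ q) {C C' : ℝ}
    {g h : Vec d → ℝ} (hg : Pool.Agent.H48.LN.CW q C g) (hh : Pool.Agent.H48.LN.CW q C' h)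
    (i j : Fin d) (v : Vec d) : Pool.Agent.H48.LN.CW q (C + C') (fun w => g w + h w) ∧
    ab γ (fun w => g w + h w) i j v = ab γ g i j v + ab γ h i j v := by
  have hs : Pool.Agent.H48.LN.CW q (C + C') (fun w => g w + h w) := by
    refine ⟨hg.cont.add hh.cont, fun w => ?_⟩
    refine (abs_add_le _ _).trans ?_
    have a1 := hg.le w
    have a2 := hh.le w
    linarith
  refine ⟨hs, ?_⟩
  have h3 := Pool.Agent.H48.LN.ab_sub h1 h2 hq hs hh i j v
  simp only [add_sub_cancel_right] at h3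
  linarith

private lemma ResL_sum (h1 : -2 < γ) (h2 : γ ≤ 0) {q : ℕ} (hq : d + 2 ≤ q) {n : ℕ}
    {F : Vec d → ℝ} {C₀ : ℝ} (hF : Pool.Agent.H48.LN.CW q C₀ F) {g : Fin n → Vec d → ℝ} {C : ℝ}
    (hg : ∀ l, Pool.Agent.H48.LN.CW q C (g l)) (i j : Fin d) (v : Vec d) (s : Finset (Fin n)) :
    Pool.Agent.H48.LN.CW q (C₀ + s.card * C) (fun w => F w + ∑ l ∈ s, g l w) ∧
    ab γ (fun w => F w + ∑ l ∈ s, g l w) i j v = ab γ F i j v + ∑ l ∈ s, ab γ (g l) i j v := by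
  induction s using Finset.induction_on with
  | empty =>
    simp only [Finset.card_empty, Finset.sum_empty, add_zero, Nat.cast_zero, zero_mul]
    exact ⟨hF, trivial⟩
  | insert a s ha ih =>
    have e : (fun w => F w + ∑ l ∈ insert a s, g l w) =
        fun w => (fun w => F w + ∑ l ∈ s, g l w) w + g a w := by
      funext w
      rw [Finset.sum_insert ha]
      ring
    have h3 := ResL_add h1 h2 hq ih.1 (hg a) i j v
    rw [e, Finset.sum_insert ha, Finset.card_insert_of_notMem ha]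
    refine ⟨?_, ?_⟩
    · have e2 : C₀ + ((s.card + 1 : ℕ) : ℝ) * C = C₀ + s.card * C + C := by
        push_cast
        ring
      rw [e2]
      exact h3.1
    · rw [h3.2, ih.2]
      ring

private lemma ResL_swap {n : ℕ} (f : Fin d → Fin d → Fin n → ℝ) :
    ∑ i, ∑ j, ∑ l, f i j l = ∑ l, ∑ i, ∑ j, f i j l := by
  calc ∑ i, ∑ j, ∑ l, f i j l = ∑ i, ∑ l, ∑ j, f i j l :=
        Finset.sum_congr rfl fun i _ => Finset.sum_comm
    _ = ∑ l, ∑ i, ∑ j, f i j l := Finset.sum_comm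

private lemma ResL_alg {n : ℕ} (A E H : Fin d → Fin d → ℝ) (Bc : Fin n → Fin d → Fin d → ℝ)
    (κ : Fin n → Fin d → ℝ) (C g : Fin n → ℝ)
    (hH : ∀ i j, H i j = E i j - ∑ l, κ l i * κ l j * C l) :
    ∑ i, ∑ j, (A i j + ∑ l, Bc l i j) * H i j + ∑ l, g l * C l =
      ∑ i, ∑ j, A i j * E i j + ∑ l, (g l - ∑ i, ∑ j, κ l i * κ l j * A i j) * C l +
        ∑ l, ∑ i, ∑ j, Bc l i j * H i j := by
  have e1 : ∀ i j, (A i j + ∑ l, Bc l i j) * H i j =
      A i j * E i j - ∑ l, κ l i * κ l j * A i j * C l + ∑ l, Bc l i j * H i j := by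
    intro i j
    rw [add_mul, Finset.sum_mul]
    congr 1
    rw [hH, mul_sub, Finset.mul_sum]
    congr 1
    exact Finset.sum_congr rfl fun l _ => by ring
  have e2 : ∑ i, ∑ j, (A i j + ∑ l, Bc l i j) * H i j = ∑ i, ∑ j, A i j * E i j -
      ∑ i, ∑ j, ∑ l, κ l i * κ l j * A i j * C l + ∑ i, ∑ j, ∑ l, Bc l i j * H i j := by
    rw [← Finset.sum_sub_distrib, ← Finset.sum_add_distrib]
    refine Finset.sum_congr rfl fun i _ => ?_
    rw [← Finset.sum_sub_distrib, ← Finset.sum_add_distrib]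
    exact Finset.sum_congr rfl fun j _ => e1 i j
  have e3 : ∑ l, (g l - ∑ i, ∑ j, κ l i * κ l j * A i j) * C l =
      ∑ l, g l * C l - ∑ l, ∑ i, ∑ j, κ l i * κ l j * A i j * C l := by
    rw [← Finset.sum_sub_distrib]
    refine Finset.sum_congr rfl fun l _ => ?_
    rw [sub_mul, Finset.sum_mul]
    congr 1
    exact Finset.sum_congr rfl fun i _ => Finset.sum_mul _ _ _
  rw [e2, e3, ResL_swap, ResL_swap]
  ring

private lemma ResL_dsum (x : Fin d → Fin d → ℝ) (c : ℝ) (h : ∀ i j, |x i j| ≤ c) :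
    |∑ i, ∑ j, x i j| ≤ d * (d * c) := by
  refine (Finset.abs_sum_le_sum_abs _ _).trans ?_
  have h1 : ∀ i ∈ (Finset.univ : Finset (Fin d)), |∑ j, x i j| ≤ d * c := by
    intro i _
    refine (Finset.abs_sum_le_sum_abs _ _).trans ?_
    refine (Finset.sum_le_sum fun j _ => h i j).trans (le_of_eq ?_)
    rw [Finset.sum_const, Finset.card_univ, Fintype.card_fin, nsmul_eq_mul]
  refine (Finset.sum_le_sum h1).trans (le_of_eq ?_)
  rw [Finset.sum_const, Finset.card_univ, Fintype.card_fin, nsmul_eq_mul]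

private lemma ResL_nsum {n : ℕ} (x : Fin n → ℝ) (c : ℝ) (h : ∀ l, |x l| ≤ c) :
    |∑ l, x l| ≤ n * c := by
  refine (Finset.abs_sum_le_sum_abs _ _).trans ?_
  refine (Finset.sum_le_sum fun l _ => h l).trans (le_of_eq ?_)
  rw [Finset.sum_const, Finset.card_univ, Fintype.card_fin, nsmul_eq_mul]

private lemma ResL_csum (x y : Fin d → Fin d → ℝ) (c : ℝ) (h : ∀ i j, |x i j| ≤ c) :
    |∑ i, ∑ j, x i j * y i j| ≤ c * ∑ i, ∑ j, |y i j| := by
  refine (Finset.abs_sum_le_sum_abs _ _).trans ?_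
  rw [Finset.mul_sum]
  refine Finset.sum_le_sum fun i _ => ?_
  refine (Finset.abs_sum_le_sum_abs _ _).trans ?_
  rw [Finset.mul_sum]
  refine Finset.sum_le_sum fun j _ => ?_
  rw [abs_mul]
  exact mul_le_mul_of_nonneg_right (h i j) (abs_nonneg _)

private lemma ResL_h4 {Y R Kh S T t e : ℝ} (hY0 : 0 ≤ Y) (hY1 : Y ≤ 1) (hR0 : 0 ≤ R) (hR1 : R ≤ 1)
    (hRT : R * t ≤ e * t + T) (hK : 0 ≤ Kh) (hS : 0 ≤ S) (hT : 0 ≤ T) (ht : 0 ≤ t) (he : 0 ≤ e) :
    (Y * R) * (Kh + (1 + S) * (t * Y)) ≤ Kh + (1 + S) * T + (1 + S) * e * (t * Y) := by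
  have u1 : Y * R ≤ 1 := mul_le_one₀ hY1 hR0 hR1
  have u2 : (Y * R) * Kh ≤ 1 * Kh := mul_le_mul_of_nonneg_right u1 hK
  have w2 : (Y * Y) * (R * t) ≤ (Y * Y) * (e * t + T) :=
    mul_le_mul_of_nonneg_left hRT (mul_nonneg hY0 hY0)
  have w3 : Y * Y ≤ Y * 1 := mul_le_mul_of_nonneg_left hY1 hY0
  have w4 : (Y * Y) * (e * t + T) ≤ (Y * 1) * (e * t + T) :=
    mul_le_mul_of_nonneg_right w3 (by positivity)
  have w5 : Y * T ≤ 1 * T := mul_le_mul_of_nonneg_right hY1 hT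
  have u3 : (Y * R) * (t * Y) ≤ T + e * (t * Y) := by linarith
  have u4 : (1 + S) * ((Y * R) * (t * Y)) ≤ (1 + S) * (T + e * (t * Y)) :=
    mul_le_mul_of_nonneg_left u3 (by linarith)
  linarith

private lemma ResL_fin {x y η X : ℝ} (hx : x ≤ η / 2) (hy : y ≤ η / 2) (hX : 0 ≤ X) :
    x * X + y * X ≤ η * X := by
  have h := mul_le_mul_of_nonneg_right (add_le_add hx hy) hX
  linarith

private lemma ResL_abs4 {a b c e A B C E Z : ℝ} (ha : |a| ≤ A) (hb : |b| ≤ B) (hc : |c| ≤ C)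
    (he : |e| ≤ E) (h : A + B + C + E ≤ Z) : |a + b + c + e| ≤ Z := by
  have t1 := abs_add_le (a + b + c) e
  have t2 := abs_add_le (a + b) c
  have t3 := abs_add_le a b
  linarith

theorem res (hd : 2 ≤ d) (h1 : -2 < γ) (h2 : γ ≤ 0) {c₀ : ℝ} (hc₀ : 0 < c₀) (MF M K L : ℝ) {n : ℕ}
    (a : Fin n → ℝ) (k : Fin n → Vec d) (hk : ∀ l, 1 ≤ len (k l)) {η : ℝ} (hη : 0 < η) :
    ∃ K₁ : ℝ, 0 ≤ K₁ ∧ ∀ (δ τ : ℝ) (F : Vec d → ℝ) (cs Gs : Fin n → Vec d → ℝ),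
      Dat γ c₀ MF M K L a k δ τ F cs Gs → ∀ (th : Fin n → ℝ) (v : Vec d),
      |landauQ γ (gs δ τ k F cs Gs th) v + dmp δ τ k cs Gs th v| ≤
        (K₁ + η * (τ ^ 2 * Yf δ τ)) * Wp (d + 10) v := by
  by_cases hpos : 0 ≤ M ∧ 0 ≤ MF ∧ ∀ l, 0 ≤ a l
  swap
  · refine ⟨0, le_refl _, ?_⟩
    intro δ τ F cs Gs hD
    exfalso
    apply hpos
    refine ⟨hD.F2.nn, ?_, fun l => ?_⟩
    · have h := (abs_nonneg _).trans (hD.F3 0)
      exact nonneg_of_mul_nonneg_left h (Wp_pos _ _)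
    · have h := (abs_nonneg _).trans (hD.c3 l 0)
      exact nonneg_of_mul_nonneg_left h (Wp_pos _ _)
  obtain ⟨hM, hMF, ha⟩ := hpos
  obtain ⟨kB, hkB, HB⟩ := amp_c2 (d := d) hc₀ K
  obtain ⟨Kb, hKb, Hb⟩ := Pool.Agent.H48.LN.ab_bd (d := d) h1 h2 (q := d + 20) (by omega)
  obtain ⟨Kc, hKc, Hc⟩ := Pool.Agent.H48.LN.cb_bd (d := d) hd h1 h2 (q := d + 16) (by omega)
  obtain ⟨Ko, hKo, Ho⟩ := osc_ab (d := d) h1 h2 (q := d + 14) (by omega)
  have hθ : 0 < min 1 (γ + 2) := lt_min one_pos (by linarith)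
  obtain ⟨S, hS⟩ : ∃ S : ℝ, S = d * (2 * Real.pi) ^ 2 * (1 + 4 / c₀) ^ 4 *
    (∑ l, a l * len (k l) ^ 2) := ⟨_, rfl⟩
  have hS0 : 0 ≤ S := by
    have : 0 ≤ ∑ l, a l * len (k l) ^ 2 :=
      Finset.sum_nonneg fun l _ => mul_nonneg (ha l) (sq_nonneg _)
    rw [hS]
    positivity
  obtain ⟨C, hC⟩ : ∃ C : ℝ, C = MF + (1 + 4 / c₀) ^ 4 * (∑ l, a l) := ⟨_, rfl⟩
  have hC0 : 0 ≤ C := by
    have : 0 ≤ ∑ l, a l := Finset.sum_nonneg fun l _ => ha l
    rw [hC]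
    positivity
  obtain ⟨c1, hc1⟩ : ∃ c1 : ℝ, c1 = d * (d * (Kb * M)) := ⟨_, rfl⟩
  have hc10 : 0 ≤ c1 := by
    rw [hc1]
    positivity
  obtain ⟨c3, hc3⟩ : ∃ c3 : ℝ, c3 = n * (Ko * (kB * M)) := ⟨_, rfl⟩
  have hc30 : 0 ≤ c3 := by
    rw [hc3]
    positivity
  have key : ∀ c : ℝ, 0 ≤ c → 0 < η / (2 * (1 + c)) ∧ c * (η / (2 * (1 + c))) ≤ η / 2 := by
    intro c hc
    refine ⟨by positivity, ?_⟩
    rw [mul_div_assoc', div_le_div_iff₀ (by positivity) (by positivity)]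
    nlinarith
  obtain ⟨η₁, hη₁0, hη₁⟩ : ∃ η₁ : ℝ, 0 < η₁ ∧ c1 * η₁ ≤ η / 2 := ⟨_, key c1 hc10⟩
  obtain ⟨η₂, hη₂0, hη₂⟩ : ∃ η₂ : ℝ, 0 < η₂ ∧ (c3 * (1 + S)) * η₂ ≤ η / 2 :=
    ⟨_, key (c3 * (1 + S)) (by positivity)⟩
  obtain ⟨Kr, hKr, Hr⟩ := gs_rem (γ := γ) hc₀ MF M K L a k hη₁0
  obtain ⟨Kh, hKh, Hh⟩ := gs_hes (γ := γ) hc₀ MF M K L a k one_pos
  obtain ⟨T, hT, HT⟩ := osc_eta hθ hη₂0
  refine ⟨c1 * Kr + n * (|L| * (kB * M)) + c3 * (Kh + (1 + S) * T) + Kc * C * C,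
    by positivity, ?_⟩
  intro δ τ F cs Gs hD th v
  have hδ := hD.d0
  have hτ := hD.t0
  have hnv := sq_nonneg' v
  obtain ⟨hY0, hY1⟩ := yf_pos hδ hτ.le
  obtain ⟨Y, hY⟩ : ∃ Y : ℝ, Y = Yf δ τ := ⟨_, rfl⟩
  have hP0 := Wp_pos (d + 14) v
  have hPw : (1 + nsq v) * Wp (d + 14) v ≤ Wp (d + 10) v := by
    have a1 := ResL_Wmul (d + 10) 4 v
    have a2 : (1 + nsq v) ≤ (1 + nsq v) ^ 4 := le_self_pow₀ (by linarith) (by norm_num)
    rw [← a1]
    exact mul_le_mul_of_nonneg_right a2 hP0.le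
  have hPw2 : (1 + nsq v) ^ 2 * Wp (d + 14) v ≤ Wp (d + 10) v := by
    have a1 := ResL_Wmul (d + 10) 4 v
    have a2 : (1 + nsq v) ^ 2 ≤ (1 + nsq v) ^ 4 :=
      pow_le_pow_right₀ (by linarith) (by norm_num)
    rw [← a1]
    exact mul_le_mul_of_nonneg_right a2 hP0.le
  have hP10 := Wp_pos (d + 10) v
  -- the amplitudes
  have hB : ∀ l, C2B (Wp (d + 14)) (kB * M * Y) (Bm (δ * τ ^ 3) (cs l) (Gs l)) := by
    intro l
    have h := HB (d + 14) M (δ * τ ^ 3) (cs l) (Gs l) (by positivity) (hD.c2 l) (hD.g2 l)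
      (hD.g0 l)
    rw [hY]
    exact h
  have hnn : 0 ≤ kB * M * Y := by
    rw [hY]
    positivity
  obtain ⟨Cl, hCl⟩ : ∃ Cl : Fin n → Vec d → ℝ, Cl = fun l u =>
    Bm (δ * τ ^ 3) (cs l) (Gs l) u * Real.cos (th l - dot ((2 * Real.pi * τ) • k l) u) :=
      ⟨_, rfl⟩
  have hdc : ∀ κ : Vec d, Continuous fun u : Vec d => dot κ u := by
    intro κ
    unfold dot
    fun_prop
  have hCW : ∀ l, Pool.Agent.H48.LN.CW (d + 14) (kB * M * Y) (Cl l) := by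
    intro l
    rw [hCl]
    refine ⟨(hB l).sm.continuous.mul (Real.continuous_cos.comp
      (continuous_const.sub (hdc _))), fun u => ?_⟩
    dsimp only
    rw [abs_mul]
    calc |Bm (δ * τ ^ 3) (cs l) (Gs l) u| *
          |Real.cos (th l - dot ((2 * Real.pi * τ) • k l) u)| ≤
          (kB * M * Y * Wp (d + 14) u) * 1 :=
          mul_le_mul ((hB l).le u) (Real.abs_cos_le_one _) (abs_nonneg _)
            (mul_nonneg hnn (Wp_pos _ u).le)
      _ = _ := mul_one _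
  have hF20 : Pool.Agent.H48.LN.CW (d + 20) M F := ⟨hD.F2.sm.continuous, hD.F2.le⟩
  have hF14 : Pool.Agent.H48.LN.CW (d + 14) M F := by
    refine ⟨hD.F2.sm.continuous, fun u => (hD.F2.le u).trans ?_⟩
    exact mul_le_mul_of_nonneg_left (ResL_Wle (d + 14) 6 u) hM
  obtain ⟨G, hG⟩ : ∃ G : Vec d → ℝ, G = gs δ τ k F cs Gs th := ⟨_, rfl⟩
  have hGn : Nice G := by
    rw [hG]
    exact gs_nice hc₀ hD th
  have hGe : G = fun u => F u + ∑ l ∈ (Finset.univ : Finset (Fin n)), Cl l u := by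
    rw [hG, hCl]
    rfl
  have hab : ∀ i j, ab γ G i j v = ab γ F i j v + ∑ l, ab γ (Cl l) i j v := by
    intro i j
    rw [hGe]
    exact (ResL_sum h1 h2 (by omega) hF14 hCW i j v Finset.univ).2
  have hH : ∀ i j, pd i (pd j G) v = Er δ τ k F cs Gs th i j v -
      ∑ l, ((2 * Real.pi * τ) • k l) i * ((2 * Real.pi * τ) • k l) j * Cl l v := by
    intro i j
    unfold Er
    rw [hG, hCl]
    ring
  have hdm : dmp δ τ k cs Gs th v = ∑ l, (3 * τ ^ 2 * Gs l v) * Cl l v := by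
    unfold dmp
    rw [hCl]
  have hQ : landauQ γ G v + dmp δ τ k cs Gs th v =
      ∑ i, ∑ j, ab γ F i j v * Er δ τ k F cs Gs th i j v +
      ∑ l, (3 * τ ^ 2 * Gs l v - ∑ i, ∑ j, ((2 * Real.pi * τ) • k l) i *
        ((2 * Real.pi * τ) • k l) j * ab γ F i j v) * Cl l v +
      ∑ l, ∑ i, ∑ j, ab γ (Cl l) i j v * pd i (pd j G) v + Pool.Agent.H48.LN.cb γ G v * G v := by
    rw [Pool.Agent.H48.LN.landau_nd hd h1 h2 hGn v, hdm]
    have e1 : Pool.Agent.H48.LN.ctr γ G G v = ∑ i, ∑ j, (ab γ F i j v + ∑ l, ab γ (Cl l) i j v) *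
        pd i (pd j G) v := by
      unfold Pool.Agent.H48.LN.ctr
      refine Finset.sum_congr rfl fun i _ => Finset.sum_congr rfl fun j _ => ?_
      rw [hab]
    rw [e1]
    have e2 := ResL_alg (fun i j => ab γ F i j v) (fun i j => Er δ τ k F cs Gs th i j v)
      (fun i j => pd i (pd j G) v) (fun l i j => ab γ (Cl l) i j v)
      (fun l i => ((2 * Real.pi * τ) • k l) i) (fun l => Cl l v)
      (fun l => 3 * τ ^ 2 * Gs l v) hH
    linarith
  -- (1)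
  have b1 : |∑ i, ∑ j, ab γ F i j v * Er δ τ k F cs Gs th i j v| ≤
      (c1 * Kr + c1 * η₁ * (τ ^ 2 * Y)) * Wp (d + 10) v := by
    have h3 : ∀ i j, |ab γ F i j v * Er δ τ k F cs Gs th i j v| ≤
        (Kb * M * (Kr + η₁ * (τ ^ 2 * Y))) * Wp (d + 10) v := by
      intro i j
      rw [abs_mul]
      have a1 := Hb M F hF20 i j v
      have a2 := Hr δ τ F cs Gs hD th i j v
      rw [← hY] at a2
      have a3 : 0 ≤ Kr + η₁ * (τ ^ 2 * Y) := by
        rw [hY]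
        positivity
      calc |ab γ F i j v| * |Er δ τ k F cs Gs th i j v| ≤ (Kb * M * (1 + nsq v)) *
            ((Kr + η₁ * (τ ^ 2 * Y)) * Wp (d + 14) v) :=
            mul_le_mul a1 a2 (abs_nonneg _) (by positivity)
        _ = (Kb * M * (Kr + η₁ * (τ ^ 2 * Y))) * ((1 + nsq v) * Wp (d + 14) v) := by ring
        _ ≤ (Kb * M * (Kr + η₁ * (τ ^ 2 * Y))) * Wp (d + 10) v :=
            mul_le_mul_of_nonneg_left hPw (by positivity)
    refine (ResL_dsum _ _ h3).trans (le_of_eq ?_)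
    rw [hc1]
    ring
  -- (2)
  have b2 : |∑ l, (3 * τ ^ 2 * Gs l v - ∑ i, ∑ j, ((2 * Real.pi * τ) • k l) i *
        ((2 * Real.pi * τ) • k l) j * ab γ F i j v) * Cl l v| ≤
      n * (|L| * (kB * M)) * Wp (d + 10) v := by
    have h3 : ∀ l, |(3 * τ ^ 2 * Gs l v - ∑ i, ∑ j, ((2 * Real.pi * τ) • k l) i *
        ((2 * Real.pi * τ) • k l) j * ab γ F i j v) * Cl l v| ≤
        (|L| * (kB * M)) * Wp (d + 10) v := by
      intro l
      have e1 : 3 * τ ^ 2 * Gs l v - ∑ i, ∑ j, ((2 * Real.pi * τ) • k l) i *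
          ((2 * Real.pi * τ) • k l) j * ab γ F i j v =
          -(τ ^ 2 * ((2 * Real.pi) ^ 2 * (∑ i, ∑ j, k l i * k l j * ab γ F i j v) -
            3 * Gs l v)) := by
        have e2 : ∑ i, ∑ j, ((2 * Real.pi * τ) • k l) i * ((2 * Real.pi * τ) • k l) j *
            ab γ F i j v = τ ^ 2 * ((2 * Real.pi) ^ 2 *
              (∑ i, ∑ j, k l i * k l j * ab γ F i j v)) := by
          simp only [Finset.mul_sum]
          refine Finset.sum_congr rfl fun i _ => Finset.sum_congr rfl fun j _ => ?_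
          simp only [Pi.smul_apply, smul_eq_mul]
          ring
        rw [e2]
        ring
      rw [e1, abs_mul, abs_neg, abs_mul, abs_of_nonneg (sq_nonneg τ)]
      have a1 := hD.rt l v
      have a2 := (hCW l).le v
      have a4 := xy_le hδ hτ.le
      rw [← hY] at a4
      have a5 : L * (δ * τ) * (1 + nsq v) ^ 2 ≤ |L| * (δ * τ) * (1 + nsq v) ^ 2 := by
        have := le_abs_self L
        gcongr
      have a6 : 0 ≤ Y := by
        rw [hY]
        exact hY0.le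
      calc τ ^ 2 * |(2 * Real.pi) ^ 2 * (∑ i, ∑ j, k l i * k l j * ab γ F i j v) -
            3 * Gs l v| * |Cl l v| ≤ (τ ^ 2 * (|L| * (δ * τ) * (1 + nsq v) ^ 2)) *
              (kB * M * Y * Wp (d + 14) v) := by
            refine mul_le_mul (mul_le_mul_of_nonneg_left (a1.trans a5) (sq_nonneg τ)) a2
              (abs_nonneg _) (by positivity)
        _ = (|L| * (kB * M)) * ((δ * τ * (τ ^ 2 * Y)) * ((1 + nsq v) ^ 2 * Wp (d + 14) v)) := by
            ring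
        _ ≤ (|L| * (kB * M)) * (1 * Wp (d + 10) v) := by
            refine mul_le_mul_of_nonneg_left ?_ (by positivity)
            exact mul_le_mul a4 hPw2 (by positivity) zero_le_one
        _ = _ := by ring
    refine (ResL_nsum _ _ h3).trans (le_of_eq ?_)
    ring
  -- (3)
  have b3 : |∑ l, ∑ i, ∑ j, ab γ (Cl l) i j v * pd i (pd j G) v| ≤
      (c3 * (Kh + (1 + S) * T) + c3 * (1 + S) * η₂ * (τ ^ 2 * Y)) * Wp (d + 10) v := by
    have a6 : 0 ≤ Y := by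
      rw [hY]
      exact hY0.le
    have a7 : Y ≤ 1 := by
      rw [hY]
      exact hY1
    obtain ⟨R, hR⟩ : ∃ R : ℝ, R = (1 + τ) ^ (-(min 1 (γ + 2))) := ⟨_, rfl⟩
    have hR0 : 0 ≤ R := by
      rw [hR]
      positivity
    have hR1 : R ≤ 1 := by
      rw [hR]
      exact Real.rpow_le_one_of_one_le_of_nonpos (by linarith) (by linarith)
    have hRT : R * τ ^ 2 ≤ η₂ * τ ^ 2 + T := by
      rw [hR]
      exact HT τ hτ.le
    obtain ⟨Z, hZ⟩ : ∃ Z : ℝ, Z = ∑ i, ∑ j, |pd i (pd j G) v| := ⟨_, rfl⟩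
    have hZ0 : 0 ≤ Z := by
      rw [hZ]
      exact Finset.sum_nonneg fun i _ => Finset.sum_nonneg fun j _ => abs_nonneg _
    have hZ1 : Z ≤ (Kh + (1 + S) * (τ ^ 2 * Y)) * Wp (d + 14) v := by
      have h := Hh δ τ F cs Gs hD th v
      rw [← hY, ← hG, ← hZ, ← hS] at h
      linarith
    have h3 : ∀ l, |∑ i, ∑ j, ab γ (Cl l) i j v * pd i (pd j G) v| ≤
        (Ko * (kB * M) * (Y * R) * (1 + nsq v)) * Z := by
      intro l
      rw [hZ]
      refine ResL_csum _ _ _ fun i j => ?_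
      have a1 := Ho (kB * M * Y) (Bm (δ * τ ^ 3) (cs l) (Gs l)) (hB l)
        ((2 * Real.pi * τ) • k l) (th l) i j v
      have a2 : ab γ (Cl l) i j v = ab γ (fun u => Bm (δ * τ ^ 3) (cs l) (Gs l) u *
          Real.cos (th l - dot ((2 * Real.pi * τ) • k l) u)) i j v := by
        rw [hCl]
      rw [a2]
      refine a1.trans ?_
      have a3 : τ ≤ len ((2 * Real.pi * τ) • k l) := by
        rw [len_smul (by positivity)]
        have b1 := hk l
        have b2 := Real.pi_gt_three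
        have b3 : 1 * τ ≤ 2 * Real.pi * τ := by
          apply mul_le_mul_of_nonneg_right _ hτ.le
          linarith
        calc τ = (1 * τ) * 1 := by ring
          _ ≤ (2 * Real.pi * τ) * len (k l) := mul_le_mul b3 b1 zero_le_one (by positivity)
      have a4 : (1 + len ((2 * Real.pi * τ) • k l)) ^ (-(min 1 (γ + 2))) ≤ R := by
        rw [hR]
        exact Real.rpow_le_rpow_of_nonpos (by linarith) (by linarith) (by linarith)
      calc Ko * (kB * M * Y) * (1 + nsq v) *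
            (1 + len ((2 * Real.pi * τ) • k l)) ^ (-(min 1 (γ + 2))) ≤
            Ko * (kB * M * Y) * (1 + nsq v) * R :=
            mul_le_mul_of_nonneg_left a4 (by positivity)
        _ = _ := by ring
    refine (ResL_nsum _ _ h3).trans ?_
    have h4 : (Y * R) * (Kh + (1 + S) * (τ ^ 2 * Y)) ≤
        Kh + (1 + S) * T + (1 + S) * η₂ * (τ ^ 2 * Y) := by
      exact ResL_h4 a6 a7 hR0 hR1 hRT hKh hS0 hT (sq_nonneg τ) hη₂0.le
    have h5 : 0 ≤ (Y * R) * (Kh + (1 + S) * (τ ^ 2 * Y)) := by positivity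
    calc (n : ℝ) * ((Ko * (kB * M) * (Y * R) * (1 + nsq v)) * Z) =
          (c3 * ((Y * R) * (1 + nsq v))) * Z := by
          rw [hc3]
          ring
      _ ≤ (c3 * ((Y * R) * (1 + nsq v))) *
          ((Kh + (1 + S) * (τ ^ 2 * Y)) * Wp (d + 14) v) :=
          mul_le_mul_of_nonneg_left hZ1 (by positivity)
      _ = c3 * (((Y * R) * (Kh + (1 + S) * (τ ^ 2 * Y))) * ((1 + nsq v) * Wp (d + 14) v)) := by
          ring
      _ ≤ c3 * ((Kh + (1 + S) * T + (1 + S) * η₂ * (τ ^ 2 * Y)) * Wp (d + 10) v) := by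
          refine mul_le_mul_of_nonneg_left ?_ hc30
          exact mul_le_mul h4 hPw (by positivity) (h5.trans h4)
      _ = _ := by ring
  -- (4)
  have b4 : |Pool.Agent.H48.LN.cb γ G v * G v| ≤ Kc * C * C * Wp (d + 10) v := by
    have a1 : Pool.Agent.H48.LN.CW (d + 16) C G := by
      refine ⟨hGn.cont, fun u => ?_⟩
      rw [hG, hC]
      exact (gs_sub hc₀ hD th u).2
    have a2 := Hc C G a1 v
    have a3 := a1.le v
    have a4 : (1 + nsq v) ^ (γ / 2) ≤ 1 :=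
      Real.rpow_le_one_of_one_le_of_nonpos (by linarith) (by linarith)
    have a5 : |Pool.Agent.H48.LN.cb γ G v| ≤ Kc * C := by
      refine a2.trans ?_
      calc Kc * C * (1 + nsq v) ^ (γ / 2) ≤ Kc * C * 1 :=
            mul_le_mul_of_nonneg_left a4 (by positivity)
        _ = _ := mul_one _
    have a6 : |G v| ≤ C * Wp (d + 10) v :=
      a3.trans (mul_le_mul_of_nonneg_left (ResL_Wle (d + 10) 6 v) hC0)
    rw [abs_mul]
    calc |Pool.Agent.H48.LN.cb γ G v| * |G v| ≤ (Kc * C) * (C * Wp (d + 10) v) :=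
          mul_le_mul a5 a6 (abs_nonneg _) (by positivity)
      _ = _ := by ring
  have hfin : (c1 * η₁) * (τ ^ 2 * Y) + (c3 * (1 + S) * η₂) * (τ ^ 2 * Y) ≤ η * (τ ^ 2 * Y) := by
    have a6 : 0 ≤ τ ^ 2 * Y := by
      rw [hY]
      positivity
    exact ResL_fin hη₁ hη₂ a6
  rw [← hG, ← hY, hQ]
  have t3 := mul_le_mul_of_nonneg_right hfin hP10.le
  refine ResL_abs4 b1 b2 b3 b4 ?_
  clear b1 b2 b3 b4 hQ hH hab
  linarith

end Pool.Agent.H82.LL
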