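import Pool.Agent.H48.LV.Scl

/-!
# Module VSc: velocity scaling of the solutions of the Landau equation

If `f` solves the Landau equation with the operator `δ Q`, then `f(t/lam, x, lam v)` solves it with
`lam^(d+γ-1) δ Q` on `[0, lam T)`.
-/

set_option autoImplicit false

open MeasureTheory Set Filter Topology Pool.Agent.H25.Kin Pool.Agent.H48.PL Pool.Agent.H48.LV

namespace Pool.Agent.H82.LL

variable {d : ℕ} {γ : ℝ}

private lemma VSc_nsq (lam : ℝ) (z : Vec d) : nsq (lam • z) = lam ^ 2 * nsq z := by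
  unfold nsq
  rw [Finset.mul_sum]
  refine Finset.sum_congr rfl fun i _ => ?_
  rw [Pi.smul_apply, smul_eq_mul]
  ring

private lemma VSc_nsq_nn (z : Vec d) : 0 ≤ nsq z := Finset.sum_nonneg fun _ _ => sq_nonneg _

private lemma VSc_A {lam : ℝ} (hl : 0 < lam) (z : Vec d) (i j : Fin d) :
    landauA γ (lam • z) i j = lam ^ (γ + 2) * landauA γ z i j := by
  unfold landauA
  rw [VSc_nsq, Real.mul_rpow (by positivity) (VSc_nsq_nn z)]
  have e1 : (lam ^ 2 : ℝ) ^ (γ / 2) = lam ^ γ := by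
    rw [← Real.rpow_natCast, ← Real.rpow_mul hl.le]
    congr 1
    push_cast
    ring
  have e2 : lam ^ (γ + 2) = lam ^ γ * lam ^ 2 := by
    rw [Real.rpow_add hl]
    congr 1
    exact_mod_cast Real.rpow_natCast lam 2
  rw [e1, e2, Pi.smul_apply, Pi.smul_apply, smul_eq_mul, smul_eq_mul]
  split_ifs
  · ring
  · ring

private lemma VSc_pd (lam : ℝ) (g : Vec d → ℝ) (i : Fin d) (v : Vec d) :
    pd i (fun w => g (lam • w)) v = lam * pd i g (lam • v) := by
  unfold pd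
  have h := fderiv_comp_smul (𝕜 := ℝ) (f := g) (x := v) lam
  have h' : fderiv ℝ (fun w => g (lam • w)) v = lam • fderiv ℝ g (lam • v) := h
  rw [h']
  rfl

/-- velocity scaling of the Landau operator -/
theorem landauQ_vscale {lam : ℝ} (hl : 0 < lam) (g : Vec d → ℝ) (v : Vec d) :
    landauQ γ (fun w => g (lam • w)) v = lam ^ (-((d : ℝ) + γ)) * landauQ γ g (lam • v) := by
  have hlam : lam ≠ 0 := hl.ne'
  have h1 : ∀ i, landauFlux γ (fun w => g (lam • w)) i =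
      fun v => (lam ^ (-((d : ℝ) + γ)) * lam⁻¹) * landauFlux γ g i (lam • v) := by
    intro i
    funext v
    unfold landauFlux
    have e : (fun w : Vec d => ∑ j, landauA γ (v - w) i j *
        (g (lam • w) * pd j (fun w => g (lam • w)) v - g (lam • v) * pd j (fun w => g (lam • w)) w)) =
        fun w => (fun w' : Vec d => (lam ^ (-(γ + 2)) * lam) * ∑ j, landauA γ (lam • v - w') i j *
          (g w' * pd j g (lam • v) - g (lam • v) * pd j g w')) (lam • w) := by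
      funext w
      simp only
      rw [Finset.mul_sum]
      refine Finset.sum_congr rfl fun j _ => ?_
      rw [VSc_pd, VSc_pd, ← smul_sub, VSc_A hl]
      have e3 : lam ^ (-(γ + 2)) * lam ^ (γ + 2) = 1 := by
        rw [← Real.rpow_add hl]
        simp
      calc landauA γ (v - w) i j * (g (lam • w) * (lam * pd j g (lam • v)) - g (lam • v) * (lam * pd j g (lam • w)))
          = (1 : ℝ) * (lam * (landauA γ (v - w) i j * (g (lam • w) * pd j g (lam • v) - g (lam • v) * pd j g (lam • w)))) := by ring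
        _ = _ := by
            rw [← e3]
            ring
    have h5 := MeasureTheory.Measure.integral_comp_smul_of_nonneg (μ := (volume : Measure (Vec d)))
      (fun w' : Vec d => (lam ^ (-(γ + 2)) * lam) * ∑ j, landauA γ (lam • v - w') i j *
          (g w' * pd j g (lam • v) - g (lam • v) * pd j g w')) lam (hR := hl.le)
    rw [e]
    refine h5.trans ?_
    rw [integral_const_mul, Module.finrank_fin_fun, smul_eq_mul, ← mul_assoc]
    congr 1
    have e4 : (lam ^ d)⁻¹ = lam ^ (-(d : ℝ)) := by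
      rw [Real.rpow_neg hl.le, Real.rpow_natCast]
    have e5 : lam ^ (-(γ + 2)) * lam = lam ^ (-(γ + 1)) := by
      rw [show -(γ + 1) = -(γ + 2) + 1 by ring, Real.rpow_add hl, Real.rpow_one]
    rw [e4, e5, ← Real.rpow_add hl, ← Real.rpow_neg_one lam, ← Real.rpow_add hl]
    congr 1
    ring
  unfold landauQ
  rw [Finset.mul_sum]
  refine Finset.sum_congr rfl fun i _ => ?_
  rw [h1]
  have e6 : pd i (fun v => (lam ^ (-((d : ℝ) + γ)) * lam⁻¹) * landauFlux γ g i (lam • v)) v =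
      (lam ^ (-((d : ℝ) + γ)) * lam⁻¹) * pd i (fun v => landauFlux γ g i (lam • v)) v := by
    unfold pd
    have := fderiv_const_smul_field (𝕜 := ℝ) (f := fun v => landauFlux γ g i (lam • v)) (lam ^ (-((d : ℝ) + γ)) * lam⁻¹)
    have h7 : fderiv ℝ (fun v => (lam ^ (-((d : ℝ) + γ)) * lam⁻¹) * landauFlux γ g i (lam • v)) =
        (lam ^ (-((d : ℝ) + γ)) * lam⁻¹) • fderiv ℝ (fun v => landauFlux γ g i (lam • v)) := this
    rw [h7]
    rfl
  rw [e6, VSc_pd]
  field_simp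

private noncomputable def VSc_M (d : ℕ) (μ lam : ℝ) : (ℝ × Vec d × Vec d) →ₗ[ℝ] (ℝ × Vec d × Vec d) where
  toFun p := (μ * p.1, p.2.1, lam • p.2.2)
  map_add' p q := by
    refine Prod.ext ?_ (Prod.ext ?_ ?_)
    · show μ * (p.1 + q.1) = μ * p.1 + μ * q.1
      ring
    · rfl
    · show lam • (p.2.2 + q.2.2) = lam • p.2.2 + lam • q.2.2
      exact smul_add _ _ _
  map_smul' c p := by
    refine Prod.ext ?_ (Prod.ext ?_ ?_)
    · show μ * (c * p.1) = c * (μ * p.1)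
      ring
    · rfl
    · show lam • (c • p.2.2) = c • (lam • p.2.2)
      exact smul_comm _ _ _

private noncomputable def VSc_L (d : ℕ) (μ lam : ℝ) : (ℝ × Vec d × Vec d) →L[ℝ] (ℝ × Vec d × Vec d) :=
  LinearMap.toContinuousLinearMap (VSc_M d μ lam)

private lemma VSc_L_apply (μ lam t : ℝ) (x v : Vec d) : VSc_L d μ lam (t, x, v) = (μ * t, x, lam • v) := rfl

private lemma VSc_unc (μ lam : ℝ) (f : ℝ → Vec d → Vec d → ℝ) :
    unc (fun t x v => f (μ * t) x (lam • v)) = fun q => unc f (VSc_L d μ lam q) := rfl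

private lemma VSc_wt {lam : ℝ} (hl : 0 < lam) (v : Vec d) (N : ℕ) :
    (1 + ‖v‖) ^ N ≤ (1 + lam⁻¹) ^ N * (1 + ‖lam • v‖) ^ N := by
  rw [← mul_pow]
  refine pow_le_pow_left₀ (by positivity) ?_ N
  rw [norm_smul, Real.norm_of_nonneg hl.le]
  have h1 : lam⁻¹ * (lam * ‖v‖) = ‖v‖ := by
    rw [← mul_assoc, inv_mul_cancel₀ hl.ne', one_mul]
  have h2 : 0 ≤ lam * ‖v‖ := by positivity
  have h3 : 0 < lam⁻¹ := inv_pos.mpr hl
  nlinarith

/-- velocity scaling: `f(t/lam, x, lam v)` -/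
theorem lsol_vscale {δ T : ℝ} {f : ℝ → Vec d → Vec d → ℝ} (hf : LSol γ δ T f) {lam : ℝ} (hl : 0 < lam) :
    LSol γ (lam ^ ((d : ℝ) + γ - 1) * δ) (lam * T) (fun t x v => f (t / lam) x (lam • v)) := by
  have hlam : lam ≠ 0 := hl.ne'
  set μ : ℝ := lam⁻¹ with hμd
  have hμ : 0 < μ := inv_pos.mpr hl
  have hfun : (fun t x v => f (t / lam) x (lam • v)) = fun t x v => f (μ * t) x (lam • v) := by
    funext t x v
    rw [hμd, div_eq_inv_mul]
  rw [hfun]
  have hlt : ∀ {t : ℝ}, t < lam * T → μ * t < T := by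
    intro t ht
    have := mul_lt_mul_of_pos_left ht hμ
    rwa [← mul_assoc, hμd, inv_mul_cancel₀ hlam, one_mul] at this
  have hIco : ∀ {t : ℝ}, t ∈ Ico 0 (lam * T) → μ * t ∈ Ico 0 T := fun ht =>
    ⟨mul_nonneg hμ.le ht.1, hlt ht.2⟩
  have hIoo : ∀ {t : ℝ}, t ∈ Ioo 0 (lam * T) → μ * t ∈ Ioo 0 T := fun ht =>
    ⟨mul_pos hμ ht.1, hlt ht.2⟩
  have hU : IsOpen (Ioo (0 : ℝ) T ×ˢ (univ : Set (Vec d × Vec d))) := isOpen_Ioo.prod isOpen_univ
  unfold LSol
  refine ⟨?_, ?_, ?_, ?_, ?_, ?_, ?_⟩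
  · intro t ht x v
    exact hf.nonneg _ (hIco ht) _ _
  · intro t ht x v i
    exact hf.periodic _ (hIco ht) x _ i
  · unfold ContOn
    rw [VSc_unc]
    refine hf.isCont.comp (VSc_L d μ lam).continuous.continuousOn ?_
    rintro ⟨t, x, v⟩ hq
    rw [VSc_L_apply]
    exact ⟨hIco hq.1, mem_univ _⟩
  · unfold C2On
    rw [VSc_unc]
    refine hf.isC2.comp (VSc_L d μ lam).contDiff.contDiffOn ?_
    rintro ⟨t, x, v⟩ hq
    rw [VSc_L_apply]
    exact ⟨hIoo hq.1, mem_univ _⟩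
  · intro T₁ hT₁ N
    obtain ⟨C, hC⟩ := hf.decay (μ * T₁) (hlt hT₁) N
    refine ⟨(1 + lam⁻¹) ^ N * C, fun t ht x v => ?_⟩
    have h0 : 0 ≤ f (μ * t) x (lam • v) :=
      hf.nonneg _ ⟨mul_nonneg hμ.le ht.1, hlt (lt_of_le_of_lt ht.2 hT₁)⟩ _ _
    have h1 := hC (μ * t) ⟨mul_nonneg hμ.le ht.1, mul_le_mul_of_nonneg_left ht.2 hμ.le⟩ x (lam • v)
    calc (1 + ‖v‖) ^ N * f (μ * t) x (lam • v)
        ≤ ((1 + lam⁻¹) ^ N * (1 + ‖lam • v‖) ^ N) * f (μ * t) x (lam • v) :=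
          mul_le_mul_of_nonneg_right (VSc_wt hl v N) h0
      _ = (1 + lam⁻¹) ^ N * ((1 + ‖lam • v‖) ^ N * f (μ * t) x (lam • v)) := by ring
      _ ≤ _ := mul_le_mul_of_nonneg_left h1 (by positivity)
  · intro T₀ hT₀ T₁ hT₁ N
    obtain ⟨C, hC⟩ := hf.decay12 (μ * T₀) (mul_pos hμ hT₀) (μ * T₁) (hlt hT₁) N
    refine ⟨(1 + lam⁻¹) ^ N * ((‖VSc_L d μ lam‖ + ‖VSc_L d μ lam‖ ^ 2) * C), fun t ht x v => ?_⟩
    have ht' : μ * t ∈ Icc (μ * T₀) (μ * T₁) :=
      ⟨mul_le_mul_of_nonneg_left ht.1 hμ.le, mul_le_mul_of_nonneg_left ht.2 hμ.le⟩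
    have hp : VSc_L d μ lam (t, x, v) ∈ Ioo (0 : ℝ) T ×ˢ (univ : Set (Vec d × Vec d)) := by
      rw [VSc_L_apply]
      exact ⟨⟨lt_of_lt_of_le (mul_pos hμ hT₀) ht'.1, lt_of_le_of_lt ht'.2 (hlt hT₁)⟩, mem_univ _⟩
    have h3 : derivs12 (fun t x v => f (μ * t) x (lam • v)) t x v ≤
        (‖VSc_L d μ lam‖ + ‖VSc_L d μ lam‖ ^ 2) * derivs12 f (μ * t) x (lam • v) := by
      unfold derivs12
      rw [VSc_unc]
      have := Pool.Agent.H25.PN.derivs_cmp (VSc_L d μ lam) hU hf.isC2 hp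
      rwa [VSc_L_apply] at this
    have h4 := hC (μ * t) ht' x (lam • v)
    have hd : 0 ≤ derivs12 f (μ * t) x (lam • v) := by
      unfold derivs12 derivs
      exact add_nonneg (norm_nonneg _) (ContinuousLinearMap.opNorm_nonneg _)
    have hL : 0 ≤ ‖VSc_L d μ lam‖ + ‖VSc_L d μ lam‖ ^ 2 := by positivity
    calc (1 + ‖v‖) ^ N * derivs12 (fun t x v => f (μ * t) x (lam • v)) t x v
        ≤ (1 + ‖v‖) ^ N * ((‖VSc_L d μ lam‖ + ‖VSc_L d μ lam‖ ^ 2) * derivs12 f (μ * t) x (lam • v)) :=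
          mul_le_mul_of_nonneg_left h3 (by positivity)
      _ ≤ ((1 + lam⁻¹) ^ N * (1 + ‖lam • v‖) ^ N) *
          ((‖VSc_L d μ lam‖ + ‖VSc_L d μ lam‖ ^ 2) * derivs12 f (μ * t) x (lam • v)) :=
          mul_le_mul_of_nonneg_right (VSc_wt hl v N) (mul_nonneg hL hd)
      _ = (1 + lam⁻¹) ^ N * ((‖VSc_L d μ lam‖ + ‖VSc_L d μ lam‖ ^ 2) *
          ((1 + ‖lam • v‖) ^ N * derivs12 f (μ * t) x (lam • v))) := by ring
      _ ≤ _ := mul_le_mul_of_nonneg_left (mul_le_mul_of_nonneg_left h4 hL) (by positivity)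
  · intro t ht x v
    have ht' := hIoo ht
    have e0 : ((μ * 1, v, lam • (0 : Vec d)) : ℝ × Vec d × Vec d) = μ • ((1 : ℝ), lam • v, (0 : Vec d)) := by
      refine Prod.ext ?_ (Prod.ext ?_ ?_)
      · simp
      · show v = μ • (lam • v)
        rw [smul_smul, hμd, inv_mul_cancel₀ hlam, one_smul]
      · simp
    have e1 : transport (fun t x v => f (μ * t) x (lam • v)) t x v =
        μ * transport f (μ * t) x (lam • v) := by
      unfold transport
      rw [VSc_unc, Pool.Agent.H25.PN.fderiv_cmp (VSc_L d μ lam) hU hf.isC2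
        (by rw [VSc_L_apply]; exact ⟨ht', trivial⟩), VSc_L_apply, VSc_L_apply, e0, map_smul,
        smul_eq_mul]
    show transport (fun t x v => f (μ * t) x (lam • v)) t x v =
      lam ^ ((d : ℝ) + γ - 1) * δ * landauQ γ (fun w => f (μ * t) x (lam • w)) v
    rw [e1, hf.solves (μ * t) ht' _ _, landauQ_vscale hl (f (μ * t) x) v]
    have e2 : lam ^ ((d : ℝ) + γ - 1) * lam ^ (-((d : ℝ) + γ)) = μ := by
      rw [← Real.rpow_add hl, hμd, ← Real.rpow_neg_one lam]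
      congr 1
      ring
    calc μ * (δ * landauQ γ (f (μ * t) x) (lam • v))
        = (lam ^ ((d : ℝ) + γ - 1) * lam ^ (-((d : ℝ) + γ))) * (δ * landauQ γ (f (μ * t) x) (lam • v)) := by rw [e2]
      _ = _ := by ring

end Pool.Agent.H82.LL
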